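import Mathlib
import Pool.Agent.Work.MP_4329d7_ag_rc.Defs
import Pool.Agent.Work.MP_4329d7_ag_rc.Basic

/-!
Plan T+ (helper27): rational curves on abelian covers of PRODUCTS of projective spaces branched along
simple normal crossing divisors.  Definitions (the generalisation of `MP_4329d7_ag_rc/Defs.lean`;
`uD`, `coeffD`, `derivation_eval`, `uD_mul`, ... are reused from there).

* `σ` = the homogeneous coordinates of all factors, `g s` = the factor of the coordinate `s`;
* `Arr σ I E`: the forms `F e` (multidegree `d e`) of the branch divisors, the lattice `L` of the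
  blocks, the exponent `N`;
* `Cv A k x`: a rational curve `Y s ∈ k[X]`, of degree `m (g s)`, through the point `x` (its value at
  infinity) which meets the branch divisors in the roots `t i` with blocks `β i ∈ L`.
-/

namespace Pool.Agent.Work.RP

open Polynomial
open Pool.Agent.Work.Uni (rootPoly)
open Pool.Agent.Work.RC (uD)

/-- the branch data -/
structure Arr (σ I E : Type) : Type where
  /-- the factor of a coordinate -/
  g : σ → I
  /-- the forms of the branch divisors -/
  F : E → MvPolynomial σ ℂ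
  /-- their multidegrees -/
  d : E → I → ℕ
  /-- the lattice of the blocks -/
  L : AddSubgroup (E → ℤ)
  /-- the exponent of the cover -/
  N : ℕ

/-- the coordinates of the point `P` in no factor are all zero -/
def IsPt {σ I k : Type} [Zero k] (g : σ → I) (P : σ → k) : Prop := ∀ i, ∃ s, g s = i ∧ P s ≠ 0

/-- the branch data of an abelian cover of a product of projective spaces branched along an snc
divisor -/
structure Arr.Ok {σ I E : Type} [DecidableEq I] [DecidableEq E] (A : Arr σ I E) : Prop where
  hom : ∀ e i, (A.F e).IsWeightedHomogeneous (fun s => if A.g s = i then 1 else 0) (A.d e i)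
  N_pos : 0 < A.N
  N_mem : ∀ e, (Pi.single e (A.N : ℤ) : E → ℤ) ∈ A.L
  d_mem : ∀ i, (fun e => (A.d e i : ℤ)) ∈ A.L
  snc : ∀ (k : Type) [Field k] [Algebra ℂ k] (P : σ → k), IsPt A.g P →
    LinearIndependent k (fun (e : {e : E // MvPolynomial.aeval P (A.F e) = 0})
      (s : σ) => MvPolynomial.aeval P (MvPolynomial.pderiv s (A.F e.1)))

/-- a rational curve through `x` which lifts to the cover -/
structure Cv {σ I E : Type} [Fintype σ] [DecidableEq I] (A : Arr σ I E) (k : Type) [Field k]
    [Algebra ℂ k] (x : σ → k) : Type 1 where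
  /-- the degree in the factor `i` -/
  m : I → ℕ
  /-- the index set of the roots -/
  ι : Type
  [fin : Fintype ι]
  /-- the blocks -/
  β : ι → E → ℕ
  /-- the roots -/
  t : ι → k
  /-- the homogeneous coordinates -/
  Y : σ → k[X]
  mem : ∀ i, (fun e => (β i e : ℤ)) ∈ A.L
  inj : Function.Injective t
  deg : ∀ s, (Y s).natDegree ≤ m (A.g s)
  lead : ∀ s, (Y s).coeff (m (A.g s)) = x s
  cop : ∀ i, ∃ V : σ → k[X], ∑ s, (if A.g s = i then V s * Y s else 0) = 1
  eqn : ∀ e, MvPolynomial.aeval Y (A.F e) = C (MvPolynomial.aeval x (A.F e)) * rootPoly β t e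

attribute [instance] Cv.fin

/-- the degree of the form `e` on the curve -/
def Cv.w {σ I E : Type} [Fintype σ] [DecidableEq I] [Fintype I] {A : Arr σ I E} {k : Type}
    [Field k] [Algebra ℂ k] {x : σ → k} (c : Cv A k x) (e : E) : ℕ := ∑ i, A.d e i * c.m i

/-- the derivative of the system `F_e(Y) = F_e(x) w_e ∏ (X - t_i)^(β i e)` with respect to
`(Y, t)` -/
noncomputable def JacW {σ E R ι : Type*} [Fintype σ] [Fintype ι] [CommRing R] [Algebra ℂ R]
    (F : E → MvPolynomial σ ℂ) (x : σ → R) (w : E → R[X])
    (β : ι → E → ℕ) (t : ι → R) (Y Z : σ → R[X]) (δ : ι → R) (e : E) : R[X] :=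
  ∑ s, MvPolynomial.aeval Y (MvPolynomial.pderiv s (F e)) * Z s +
    C (MvPolynomial.aeval x (F e)) * w e * ∑ i, C (δ i) * uD β t e i

/-- the derivative of the system at a curve -/
noncomputable def Cv.Jac {σ I E : Type} [Fintype σ] [DecidableEq I] {A : Arr σ I E} {k : Type}
    [Field k] [Algebra ℂ k] {x : σ → k} (c : Cv A k x) (Z : σ → k[X]) (δ : c.ι → k) (e : E) :
    k[X] :=
  JacW A.F x 1 c.β c.t c.Y Z δ e

/-- the parameters of a curve: the values of `Y s` at the constants `a j`, `j < m (g s)`, and the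
roots -/
noncomputable def Cv.par {σ I E : Type} [Fintype σ] [DecidableEq I] {A : Arr σ I E} {k : Type}
    [Field k] [Algebra ℂ k] {x : σ → k} (c : Cv A k x) (a : ℕ → ℂ) :
    (Σ s : σ, Fin (c.m (A.g s))) ⊕ c.ι → k :=
  Sum.elim (fun p => (c.Y p.1).eval (algebraMap ℂ k (a p.2))) c.t

/-- a curve with free parameters `S`: `x` and the parameters in `S` are algebraically independent
and the other parameters are (infinitesimally) determined by them -/
structure Rig {σ I E : Type} [Fintype σ] [DecidableEq I] {A : Arr σ I E} {k : Type} [Field k]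
    [Algebra ℂ k] {x : σ → k} (c : Cv A k x) (a : ℕ → ℂ)
    (S : Set ((Σ s : σ, Fin (c.m (A.g s))) ⊕ c.ι)) : Prop where
  a_inj : Function.Injective a
  ai : AlgebraicIndependent ℂ (Sum.elim x (fun j : S => c.par a j.1))
  ker : ∀ (Z : σ → k[X]) (δ : c.ι → k), (∀ s, (Z s).degree < c.m (A.g s)) →
    (∀ e, c.Jac Z δ e = 0) →
    (∀ s (j : Fin (c.m (A.g s))), Sum.inl ⟨s, j⟩ ∈ S →
      (Z s).eval (algebraMap ℂ k (a j)) = 0) →
    (∀ i, Sum.inr i ∈ S → δ i = 0) → Z = 0 ∧ δ = 0

end Pool.Agent.Work.RP
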