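import Mathlib
import Pool.Agent.Work.MP_4329d7_ag_rp.Defs

/-!
Plan T+: basic facts on curves on products: degrees, base change, translation, the chain rule.
-/

namespace Pool.Agent.Work.RP

open Polynomial
open Pool.Agent.Work.Uni (rootPoly)
open Pool.Agent.Work.RC (uD coeffD uD_degree rootPoly_map uD_map rootPoly_monic natDegree_rootPoly)

section Forms

variable {σ : Type*} [Fintype σ]

/-- degree and coefficient of a product of powers -/
theorem prod_pow_aux {R : Type*} [CommRing R] (Y : σ → R[X]) {w : σ → ℕ}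
    (hY : ∀ s, (Y s).natDegree ≤ w s) (e : σ → ℕ) (S : Finset σ) :
    (∏ s ∈ S, Y s ^ e s).natDegree ≤ ∑ s ∈ S, e s * w s ∧
    (∏ s ∈ S, Y s ^ e s).coeff (∑ s ∈ S, e s * w s) = ∏ s ∈ S, (Y s).coeff (w s) ^ e s := by
  classical
  induction S using Finset.induction_on with
  | empty => simp
  | insert a S ha ih =>
    have h1 : (Y a ^ e a).natDegree ≤ e a * w a :=
      (natDegree_pow_le).trans (Nat.mul_le_mul_left _ (hY a))
    rw [Finset.prod_insert ha, Finset.sum_insert ha, Finset.prod_insert ha]
    refine ⟨(natDegree_mul_le).trans (add_le_add h1 ih.1), ?_⟩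
    rw [coeff_mul_add_eq_of_natDegree_le h1 ih.1, ih.2, coeff_pow_of_natDegree_le (hY a)]

/-- the value as a sum over the support -/
theorem aeval_sum_support {R : Type*} [CommRing R] [Algebra ℂ R]
    (G : MvPolynomial σ ℂ) (Y : σ → R) :
    MvPolynomial.aeval Y G =
      ∑ e ∈ G.support, algebraMap ℂ R (G.coeff e) * ∏ s, Y s ^ e s := by
  rw [MvPolynomial.aeval_def, MvPolynomial.eval₂_eq']

theorem hom_sum {G : MvPolynomial σ ℂ} {w : σ → ℕ} {d : ℕ} (hG : G.IsWeightedHomogeneous w d)
    {e : σ →₀ ℕ} (he : e ∈ G.support) : ∑ s, e s * w s = d := by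
  have h := hG (MvPolynomial.mem_support_iff.1 he)
  rw [← h, Finsupp.weight_apply, Finsupp.sum_fintype _ _ (by simp)]
  simp

/-- the degree and the top coefficient of a weighted homogeneous form -/
theorem natDegree_aeval_le {R : Type*} [CommRing R] [Algebra ℂ R]
    {G : MvPolynomial σ ℂ} {w : σ → ℕ} {d : ℕ} (hG : G.IsWeightedHomogeneous w d) (Y : σ → R[X])
    (hY : ∀ s, (Y s).natDegree ≤ w s) :
    (MvPolynomial.aeval Y G).natDegree ≤ d := by
  rw [aeval_sum_support]
  refine natDegree_sum_le_of_forall_le _ _ fun e he => ?_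
  rw [Polynomial.algebraMap_apply]
  refine (natDegree_C_mul_le _ _).trans ?_
  have h := (prod_pow_aux Y hY (fun s => e s) Finset.univ).1
  rwa [hom_sum hG he] at h

theorem coeff_aeval {R : Type*} [CommRing R] [Algebra ℂ R]
    {G : MvPolynomial σ ℂ} {w : σ → ℕ} {d : ℕ} (hG : G.IsWeightedHomogeneous w d) (Y : σ → R[X])
    (hY : ∀ s, (Y s).natDegree ≤ w s) :
    (MvPolynomial.aeval Y G).coeff d = MvPolynomial.aeval (fun s => (Y s).coeff (w s)) G := by
  rw [aeval_sum_support, aeval_sum_support, finsetSum_coeff]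
  refine Finset.sum_congr rfl fun e he => ?_
  rw [Polynomial.algebraMap_apply, coeff_C_mul]
  have h := (prod_pow_aux Y hY (fun s => e s) Finset.univ).2
  rw [hom_sum hG he] at h
  rw [h]

/-- an arbitrary polynomial of weighted total degree `D` -/
theorem natDegree_aeval_le' {R : Type*} [CommRing R] [Algebra ℂ R]
    (G : MvPolynomial σ ℂ) {w : σ → ℕ} (Y : σ → R[X])
    (hY : ∀ s, (Y s).natDegree ≤ w s) :
    (MvPolynomial.aeval Y G).natDegree ≤ MvPolynomial.weightedTotalDegree w G := by
  rw [aeval_sum_support]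
  refine natDegree_sum_le_of_forall_le _ _ fun e he => ?_
  rw [Polynomial.algebraMap_apply]
  refine (natDegree_C_mul_le _ _).trans ?_
  refine (prod_pow_aux Y hY (fun s => e s) Finset.univ).1.trans ?_
  have h := MvPolynomial.le_weightedTotalDegree w he
  rwa [Finsupp.weight_apply, Finsupp.sum_fintype _ _ (by simp)] at h

theorem coeff_aeval' {R : Type*} [CommRing R] [Algebra ℂ R]
    (G : MvPolynomial σ ℂ) {w : σ → ℕ} (Y : σ → R[X])
    (hY : ∀ s, (Y s).natDegree ≤ w s) :
    (MvPolynomial.aeval Y G).coeff (MvPolynomial.weightedTotalDegree w G) =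
      MvPolynomial.aeval (fun s => (Y s).coeff (w s))
        (MvPolynomial.weightedHomogeneousComponent w (MvPolynomial.weightedTotalDegree w G) G) := by
  classical
  rw [aeval_sum_support, finsetSum_coeff, MvPolynomial.weightedHomogeneousComponent_apply, map_sum,
    Finset.sum_filter]
  refine Finset.sum_congr rfl fun e he => ?_
  rw [Polynomial.algebraMap_apply, coeff_C_mul]
  have h1 := prod_pow_aux Y hY (fun s => e s) Finset.univ
  have h2 : Finsupp.weight w e = ∑ s, e s * w s := by
    rw [Finsupp.weight_apply, Finsupp.sum_fintype _ _ (by simp)]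
    simp
  have h3 := MvPolynomial.le_weightedTotalDegree w he
  split_ifs with h
  · rw [MvPolynomial.aeval_monomial, Finsupp.prod_fintype _ _ (by simp), ← h, h2, h1.2]
  · rw [coeff_eq_zero_of_natDegree_lt, mul_zero]
    refine lt_of_le_of_lt h1.1 ?_
    rw [← h2]
    exact lt_of_le_of_ne h3 h

/-- the top component of a nonzero polynomial is not zero -/
theorem top_ne_zero {P : MvPolynomial σ ℂ} (hP : P ≠ 0) (w : σ → ℕ) :
    MvPolynomial.weightedHomogeneousComponent w (MvPolynomial.weightedTotalDegree w P) P ≠ 0 := by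
  classical
  obtain ⟨e, he, h⟩ := Finset.exists_mem_eq_sup P.support (MvPolynomial.support_nonempty.2 hP)
    (fun s => Finsupp.weight w s)
  intro h0
  have h1 := congrArg (MvPolynomial.coeff e) h0
  rw [MvPolynomial.coeff_weightedHomogeneousComponent, if_pos, MvPolynomial.coeff_zero] at h1
  · exact MvPolynomial.mem_support_iff.1 he h1
  · exact h.symm

/-- the chain rule -/
theorem derivation_aeval {R : Type*} [CommRing R] [Algebra ℂ R] (D : Derivation ℂ R R)
    (G : MvPolynomial σ ℂ) (Y : σ → R) :
    D (MvPolynomial.aeval Y G) =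
      ∑ s, MvPolynomial.aeval Y (MvPolynomial.pderiv s G) * D (Y s) := by
  classical
  induction G using MvPolynomial.induction_on with
  | C a => simp
  | add p q hp hq => simp only [map_add, hp, hq, add_mul, Finset.sum_add_distrib]
  | mul_X p i hp =>
    rw [map_mul, MvPolynomial.aeval_X, Derivation.leibniz, hp]
    simp only [Derivation.leibniz, MvPolynomial.pderiv_X, smul_eq_mul, map_add, map_mul,
      MvPolynomial.aeval_X, add_mul, Finset.sum_add_distrib]
    congr 1
    · rw [Finset.sum_eq_single i]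
      · simp
      · intro b _ hb
        simp [hb]
      · simp
    · rw [Finset.mul_sum]
      exact Finset.sum_congr rfl fun s _ => by ring

end Forms

section Curves

variable {σ I E : Type} [Fintype σ] [Fintype I] [DecidableEq I] [DecidableEq E] {A : Arr σ I E}

omit [Fintype σ] in
/-- a form is weighted homogeneous for every choice of degrees of the factors -/
theorem Arr.Ok.homW (hA : A.Ok) (m : I → ℕ) (e : E) :
    (A.F e).IsWeightedHomogeneous (fun s => m (A.g s)) (∑ i, A.d e i * m i) := by
  intro u hu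
  have h1 : ∀ i, (u.sum fun s k => k * (if A.g s = i then 1 else 0)) = A.d e i := by
    intro i
    have h := hA.hom e i hu
    rw [Finsupp.weight_apply] at h
    simpa [smul_eq_mul] using h
  rw [Finsupp.weight_apply]
  simp only [smul_eq_mul]
  calc (u.sum fun s k => k * m (A.g s))
      = u.sum fun s k => ∑ i, (k * (if A.g s = i then 1 else 0)) * m i := by
        refine Finsupp.sum_congr fun s _ => ?_
        simp
    _ = ∑ i, (u.sum fun s k => k * (if A.g s = i then 1 else 0)) * m i := by
        unfold Finsupp.sum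
        rw [Finset.sum_comm]
        exact Finset.sum_congr rfl fun i _ => (Finset.sum_mul _ _ _).symm
    _ = _ := Finset.sum_congr rfl fun i _ => by rw [h1 i]

omit [Fintype I] in
theorem Arr.Ok.F_ne_zero (hA : A.Ok) (hg : Function.Surjective A.g) (e : E) : A.F e ≠ 0 := by
  intro h0
  have hP : IsPt A.g (fun _ : σ => (1 : ℂ)) := fun i => by
    obtain ⟨s, hs⟩ := hg i
    exact ⟨s, hs, one_ne_zero⟩
  have h1 := hA.snc ℂ (fun _ => 1) hP
  refine h1.ne_zero ⟨e, by rw [h0, map_zero]⟩ ?_
  funext s
  simp [h0]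

omit [Fintype I] in
theorem Arr.Ok.aeval_ne_zero (hA : A.Ok) (hg : Function.Surjective A.g) {k : Type} [Field k]
    [Algebra ℂ k] {x : σ → k} (hx : AlgebraicIndependent ℂ x) (e : E) :
    MvPolynomial.aeval x (A.F e) ≠ 0 := by
  intro h0
  refine hA.F_ne_zero hg e (hx ?_)
  rw [h0, map_zero]

variable {k : Type} [Field k] [Algebra ℂ k] {x : σ → k}

omit [Fintype I] [DecidableEq E] in
/-- a curve exists only if every factor has a coordinate -/
theorem Cv.surj (c : Cv A k x) : Function.Surjective A.g := by
  intro i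
  obtain ⟨V, hV⟩ := c.cop i
  by_contra h
  push Not at h
  rw [Finset.sum_eq_zero (fun s _ => if_neg (h s))] at hV
  exact zero_ne_one hV

/-- the degree of a system -/
theorem sum_β_of_eqn (hA : A.Ok) (hg : Function.Surjective A.g) (hx : AlgebraicIndependent ℂ x)
    {m : I → ℕ} {ι : Type} [Fintype ι]
    (β : ι → E → ℕ) (t : ι → k) (Y : σ → k[X])
    (deg : ∀ s, (Y s).natDegree ≤ m (A.g s)) (lead : ∀ s, (Y s).coeff (m (A.g s)) = x s) (e : E)
    (eqn : MvPolynomial.aeval Y (A.F e) = C (MvPolynomial.aeval x (A.F e)) * rootPoly β t e) :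
    ∑ i, β i e = ∑ i, A.d e i * m i := by
  have h0 := hA.aeval_ne_zero hg hx e
  have h1 : (MvPolynomial.aeval Y (A.F e)).natDegree = ∑ i, A.d e i * m i := by
    refine le_antisymm (natDegree_aeval_le (hA.homW m e) Y deg) ?_
    refine le_natDegree_of_ne_zero ?_
    rw [coeff_aeval (hA.homW m e) Y deg]
    simp only [lead]
    exact h0
  rw [← h1, eqn, natDegree_C_mul h0, natDegree_rootPoly]

theorem Cv.sum_β (hA : A.Ok) (hx : AlgebraicIndependent ℂ x) (c : Cv A k x) (e : E) :
    ∑ i, c.β i e = c.w e :=
  sum_β_of_eqn hA c.surj hx c.β c.t c.Y c.deg c.lead e (c.eqn e)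

omit [Fintype σ] in
/-- forms commute with algebra homomorphisms -/
theorem aeval_map_poly {R S : Type*} [CommRing R] [CommRing S] [Algebra ℂ R] [Algebra ℂ S]
    (f : R →ₐ[ℂ] S) (Y : σ → R[X]) (G : MvPolynomial σ ℂ) :
    MvPolynomial.aeval (fun s => (Y s).map (f : R →+* S)) G =
      (MvPolynomial.aeval Y G).map (f : R →+* S) := by
  have h := MvPolynomial.comp_aeval_apply (R := ℂ) Y (mapAlgHom f) G
  rw [coe_mapAlgHom] at h
  exact h.symm

/-- base change -/
noncomputable def Cv.map {k' : Type} [Field k'] [Algebra ℂ k'] (f : k →ₐ[ℂ] k') (c : Cv A k x) :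
    Cv A k' (fun s => f (x s)) where
  m := c.m
  ι := c.ι
  β := c.β
  t := fun i => f (c.t i)
  Y := fun s => (c.Y s).map (f : k →+* k')
  mem := c.mem
  inj := f.injective.comp c.inj
  deg := fun s => natDegree_map_le.trans (c.deg s)
  lead := fun s => by rw [coeff_map, c.lead]; rfl
  cop := by
    intro i
    obtain ⟨V, hV⟩ := c.cop i
    refine ⟨fun s => (V s).map (f : k →+* k'), ?_⟩
    have h := congrArg (Polynomial.map (f : k →+* k')) hV
    rw [Polynomial.map_sum, Polynomial.map_one] at h
    rw [← h]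
    refine Finset.sum_congr rfl fun s _ => ?_
    split_ifs
    · rw [Polynomial.map_mul]
    · rw [Polynomial.map_zero]
  eqn := fun e => by
    rw [aeval_map_poly, c.eqn, Polynomial.map_mul, Polynomial.map_C, rootPoly_map]
    congr 2
    exact (MvPolynomial.comp_aeval_apply x f (A.F e))

/-- translation of the parameter -/
noncomputable def Cv.translate (c : Cv A k x) (a : k) : Cv A k x where
  m := c.m
  ι := c.ι
  β := c.β
  t := fun i => c.t i - a
  Y := fun s => (c.Y s).comp (X + C a)
  mem := c.mem
  inj := fun i j h => c.inj (sub_left_injective h)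
  deg := fun s => by
    rw [← taylor_apply, natDegree_taylor]
    exact c.deg s
  lead := fun s => by
    rcases (c.deg s).lt_or_eq with h | h
    · rw [← c.lead s, coeff_eq_zero_of_natDegree_lt h, coeff_eq_zero_of_natDegree_lt]
      rw [← taylor_apply, natDegree_taylor]
      exact h
    · rw [← c.lead s, ← h, ← taylor_apply, coeff_taylor_natDegree]
      rfl
  cop := by
    intro i
    obtain ⟨V, hV⟩ := c.cop i
    refine ⟨fun s => (V s).comp (X + C a), ?_⟩
    have h := congrArg (fun p : k[X] => p.comp (X + C a)) hV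
    simp only [one_comp] at h
    rw [← h, Polynomial.sum_comp]
    refine Finset.sum_congr rfl fun s _ => ?_
    split_ifs
    · rw [mul_comp]
    · rw [zero_comp]
  eqn := fun e => by
    have h := MvPolynomial.comp_aeval_apply (R := ℂ) c.Y
      ((Polynomial.aeval (X + C a : k[X])).restrictScalars ℂ) (A.F e)
    simp only [AlgHom.restrictScalars_apply, ← comp_eq_aeval] at h
    rw [← h, c.eqn, mul_comp, C_comp]
    congr 1
    unfold rootPoly
    rw [Polynomial.prod_comp]
    refine Finset.prod_congr rfl fun i _ => ?_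
    rw [pow_comp, sub_comp, X_comp, C_comp, C_sub]
    congr 1
    ring

/-- multihomogeneity of a form -/
theorem aeval_scale_form (hA : A.Ok) {R : Type*} [CommRing R] [Algebra ℂ R] (e : E)
    (Y : σ → R) (l : I → R) :
    MvPolynomial.aeval (fun s => l (A.g s) * Y s) (A.F e) =
      (∏ i, l i ^ A.d e i) * MvPolynomial.aeval Y (A.F e) := by
  rw [aeval_sum_support, aeval_sum_support, Finset.mul_sum]
  refine Finset.sum_congr rfl fun u hu => ?_
  have h1 : ∀ i, ∑ s, u s * (if A.g s = i then 1 else 0) = A.d e i := by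
    intro i
    have h := hA.hom e i (MvPolynomial.mem_support_iff.1 hu)
    rw [Finsupp.weight_apply, Finsupp.sum_fintype _ _ (by simp)] at h
    simpa [smul_eq_mul] using h
  have h2 : ∏ s, l (A.g s) ^ u s = ∏ i, l i ^ A.d e i := by
    calc ∏ s, l (A.g s) ^ u s = ∏ s, ∏ i, l i ^ (u s * (if A.g s = i then 1 else 0)) := by
          refine Finset.prod_congr rfl fun s _ => ?_
          rw [Finset.prod_eq_single (A.g s)]
          · simp
          · intro i _ hi
            rw [if_neg (Ne.symm hi), mul_zero, pow_zero]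
          · simp
      _ = ∏ i, ∏ s, l i ^ (u s * (if A.g s = i then 1 else 0)) := Finset.prod_comm
      _ = _ := Finset.prod_congr rfl fun i _ => by rw [Finset.prod_pow_eq_pow_sum, h1 i]
  calc algebraMap ℂ R ((A.F e).coeff u) * ∏ s, (l (A.g s) * Y s) ^ u s
      = algebraMap ℂ R ((A.F e).coeff u) * ((∏ s, l (A.g s) ^ u s) * ∏ s, Y s ^ u s) := by
        rw [← Finset.prod_mul_distrib]
        simp only [mul_pow]
    _ = _ := by rw [h2]; ring

end Curves

end Pool.Agent.Work.RP
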