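import Mathlib
import Pool.Agent.Work.MP_4329d7_ag_rp.Basic
import Pool.Agent.Work.MP_4329d7_ag_rc.RankK

/-!
The kernel computations of the rank argument for products (see `MP_4329d7_ag_rc/RankK.lean`).
-/

namespace Pool.Agent.Work.RP

open Polynomial
open Pool.Agent.Work.Uni (rootPoly)
open Pool.Agent.Work.RC (uD coeffD uD_mul coeffD_C coeffD_coeff coeffD_rootPoly derivation_eval evalD)

variable {σ I E : Type} [Fintype σ] [Fintype I] [DecidableEq I] [DecidableEq E]
  {A : Arr σ I E} {k : Type} [Field k] [Algebra ℂ k] {x : σ → k}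

omit [Fintype I] [DecidableEq E] in
/-- a derivation applied to the equations of a curve -/
theorem jac_der (c : Cv A k x) (D : Derivation ℂ k k) (e : E) :
    c.Jac (fun s' => coeffD D (c.Y s')) (fun i => D (c.t i)) e =
      C (D (MvPolynomial.aeval x (A.F e))) * rootPoly c.β c.t e := by
  have h1 := congrArg (coeffD D) (c.eqn e)
  rw [derivation_aeval, Derivation.leibniz, coeffD_C, coeffD_rootPoly, smul_eq_mul,
    smul_eq_mul] at h1
  unfold Cv.Jac JacW
  rw [h1, Pi.one_apply]
  ring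

omit [Fintype I] [DecidableEq E] in
/-- division of the tangent vector by `X - s` -/
theorem jac_div (c : Cv A k x) (s : k) (Z : σ → k[X]) (δ : c.ι → k) (b : k) (e : E)
    (h : c.Jac (fun s' => (X - C s) * Z s') (fun i => (c.t i - s) * δ i) e =
      C b * rootPoly c.β c.t e) :
    (X - C s) * c.Jac Z δ e = C (b + MvPolynomial.aeval x (A.F e) * ∑ i, δ i * (c.β i e : k)) *
      rootPoly c.β c.t e := by
  unfold Cv.Jac JacW at h ⊢
  rw [Pi.one_apply, mul_one] at h ⊢
  have h1 : ∀ i, C (δ i) * (X - C s) * uD c.β c.t e i = C ((c.t i - s) * δ i) * uD c.β c.t e i +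
      C (δ i) * (C (c.β i e : k) * rootPoly c.β c.t e) := by
    intro i
    rw [← uD_mul, C_mul, C_sub]
    ring
  have h2 : (X - C s) * ∑ i, C (δ i) * uD c.β c.t e i =
      ∑ i, C ((c.t i - s) * δ i) * uD c.β c.t e i +
        C (∑ i, δ i * (c.β i e : k)) * rootPoly c.β c.t e := by
    rw [Finset.mul_sum, map_sum, Finset.sum_mul, ← Finset.sum_add_distrib]
    refine Finset.sum_congr rfl fun i _ => ?_
    rw [show (X - C s) * (C (δ i) * uD c.β c.t e i) = C (δ i) * (X - C s) * uD c.β c.t e i by ring,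
      h1, C_mul (a := δ i) (b := (c.β i e : k))]
    ring
  have h3 : ∑ s', MvPolynomial.aeval c.Y (MvPolynomial.pderiv s' (A.F e)) * ((X - C s) * Z s') =
      (X - C s) * ∑ s', MvPolynomial.aeval c.Y (MvPolynomial.pderiv s' (A.F e)) * Z s' := by
    rw [Finset.mul_sum]
    exact Finset.sum_congr rfl fun s' _ => by ring
  rw [h3] at h
  rw [C_add, C_mul]
  linear_combination h + C (MvPolynomial.aeval x (A.F e)) * h2

omit [Fintype I] [DecidableEq E] in
/-- the kernel computation -/
theorem kernel_aux (c : Cv A k x) (a : ℕ → ℂ)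
    (S : Set ((Σ s : σ, Fin (c.m (A.g s))) ⊕ c.ι)) (h : Rig c a S) (s : k)
    (hs1 : ∀ j, s ≠ algebraMap ℂ k (a j)) (D : Derivation ℂ k k)
    (hw : ∀ j : S, D (c.par a j.1) = 0) (hy : ∀ s', D ((c.Y s').eval s) = 0) (hD : D s = 0)
    (hκ : ∀ e, (∃ i, s = c.t i ∧ c.β i e ≠ 0) → D (MvPolynomial.aeval x (A.F e)) +
      MvPolynomial.aeval x (A.F e) * ∑ i, D (c.t i) / (c.t i - s) * (c.β i e : k) = 0) :
    ∀ s', D (x s') = 0 := by
  -- the tangent vector
  have hZ0 : ∀ s', (coeffD D (c.Y s')).eval s = 0 := by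
    intro s'
    have h1 := derivation_eval D (c.Y s') s
    rw [hy, hD, mul_zero, add_zero] at h1
    exact h1.symm
  have hZd : ∀ s', ∃ Z : k[X], coeffD D (c.Y s') = (X - C s) * Z := fun s' =>
    dvd_iff_isRoot.2 (hZ0 s')
  choose Z hZ using hZd
  have hδ : ∀ i, D (c.t i) = (c.t i - s) * (D (c.t i) / (c.t i - s)) := by
    intro i
    by_cases hi : c.t i - s = 0
    · rw [sub_eq_zero.1 hi, hD, sub_self, zero_mul]
    · rw [mul_div_cancel₀ _ hi]
  have hJ : ∀ e, c.Jac Z (fun i => D (c.t i) / (c.t i - s)) e = 0 := by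
    intro e
    have h1 := jac_der c D e
    have e1 : (fun s' => coeffD D (c.Y s')) = fun s' => (X - C s) * Z s' := funext hZ
    have e2 : (fun i => D (c.t i)) = fun i => (c.t i - s) * (D (c.t i) / (c.t i - s)) := funext hδ
    rw [e1, e2] at h1
    have h2 := jac_div c s Z (fun i => D (c.t i) / (c.t i - s)) _ e h1
    have h3 : D (MvPolynomial.aeval x (A.F e)) + MvPolynomial.aeval x (A.F e) *
        ∑ i, D (c.t i) / (c.t i - s) * (c.β i e : k) = 0 := by
      by_cases hr : ∃ i, s = c.t i ∧ c.β i e ≠ 0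
      · exact hκ e hr
      · have h4 := congrArg (eval s) h2
        rw [eval_mul, eval_mul, eval_sub, eval_X, eval_C, sub_self, zero_mul, eval_C] at h4
        refine (mul_eq_zero.1 h4.symm).resolve_right ?_
        unfold rootPoly
        rw [eval_prod]
        refine Finset.prod_ne_zero_iff.2 fun i _ => ?_
        rw [eval_pow, eval_sub, eval_X, eval_C]
        by_cases hi : s = c.t i
        · have : c.β i e = 0 := by
            by_contra h5
            exact hr ⟨i, hi, h5⟩
          rw [this, pow_zero]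
          exact one_ne_zero
        · exact pow_ne_zero _ (sub_ne_zero.2 hi)
    rw [h3, C_0, zero_mul] at h2
    exact (mul_eq_zero.1 h2).resolve_left (X_sub_C_ne_zero s)
  have hdeg : ∀ s', (Z s').degree < c.m (A.g s') := by
    intro s'
    by_cases h0 : Z s' = 0
    · rw [h0, degree_zero]
      exact WithBot.bot_lt_coe _
    · have h1 : (coeffD D (c.Y s')).natDegree ≤ c.m (A.g s') := by
        refine natDegree_le_iff_coeff_eq_zero.2 fun N hN => ?_
        rw [coeffD_coeff, coeff_eq_zero_of_natDegree_lt ((c.deg s').trans_lt hN), map_zero]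
      rw [hZ, natDegree_mul (X_sub_C_ne_zero s) h0, natDegree_X_sub_C] at h1
      rw [degree_eq_natDegree h0]
      exact_mod_cast (by omega : (Z s').natDegree < c.m (A.g s'))
  have key := h.ker Z (fun i => D (c.t i) / (c.t i - s)) hdeg hJ ?_ ?_
  · intro s'
    have h1 : coeffD D (c.Y s') = 0 := by rw [hZ, key.1, Pi.zero_apply, mul_zero]
    rw [← c.lead s', ← coeffD_coeff, h1, coeff_zero]
  · intro s' j hj
    have h1 : D ((c.Y s').eval (algebraMap ℂ k (a j))) = 0 := hw ⟨_, hj⟩
    rw [derivation_eval, Derivation.map_algebraMap, mul_zero, add_zero, hZ, eval_mul, eval_sub,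
      eval_X, eval_C] at h1
    exact (mul_eq_zero.1 h1).resolve_left (sub_ne_zero.2 fun h2 => hs1 j h2.symm)
  · intro i hi
    have h1 : D (c.t i) = 0 := hw ⟨_, hi⟩
    rw [h1, zero_div]

omit [Fintype I] [DecidableEq E] in
/-- the linear form of the two cases of the rank argument -/
theorem kernel_form (c : Cv A k x) (a : ℕ → ℂ)
    (S : Set ((Σ s : σ, Fin (c.m (A.g s))) ⊕ c.ι)) (h : Rig c a S) (s : k)
    (hs1 : ∀ j, s ≠ algebraMap ℂ k (a j))
    (hs2 : ∀ i, s = c.t i → Sum.inr i ∈ S ∧ ∃ e₁, ∀ e, e ≠ e₁ → c.β i e = 0) :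
    ∃ lam : Derivation ℂ k k →ₗ[k] k, ∀ D : Derivation ℂ k k,
      (∀ j : S, D (c.par a j.1) = 0) → (∀ s', D ((c.Y s').eval s) = 0) → lam D = 0 →
      ∀ s', D (x s') = 0 := by
  by_cases hroot : ∃ i, s = c.t i
  · obtain ⟨i, hi⟩ := hroot
    obtain ⟨hiS, e₁, he₁⟩ := hs2 i hi
    refine ⟨evalD (MvPolynomial.aeval x (A.F e₁)) + ∑ j, (MvPolynomial.aeval x (A.F e₁) *
      (c.β j e₁ : k) / (c.t j - s)) • evalD (c.t j), fun D hw hy hl => ?_⟩
    have hD : D s = 0 := by
      rw [hi]
      exact hw ⟨_, hiS⟩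
    refine kernel_aux c a S h s hs1 D hw hy hD ?_
    rintro e ⟨i', hi', hb⟩
    have e1 : i' = i := c.inj (by rw [← hi', ← hi])
    subst e1
    have e2 : e = e₁ := by
      by_contra h2
      exact hb (he₁ e h2)
    subst e2
    rw [LinearMap.add_apply, LinearMap.sum_apply] at hl
    rw [Finset.mul_sum]
    change D _ + _ = 0 at hl
    rw [← hl]
    congr 1
    refine Finset.sum_congr rfl fun j _ => ?_
    change _ = _ * D (c.t j)
    ring
  · refine ⟨evalD s, fun D hw hy hl => kernel_aux c a S h s hs1 D hw hy hl ?_⟩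
    rintro e ⟨i, hi, -⟩
    exact absurd ⟨i, hi⟩ hroot

end Pool.Agent.Work.RP
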