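import Mathlib
import Pool.Agent.Work.MP_4329d7_ag_rp.Basic
import Pool.Agent.Work.MP_4329d7_ag_rc.SplitGen

/-!
The generic system for the splitting (helper37), for curves on products: unknowns = the values of
`Y s` at the constants `a j`, `j < M s`, and the roots.
-/

namespace Pool.Agent.Work.RP

open Polynomial
open Pool.Agent.Work.Uni (rootPoly)
open Pool.Agent.Work.RC (uD coeffD rootPoly_map uD_map Zof Yof Zof_degree Zof_eval Yof_eval
  Yof_natDegree Yof_coeff Zof_map Yof_map Zof_zero Zof_sum Zof_unique Yof_unique coeffD_map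
  coeffD_Zof coeffD_Yof coeffD_coeff coeffD_C coeffD_rootPoly evA evA_apply evA_C evA_X evA_map)

section Jac

variable {σ : Type*} [Fintype σ] {E ι : Type*} [Fintype ι] {S T : Type*} [CommRing S]
  [Algebra ℂ S] [CommRing T] [Algebra ℂ T]

omit [Fintype σ] in
/-- `aeval` commutes with `map` -/
theorem aeval_map' (G : MvPolynomial σ ℂ) (Y : σ → S[X]) (ψ : S →ₐ[ℂ] T) :
    (MvPolynomial.aeval Y G).map (ψ : S →+* T) =
      MvPolynomial.aeval (fun s => (Y s).map (ψ : S →+* T)) G := by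
  have h2 : (MvPolynomial.aeval Y G).map (ψ : S →+* T) = Polynomial.mapAlgHom ψ
    (MvPolynomial.aeval Y G) := rfl
  rw [h2, ← AlgHom.comp_apply, MvPolynomial.comp_aeval]
  rfl

omit [Fintype σ] in
theorem aeval_pt (G : MvPolynomial σ ℂ) (x : σ → S) (ψ : S →ₐ[ℂ] T) :
    ψ (MvPolynomial.aeval x G) = MvPolynomial.aeval (fun s => ψ (x s)) G := by
  rw [← AlgHom.comp_apply, MvPolynomial.comp_aeval]

theorem JacW_map (F : E → MvPolynomial σ ℂ) (x : σ → S) (w : E → S[X])
    (β : ι → E → ℕ) (t : ι → S) (Y Z : σ → S[X]) (δ : ι → S) (e : E) (ψ : S →ₐ[ℂ] T) :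
    (JacW F x w β t Y Z δ e).map (ψ : S →+* T) =
      JacW F (fun s => ψ (x s)) (fun e => (w e).map (ψ : S →+* T)) β (fun i => ψ (t i))
        (fun s => (Y s).map (ψ : S →+* T)) (fun s => (Z s).map (ψ : S →+* T))
        (fun i => ψ (δ i)) e := by
  unfold JacW
  rw [Polynomial.map_add, Polynomial.map_sum, Polynomial.map_mul, Polynomial.map_mul, map_C,
    Polynomial.map_sum]
  congr 1
  · refine Finset.sum_congr rfl fun s _ => ?_
    rw [Polynomial.map_mul, aeval_map']
  · congr 1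
    · congr 2
      exact aeval_pt _ _ _
    · refine Finset.sum_congr rfl fun i _ => ?_
      rw [Polynomial.map_mul, map_C, uD_map]
      rfl

theorem JacW_sum {J : Type*} [Fintype J] (F : E → MvPolynomial σ ℂ)
    (x : σ → S) (w : E → S[X]) (β : ι → E → ℕ) (t : ι → S) (Y : σ → S[X])
    (c : J → S) (Z : J → σ → S[X]) (δ : J → ι → S) (e : E) :
    ∑ j, C (c j) * JacW F x w β t Y (Z j) (δ j) e =
      JacW F x w β t Y (fun s => ∑ j, C (c j) * Z j s) (fun i => ∑ j, c j * δ j i) e := by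
  unfold JacW
  simp only [mul_add, Finset.sum_add_distrib, Finset.mul_sum, map_sum, Finset.sum_mul]
  congr 1
  · rw [Finset.sum_comm]
    refine Finset.sum_congr rfl fun s _ => Finset.sum_congr rfl fun j _ => ?_
    ring
  · rw [Finset.sum_comm]
    refine Finset.sum_congr rfl fun i _ => Finset.sum_congr rfl fun j _ => ?_
    rw [C_mul]
    ring

end Jac

section Gen

variable {σ : Type} [Fintype σ] {E ι₁ : Type} [Fintype ι₁] {M : σ → ℕ}

/-- the unknowns -/
abbrev Unk (M : σ → ℕ) (ι₁ : Type) : Type := (Σ s : σ, Fin (M s)) ⊕ ι₁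

/-- the nodes for the coordinate `s` -/
def nd (a : ℕ → ℂ) (m : ℕ) : Fin m → ℂ := fun j => a j

theorem nd_inj {a : ℕ → ℂ} (ha : Function.Injective a) (m : ℕ) :
    Function.Injective (nd a m) := fun _ _ h => Fin.ext (ha h)

/-- `F_e(Y) - F_e(x) W_e ∏ (X - t)^β` -/
noncomputable def GG (F : E → MvPolynomial σ ℂ) (a : ℕ → ℂ)
    (β : ι₁ → E → ℕ) {S : Type} [CommRing S] [Algebra ℂ S] (x : σ → S) (W : E → S[X])
    (w : Unk M ι₁ → S) (e : E) : S[X] :=
  MvPolynomial.aeval (fun s => Yof (nd a (M s)) (x s) fun j => w (Sum.inl ⟨s, j⟩)) (F e) -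
    C (MvPolynomial.aeval x (F e)) * (W e * rootPoly β (fun i => w (Sum.inr i)) e)

variable (F : E → MvPolynomial σ ℂ) (a : ℕ → ℂ) (β : ι₁ → E → ℕ)
  {S T : Type} [CommRing S] [Algebra ℂ S] [CommRing T] [Algebra ℂ T]

omit [Fintype σ] in
theorem GG_map (x : σ → S) (W : E → S[X]) (w : Unk M ι₁ → S) (e : E)
    (ψ : S →ₐ[ℂ] T) :
    (GG F a β x W w e).map (ψ : S →+* T) =
      GG F a β (fun s => ψ (x s)) (fun e => (W e).map (ψ : S →+* T)) (fun j => ψ (w j)) e := by
  unfold GG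
  rw [Polynomial.map_sub, aeval_map', Polynomial.map_mul, Polynomial.map_mul, map_C,
    rootPoly_map]
  congr 1
  · congr 2
    funext s
    rw [Yof_map]
  · congr 1
    congr 1
    exact aeval_pt _ _ _

theorem GG_coeffD (D : Derivation ℂ S S) (x : σ → S) (hx : ∀ s, D (x s) = 0)
    (W : E → S[X]) (w : Unk M ι₁ → S) (e : E) (hW : coeffD D (W e) = 0) :
    coeffD D (GG F a β x W w e) =
      JacW F x W β (fun i => w (Sum.inr i))
        (fun s => Yof (nd a (M s)) (x s) fun j => w (Sum.inl ⟨s, j⟩))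
        (fun s => Zof (nd a (M s)) fun j => D (w (Sum.inl ⟨s, j⟩)))
        (fun i => D (w (Sum.inr i))) e := by
  unfold GG JacW
  rw [map_sub, derivation_aeval, Derivation.leibniz, Derivation.leibniz, hW, coeffD_C,
    derivation_aeval, coeffD_rootPoly]
  have h1 : ∑ s, MvPolynomial.aeval x (MvPolynomial.pderiv s (F e)) * D (x s) = 0 :=
    Finset.sum_eq_zero fun s _ => by rw [hx, mul_zero]
  rw [h1, C_0, smul_zero, add_zero, smul_zero, add_zero, smul_eq_mul, smul_eq_mul, mul_neg,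
    mul_neg, sub_neg_eq_add, mul_assoc]
  refine congrArg₂ (· + ·) (Finset.sum_congr rfl fun s _ => ?_) rfl
  rw [coeffD_Yof D _ _ (hx s)]

theorem GG_der {Q : Type} [CommRing Q] [Algebra ℂ Q] (D : Derivation ℂ Q Q) (ψ : Q →ₐ[ℂ] T)
    (x : σ → Q) (hx : ∀ s, D (x s) = 0) (W : E → Q[X]) (w : Unk M ι₁ → Q)
    (e : E) (hW : coeffD D (W e) = 0) (r : ℕ) :
    ψ (D ((GG F a β x W w e).coeff r)) =
      (JacW F (fun s => ψ (x s)) (fun e => (W e).map (ψ : Q →+* T)) β
        (fun i => ψ (w (Sum.inr i)))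
        (fun s => Yof (nd a (M s)) (ψ (x s)) fun j => ψ (w (Sum.inl ⟨s, j⟩)))
        (fun s => Zof (nd a (M s)) fun j => ψ (D (w (Sum.inl ⟨s, j⟩))))
        (fun i => ψ (D (w (Sum.inr i)))) e).coeff r := by
  have h5 : ∀ q : Q[X], ψ (q.coeff r) = (q.map (ψ : Q →+* T)).coeff r := by
    intro q
    rw [coeff_map]
    rfl
  rw [← coeffD_coeff, GG_coeffD F a β D x hx W w e hW, h5, JacW_map]
  have e4 : (fun s => (Yof (nd a (M s)) (x s) fun j => w (Sum.inl ⟨s, j⟩)).map (ψ : Q →+* T)) =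
      fun s => Yof (nd a (M s)) (ψ (x s)) fun j => ψ (w (Sum.inl ⟨s, j⟩)) := by
    funext s
    rw [Yof_map]
  have e5 : (fun s => (Zof (nd a (M s)) fun j => D (w (Sum.inl ⟨s, j⟩))).map (ψ : Q →+* T)) =
      fun s => Zof (nd a (M s)) fun j => ψ (D (w (Sum.inl ⟨s, j⟩))) := by
    funext s
    rw [Zof_map]
  rw [e4, e5]

variable {R₀ : Type} [CommRing R₀] [Algebra ℂ R₀] (d : E → ℕ)

/-- the equations -/
noncomputable def Phi (x : σ → R₀) (W : E → R₀[X]) (p : Σ e, Fin (d e)) :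
    MvPolynomial (Unk M ι₁) R₀ :=
  (GG F a β (fun s => (MvPolynomial.C (x s) : MvPolynomial (Unk M ι₁) R₀))
    (fun e => (W e).map MvPolynomial.C) MvPolynomial.X p.1).coeff p.2

omit [Fintype σ] in
theorem Phi_eval (x : σ → R₀) (W : E → R₀[X]) (w : Unk M ι₁ → R₀) (φ : R₀ →ₐ[ℂ] T)
    (p : Σ e, Fin (d e)) :
    φ (MvPolynomial.aeval w (Phi F a β d x W p)) =
      (GG F a β (fun s => φ (x s)) (fun e => (W e).map (φ : R₀ →+* T)) (fun j => φ (w j))
        p.1).coeff p.2 := by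
  rw [← evA_apply w φ]
  unfold Phi
  have h := GG_map F a β (fun s => (MvPolynomial.C (x s) : MvPolynomial (Unk M ι₁) R₀))
    (fun e => (W e).map MvPolynomial.C) MvPolynomial.X p.1 (evA w φ)
  have h2 := congrArg (fun q : T[X] => q.coeff p.2) h
  simp only [coeff_map] at h2
  simp only [evA_C, evA_X, evA_map] at h2
  exact h2

theorem Phi_jac [DecidableEq σ] [DecidableEq ι₁] (x : σ → R₀) (W : E → R₀[X])
    (w : Unk M ι₁ → R₀) (φ : R₀ →ₐ[ℂ] T) (h : Unk M ι₁ → T) (p : Σ e, Fin (d e)) :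
    ∑ j, φ (MvPolynomial.aeval w (MvPolynomial.pderiv j (Phi F a β d x W p))) * h j =
      (JacW F (fun s => φ (x s)) (fun e => (W e).map (φ : R₀ →+* T)) β
        (fun i => φ (w (Sum.inr i)))
        (fun s => Yof (nd a (M s)) (φ (x s)) fun j => φ (w (Sum.inl ⟨s, j⟩)))
        (fun s => Zof (nd a (M s)) fun j => h (Sum.inl ⟨s, j⟩))
        (fun i => h (Sum.inr i)) p.1).coeff p.2 := by
  have h1 : ∀ j, φ (MvPolynomial.aeval w (MvPolynomial.pderiv j (Phi F a β d x W p))) =
      (JacW F (fun s => φ (x s)) (fun e => (W e).map (φ : R₀ →+* T)) β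
        (fun i => φ (w (Sum.inr i)))
        (fun s => Yof (nd a (M s)) (φ (x s)) fun j => φ (w (Sum.inl ⟨s, j⟩)))
        (fun s => Zof (nd a (M s)) fun i => if j = Sum.inl ⟨s, i⟩ then 1 else 0)
        (fun i => if j = Sum.inr i then 1 else 0) p.1).coeff p.2 := by
    intro j
    have hX : ∀ i, evA w φ (MvPolynomial.pderiv j (MvPolynomial.X i)) =
        if j = i then 1 else 0 := by
      intro i
      rw [MvPolynomial.pderiv_X]
      by_cases hij : j = i
      · subst hij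
        rw [Pi.single_eq_same, if_pos rfl, map_one]
      · rw [Pi.single_eq_of_ne (fun hh => hij hh.symm), if_neg hij, map_zero]
    have h2 := GG_der F a β ((MvPolynomial.pderiv j : Derivation R₀ (MvPolynomial (Unk M ι₁) R₀)
      (MvPolynomial (Unk M ι₁) R₀)).restrictScalars ℂ) (evA w φ)
      (fun s => (MvPolynomial.C (x s) : MvPolynomial (Unk M ι₁) R₀))
      (fun s => MvPolynomial.pderiv_C) (fun e => (W e).map MvPolynomial.C) MvPolynomial.X
      p.1 (by
        ext1 i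
        rw [coeffD_coeff, coeff_map, coeff_zero]
        exact MvPolynomial.pderiv_C) p.2
    simp only [Derivation.coe_restrictScalars, evA_C, evA_X, hX, evA_map] at h2
    exact h2
  have h6 : ∀ j, φ (MvPolynomial.aeval w (MvPolynomial.pderiv j (Phi F a β d x W p))) * h j =
      (C (h j) * JacW F (fun s => φ (x s)) (fun e => (W e).map (φ : R₀ →+* T)) β
        (fun i => φ (w (Sum.inr i)))
        (fun s => Yof (nd a (M s)) (φ (x s)) fun j => φ (w (Sum.inl ⟨s, j⟩)))
        (fun s => Zof (nd a (M s)) fun i => if j = Sum.inl ⟨s, i⟩ then 1 else 0)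
        (fun i => if j = Sum.inr i then 1 else 0) p.1).coeff p.2 := by
    intro j
    rw [h1 j, coeff_C_mul, mul_comm]
  rw [Finset.sum_congr rfl fun j _ => h6 j, ← finsetSum_coeff, JacW_sum]
  have e7 : (fun s => ∑ j, C (h j) * Zof (nd a (M s)) fun i =>
      if j = Sum.inl ⟨s, i⟩ then (1 : T) else 0) =
      fun s : σ => Zof (nd a (M s)) fun j => h (Sum.inl ⟨s, j⟩) := by
    funext s
    rw [Zof_sum]
    congr 1
    funext i
    simp
  have e8 : (fun i : ι₁ => ∑ j, h j * (if j = Sum.inr i then (1 : T) else 0)) =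
      fun i => h (Sum.inr i) := by
    funext i
    simp
  rw [e7, e8]

end Gen

end Pool.Agent.Work.RP
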