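import Mathlib
import Pool.Agent.Work.MP_4329d7_ag_rp.Basic
import Pool.Agent.Work.MP_4329d7_ag_rc.Deform
import Pool.Agent.Work.MP_4329d7_ag_rp.SplitGen

/-!
Deformation of a solution of the system `F_e(Y) = F_e(x) w_e ∏ (X - t_i)^(β i e)` over `F⟦ε⟧`
(generalisation of `MP_4329d7_ag_rc/Deform.lean`: the coordinate `Y s` has its own degree `M s`, and
the form `G e` is weighted homogeneous of degree `D e` for the weights `M`).
-/

namespace Pool.Agent.Work.RP

open Polynomial
open Pool.Agent.Work.Uni (rootPoly)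
open Pool.Agent.Work.RC (uD coeffD ccA ccA_apply rootPoly_monic' rootPoly_natDegree' rootPoly_map
  Zof Yof Yof_natDegree Yof_coeff Yof_map Yof_eval Yof_unique Zof_unique Zof_zero ift_free)

theorem deform {σ E : Type} [Fintype σ] [Fintype E] {F ι Λ : Type} [Field F] [Algebra ℂ F]
    [Fintype ι] [Fintype Λ] (G : E → MvPolynomial σ ℂ) (M : σ → ℕ) (D : E → ℕ)
    (hG : ∀ e, (G e).IsWeightedHomogeneous M (D e)) (x : σ → F) (a : ℕ → ℂ)
    (ha : Function.Injective a) (β : ι → E → ℕ) (γ : Λ → E → ℕ)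
    (hdeg : ∀ e, ∑ i, β i e + ∑ l, γ l e = D e) (Y₀ : σ → F[X])
    (hY₀ : ∀ s, (Y₀ s).natDegree ≤ M s) (hlead : ∀ s, (Y₀ s).coeff (M s) = x s) (t₀ : ι → F)
    (p : Λ → PowerSeries F)
    (heq : ∀ e, MvPolynomial.aeval Y₀ (G e) = C (MvPolynomial.aeval x (G e)) *
      (rootPoly γ (fun l => PowerSeries.constantCoeff (p l)) e * rootPoly β t₀ e))
    (hfree : ∀ P : E → F[X], (∀ e, (P e).degree < (D e : ℕ)) →
      ∃ (Z : σ → F[X]) (δ : ι → F), (∀ s, (Z s).degree < M s) ∧
        ∀ e, JacW G x (rootPoly γ (fun l => PowerSeries.constantCoeff (p l))) β t₀ Y₀ Z δ e =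
          P e) :
    ∃ S : Finset ((Σ s : σ, Fin (M s)) ⊕ ι),
      ∀ θ : (Σ s : σ, Fin (M s)) ⊕ ι → PowerSeries F,
        (∀ s j, PowerSeries.constantCoeff (θ (Sum.inl ⟨s, j⟩)) =
          (Y₀ s).eval (algebraMap ℂ F (a j))) →
        (∀ i, PowerSeries.constantCoeff (θ (Sum.inr i)) = t₀ i) →
        ∃ (Y : σ → (PowerSeries F)[X]) (t : ι → PowerSeries F),
          (∀ s, (Y s).natDegree ≤ M s) ∧ (∀ s, (Y s).coeff (M s) = PowerSeries.C (x s)) ∧
          (∀ s, (Y s).map PowerSeries.constantCoeff = Y₀ s) ∧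
          (∀ i, PowerSeries.constantCoeff (t i) = t₀ i) ∧
          (∀ s (j : Fin (M s)), Sum.inl ⟨s, j⟩ ∈ S →
            (Y s).eval (algebraMap ℂ (PowerSeries F) (a j)) = θ (Sum.inl ⟨s, j⟩)) ∧
          (∀ i, Sum.inr i ∈ S → t i = θ (Sum.inr i)) ∧
          (∀ e, MvPolynomial.aeval Y (G e) =
            C (MvPolynomial.aeval (fun s => (PowerSeries.C (x s) : PowerSeries F)) (G e)) *
              (rootPoly γ p e * rootPoly β t e)) ∧
          ∀ (L : Type) [Field L] [Algebra ℂ L] (f : PowerSeries F →ₐ[ℂ] L),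
            Function.Injective f → ∀ (Z : σ → L[X]) (δ : ι → L),
              (∀ s, (Z s).degree < M s) →
              (∀ s (j : Fin (M s)), Sum.inl ⟨s, j⟩ ∈ S →
                (Z s).eval (algebraMap ℂ L (a j)) = 0) →
              (∀ i, Sum.inr i ∈ S → δ i = 0) →
              (∀ e, JacW G (fun s => f (PowerSeries.C (x s)))
                (fun e => (rootPoly γ p e).map (f : PowerSeries F →+* L)) β (fun i => f (t i))
                (fun s => (Y s).map (f : PowerSeries F →+* L)) Z δ e = 0) → Z = 0 ∧ δ = 0 := by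
  classical
  set W : E → (PowerSeries F)[X] := fun e => rootPoly γ p e with hW
  set w₀ : Unk M ι → F :=
    Sum.elim (fun q => (Y₀ q.1).eval (algebraMap ℂ F (a q.2))) t₀ with hw₀
  have hW0 : ∀ e, (W e).map (ccA F : PowerSeries F →+* F) =
      rootPoly γ (fun l => PowerSeries.constantCoeff (p l)) e := by
    intro e
    rw [hW, rootPoly_map]
    rfl
  have hYof : ∀ s, Yof (nd a (M s)) (x s) (fun j => w₀ (Sum.inl ⟨s, j⟩)) = Y₀ s := fun s =>
    (Yof_unique (nd_inj ha (M s)) (Y₀ s) (hY₀ s) (x s) (hlead s)).symm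
  have hccC : ∀ z : F, ccA F (PowerSeries.C z) = z := fun z => PowerSeries.constantCoeff_C _
  -- the point `w₀` is a solution
  have h0 : ∀ r, PowerSeries.constantCoeff (MvPolynomial.aeval (fun j => PowerSeries.C (w₀ j))
      (Phi G a β D (fun s => (PowerSeries.C (x s) : PowerSeries F)) W r)) = 0 := by
    intro r
    rw [← ccA_apply, Phi_eval]
    simp only [hccC, hW0]
    unfold GG
    simp only [hYof]
    rw [heq r.1]
    have h1 : (fun i => w₀ (Sum.inr i)) = t₀ := rfl
    rw [h1, sub_self, coeff_zero]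
  have hJ : ∀ w : (Σ e, Fin (D e)) → F, ∃ v : Unk M ι → F, ∀ r, ∑ j,
      PowerSeries.constantCoeff (MvPolynomial.aeval (fun j => PowerSeries.C (w₀ j))
        (MvPolynomial.pderiv j
          (Phi G a β D (fun s => (PowerSeries.C (x s) : PowerSeries F)) W r))) * v j = w r := by
    intro w
    obtain ⟨Z, δ, hZ, hZδ⟩ := hfree (fun e => ∑ i : Fin (D e), C (w ⟨e, i⟩) * X ^ (i : ℕ)) (by
      intro e
      refine mem_degreeLT.1 (Submodule.sum_mem _ fun i _ => mem_degreeLT.2 ?_)
      refine lt_of_le_of_lt (degree_C_mul_X_pow_le _ _) ?_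
      exact_mod_cast i.2)
    refine ⟨Sum.elim (fun q => (Z q.1).eval (algebraMap ℂ F (a q.2))) δ, fun r => ?_⟩
    have h1 := Phi_jac G a β D (fun s => (PowerSeries.C (x s) : PowerSeries F)) W
      (fun j => PowerSeries.C (w₀ j)) (ccA F)
      (Sum.elim (fun q => (Z q.1).eval (algebraMap ℂ F (a q.2))) δ) r
    simp only [hccC, hW0, hYof] at h1
    have h2 : (fun s => Zof (nd a (M s)) fun j => (Sum.elim (fun q : (Σ s : σ, Fin (M s)) =>
        (Z q.1).eval (algebraMap ℂ F (a q.2))) δ) (Sum.inl ⟨s, j⟩)) = Z := by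
      funext s
      exact (Zof_unique (nd_inj ha (M s)) (Z s) (hZ s)).symm
    rw [h2] at h1
    have h3 := hZδ r.1
    refine h1.trans ?_
    have h4 : (fun i => w₀ (Sum.inr i)) = t₀ := rfl
    have h5 : (fun i => (Sum.elim (fun q : (Σ s : σ, Fin (M s)) =>
        (Z q.1).eval (algebraMap ℂ F (a q.2))) δ) (Sum.inr i)) = δ := rfl
    rw [h4, h5, h3, finsetSum_coeff, Finset.sum_eq_single r.2]
    · rw [coeff_C_mul, coeff_X_pow, if_pos rfl, mul_one]
    · intro i _ hi
      rw [coeff_C_mul, coeff_X_pow, if_neg, mul_zero]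
      intro h6
      exact hi (Fin.ext h6.symm)
    · intro h6
      exact absurd (Finset.mem_univ _) h6
  obtain ⟨S, hS⟩ := ift_free (Phi G a β D (fun s => (PowerSeries.C (x s) : PowerSeries F)) W) w₀
    h0 hJ
  refine ⟨S, fun θ hθ1 hθ2 => ?_⟩
  obtain ⟨w, hwc, hwS, hwΦ, hker⟩ := hS θ (by
    rintro (⟨s, j⟩ | i)
    · exact hθ1 s j
    · exact hθ2 i)
  have hY : ∀ s, (Yof (nd a (M s)) (PowerSeries.C (x s)) (fun j => w (Sum.inl ⟨s, j⟩))).map
      (ccA F : PowerSeries F →+* F) = Y₀ s := by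
    intro s
    rw [Yof_map, hccC]
    have h1 : (fun j => ccA F (w (Sum.inl ⟨s, j⟩))) = fun j => w₀ (Sum.inl ⟨s, j⟩) := by
      funext j
      exact hwc _
    rw [h1, hYof]
  refine ⟨fun s => Yof (nd a (M s)) (PowerSeries.C (x s)) fun j => w (Sum.inl ⟨s, j⟩),
    fun i => w (Sum.inr i), fun s => Yof_natDegree (nd_inj ha (M s)) _ _, fun s => Yof_coeff (nd_inj ha (M s)) _ _,
    fun s => hY s, fun i => hwc _, fun s j hj => ?_, fun i hi => hwS _ hi, fun e => ?_, ?_⟩
  · have h9 := Yof_eval (nd_inj ha (M s)) (PowerSeries.C (x s)) (fun j => w (Sum.inl ⟨s, j⟩)) j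
    refine h9.trans ?_
    exact hwS _ hj
  · -- the equation
    rw [← sub_eq_zero]
    refine Polynomial.ext fun r => ?_
    rw [coeff_zero]
    rcases lt_trichotomy r (D e) with h | h | h
    · have h1 := hwΦ ⟨e, ⟨r, h⟩⟩
      have h2 := Phi_eval G a β D (fun s => (PowerSeries.C (x s) : PowerSeries F)) W w
        (AlgHom.id ℂ (PowerSeries F)) ⟨e, ⟨r, h⟩⟩
      rw [h1, map_zero] at h2
      have h3 : ∀ e, (W e).map ((AlgHom.id ℂ (PowerSeries F) :
          PowerSeries F →ₐ[ℂ] PowerSeries F) : PowerSeries F →+* PowerSeries F) = W e :=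
        fun e => Polynomial.map_id
      simp only [h3] at h2
      exact h2.symm
    · have h1 := coeff_aeval (w := M) (hG e) (fun s => Yof (nd a (M s)) (PowerSeries.C (x s))
        fun j => w (Sum.inl ⟨s, j⟩)) (fun s => Yof_natDegree (nd_inj ha (M s)) _ _)
      have h1' : (fun s => (Yof (nd a (M s)) (PowerSeries.C (x s))
          fun j => w (Sum.inl ⟨s, j⟩)).coeff (M s)) = fun s => PowerSeries.C (x s) :=
        funext fun s => Yof_coeff (nd_inj ha (M s)) _ _
      rw [h1'] at h1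
      have h2 : (rootPoly γ p e * rootPoly β (fun i => w (Sum.inr i)) e).coeff (D e) = 1 := by
        have h3 : (rootPoly γ p e * rootPoly β (fun i => w (Sum.inr i)) e).natDegree =
            D e := by
          rw [(rootPoly_monic' γ p e).natDegree_mul (rootPoly_monic' _ _ e),
            rootPoly_natDegree', rootPoly_natDegree', ← hdeg e, add_comm]
        rw [← h3]
        exact ((rootPoly_monic' γ p e).mul (rootPoly_monic' _ _ e))
      rw [h, coeff_sub, h1, coeff_C_mul, h2, mul_one, sub_self]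
    · have h1 := natDegree_aeval_le (w := M) (hG e) (fun s => Yof (nd a (M s)) (PowerSeries.C (x s))
        fun j => w (Sum.inl ⟨s, j⟩)) (fun s => Yof_natDegree (nd_inj ha (M s)) _ _)
      have h3 : (rootPoly γ p e * rootPoly β (fun i => w (Sum.inr i)) e).natDegree =
          D e := by
        rw [(rootPoly_monic' γ p e).natDegree_mul (rootPoly_monic' _ _ e),
          rootPoly_natDegree', rootPoly_natDegree', ← hdeg e, add_comm]
      rw [coeff_sub, coeff_eq_zero_of_natDegree_lt (lt_of_le_of_lt h1 h), coeff_C_mul,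
        coeff_eq_zero_of_natDegree_lt (lt_of_le_of_lt h3.le h), mul_zero, sub_zero]
  · intro L _ _ f hf Z δ hZ hZS hδS hJac
    have h1 := hker L (f : PowerSeries F →+* L) hf
      (Sum.elim (fun q => (Z q.1).eval (algebraMap ℂ L (a q.2))) δ) (by
      rintro (⟨s, j⟩ | i) hj
      · exact hZS s j hj
      · exact hδS i hj) (by
      intro r
      have h2 := Phi_jac G a β D (fun s => (PowerSeries.C (x s) : PowerSeries F)) W w f
        (Sum.elim (fun q => (Z q.1).eval (algebraMap ℂ L (a q.2))) δ) r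
      have h3 : (fun s => Zof (nd a (M s)) fun j => (Sum.elim (fun q : (Σ s : σ, Fin (M s)) =>
          (Z q.1).eval (algebraMap ℂ L (a q.2))) δ) (Sum.inl ⟨s, j⟩)) = Z := by
        funext s
        exact (Zof_unique (nd_inj ha (M s)) (Z s) (hZ s)).symm
      rw [h3] at h2
      refine h2.trans ?_
      have h4 := hJac r.1
      simp only [Yof_map] at h4
      have h5 := congrArg (fun q : L[X] => q.coeff r.2) h4
      exact h5)
    have h2 : ∀ s, Z s = 0 := by
      intro s
      rw [Zof_unique (nd_inj ha (M s)) (Z s) (hZ s)]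
      have h3 : (fun j : Fin (M s) => (Z s).eval (algebraMap ℂ L (nd a (M s) j))) =
          fun _ => 0 := by
        funext j
        exact congrFun h1 (Sum.inl ⟨s, j⟩)
      rw [h3]
      exact Zof_zero (nd a (M s))
    exact ⟨funext h2, funext fun i => congrFun h1 (Sum.inr i)⟩


end Pool.Agent.Work.RP
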