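import Mathlib
import Pool.Agent.Work.MP_4329d7_ag_rp.Basic
import Pool.Agent.Work.MP_4329d7_ag_rc.Free

/-!
P1 and P2 for products (generalisation of `MP_4329d7_ag_rc/Free.lean`): curves are unobstructed.
-/

namespace Pool.Agent.Work.RP

open Polynomial
open Pool.Agent.Work.Uni (rootPoly)
open Pool.Agent.Work.RC (uD coeffD coeffD_coeff coeffD_C coeffD_rootPoly uD_degree uD_X_pow
  derivative_rootPoly gradMap_onto exists_pow_div)

variable {σ I E : Type} [Fintype σ] [Fintype I] [DecidableEq I] [Fintype E] [DecidableEq E]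
  {A : Arr σ I E} {k : Type} [Field k] [Algebra ℂ k] {x : σ → k}

omit [Fintype I] [Fintype E] [DecidableEq E] in
theorem lift_aux (hx : AlgebraicIndependent ℂ x) (c : Cv A k x) (z : σ → k) :
    ∃ (Z : σ → k[X]) (δ : c.ι → k), (∀ s, (Z s).natDegree ≤ c.m (A.g s)) ∧
      (∀ s, (Z s).coeff (c.m (A.g s)) = z s) ∧
      ∀ e, c.Jac Z δ e = C (∑ s, MvPolynomial.aeval x (MvPolynomial.pderiv s (A.F e)) * z s) *
        rootPoly c.β c.t e := by
  obtain ⟨D, hD⟩ := Pool.Agent.Work.MP_4329d7_ag_sq.exists_der_of_algInd hx z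
  refine ⟨fun s => coeffD D (c.Y s), fun i => D (c.t i), fun s => ?_, fun s => ?_, fun e => ?_⟩
  · rw [natDegree_le_iff_coeff_eq_zero]
    intro N hN
    rw [coeffD_coeff, coeff_eq_zero_of_natDegree_lt ((c.deg s).trans_lt hN), map_zero]
  · rw [coeffD_coeff, c.lead, hD]
  · have h1 := derivation_aeval (coeffD D) (A.F e) c.Y
    rw [c.eqn e, Derivation.leibniz, coeffD_rootPoly, coeffD_C, derivation_aeval D (A.F e) x] at h1
    simp only [smul_eq_mul, hD] at h1
    unfold Cv.Jac JacW
    rw [← h1]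
    simp only [Pi.one_apply, mul_one]
    ring

omit [Fintype I] in
/-- (A) `(Z, V) ↦ ∇F_e(Y)·Z + u_e V_e` is onto -/
theorem grad_onto (hA : A.Ok) (c : Cv A k x) (P : E → k[X]) :
    ∃ (Z : σ → k[X]) (V : E → k[X]), ∀ e,
      ∑ s, MvPolynomial.aeval c.Y (MvPolynomial.pderiv s (A.F e)) * Z s +
        rootPoly c.β c.t e * V e = P e := by
  refine gradMap_onto (fun e s => MvPolynomial.aeval c.Y (MvPolynomial.pderiv s (A.F e)))
    (rootPoly c.β c.t) (fun κ _ _ π φ hl hr => ?_) P
  have hy : IsPt A.g (fun s => π (c.Y s)) := by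
    intro i
    by_contra h0
    push Not at h0
    obtain ⟨V, hV⟩ := c.cop i
    have h1 := congrArg π hV
    rw [map_sum, map_one] at h1
    refine zero_ne_one (h1 ▸ (Finset.sum_eq_zero fun s _ => ?_).symm : (0 : κ) = 1)
    split_ifs with hs
    · rw [map_mul, h0 s hs, mul_zero]
    · rw [map_zero]
  have hev : ∀ G : MvPolynomial σ ℂ,
      MvPolynomial.aeval (fun s => π (c.Y s)) G = π (MvPolynomial.aeval c.Y G) := fun G =>
    (MvPolynomial.comp_aeval_apply (f := c.Y) π G).symm
  have hz : ∀ e, MvPolynomial.aeval (fun s => π (c.Y s)) (A.F e) ≠ 0 → φ e = 0 := by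
    intro e he
    rcases mul_eq_zero.1 (hr e) with h3 | h3
    · exfalso
      apply he
      rw [hev, c.eqn e, map_mul, h3, mul_zero]
    · exact h3
  have hli := hA.snc κ (fun s => π (c.Y s)) hy
  classical
  rw [Fintype.linearIndependent_iff] at hli
  have h3 := hli (fun e => φ e.1) (by
    funext s
    rw [Finset.sum_apply, Pi.zero_apply]
    refine Eq.trans ?_ (hl s)
    simp only [Pi.smul_apply, smul_eq_mul, hev]
    have h4 : ∀ e, φ e ≠ 0 → MvPolynomial.aeval (fun s => π (c.Y s)) (A.F e) = 0 := by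
      intro e he
      by_contra h5
      exact he (hz e h5)
    rw [← Finset.sum_filter_of_ne
      (p := fun e => MvPolynomial.aeval (fun s => π (c.Y s)) (A.F e) = 0)
      (fun e _ he => h4 e (fun h => he (by rw [h, mul_zero])))]
    refine Eq.trans (Finset.sum_congr rfl fun e _ => mul_comm (φ e.1) _)
      (Finset.sum_subtype (Finset.univ.filter fun e =>
        MvPolynomial.aeval (fun s => π (c.Y s)) (A.F e) = 0) (fun e => by simp)
        (fun e => π (MvPolynomial.aeval c.Y (MvPolynomial.pderiv s (A.F e))) * φ e)).symm)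
  funext e
  by_cases he : MvPolynomial.aeval (fun s => π (c.Y s)) (A.F e) = 0
  · exact h3 ⟨e, he⟩
  · exact hz e he

omit [Fintype I] [Fintype E] [DecidableEq E] in
theorem Cv.Jac_eq (c : Cv A k x) (Z : σ → k[X]) (δ : c.ι → k) (e : E) :
    c.Jac Z δ e = ∑ s, MvPolynomial.aeval c.Y (MvPolynomial.pderiv s (A.F e)) * Z s +
      C (MvPolynomial.aeval x (A.F e)) * ∑ i, C (δ i) * uD c.β c.t e i := by
  unfold Cv.Jac JacW
  rw [Pi.one_apply, mul_one]

omit [Fintype σ] [Fintype E] in
/-- the weight of a derivative -/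
theorem pderiv_cases (hA : A.Ok) (m : I → ℕ) (e : E) (s : σ) :
    MvPolynomial.pderiv s (A.F e) = 0 ∨ (m (A.g s) ≤ ∑ i, A.d e i * m i ∧
      (MvPolynomial.pderiv s (A.F e)).IsWeightedHomogeneous (fun s => m (A.g s))
        (∑ i, A.d e i * m i - m (A.g s))) := by
  classical
  have hh := hA.homW m e
  by_cases hle : m (A.g s) ≤ ∑ i, A.d e i * m i
  · exact Or.inr ⟨hle, hh.pderiv (by omega)⟩
  · left
    refine MvPolynomial.pderiv_eq_zero_of_notMem_vars ?_
    intro hs
    obtain ⟨u, hu, hus⟩ := (MvPolynomial.mem_vars_iff_mem_support s).1 hs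
    have h1 := hh (MvPolynomial.mem_support_iff.1 hu)
    rw [Finsupp.weight_apply] at h1
    have h2 : u s • m (A.g s) ≤ u.sum fun s k => k • m (A.g s) :=
      Finset.single_le_sum (f := fun s => u s • m (A.g s)) (fun _ _ => Nat.zero_le _) hus
    have h3 : 1 ≤ u s := Nat.one_le_iff_ne_zero.2 (Finsupp.mem_support_iff.1 hus)
    have h4 : 1 * m (A.g s) ≤ u s • m (A.g s) := Nat.mul_le_mul_right _ h3
    omega

omit [Fintype E] in
/-- the coefficient at `w_e + M` of the derivative -/
theorem coeff_Jac (hA : A.Ok) (hx : AlgebraicIndependent ℂ x) (c : Cv A k x)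
    (Z : σ → k[X]) (δ : c.ι → k) (M : ℕ) (hZ : ∀ s, (Z s).natDegree ≤ c.m (A.g s) + M) (e : E) :
    (c.Jac Z δ e).coeff (c.w e + M) =
      ∑ s, MvPolynomial.aeval x (MvPolynomial.pderiv s (A.F e)) *
        (Z s).coeff (c.m (A.g s) + M) := by
  rw [Cv.Jac_eq, coeff_add, finsetSum_coeff]
  have h2 : (C (MvPolynomial.aeval x (A.F e)) * ∑ i, C (δ i) * uD c.β c.t e i).coeff
      (c.w e + M) = 0 := by
    rw [coeff_C_mul, finsetSum_coeff, Finset.sum_eq_zero, mul_zero]
    intro i _
    rw [coeff_C_mul, coeff_eq_zero_of_degree_lt, mul_zero]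
    refine (uD_degree c.β c.t e i).trans_le ?_
    rw [Cv.sum_β hA hx]
    exact_mod_cast Nat.le_add_right _ _
  rw [h2, add_zero]
  refine Finset.sum_congr rfl fun s _ => ?_
  rcases pderiv_cases hA c.m e s with h0 | ⟨hle, hhom⟩
  · rw [h0, map_zero, map_zero, zero_mul, zero_mul, coeff_zero]
  · have h3 : c.w e + M = (∑ i, A.d e i * c.m i - c.m (A.g s)) + (c.m (A.g s) + M) := by
      unfold Cv.w
      omega
    rw [h3, coeff_mul_add_eq_of_natDegree_le (natDegree_aeval_le hhom c.Y c.deg) (hZ s),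
      coeff_aeval hhom c.Y c.deg]
    simp only [c.lead]

omit [Fintype E] in
theorem free_step (hA : A.Ok) (hx : AlgebraicIndependent ℂ x) (c : Cv A k x) (P : E → k[X])
    (hP : ∀ e, (P e).degree < (c.w e : ℕ)) (M : ℕ) :
    ∀ (Z : σ → k[X]) (V : E → k[X]) (δ : c.ι → k),
      (∀ s, (Z s).degree < (c.m (A.g s) + M : ℕ)) → (∀ e, (V e).degree < M) →
      (∀ e, c.Jac Z δ e + rootPoly c.β c.t e * V e = P e) →
      ∃ (Z : σ → k[X]) (δ : c.ι → k), (∀ s, (Z s).degree < c.m (A.g s)) ∧
        ∀ e, c.Jac Z δ e = P e := by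
  induction M with
  | zero =>
    intro Z V δ hZ hV h
    refine ⟨Z, δ, fun s => by simpa using hZ s, fun e => ?_⟩
    have h1 : V e = 0 := by
      have h2 := hV e
      rwa [Nat.cast_zero, ← not_le, zero_le_degree_iff, not_not] at h2
    rw [← h e, h1, mul_zero, add_zero]
  | succ M ih =>
    intro Z V δ hZ hV h
    have hZ' : ∀ s, (Z s).natDegree ≤ c.m (A.g s) + M := fun s => by
      rw [natDegree_le_iff_degree_le]
      have h1 := hZ s
      rw [← add_assoc, Nat.cast_succ] at h1
      exact Order.lt_succ_iff.1 h1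
    have hV' : ∀ e, (V e).natDegree ≤ M := fun e => by
      rw [natDegree_le_iff_degree_le]
      exact Order.lt_succ_iff.1 (hV e)
    obtain ⟨Z₁, δ₁, hZ₁, hZ₁c, hJ₁⟩ := lift_aux hx c (fun s => (Z s).coeff (c.m (A.g s) + M))
    -- the top coefficients
    have hu : ∀ e, (rootPoly c.β c.t e).Monic := fun e =>
      monic_prod_of_monic _ _ fun i _ => (monic_X_sub_C _).pow _
    have hud : ∀ e, (rootPoly c.β c.t e).natDegree = c.w e := by
      intro e
      unfold rootPoly
      rw [natDegree_prod_of_monic _ _ fun i _ => (monic_X_sub_C _).pow _]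
      rw [← Cv.sum_β hA hx c e]
      exact Finset.sum_congr rfl fun i _ => by
        rw [(monic_X_sub_C _).natDegree_pow, natDegree_X_sub_C, mul_one]
    have htop : ∀ e, ∑ s, MvPolynomial.aeval x (MvPolynomial.pderiv s (A.F e)) *
        (Z s).coeff (c.m (A.g s) + M) = - (V e).coeff M := by
      intro e
      have h1 := congrArg (fun p => p.coeff (c.w e + M)) (h e)
      simp only [coeff_add] at h1
      rw [coeff_Jac hA hx c Z δ M hZ', coeff_mul_add_eq_of_natDegree_le (hud e).le (hV' e),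
        coeff_eq_zero_of_degree_lt ((hP e).trans_le (by exact_mod_cast Nat.le_add_right _ _))] at h1
      have h2 : (rootPoly c.β c.t e).coeff (c.w e) = 1 := by
        rw [← hud e]
        exact hu e
      rw [h2, one_mul] at h1
      exact eq_neg_of_add_eq_zero_left h1
    choose q hq hq' using fun i => exists_pow_div (c.t i) M
    refine ih (fun s => Z s - X ^ M * Z₁ s)
      (fun e => V e - X ^ M * C ((V e).coeff M) - C (MvPolynomial.aeval x (A.F e)) *
        ∑ i, C (δ₁ i * (c.β i e : k)) * q i) (fun i => δ i - δ₁ i * c.t i ^ M) ?_ ?_ ?_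
    · intro s
      rw [degree_lt_iff_coeff_zero]
      intro N hN
      rw [coeff_sub, mul_comm, coeff_mul_X_pow']
      rw [if_pos (by omega)]
      rcases Nat.eq_or_lt_of_le hN with h1 | h1
      · rw [← h1, Nat.add_sub_cancel, hZ₁c, sub_self]
      · rw [coeff_eq_zero_of_natDegree_lt ((hZ' s).trans_lt h1),
          coeff_eq_zero_of_natDegree_lt ((hZ₁ s).trans_lt (by omega)), sub_self]
    · intro e
      have h1 : (V e - X ^ M * C ((V e).coeff M)).degree < (M : WithBot ℕ) := by
        rw [degree_lt_iff_coeff_zero]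
        intro N hN
        rw [coeff_sub, mul_comm, coeff_C_mul_X_pow]
        rcases Nat.eq_or_lt_of_le hN with h1 | h1
        · rw [← h1, if_pos rfl, sub_self]
        · rw [if_neg (by omega), coeff_eq_zero_of_natDegree_lt ((hV' e).trans_lt h1), sub_zero]
      have h2 : (C (MvPolynomial.aeval x (A.F e)) *
          ∑ i, C (δ₁ i * (c.β i e : k)) * q i).degree < (M : WithBot ℕ) := by
        rw [← mem_degreeLT, ← smul_eq_C_mul]
        refine Submodule.smul_mem _ _ (Submodule.sum_mem _ fun i _ => ?_)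
        rw [← smul_eq_C_mul]
        exact Submodule.smul_mem _ _ (mem_degreeLT.2 (hq i))
      rw [← mem_degreeLT] at h1 h2 ⊢
      exact Submodule.sub_mem _ h1 h2
    · intro e
      have h1 := hJ₁ e
      rw [htop e, C_neg] at h1
      rw [← h e]
      rw [Cv.Jac_eq] at h1 ⊢
      rw [Cv.Jac_eq]
      have h2 : ∑ i, C (δ i - δ₁ i * c.t i ^ M) * uD c.β c.t e i =
          ∑ i, C (δ i) * uD c.β c.t e i - X ^ M * ∑ i, C (δ₁ i) * uD c.β c.t e i +
            rootPoly c.β c.t e * ∑ i, C (δ₁ i * (c.β i e : k)) * q i := by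
        rw [Finset.mul_sum, Finset.mul_sum, ← Finset.sum_sub_distrib, ← Finset.sum_add_distrib]
        refine Finset.sum_congr rfl fun i _ => ?_
        have h3 := uD_X_pow c.β c.t e i M (q i) (hq' i)
        rw [C_sub, C_mul, C_mul]
        linear_combination (C (δ₁ i)) * h3
      have h4 : ∑ s, MvPolynomial.aeval c.Y (MvPolynomial.pderiv s (A.F e)) *
          (Z s - X ^ M * Z₁ s) =
          ∑ s, MvPolynomial.aeval c.Y (MvPolynomial.pderiv s (A.F e)) * Z s - X ^ M *
            ∑ s, MvPolynomial.aeval c.Y (MvPolynomial.pderiv s (A.F e)) * Z₁ s := by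
        rw [Finset.mul_sum, ← Finset.sum_sub_distrib]
        exact Finset.sum_congr rfl fun s _ => by ring
      rw [h2, h4]
      linear_combination (-(X : k[X]) ^ M) * h1

omit [Fintype I] [Fintype E] in
theorem lift (_hA : A.Ok) (hx : AlgebraicIndependent ℂ x) (c : Cv A k x) (z : σ → k) :
    ∃ (Z : σ → k[X]) (δ : c.ι → k), (∀ s, (Z s).natDegree ≤ c.m (A.g s)) ∧
      (∀ s, (Z s).coeff (c.m (A.g s)) = z s) ∧
      ∀ e, c.Jac Z δ e = C (∑ s, MvPolynomial.aeval x (MvPolynomial.pderiv s (A.F e)) * z s) *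
        rootPoly c.β c.t e :=
  lift_aux hx c z

theorem free (hA : A.Ok) (hx : AlgebraicIndependent ℂ x) (c : Cv A k x) (P : E → k[X])
    (hP : ∀ e, (P e).degree < (c.w e : ℕ)) :
    ∃ (Z : σ → k[X]) (δ : c.ι → k), (∀ s, (Z s).degree < c.m (A.g s)) ∧
      ∀ e, c.Jac Z δ e = P e := by
  obtain ⟨Z, V, h⟩ := grad_onto hA c P
  refine free_step hA hx c P hP (∑ s, (Z s).natDegree + ∑ e, (V e).natDegree + 1) Z V 0 ?_ ?_ ?_
  · intro s
    refine degree_le_natDegree.trans_lt ?_
    have h1 := Finset.single_le_sum (f := fun s => (Z s).natDegree) (fun _ _ => Nat.zero_le _)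
      (Finset.mem_univ s)
    exact_mod_cast (by omega : (Z s).natDegree <
      c.m (A.g s) + (∑ s, (Z s).natDegree + ∑ e, (V e).natDegree + 1))
  · intro e
    refine degree_le_natDegree.trans_lt ?_
    have h1 := Finset.single_le_sum (f := fun e => (V e).natDegree) (fun _ _ => Nat.zero_le _)
      (Finset.mem_univ e)
    exact_mod_cast (by omega : (V e).natDegree <
      ∑ s, (Z s).natDegree + ∑ e, (V e).natDegree + 1)
  · intro e
    rw [Cv.Jac_eq, ← h e]
    simp only [Pi.zero_apply, C_0, zero_mul, Finset.sum_const_zero, mul_zero, add_zero]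

/-- one column is not needed (translation: `∇F_e(Y)·Y' = c_e ∑ u^(i)_e`) -/
theorem free_zero (hA : A.Ok) (hx : AlgebraicIndependent ℂ x) (c : Cv A k x) (i₀ : c.ι)
    (P : E → k[X]) (hP : ∀ e, (P e).degree < (c.w e : ℕ)) :
    ∃ (Z : σ → k[X]) (δ : c.ι → k), (∀ s, (Z s).degree < c.m (A.g s)) ∧ δ i₀ = 0 ∧
      ∀ e, c.Jac Z δ e = P e := by
  obtain ⟨Z, δ, hZ, h⟩ := free hA hx c P hP
  refine ⟨fun s => Z s + C (δ i₀) * derivative (c.Y s), fun i => δ i - δ i₀, fun s => ?_,
    sub_self _, fun e => ?_⟩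
  · have h1 : (derivative (c.Y s)).degree < (c.m (A.g s) : WithBot ℕ) := by
      rw [degree_lt_iff_coeff_zero]
      intro N hN
      rw [coeff_derivative, coeff_eq_zero_of_natDegree_lt ((c.deg s).trans_lt (by omega)), zero_mul]
    have h2 := hZ s
    change (Z s + C (δ i₀) * derivative (c.Y s)).degree < (c.m (A.g s) : WithBot ℕ)
    rw [← smul_eq_C_mul]
    rw [← mem_degreeLT] at h1 h2 ⊢
    exact Submodule.add_mem _ h2 (Submodule.smul_mem _ _ h1)
  · rw [← h e, Cv.Jac_eq, Cv.Jac_eq]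
    have h1 := derivation_aeval ((derivative' (R := k)).restrictScalars ℂ) (A.F e) c.Y
    rw [c.eqn e] at h1
    have h2 : ∀ p : k[X], ((derivative' (R := k)).restrictScalars ℂ : Derivation ℂ k[X] k[X]) p =
        derivative p := fun _ => rfl
    simp only [h2] at h1
    rw [derivative_C_mul, derivative_rootPoly] at h1
    simp only [mul_add, C_sub, sub_mul, Finset.sum_add_distrib, Finset.sum_sub_distrib,
      ← Finset.mul_sum]
    have h3 : ∑ s, MvPolynomial.aeval c.Y (MvPolynomial.pderiv s (A.F e)) *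
        (C (δ i₀) * derivative (c.Y s)) =
        C (δ i₀) * ∑ s, MvPolynomial.aeval c.Y (MvPolynomial.pderiv s (A.F e)) *
          derivative (c.Y s) := by
      rw [Finset.mul_sum]
      exact Finset.sum_congr rfl fun s _ => by ring
    rw [h3, ← h1]
    ring

end Pool.Agent.Work.RP
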