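import Mathlib
import Pool.Agent.Work.MP_4329d7_ag_rp.Free
import Pool.Agent.Work.MP_4329d7_ag_rc.Pow

/-!
The curve `Y(X ^ N)` (generalisation of `MP_4329d7_ag_rc/Pow.lean`).
-/

namespace Pool.Agent.Work.RP

open Polynomial
open Pool.Agent.Work.Uni (rootPoly)
open Pool.Agent.Work.RC (uD uD_mul coeffD pow_nodal pow_eval_erase pow_split split_mod
  degree_X_pow_mul_expand)

variable {σ I E : Type} [Fintype σ] [Fintype I] [DecidableEq I] [Fintype E] [DecidableEq E]
  {A : Arr σ I E} {k : Type} [Field k] [Algebra ℂ k] {x : σ → k}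

/-- the order of `u_e` at `0` -/
noncomputable def Cv.b₀ (c : Cv A k x) (e : E) : ℕ :=
  open Classical in ∑ i with c.t i = 0, c.β i e

/-- the blocks of the roots different from `0` of `Y(X ^ N)` -/
def Cv.βN (c : Cv A k x) (N : ℕ) : {i : c.ι // c.t i ≠ 0} × Fin N → E → ℕ := fun p => c.β p.1.1

noncomputable instance (c : Cv A k x) (N : ℕ) : Fintype ({i : c.ι // c.t i ≠ 0} × Fin N) := by
  classical
  infer_instance

omit [Fintype I] [Fintype E] [DecidableEq E] in
theorem rootPoly_comp_pow (c : Cv A k x) (N : ℕ) (s : {i : c.ι // c.t i ≠ 0} × Fin N → k)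
    (hs : ∀ i, ∏ l, (X - C (s (i, l))) = X ^ N - C (c.t i.1)) (e : E) :
    (rootPoly c.β c.t e).comp (X ^ N) = X ^ (N * c.b₀ e) * rootPoly (c.βN N) s e := by
  classical
  have h1 : (rootPoly c.β c.t e).comp (X ^ N) = ∏ i, (X ^ N - C (c.t i)) ^ c.β i e := by
    rw [rootPoly, prod_comp]
    refine Finset.prod_congr rfl fun i _ => ?_
    rw [pow_comp, sub_comp, X_comp, C_comp]
  have h2 : rootPoly (c.βN N) s e =
      ∏ i : {i : c.ι // c.t i ≠ 0}, (X ^ N - C (c.t i.1)) ^ c.β i.1 e := by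
    have h3 : rootPoly (c.βN N) s e =
        ∏ i : {i : c.ι // c.t i ≠ 0}, ∏ l : Fin N, (X - C (s (i, l))) ^ c.β i.1 e := by
      rw [← Fintype.prod_prod_type' (f := fun (i : {i : c.ι // c.t i ≠ 0}) (l : Fin N) =>
        (X - C (s (i, l))) ^ c.β i.1 e)]
      unfold rootPoly Cv.βN
      exact Fintype.prod_congr _ _ fun p => rfl
    rw [h3]
    refine Finset.prod_congr rfl fun i _ => ?_
    rw [Finset.prod_pow, hs]
  have h4 : X ^ (N * c.b₀ e) = ∏ i with c.t i = 0, (X ^ N - C (c.t i) : k[X]) ^ c.β i e := by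
    rw [Cv.b₀, pow_mul, ← Finset.prod_pow_eq_pow_sum]
    refine Finset.prod_congr (by congr) fun i hi => ?_
    rw [(Finset.mem_filter.1 hi).2, C_0, sub_zero]
  rw [h1, h2, h4, ← Finset.prod_filter_mul_prod_filter_not Finset.univ (fun i => c.t i = 0)]
  congr 1
  exact Finset.prod_subtype _ (fun i => by simp) _

omit [Fintype I] [Fintype E] [DecidableEq E] in
theorem uD_comp (c : Cv A k x) (N : ℕ) (hN : 0 < N)
    (s : {i : c.ι // c.t i ≠ 0} × Fin N → k)
    (hs : ∀ i, ∏ l, (X - C (s (i, l))) = X ^ N - C (c.t i.1)) (hinj : Function.Injective s)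
    (e : E) (i : {i : c.ι // c.t i ≠ 0}) (r : ℕ) (hr : r < N) :
    X ^ r * (uD c.β c.t e i.1).comp (X ^ N) = ∑ l : Fin N, C (s (i, l) ^ (r + 1) / (N * c.t i.1)) *
      (X ^ (N * c.b₀ e) * uD (c.βN N) s e (i, l)) := by
  classical
  have hchar : (N : k) ≠ 0 := by
    have := charZero_of_injective_algebraMap (algebraMap ℂ k).injective
    exact Nat.cast_ne_zero.2 hN.ne'
  have hsi : Function.Injective fun l => s (i, l) := fun l l' h => by
    have := hinj h
    exact (Prod.mk.inj this).2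
  have hst : ∀ l, s (i, l) ^ N = c.t i.1 := by
    intro l
    have h1 := congrArg (eval (s (i, l))) (hs i)
    rw [eval_prod, Finset.prod_eq_zero (Finset.mem_univ l) (by simp)] at h1
    rw [eval_sub, eval_pow, eval_X, eval_C] at h1
    exact (sub_eq_zero.1 h1.symm)
  have h0 : (X ^ N - C (c.t i.1) : k[X]) ≠ 0 := (monic_X_pow_sub_C _ hN.ne').ne_zero
  refine mul_left_cancel₀ h0 ?_
  have h1 : (X ^ N - C (c.t i.1) : k[X]) * (X ^ r * (uD c.β c.t e i.1).comp (X ^ N)) =
      X ^ r * (C (c.β i.1 e : k) * (rootPoly c.β c.t e).comp (X ^ N)) := by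
    have h2 := congrArg (fun p => p.comp (X ^ N)) (uD_mul c.β c.t e i.1)
    simp only [mul_comp, sub_comp, X_comp, C_comp] at h2
    rw [← h2]
    ring
  rw [h1, rootPoly_comp_pow c N s hs e, Finset.mul_sum]
  conv_lhs => rw [pow_split N hchar (c.t i.1) i.2 (fun l => s (i, l)) hsi hst r hr, Finset.sum_mul]
  refine Finset.sum_congr rfl fun l _ => ?_
  have h3 := uD_mul (c.βN N) s e (i, l)
  have h4 : (X ^ N - C (c.t i.1) : k[X]) = (X - C (s (i, l))) *
      ∏ l' ∈ Finset.univ.erase l, (X - C (s (i, l'))) := by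
    rw [← hs i, Finset.mul_prod_erase Finset.univ (fun l' => X - C (s (i, l')))
      (Finset.mem_univ l)]
  have h5 : C ((c.βN N (i, l) e : ℕ) : k) = C ((c.β i.1 e : ℕ) : k) := rfl
  rw [h5] at h3
  rw [h4]
  linear_combination (- C (s (i, l) ^ (r + 1) / (N * c.t i.1)) *
    (∏ l' ∈ Finset.univ.erase l, (X - C (s (i, l')))) * X ^ (N * c.b₀ e)) * h3

theorem pow_free (hA : A.Ok) (hx : AlgebraicIndependent ℂ x) (c : Cv A k x) (N : ℕ) (hN : 0 < N)
    (s : {i : c.ι // c.t i ≠ 0} × Fin N → k)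
    (hs : ∀ i, ∏ l, (X - C (s (i, l))) = X ^ N - C (c.t i.1)) (hinj : Function.Injective s)
    (P : E → k[X]) (hP : ∀ e, (P e).degree < (N * c.w e : ℕ)) :
    ∃ (Z : σ → k[X]) (δ : {i : c.ι // c.t i ≠ 0} × Fin N → k),
      (∀ j, (Z j).degree < (N * c.m (A.g j) : ℕ)) ∧
      ∀ e, JacW A.F x (fun e => X ^ (N * c.b₀ e)) (c.βN N) s (fun j => (c.Y j).comp (X ^ N)) Z δ e
        = P e := by
  classical
  -- the columns of the roots equal to `0` are not needed
  have hfree : ∀ P : E → k[X], (∀ e, (P e).degree < (c.w e : ℕ)) →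
      ∃ (Z : σ → k[X]) (δ : c.ι → k), (∀ s, (Z s).degree < c.m (A.g s)) ∧
        (∀ i, c.t i = 0 → δ i = 0) ∧ ∀ e, c.Jac Z δ e = P e := by
    intro P hP
    by_cases h0 : ∃ i₀, c.t i₀ = 0
    · obtain ⟨i₀, hi₀⟩ := h0
      obtain ⟨Z, δ, h1, h2, h3⟩ := free_zero hA hx c i₀ P hP
      refine ⟨Z, δ, h1, fun i hi => ?_, h3⟩
      rw [c.inj (hi.trans hi₀.symm)]
      exact h2
    · obtain ⟨Z, δ, h1, h3⟩ := free hA hx c P hP
      exact ⟨Z, δ, h1, fun i hi => absurd ⟨i, hi⟩ h0, h3⟩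
  choose Q hQ1 hQ2 using fun e => split_mod N (c.w e) (P e) (by
    have h1 := hP e
    rwa [mul_comm N (c.w e)] at h1)
  choose Z δ hZ hδ hJ using fun r : Fin N => hfree (fun e => Q e r) (fun e => hQ1 e r)
  refine ⟨fun j => ∑ r : Fin N, X ^ (r : ℕ) * expand k N (Z r j),
    fun p => ∑ r : Fin N, δ r p.1.1 * (s p ^ ((r : ℕ) + 1) / (N * c.t p.1.1)), fun j => ?_,
    fun e => ?_⟩
  · refine lt_of_le_of_lt (degree_sum_le _ _) ?_
    refine (Finset.sup_lt_iff (WithBot.bot_lt_coe _)).2 fun r _ => ?_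
    exact degree_X_pow_mul_expand N (c.m (A.g j)) r r.2 _ (hZ r j)
  · have hgrad : ∀ G : MvPolynomial σ ℂ,
        MvPolynomial.aeval (fun j => (c.Y j).comp (X ^ N)) G =
          expand k N (MvPolynomial.aeval c.Y G) := by
      intro G
      have h1 := MvPolynomial.comp_aeval_apply (R := ℂ) c.Y
        ((expand k N).restrictScalars ℂ) G
      simp only [AlgHom.coe_restrictScalars', expand_eq_comp_X_pow] at h1
      rw [expand_eq_comp_X_pow]
      exact h1.symm
    have h1 : ∀ r : Fin N, X ^ (r : ℕ) * expand k N (c.Jac (Z r) (δ r) e) =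
        ∑ j, expand k N (MvPolynomial.aeval c.Y (MvPolynomial.pderiv j (A.F e))) *
          (X ^ (r : ℕ) * expand k N (Z r j)) +
        C (MvPolynomial.aeval x (A.F e)) * X ^ (N * c.b₀ e) *
          ∑ i : {i : c.ι // c.t i ≠ 0}, ∑ l : Fin N,
            C (δ r i.1 * (s (i, l) ^ ((r : ℕ) + 1) / (N * c.t i.1))) * uD (c.βN N) s e (i, l) := by
      intro r
      have h2 : ∑ i, C (δ r i) * uD c.β c.t e i =
          ∑ i : {i : c.ι // c.t i ≠ 0}, C (δ r i.1) * uD c.β c.t e i.1 := by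
        rw [← Finset.sum_filter_add_sum_filter_not Finset.univ (fun i => c.t i = 0)]
        rw [Finset.sum_eq_zero fun i hi => by
          rw [hδ r i (Finset.mem_filter.1 hi).2, C_0, zero_mul], zero_add]
        exact Finset.sum_subtype _ (fun i => by simp) _
      have h3 : ∀ i : {i : c.ι // c.t i ≠ 0}, X ^ (r : ℕ) *
          expand k N (C (δ r i.1) * uD c.β c.t e i.1) = X ^ (N * c.b₀ e) * ∑ l : Fin N,
            C (δ r i.1 * (s (i, l) ^ ((r : ℕ) + 1) / (N * c.t i.1))) *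
              uD (c.βN N) s e (i, l) := by
        intro i
        have h4 := uD_comp c N hN s hs hinj e i r r.2
        rw [map_mul, expand_C, expand_eq_comp_X_pow, mul_left_comm, h4, Finset.mul_sum,
          Finset.mul_sum]
        refine Finset.sum_congr rfl fun l _ => ?_
        rw [C_mul]
        ring
      unfold Cv.Jac JacW
      rw [h2, map_add, map_sum, map_mul, map_sum, mul_add, Finset.mul_sum]
      congr 1
      · refine Finset.sum_congr rfl fun j _ => ?_
        rw [map_mul]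
        ring
      · rw [Pi.one_apply, mul_one, expand_C, mul_left_comm, Finset.mul_sum,
          Finset.sum_congr rfl fun i _ => h3 i, ← Finset.mul_sum]
        ring
    have h2 : P e = ∑ r : Fin N, X ^ (r : ℕ) * expand k N (c.Jac (Z r) (δ r) e) := by
      rw [hQ2 e]
      exact Finset.sum_congr rfl fun r _ => by rw [hJ r e]
    rw [h2, Finset.sum_congr rfl fun r _ => h1 r, Finset.sum_add_distrib]
    unfold JacW
    congr 1
    · simp only [hgrad, Finset.mul_sum]
      exact Finset.sum_comm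
    · rw [← Finset.mul_sum]
      congr 1
      have h3 : ∑ p : {i : c.ι // c.t i ≠ 0} × Fin N,
          C (∑ r : Fin N, δ r p.1.1 * (s p ^ ((r : ℕ) + 1) / (N * c.t p.1.1))) *
            uD (c.βN N) s e p =
          ∑ i : {i : c.ι // c.t i ≠ 0}, ∑ l : Fin N,
            C (∑ r : Fin N, δ r i.1 * (s (i, l) ^ ((r : ℕ) + 1) / (N * c.t i.1))) *
              uD (c.βN N) s e (i, l) := by
        rw [← Fintype.sum_prod_type' (f := fun (i : {i : c.ι // c.t i ≠ 0}) (l : Fin N) =>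
          C (∑ r : Fin N, δ r i.1 * (s (i, l) ^ ((r : ℕ) + 1) / (N * c.t i.1))) *
              uD (c.βN N) s e (i, l))]
      have h4 : ∀ (i : {i : c.ι // c.t i ≠ 0}) (l : Fin N),
          C (∑ r : Fin N, δ r i.1 * (s (i, l) ^ ((r : ℕ) + 1) / (N * c.t i.1))) *
              uD (c.βN N) s e (i, l) =
          ∑ r : Fin N, C (δ r i.1 * (s (i, l) ^ ((r : ℕ) + 1) / (N * c.t i.1))) *
              uD (c.βN N) s e (i, l) := by
        intro i l
        rw [map_sum, Finset.sum_mul]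
      refine Eq.trans ?_ (h3.trans ?_)
      · refine Finset.sum_congr (by congr) fun p _ => rfl
      · rw [Finset.sum_comm (s := (Finset.univ : Finset (Fin N)))]
        refine Finset.sum_congr rfl fun i _ => ?_
        rw [Finset.sum_comm (s := (Finset.univ : Finset (Fin N)))]
        exact Finset.sum_congr rfl fun l _ => h4 i l

omit [Fintype I] [Fintype E] [DecidableEq E] in
/-- the `N`-th roots of the roots `t i ≠ 0` -/
theorem exists_pow_roots [IsAlgClosed k] (c : Cv A k x) (N : ℕ) (hN : 0 < N) :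
    ∃ s : {i : c.ι // c.t i ≠ 0} × Fin N → k,
      (∀ i, ∏ l, (X - C (s (i, l))) = X ^ N - C (c.t i.1)) ∧ Function.Injective s ∧
      (∀ p, s p ^ N = c.t p.1.1) ∧ ∀ p, s p ≠ 0 := by
  have hζ : IsPrimitiveRoot (algebraMap ℂ k (Complex.exp (2 * Real.pi * Complex.I / N))) N :=
    (Complex.isPrimitiveRoot_exp N hN.ne').map_of_injective (algebraMap ℂ k).injective
  set ζ : k := algebraMap ℂ k (Complex.exp (2 * Real.pi * Complex.I / N)) with hζdef
  choose a ha using fun i : {i : c.ι // c.t i ≠ 0} => IsAlgClosed.exists_pow_nat_eq (c.t i.1) hN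
  have ha0 : ∀ i, a i ≠ 0 := by
    intro i h
    apply i.2
    rw [← ha i, h, zero_pow hN.ne']
  have hpow : ∀ p : {i : c.ι // c.t i ≠ 0} × Fin N, (ζ ^ (p.2 : ℕ) * a p.1) ^ N = c.t p.1.1 := by
    intro p
    rw [mul_pow, ha, ← pow_mul, mul_comm (p.2 : ℕ) N, pow_mul, hζ.pow_eq_one, one_pow, one_mul]
  have hinj : ∀ i, Function.Injective fun l : Fin N => ζ ^ (l : ℕ) * a i := by
    intro i l l' h
    have h1 := mul_right_cancel₀ (ha0 i) h
    exact Fin.ext (hζ.pow_inj l.2 l'.2 h1)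
  refine ⟨fun p => ζ ^ (p.2 : ℕ) * a p.1, fun i => ?_, ?_, hpow, fun p h => ?_⟩
  · exact pow_nodal N hN (c.t i.1) _ (hinj i) fun l => hpow (i, l)
  · rintro ⟨i, l⟩ ⟨i', l'⟩ h
    have h1 : c.t i.1 = c.t i'.1 := by
      rw [← hpow (i, l), ← hpow (i', l')]
      exact congrArg (· ^ N) h
    have h2 : i = i' := Subtype.ext (c.inj h1)
    subst h2
    have h3 : l = l' := hinj i h
    rw [h3]
  · have h1 : ζ ^ (p.2 : ℕ) * a p.1 = 0 := h
    apply p.1.2
    rw [← hpow p, h1, zero_pow hN.ne']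

end Pool.Agent.Work.RP
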