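import Mathlib
import Pool.Agent.Work.MP_4329d7_ag_rp.Pow
import Pool.Agent.Work.MP_4329d7_ag_rp.Deform
import Pool.Agent.Work.MP_4329d7_ag_rp.SplitGen
import Pool.Agent.Work.MP_4329d7_ag_rc.Split
import Pool.Agent.Work.MP_4329d7_ag_rc.SplitAux

/-!
Splitting of the root `0` of a curve (generalisation of `MP_4329d7_ag_rc/Split.lean`, `SplitAi.lean`,
`CopRed.lean`).
-/

namespace Pool.Agent.Work.RP

open Polynomial
open Pool.Agent.Work.Uni (rootPoly)
open Pool.Agent.Work.RC (uD coeffD ccA rootPoly_sum uD_sum rootPoly_map ai_shift)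

section CopRed

/-- Coprimality lifts from the residue field of a local ring (see `RC.cop_of_red`). -/
theorem cop_of_red {σ : Type} [Fintype σ] {R κ : Type} [CommRing R] [IsLocalRing R] [Field κ]
    (ρ : R →+* κ)
    (hρ : Function.Surjective ρ) (hunit : ∀ r, IsUnit r ↔ ρ r ≠ 0) (Y : σ → R[X])
    (s₀ : σ) (hlead : IsUnit (Y s₀).leadingCoeff) (V : σ → κ[X])
    (hV : ∑ s, V s * (Y s).map ρ = 1) : ∃ V' : σ → R[X], ∑ s, V' s * Y s = 1 := by
  classical
  let I : Ideal R[X] := Ideal.span (Set.range Y)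
  suffices h : (1 : R[X]) ∈ I from Ideal.mem_span_range_iff_exists_fun.1 h
  obtain ⟨u, hu⟩ := hlead
  -- the monic multiple of `Y s₀`
  let g : R[X] := C ((u⁻¹ : Rˣ) : R) * Y s₀
  have hg : g.Monic := by
    have h1 : ((u⁻¹ : Rˣ) : R) * (Y s₀).leadingCoeff = 1 := by rw [← hu]; exact u.inv_mul
    exact monic_C_mul_of_mul_leadingCoeff_eq_one h1
  have hgI : Ideal.span {g} ≤ I := by
    rw [Ideal.span_singleton_le_iff_mem]
    exact I.mul_mem_left _ (Ideal.subset_span ⟨s₀, rfl⟩)
  have hfin : Module.Finite R (R[X] ⧸ Ideal.span {g}) := hg.finite_quotient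
  have hfin' : Module.Finite R (R[X] ⧸ I) :=
    Module.Finite.of_surjective (Ideal.Quotient.factorₐ R hgI).toLinearMap
      (Ideal.Quotient.factor_surjective hgI)
  -- lift of the relation
  have hlift : ∀ P : κ[X], ∃ P' : R[X], P'.map ρ = P := fun P => Polynomial.map_surjective ρ hρ P
  choose W hW using fun s => hlift (V s)
  have hz : ((1 : R[X]) - ∑ s, W s * Y s).map ρ = 0 := by
    rw [Polynomial.map_sub, Polynomial.map_one, Polynomial.map_sum, ← hV]
    simp only [Polynomial.map_mul, hW, sub_self]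
  have hmax : ∀ i, ((1 : R[X]) - ∑ s, W s * Y s).coeff i ∈ IsLocalRing.maximalIdeal R := by
    intro i
    rw [IsLocalRing.mem_maximalIdeal, mem_nonunits_iff, hunit, not_not]
    have h1 : (((1 : R[X]) - ∑ s, W s * Y s).map ρ).coeff i = 0 := by rw [hz, coeff_zero]
    rwa [coeff_map] at h1
  have h1mem : (1 : R[X] ⧸ I) ∈ (IsLocalRing.maximalIdeal R) • (⊤ : Submodule R (R[X] ⧸ I)) := by
    have h1 : (Ideal.Quotient.mk I) (1 : R[X])
        = (Ideal.Quotient.mk I) ((1 : R[X]) - ∑ s, W s * Y s) := by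
      rw [Ideal.Quotient.mk_eq_mk_iff_sub_mem]
      have h2 : (1 : R[X]) - (1 - ∑ s, W s * Y s) = ∑ s, W s * Y s := by ring
      rw [h2]
      exact Ideal.sum_mem _ fun s _ => I.mul_mem_left _ (Ideal.subset_span ⟨s, rfl⟩)
    rw [← map_one (Ideal.Quotient.mk I), h1]
    rw [Polynomial.as_sum_range' ((1 : R[X]) - ∑ s, W s * Y s) _ (Nat.lt_succ_self _), map_sum]
    refine Submodule.sum_mem _ fun i _ => ?_
    rw [← C_mul_X_pow_eq_monomial, ← smul_eq_C_mul]
    have h3 : (Ideal.Quotient.mk I) (((1 : R[X]) - ∑ s, W s * Y s).coeff i • (X ^ i : R[X]))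
        = ((1 : R[X]) - ∑ s, W s * Y s).coeff i • (Ideal.Quotient.mk I) (X ^ i : R[X]) := rfl
    rw [h3]
    exact Submodule.smul_mem_smul (hmax i) Submodule.mem_top
  have htop : (⊤ : Submodule R (R[X] ⧸ I)) ≤
      (IsLocalRing.maximalIdeal R) • (⊤ : Submodule R (R[X] ⧸ I)) := by
    rintro x -
    obtain ⟨P, rfl⟩ := Ideal.Quotient.mk_surjective x
    -- multiplication by `P` is `R`-linear
    let φ : (R[X] ⧸ I) →ₗ[R] (R[X] ⧸ I) := LinearMap.mulLeft R ((Ideal.Quotient.mk I) P)
    have h2 : φ 1 = (Ideal.Quotient.mk I) P := by simp [φ]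
    rw [← h2]
    have h3 := Submodule.mem_map_of_mem (f := φ) h1mem
    rw [Submodule.map_smul''] at h3
    exact Submodule.smul_mono le_rfl le_top h3
  have hbot := Submodule.eq_bot_of_le_smul_of_le_jacobson_bot (IsLocalRing.maximalIdeal R)
    (⊤ : Submodule R (R[X] ⧸ I)) hfin'.fg_top htop (IsLocalRing.maximalIdeal_le_jacobson _)
  have h1 : (1 : R[X] ⧸ I) ∈ (⊥ : Submodule R (R[X] ⧸ I)) := by
    rw [← hbot]
    exact Submodule.mem_top
  rw [Submodule.mem_bot] at h1
  exact Ideal.Quotient.eq_zero_iff_mem.1 h1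

/-- the version for a part of the coordinates -/
theorem cop_of_red' {σ : Type} [Fintype σ] {R κ : Type} [CommRing R] [IsLocalRing R] [Field κ]
    (ρ : R →+* κ) (hρ : Function.Surjective ρ) (hunit : ∀ r, IsUnit r ↔ ρ r ≠ 0) (Y : σ → R[X])
    (p : σ → Prop) [DecidablePred p] (s₀ : σ) (hs₀ : p s₀) (hlead : IsUnit (Y s₀).leadingCoeff)
    (V : σ → κ[X]) (hV : ∑ s, (if p s then V s * (Y s).map ρ else 0) = 1) :
    ∃ V' : σ → R[X], ∑ s, (if p s then V' s * Y s else 0) = 1 := by
  obtain ⟨V', hV'⟩ := cop_of_red ρ hρ hunit (fun s => if p s then Y s else 0) s₀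
    (by rwa [if_pos hs₀]) V (by
      rw [← hV]
      refine Finset.sum_congr rfl fun s _ => ?_
      split_ifs
      · rfl
      · rw [Polynomial.map_zero, mul_zero])
  refine ⟨V', ?_⟩
  rw [← hV']
  refine Finset.sum_congr rfl fun s _ => ?_
  split_ifs
  · rfl
  · rw [mul_zero]

end CopRed

variable {σ I E : Type} [Fintype σ] [Fintype I] [DecidableEq I] [Fintype E] [DecidableEq E]
  {A : Arr σ I E}

section New

variable {k : Type} [Field k] [Algebra ℂ k] {x : σ → k}

/-- the blocks of the new roots -/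
def Cv.γN (c : Cv A k x) (N : ℕ) : (Σ e : E, Fin (c.b₀ e)) → E → ℕ :=
  fun l e' => if e' = l.1 then N else 0

omit [Fintype I] in
theorem Cv.sum_γN (c : Cv A k x) (N : ℕ) (e : E) : ∑ l, c.γN N l e = N * c.b₀ e := by
  unfold Cv.γN
  rw [Fintype.sum_sigma]
  simp only
  rw [Finset.sum_eq_single e]
  · simp only [if_true, Finset.sum_const, Finset.card_univ, Fintype.card_fin, smul_eq_mul]
    ring
  · intro e' _ he
    exact Finset.sum_eq_zero fun l _ => if_neg fun h => he h.symm
  · intro h
    exact absurd (Finset.mem_univ _) h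

omit [Fintype I] [Fintype E] [DecidableEq E] in
theorem Cv.sum_βN (c : Cv A k x) (N : ℕ) (e : E) :
    ∑ i, c.βN N i e + N * c.b₀ e = N * ∑ i, c.β i e := by
  classical
  have h1 : ∑ i, c.βN N i e = N * ∑ i : {i : c.ι // c.t i ≠ 0}, c.β i.1 e := by
    have h2 : ∑ i, c.βN N i e =
        ∑ i : {i : c.ι // c.t i ≠ 0}, ∑ _l : Fin N, c.β i.1 e := by
      rw [← Fintype.sum_prod_type' (f := fun (i : {i : c.ι // c.t i ≠ 0}) (_ : Fin N) =>
        c.β i.1 e)]
      unfold Cv.βN
      exact Fintype.sum_congr _ _ fun p => rfl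
    rw [h2, Finset.mul_sum]
    refine Finset.sum_congr rfl fun i _ => ?_
    rw [Finset.sum_const, Finset.card_univ, Fintype.card_fin, smul_eq_mul]
  have h3 : ∑ i, c.β i e = c.b₀ e + ∑ i : {i : c.ι // c.t i ≠ 0}, c.β i.1 e := by
    have h4 : c.b₀ e = ∑ i with c.t i = 0, c.β i e := by
      unfold Cv.b₀
      exact Finset.sum_congr (by congr) fun _ _ => rfl
    have h5 : ∑ i with ¬ c.t i = 0, c.β i e = ∑ i : {i : c.ι // c.t i ≠ 0}, c.β i.1 e :=
      Finset.sum_subtype _ (fun i => by simp) _
    rw [h4, ← h5, Finset.sum_filter_add_sum_filter_not]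
  rw [h1, h3]
  ring

theorem Cv.sum_blocks (hA : A.Ok) (hx : AlgebraicIndependent ℂ x) (c : Cv A k x) (N : ℕ) (e : E) :
    ∑ i, c.βN N i e + ∑ l, c.γN N l e = ∑ i, A.d e i * (N * c.m i) := by
  rw [c.sum_γN N e, c.sum_βN N e, Cv.sum_β hA hx c e, Cv.w, Finset.mul_sum]
  exact Finset.sum_congr rfl fun i _ => by ring

omit [Fintype I] in
theorem Cv.rootPoly_γN (c : Cv A k x) (N : ℕ) {R : Type*} [CommRing R] (e : E) :
    rootPoly (c.γN N) (fun _ => (0 : R)) e = X ^ (N * c.b₀ e) := by
  unfold rootPoly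
  simp only [C_0, sub_zero]
  rw [Finset.prod_pow_eq_pow_sum, c.sum_γN N e]

omit [Fintype I] [Fintype E] in
theorem Cv.γN_mem (hA : A.Ok) (c : Cv A k x) (l : Σ e : E, Fin (c.b₀ e)) :
    (fun e => (c.γN A.N l e : ℤ)) ∈ A.L := by
  have h : (fun e => (c.γN A.N l e : ℤ)) = Pi.single l.1 (A.N : ℤ) := by
    funext e
    unfold Cv.γN
    by_cases he : e = l.1
    · subst he
      rw [if_pos rfl, Pi.single_eq_same]
    · rw [if_neg he, Pi.single_eq_of_ne he, Nat.cast_zero]
  rw [h]
  exact hA.N_mem l.1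

end New

/-- the result of the splitting construction -/
structure SplitData (A : Arr σ I E) {k : Type} [Field k] [Algebra ℂ k] {x : σ → k}
    (c : Cv A k x) : Type 1 where
  /-- the local ring -/
  R : Type
  [cR : CommRing R]
  [dR : IsDomain R]
  [aR : Algebra ℂ R]
  /-- the big field -/
  k' : Type
  [fk' : Field k']
  [ck' : IsAlgClosed k']
  [ak' : Algebra ℂ k']
  [aRk' : Algebra R k']
  [tower : IsScalarTower ℂ R k']
  /-- the residue field -/
  κ : Type
  [fκ : Field κ]
  [aκ : Algebra ℂ κ]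
  /-- the inclusion of the old field in the residue field -/
  j : k →ₐ[ℂ] κ
  /-- the residue map -/
  ρ : R →ₐ[ℂ] κ
  xR : σ → R
  YR : σ → R[X]
  c' : Cv A k' (fun s => algebraMap R k' (xR s))
  a : ℕ → ℂ
  S : Set ((Σ s : σ, Fin (c'.m (A.g s))) ⊕ c'.ι)
  inj : Function.Injective (algebraMap R k')
  unit_iff : ∀ r, IsUnit r ↔ ρ r ≠ 0
  x_red : ∀ s, ρ (xR s) = j (x s)
  Y_map : ∀ s, c'.Y s = (YR s).map (algebraMap R k')
  Y_red : ∀ s, (YR s).map (ρ : R →+* κ) = ((c.Y s).comp (X ^ A.N)).map (j : k →+* κ)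
  m_eq : ∀ i, c'.m i = A.N * c.m i
  Y_deg : ∀ s, (YR s).natDegree ≤ c'.m (A.g s)
  Y_lead : ∀ s, (YR s).coeff (c'.m (A.g s)) = xR s
  rig : Rig c' a S
  a_ne : ∀ l, a l ≠ 0
  t_cases : ∀ i, (∃ r : R, IsUnit r ∧ c'.t i = algebraMap R k' r) ∨
    (Sum.inr i ∈ S ∧ ∃ e₁, ∀ e, e ≠ e₁ → c'.β i e = 0)

attribute [instance] SplitData.cR SplitData.dR SplitData.aR SplitData.fk' SplitData.ck'
  SplitData.ak' SplitData.aRk' SplitData.tower SplitData.fκ SplitData.aκ

omit [Fintype σ] in
theorem aeval_expand {k : Type} [Field k] [Algebra ℂ k] (N : ℕ)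
    (G : MvPolynomial σ ℂ) (Y : σ → k[X]) :
    MvPolynomial.aeval (fun s => (Y s).comp (X ^ N)) G =
      (MvPolynomial.aeval Y G).comp (X ^ N) := by
  have h1 : ∀ p : k[X], p.comp (X ^ N) = ((expand k N).restrictScalars ℂ) p := fun p =>
    (expand_eq_comp_X_pow (R := k) N (f := p)).symm
  have h2 : (fun s => (Y s).comp (X ^ N)) = fun s => ((expand k N).restrictScalars ℂ) (Y s) :=
    funext fun s => h1 _
  rw [h2, h1, ← AlgHom.comp_apply, MvPolynomial.comp_aeval]

/-- the Jacobian at `Y(X ^ N)` is onto over every extension field -/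
theorem pow_free_ext (hA : A.Ok) {k : Type} [Field k] [Algebra ℂ k]
    {x : σ → k} (hx : AlgebraicIndependent ℂ x) (c : Cv A k x) (N : ℕ) (hN : 0 < N)
    (s : {i : c.ι // c.t i ≠ 0} × Fin N → k)
    (hs : ∀ i, ∏ l, (X - C (s (i, l))) = X ^ N - C (c.t i.1)) (hinj : Function.Injective s)
    {F : Type} [Field F] [Algebra ℂ F] (f : k →ₐ[ℂ] F)
    (P : E → F[X]) (hP : ∀ e, (P e).degree < (N * c.w e : ℕ)) :
    ∃ (Z : σ → F[X]) (δ : {i : c.ι // c.t i ≠ 0} × Fin N → F),
      (∀ j, (Z j).degree < (N * c.m (A.g j) : ℕ)) ∧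
      ∀ e, JacW A.F (fun s => f (x s)) (fun e => X ^ (N * c.b₀ e)) (c.βN N) (fun i => f (s i))
        (fun j => ((c.Y j).comp (X ^ N)).map (f : k →+* F)) Z δ e = P e := by
  classical
  have h1 : ∀ q : Σ e, Fin (N * c.w e), ∃ (Z : σ → k[X])
      (δ : {i : c.ι // c.t i ≠ 0} × Fin N → k), (∀ j, (Z j).degree < (N * c.m (A.g j) : ℕ)) ∧
      ∀ e, JacW A.F x (fun e => X ^ (N * c.b₀ e)) (c.βN N) s (fun j => (c.Y j).comp (X ^ N)) Z δ e
        = if e = q.1 then X ^ (q.2 : ℕ) else 0 := by
    intro q
    refine pow_free hA hx c N hN s hs hinj _ fun e => ?_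
    split_ifs with he
    · subst he
      rw [degree_X_pow]
      exact_mod_cast q.2.2
    · rw [degree_zero]
      exact WithBot.bot_lt_coe _
  choose Z δ hZ hδ using h1
  refine ⟨fun j => ∑ q : Σ e, Fin (N * c.w e), C ((P q.1).coeff q.2) *
      (Z q j).map (f : k →+* F), fun i => ∑ q : Σ e, Fin (N * c.w e),
      (P q.1).coeff q.2 * f (δ q i), fun j => ?_, fun e => ?_⟩
  · refine mem_degreeLT.1 (Submodule.sum_mem _ fun q _ => ?_)
    rw [← smul_eq_C_mul]
    exact Submodule.smul_mem _ _ (mem_degreeLT.2 (lt_of_le_of_lt degree_map_le (hZ q j)))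
  · rw [← JacW_sum]
    have h2 : ∀ q : Σ e, Fin (N * c.w e),
        JacW A.F (fun s => f (x s)) (fun e => X ^ (N * c.b₀ e)) (c.βN N) (fun i => f (s i))
          (fun j => ((c.Y j).comp (X ^ N)).map (f : k →+* F))
          (fun j => (Z q j).map (f : k →+* F)) (fun i => f (δ q i)) e =
        if e = q.1 then X ^ (q.2 : ℕ) else 0 := by
      intro q
      have h3 := congrArg (Polynomial.map (f : k →+* F)) (hδ q e)
      rw [JacW_map] at h3
      have h4 : (fun e : E => ((X : k[X]) ^ (N * c.b₀ e)).map (f : k →+* F)) =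
          fun e => X ^ (N * c.b₀ e) := by
        funext e
        rw [Polynomial.map_pow, map_X]
      rw [h4] at h3
      rw [h3]
      split_ifs
      · rw [Polynomial.map_pow, map_X]
      · exact Polynomial.map_zero _
    rw [Finset.sum_congr rfl fun q _ => by rw [h2 q], Fintype.sum_sigma,
      Finset.sum_eq_single e]
    · simp only [if_true]
      refine Polynomial.ext fun r => ?_
      rw [finsetSum_coeff]
      by_cases hr : r < N * c.w e
      · rw [Finset.sum_eq_single ⟨r, hr⟩]
        · rw [coeff_C_mul, coeff_X_pow, if_pos rfl, mul_one]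
        · intro i _ hi
          rw [coeff_C_mul, coeff_X_pow, if_neg, mul_zero]
          intro h6
          exact hi (Fin.ext h6.symm)
        · intro h6
          exact absurd (Finset.mem_univ _) h6
      · rw [coeff_eq_zero_of_degree_lt (lt_of_lt_of_le (hP e) (by exact_mod_cast not_lt.1 hr))]
        refine Finset.sum_eq_zero fun i _ => ?_
        rw [coeff_C_mul, coeff_X_pow, if_neg, mul_zero]
        have := i.2
        omega
    · intro e' _ he'
      refine Finset.sum_eq_zero fun i _ => ?_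
      rw [if_neg (fun h => he' h.symm), mul_zero]
    · intro h6
      exact absurd (Finset.mem_univ _) h6

set_option maxHeartbeats 4000000 in
theorem split_core (hA : A.Ok) {k : Type} [Field k] [Algebra ℂ k]
    {x : σ → k} (hx : AlgebraicIndependent ℂ x) (c : Cv A k x)
    (s : {i : c.ι // c.t i ≠ 0} × Fin A.N → k)
    (hs : ∀ i, ∏ l, (X - C (s (i, l))) = X ^ A.N - C (c.t i.1)) (hinj : Function.Injective s)
    (hs0 : ∀ i, s i ≠ 0)
    {F : Type} [Field F] [Algebra ℂ F] [Algebra k F] [IsScalarTower ℂ k F] (M : I → ℕ)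
    (hM : ∀ i, M i = A.N * c.m i)
    (θ : (Σ s : σ, Fin (M (A.g s))) ⊕
      (({i : c.ι // c.t i ≠ 0} × Fin A.N) ⊕ (Σ e, Fin (c.b₀ e))) → F)
    (hθ : AlgebraicIndependent k θ)
    {k' : Type} [Field k'] [IsAlgClosed k'] [Algebra ℂ k'] [Algebra (PowerSeries F) k']
    [IsScalarTower ℂ (PowerSeries F) k']
    (hk' : Function.Injective (algebraMap (PowerSeries F) k')) : Nonempty (SplitData A c) := by
  classical
  have hN := hA.N_pos
  set f : k →ₐ[ℂ] F := IsScalarTower.toAlgHom ℂ k F with hf
  set a : ℕ → ℂ := fun j => (j : ℂ) + 1 with ha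
  have hainj : Function.Injective a := by
    intro i j hij
    rw [ha] at hij
    simpa only [add_left_inj, Nat.cast_inj] using hij
  set Y₀ : σ → F[X] := fun s => ((c.Y s).comp (X ^ A.N)).map (f : k →+* F) with hY₀
  set p : (Σ e, Fin (c.b₀ e)) → PowerSeries F := fun l =>
    PowerSeries.X * PowerSeries.C (θ (Sum.inr (Sum.inr l))) with hp
  have hp0 : ∀ l, PowerSeries.constantCoeff (p l) = 0 := by
    intro l
    rw [hp]
    simp
  have hY₀deg : ∀ s, (Y₀ s).natDegree ≤ M (A.g s) := by
    intro s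
    refine natDegree_map_le.trans ?_
    rw [natDegree_comp, natDegree_X_pow, hM, mul_comm]
    exact Nat.mul_le_mul_left _ (c.deg s)
  have hY₀lead : ∀ s, (Y₀ s).coeff (M (A.g s)) = f (x s) := by
    intro s
    rw [hY₀]
    simp only [coeff_map]
    rw [← expand_eq_comp_X_pow, hM, mul_comm, coeff_expand_mul hN, c.lead]
    rfl
  have hD : ∀ e, ∑ i, A.d e i * M i = A.N * c.w e := by
    intro e
    rw [Cv.w, Finset.mul_sum]
    exact Finset.sum_congr rfl fun i _ => by rw [hM]; ring
  have hrp0 : ∀ e, rootPoly (c.γN A.N) (fun l => PowerSeries.constantCoeff (p l)) e =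
      (X : F[X]) ^ (A.N * c.b₀ e) := by
    intro e
    have h1 : (fun l => PowerSeries.constantCoeff (p l)) = fun _ => (0 : F) := funext hp0
    rw [h1, Cv.rootPoly_γN]
  obtain ⟨S₀, hS₀⟩ := deform A.F (fun s => M (A.g s)) (fun e => ∑ i, A.d e i * M i)
    (fun e => hA.homW M e) (fun s => f (x s)) a hainj (c.βN A.N) (c.γN A.N)
    (fun e => by simp only [hM]; exact Cv.sum_blocks hA hx c A.N e) Y₀ hY₀deg hY₀lead (fun i => f (s i)) p (by
      intro e
      rw [hrp0]
      have h1 : MvPolynomial.aeval Y₀ (A.F e) =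
          ((MvPolynomial.aeval c.Y (A.F e)).comp (X ^ A.N)).map (f : k →+* F) := by
        rw [← aeval_expand, aeval_map']
      rw [h1, c.eqn e, mul_comp, C_comp, rootPoly_comp_pow c A.N s hs, Polynomial.map_mul,
        Polynomial.map_mul, map_C, Polynomial.map_pow, map_X, rootPoly_map]
      have h2 := aeval_pt (A.F e) x f
      rw [← h2]
      rfl) (by
      intro P hP
      obtain ⟨Z, δ, hZ, hδ⟩ := pow_free_ext hA hx c A.N hN s hs hinj f P (by
        intro e
        rw [← hD e]
        exact hP e)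
      refine ⟨Z, δ, fun s' => by rw [hM]; exact hZ s', fun e => ?_⟩
      have h1 : rootPoly (c.γN A.N) (fun l => PowerSeries.constantCoeff (p l)) =
          fun e => (X : F[X]) ^ (A.N * c.b₀ e) := funext hrp0
      rw [h1]
      exact hδ e)
  -- the prescribed values
  set w₀ : (Σ s : σ, Fin (M (A.g s))) ⊕ (({i : c.ι // c.t i ≠ 0} × Fin A.N) ⊕ (Σ e, Fin (c.b₀ e))) →
      k := Sum.elim (fun q => ((c.Y q.1).comp (X ^ A.N)).eval (algebraMap ℂ k (a q.2)))
        (Sum.elim s 0) with hw₀
  set Θ : (Σ s : σ, Fin (M (A.g s))) ⊕ (({i : c.ι // c.t i ≠ 0} × Fin A.N) ⊕ (Σ e, Fin (c.b₀ e))) →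
      PowerSeries F := fun j => PowerSeries.C (f (w₀ j)) + PowerSeries.X * PowerSeries.C (θ j)
    with hΘ
  have hΘc : ∀ j, PowerSeries.constantCoeff (Θ j) = f (w₀ j) := by
    intro j
    rw [hΘ]
    simp
  obtain ⟨Y, t, hYdeg, hYlead, hYred, htred, hYS, htS, heqn, hker⟩ :=
    hS₀ (Sum.elim (fun q => Θ (Sum.inl q)) (fun i => Θ (Sum.inr (Sum.inl i)))) (by
      intro s' j
      rw [Sum.elim_inl, hΘc, hw₀, Sum.elim_inl, hY₀]
      simp only
      rw [eval_map]
      have h1 : algebraMap ℂ F (a j) = (f : k →+* F) (algebraMap ℂ k (a j)) :=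
        (f.commutes (a j)).symm
      rw [h1, eval₂_at_apply]
      rfl) (by
      intro i
      rw [Sum.elim_inr, hΘc, hw₀, Sum.elim_inr, Sum.elim_inl])
  set g : PowerSeries F →ₐ[ℂ] k' := IsScalarTower.toAlgHom ℂ (PowerSeries F) k' with hg
  have hg' : ∀ r, g r = algebraMap (PowerSeries F) k' r := fun r => rfl
  have hgi : Function.Injective g := hk'
  set T : ({i : c.ι // c.t i ≠ 0} × Fin A.N) ⊕ (Σ e, Fin (c.b₀ e)) → PowerSeries F :=
    Sum.elim t p with hT
  have hTinj : Function.Injective T := by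
    rintro (i | l) (i' | l') h
    · rw [hT, Sum.elim_inl, Sum.elim_inl] at h
      have h1 := congrArg PowerSeries.constantCoeff h
      rw [htred, htred] at h1
      rw [hinj (f.injective h1)]
    · rw [hT, Sum.elim_inl, Sum.elim_inr] at h
      have h1 := congrArg PowerSeries.constantCoeff h
      rw [htred, hp0, map_eq_zero_iff f f.injective] at h1
      exact absurd h1 (hs0 i)
    · rw [hT, Sum.elim_inl, Sum.elim_inr] at h
      have h1 := congrArg PowerSeries.constantCoeff h
      rw [htred, hp0, eq_comm, map_eq_zero_iff f f.injective] at h1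
      exact absurd h1 (hs0 i')
    · rw [hT, Sum.elim_inr, Sum.elim_inr] at h
      have h1 : PowerSeries.C (θ (Sum.inr (Sum.inr l))) =
          PowerSeries.C (θ (Sum.inr (Sum.inr l'))) :=
        mul_left_cancel₀ PowerSeries.X_ne_zero h
      have h2 := congrArg PowerSeries.constantCoeff h1
      rw [PowerSeries.constantCoeff_C, PowerSeries.constantCoeff_C] at h2
      exact Sum.inr.inj (hθ.injective h2)
  have hunit : ∀ r : PowerSeries F, IsUnit r ↔ PowerSeries.constantCoeff r ≠ 0 := by
    intro r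
    rw [PowerSeries.isUnit_iff_constantCoeff, isUnit_iff_ne_zero]
  have hcop : ∀ i, ∃ V : σ → (PowerSeries F)[X],
      ∑ s, (if A.g s = i then V s * Y s else 0) = 1 := by
    intro i
    obtain ⟨s₀, hs₀⟩ := c.surj i
    obtain ⟨V, hV⟩ := c.cop i
    refine cop_of_red' (PowerSeries.constantCoeff (R := F)) PowerSeries.constantCoeff_surj hunit Y
      (fun s => A.g s = i) s₀ hs₀ ?_ (fun s => ((V s).comp (X ^ A.N)).map (f : k →+* F)) ?_
    · have h1 : (Y s₀).natDegree = M (A.g s₀) := by
        refine le_antisymm (hYdeg s₀) (le_natDegree_of_ne_zero ?_)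
        rw [hYlead]
        intro h2
        have h3 := congrArg PowerSeries.constantCoeff h2
        rw [PowerSeries.constantCoeff_C, map_zero, map_eq_zero_iff f f.injective] at h3
        exact hx.ne_zero s₀ h3
      rw [leadingCoeff, h1, hYlead, hunit, PowerSeries.constantCoeff_C]
      intro h3
      rw [map_eq_zero_iff f f.injective] at h3
      exact hx.ne_zero s₀ h3
    · have h1 : ∀ s, (if A.g s = i then ((V s).comp (X ^ A.N)).map (f : k →+* F) *
          (Y s).map PowerSeries.constantCoeff else 0) =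
          ((if A.g s = i then V s * c.Y s else 0).comp (X ^ A.N)).map (f : k →+* F) := by
        intro s
        split_ifs
        · rw [hYred, hY₀, mul_comp, Polynomial.map_mul]
        · rw [zero_comp, Polynomial.map_zero]
      have h2 : ∑ s, (if A.g s = i then V s * c.Y s else 0).comp (X ^ A.N) = 1 := by
        have h3 := congrArg (compRingHom (X ^ A.N : k[X])) hV
        rw [map_sum, map_one] at h3
        exact h3
      rw [Finset.sum_congr rfl fun s _ => h1 s, ← Polynomial.map_sum, h2, Polynomial.map_one]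
  have heqT : ∀ e, MvPolynomial.aeval (fun s => (Y s).map (g : PowerSeries F →+* k')) (A.F e) =
      C (MvPolynomial.aeval (fun s => g (PowerSeries.C (f (x s)))) (A.F e)) *
        rootPoly (Sum.elim (c.βN A.N) (c.γN A.N)) (fun i => g (T i)) e := by
    intro e
    rw [← aeval_map', heqn e, Polynomial.map_mul, Polynomial.map_mul, map_C, rootPoly_map,
      rootPoly_map, rootPoly_sum, ← aeval_pt]
    rfl
  let c' : Cv A k' (fun s => algebraMap (PowerSeries F) k' (PowerSeries.C (f (x s)))) :=
    { m := M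
      ι := ({i : c.ι // c.t i ≠ 0} × Fin A.N) ⊕ (Σ e, Fin (c.b₀ e))
      β := Sum.elim (c.βN A.N) (c.γN A.N)
      t := fun i => g (T i)
      Y := fun s => (Y s).map (algebraMap (PowerSeries F) k')
      mem := by
        rintro (i | l)
        · exact c.mem i.1.1
        · exact Cv.γN_mem hA c l
      inj := hgi.comp hTinj
      deg := fun s => natDegree_map_le.trans (hYdeg s)
      lead := fun s => by rw [coeff_map, hYlead]
      cop := by
        intro i
        obtain ⟨V, hV⟩ := hcop i
        refine ⟨fun s => (V s).map (algebraMap (PowerSeries F) k'), ?_⟩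
        rw [← Polynomial.map_one (algebraMap (PowerSeries F) k'), ← hV, Polynomial.map_sum]
        refine Finset.sum_congr rfl fun s _ => ?_
        split_ifs
        · exact (Polynomial.map_mul _).symm
        · exact (Polynomial.map_zero _).symm
      eqn := heqT }
  set S : Set ((Σ s : σ, Fin (M (A.g s))) ⊕
      (({i : c.ι // c.t i ≠ 0} × Fin A.N) ⊕ (Σ e, Fin (c.b₀ e)))) :=
    {j | Sum.elim (fun q => Sum.inl q ∈ S₀)
      (Sum.elim (fun i => Sum.inr i ∈ S₀) (fun _ => True)) j} with hS
  have hrig : Rig c' a S := by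
    refine ⟨hainj, ?_, ?_⟩
    · -- algebraic independence
      have h1 := ai_shift (k := k) (F := F) (algebraMap (PowerSeries F) k') hk' (by
        intro z
        have h2 : algebraMap k F (algebraMap ℂ k z) = algebraMap ℂ F z :=
          (IsScalarTower.algebraMap_apply ℂ k F z).symm
        rw [h2]
        have h3 : (PowerSeries.C (algebraMap ℂ F z) : PowerSeries F) =
            algebraMap ℂ (PowerSeries F) z := by rw [PowerSeries.algebraMap_apply]
        rw [h3, ← IsScalarTower.algebraMap_apply]) x hx (fun j : S => w₀ j.1)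
        (fun j : S => θ j.1) (hθ.comp _ Subtype.val_injective)
      have h2 : (Sum.elim (fun i => algebraMap (PowerSeries F) k' (PowerSeries.C (f (x i))))
          (fun j : S => c'.par a j.1)) = Sum.elim
          (fun i => algebraMap (PowerSeries F) k' (PowerSeries.C (algebraMap k F (x i))))
          (fun j : S => algebraMap (PowerSeries F) k' (PowerSeries.C (algebraMap k F (w₀ j.1)) +
            PowerSeries.X * PowerSeries.C (θ j.1))) := by
        funext j
        rcases j with i | ⟨j, hj⟩
        · rfl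
        · rw [Sum.elim_inr, Sum.elim_inr]
          rcases j with ⟨s', j⟩ | i | l
          · have h3 := hYS s' j hj
            rw [Sum.elim_inl] at h3
            change ((Y s').map (algebraMap (PowerSeries F) k')).eval (algebraMap ℂ k' (a j)) = _
            rw [IsScalarTower.algebraMap_apply ℂ (PowerSeries F) k', eval_map, eval₂_at_apply, h3]
            rfl
          · have h3 := htS i hj
            rw [Sum.elim_inr] at h3
            change algebraMap (PowerSeries F) k' (t i) = _
            rw [h3]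
            rfl
          · change algebraMap (PowerSeries F) k' (p l) = _
            congr 1
            change PowerSeries.X * PowerSeries.C (θ (Sum.inr (Sum.inr l))) =
              PowerSeries.C (algebraMap k F 0) + PowerSeries.X *
                PowerSeries.C (θ (Sum.inr (Sum.inr l)))
            rw [map_zero, map_zero, zero_add]
      exact h2 ▸ h1
    · intro Z δ hZ hJ hZS hδS
      have hδΛ : ∀ l, δ (Sum.inr l) = 0 := fun l => hδS _ trivial
      have h1 := hker k' g hgi Z (fun i => δ (Sum.inl i)) hZ (fun s' j hj => hZS s' j hj)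
        (fun i hi => hδS _ hi) (by
        intro e
        have h2 : c'.Jac Z δ e = 0 := hJ e
        rw [← h2]
        change JacW A.F _ _ (c.βN A.N) _ _ Z _ e = JacW A.F _ 1 (Sum.elim (c.βN A.N) (c.γN A.N))
          (fun i => g (T i)) _ Z δ e
        unfold JacW
        refine congrArg₂ (· + ·) rfl ?_
        rw [Pi.one_apply, mul_one, Fintype.sum_sum_type, mul_assoc, Finset.mul_sum]
        have h3 : ∑ l, C (δ (Sum.inr l)) * uD (Sum.elim (c.βN A.N) (c.γN A.N))
            (fun i => g (T i)) e (Sum.inr l) = 0 :=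
          Finset.sum_eq_zero fun l _ => by rw [hδΛ, C_0, zero_mul]
        rw [h3, add_zero]
        refine congrArg₂ (· * ·) rfl (Finset.sum_congr rfl fun i _ => ?_)
        have h4 : (rootPoly (c.γN A.N) p e).map (g : PowerSeries F →+* k') =
            rootPoly (c.γN A.N) (fun l => g (T (Sum.inr l))) e := rootPoly_map _ _ _ _
        rw [uD_sum, ← h4, mul_left_comm]
        rfl)
      refine ⟨h1.1, funext fun i => ?_⟩
      rcases i with i | l
      · exact congrFun h1.2 i
      · exact hδΛ l
  refine ⟨{ R := PowerSeries F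
            k' := k'
            κ := F
            j := f
            ρ := ccA F
            xR := fun s => PowerSeries.C (f (x s))
            YR := Y
            c' := c'
            a := a
            S := S
            inj := hk'
            unit_iff := hunit
            x_red := fun s => PowerSeries.constantCoeff_C _
            Y_map := fun s => rfl
            Y_red := fun s => hYred s
            m_eq := hM
            Y_deg := hYdeg
            Y_lead := hYlead
            rig := hrig
            a_ne := fun l => ?_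
            t_cases := ?_ }⟩
  · exact Nat.cast_add_one_ne_zero l
  · rintro (i | l)
    · left
      refine ⟨t i, (hunit _).2 ?_, rfl⟩
      rw [htred, Ne, map_eq_zero_iff f f.injective]
      exact hs0 i
    · right
      refine ⟨trivial, l.1, fun e he => ?_⟩
      exact if_neg he

theorem exists_split (hA : A.Ok) {k : Type} [Field k] [Algebra ℂ k] [IsAlgClosed k]
    {x : σ → k} (hx : AlgebraicIndependent ℂ x) (c : Cv A k x) :
    Nonempty (SplitData A c) := by
  obtain ⟨s, hs, hinj, -, hs0⟩ := exists_pow_roots c A.N hA.N_pos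
  let τ := (Σ s : σ, Fin (A.N * c.m (A.g s))) ⊕
    (({i : c.ι // c.t i ≠ 0} × Fin A.N) ⊕ (Σ e, Fin (c.b₀ e)))
  let F := FractionRing (MvPolynomial τ k)
  let θ : τ → F := fun j => algebraMap (MvPolynomial τ k) F (MvPolynomial.X j)
  have hθ : AlgebraicIndependent k θ := by
    have h1 : AlgebraicIndependent k (MvPolynomial.X : τ → MvPolynomial τ k) :=
      MvPolynomial.algebraicIndependent_X τ k
    exact h1.map' (f := IsScalarTower.toAlgHom k (MvPolynomial τ k) F)
      (IsFractionRing.injective (MvPolynomial τ k) F)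
  have hk' : Function.Injective (algebraMap (PowerSeries F)
      (AlgebraicClosure (FractionRing (PowerSeries F)))) := by
    rw [IsScalarTower.algebraMap_eq (PowerSeries F) (FractionRing (PowerSeries F))
      (AlgebraicClosure (FractionRing (PowerSeries F)))]
    exact (algebraMap (FractionRing (PowerSeries F)) _).injective.comp
      (IsFractionRing.injective (PowerSeries F) (FractionRing (PowerSeries F)))
  exact split_core hA hx c s hs hinj hs0 (fun i => A.N * c.m i) (fun _ => rfl) θ hθ hk'

end Pool.Agent.Work.RP
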