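import Mathlib
import Pool.Agent.Work.MP_4329d7_ag_rp.Split
import Pool.Agent.Work.MP_4329d7_ag_rp.Rank
import Pool.Agent.Work.MP_4329d7_ag_rc.Root
import Pool.Agent.Work.MP_4329d7_ag_rc.CoprimeFin

/-!
The contradiction (generalisation of `MP_4329d7_ag_rc/Picard.lean`): if the relatively prime
polynomials `P`, `Q` satisfy `P(x) Q(Y) = Q(x) P(Y)` for all curves then they do not involve the
coordinates which move on some curve.

Proof as in `MP_4329d7_ag_rc/Picard.lean` with the weights `w s = c.m (g s)` (`natDegree_aeval_le'`,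
`coeff_aeval'`, `top_ne_zero`): if `s₁` occurs in `Q` then `weightedTotalDegree w Q > 0`, so
`Q(Y(X))` has a root; if it occurs only in `P` then `P(Y)` is not constant but `Q(x) P(Y) = P(x) Q(Y)`
would be (if `weightedTotalDegree w Q = 0`).
-/

namespace Pool.Agent.Work.RP

open Polynomial
open Pool.Agent.Work.Uni (rootPoly)
open Pool.Agent.Work.RC (uD coeffD)

namespace Picard

/-- a nonzero polynomial is not zero at a generic point -/
theorem aeval_ne_zero_of_ai {σ k : Type*} [Field k] [Algebra ℂ k] {x : σ → k}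
    (hx : AlgebraicIndependent ℂ x) {P : MvPolynomial σ ℂ} (hP : P ≠ 0) :
    MvPolynomial.aeval x P ≠ 0 := by
  intro h
  exact hP (hx (by rw [h, map_zero]))

theorem map_aeval_alg {σ R S : Type*} [CommRing R] [Algebra ℂ R] [CommRing S] [Algebra ℂ S]
    (f : R →ₐ[ℂ] S) (y : σ → R) (P : MvPolynomial σ ℂ) :
    f (MvPolynomial.aeval y P) = MvPolynomial.aeval (fun s => f (y s)) P := by
  rw [← MvPolynomial.comp_aeval_apply]

/-- `P(Y.comp q) = (P(Y)).comp q` -/
theorem aeval_comp {σ k : Type*} [CommRing k] [Algebra ℂ k] (Y : σ → k[X]) (q : k[X])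
    (P : MvPolynomial σ ℂ) :
    MvPolynomial.aeval (fun s => (Y s).comp q) P = (MvPolynomial.aeval Y P).comp q :=
  (map_aeval_alg ((Polynomial.aeval q : k[X] →ₐ[k] k[X]).restrictScalars ℂ) Y P).symm

/-- `P(Y.map f) = (P(Y)).map f` -/
theorem aeval_map {σ R S : Type*} [CommRing R] [Algebra ℂ R] [CommRing S] [Algebra ℂ S]
    (f : R →ₐ[ℂ] S) (Y : σ → R[X]) (P : MvPolynomial σ ℂ) :
    MvPolynomial.aeval (fun s => (Y s).map (f : R →+* S)) P =
      (MvPolynomial.aeval Y P).map (f : R →+* S) :=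
  (map_aeval_alg (Polynomial.mapAlgHom f) Y P).symm

/-- `P(Y(s)) = (P(Y))(s)` -/
theorem aeval_eval {σ k : Type*} [CommRing k] [Algebra ℂ k] (Y : σ → k[X]) (s : k)
    (P : MvPolynomial σ ℂ) :
    MvPolynomial.aeval (fun j => (Y j).eval s) P = (MvPolynomial.aeval Y P).eval s :=
  (map_aeval_alg ((Polynomial.aeval s : k[X] →ₐ[k] k).restrictScalars ℂ) Y P).symm

/-- a variable of positive weight makes the weighted degree positive -/
theorem wdeg_pos {σ : Type*} {P : MvPolynomial σ ℂ} {w : σ → ℕ} {s : σ} (hs : s ∈ P.vars)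
    (hw : 0 < w s) : 0 < MvPolynomial.weightedTotalDegree w P := by
  obtain ⟨d, hd, hsd⟩ := (MvPolynomial.mem_vars_iff_mem_support s).1 hs
  have h1 := MvPolynomial.le_weightedTotalDegree w hd
  have h2 : w s ≤ Finsupp.weight w d :=
    Finsupp.le_weight_of_ne_zero' w (Finsupp.mem_support_iff.1 hsd)
  omega

end Picard

open Picard

variable {σ I E : Type} [Fintype σ] [Fintype I] [DecidableEq I] [Fintype E] [DecidableEq E]
  {A : Arr σ I E}

/-- the contradiction at a root at `0` -/
theorem no_relation_zero [Nonempty σ] (hA : A.Ok) {k : Type} [Field k] [Algebra ℂ k]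
    [IsAlgClosed k] {x : σ → k} (hx : AlgebraicIndependent ℂ x) (c : Cv A k x)
    (P Q : MvPolynomial σ ℂ) (hPQ : IsRelPrime P Q) (hQ : Q ≠ 0)
    (h0 : (MvPolynomial.aeval c.Y Q).eval 0 = 0)
    (hrel : ∀ (k' : Type) [Field k'] [Algebra ℂ k'] [IsAlgClosed k'] (x' : σ → k'),
      AlgebraicIndependent ℂ x' → ∀ c' : Cv A k' x',
        C (MvPolynomial.aeval x' P) * MvPolynomial.aeval c'.Y Q =
          C (MvPolynomial.aeval x' Q) * MvPolynomial.aeval c'.Y P) : False := by
  obtain ⟨D⟩ := exists_split hA hx c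
  -- the base point is generic
  have hx' : AlgebraicIndependent ℂ (fun s => algebraMap D.R D.k' (D.xR s)) := by
    have h := D.rig.ai.comp Sum.inl Sum.inl_injective
    exact h
  let QR : D.R[X] := MvPolynomial.aeval D.YR Q
  let w : σ → ℕ := fun s => D.c'.m (A.g s)
  -- the top coefficient
  have htop : IsUnit (QR.coeff (MvPolynomial.weightedTotalDegree w Q)) := by
    have h1 : QR.coeff (MvPolynomial.weightedTotalDegree w Q) =
        MvPolynomial.aeval D.xR
          (MvPolynomial.weightedHomogeneousComponent w (MvPolynomial.weightedTotalDegree w Q) Q) := by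
      change (MvPolynomial.aeval D.YR Q).coeff _ = _
      rw [coeff_aeval' Q (w := w) D.YR D.Y_deg]
      have h : (fun s => (D.YR s).coeff (w s)) = D.xR := funext D.Y_lead
      rw [h]
    rw [D.unit_iff, h1, map_aeval_alg]
    have h2 : (fun s => D.ρ (D.xR s)) = fun s => D.j (x s) := funext D.x_red
    rw [h2, ← map_aeval_alg]
    intro h3
    have hj : Function.Injective D.j := (D.j : k →+* D.κ).injective
    exact aeval_ne_zero_of_ai hx (top_ne_zero hQ w) (hj (by rw [h3, map_zero]))
  have hlead : IsUnit QR.leadingCoeff := by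
    have hne : QR.coeff (MvPolynomial.weightedTotalDegree w Q) ≠ 0 := htop.ne_zero
    have h1 : QR.natDegree ≤ MvPolynomial.weightedTotalDegree w Q :=
      natDegree_aeval_le' Q (w := w) D.YR D.Y_deg
    have h2 : MvPolynomial.weightedTotalDegree w Q ≤ QR.natDegree := le_natDegree_of_ne_zero hne
    rw [leadingCoeff, le_antisymm h1 h2]
    exact htop
  -- the constant coefficient
  have hconst : ¬ IsUnit (QR.coeff 0) := by
    rw [D.unit_iff, not_not]
    have h1 : D.ρ (QR.coeff 0) = (QR.map (D.ρ : D.R →+* D.κ)).coeff 0 := by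
      rw [coeff_map]
      rfl
    have h2 : QR.map (D.ρ : D.R →+* D.κ) =
        ((MvPolynomial.aeval c.Y Q).comp (X ^ A.N)).map (D.j : k →+* D.κ) := by
      change (MvPolynomial.aeval D.YR Q).map (D.ρ : D.R →+* D.κ) = _
      rw [← aeval_map]
      have h3 : (fun s => (D.YR s).map (D.ρ : D.R →+* D.κ)) =
          fun s => ((c.Y s).comp (X ^ A.N)).map (D.j : k →+* D.κ) := funext D.Y_red
      rw [h3, aeval_map D.j (fun s => (c.Y s).comp (X ^ A.N)) Q, Picard.aeval_comp]
    rw [h1, h2, coeff_map, coeff_zero_eq_eval_zero, eval_comp, eval_pow, eval_X,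
      zero_pow hA.N_pos.ne', h0, map_zero]
  obtain ⟨s, hs, hsu⟩ := RC.exists_nonunit_root D.inj QR hlead hconst
  have hs1 : ∀ j, s ≠ algebraMap ℂ D.k' (D.a j) := by
    intro j hj
    have hu : IsUnit (algebraMap ℂ D.R (D.a j)) :=
      (isUnit_iff_ne_zero.2 (D.a_ne j)).map (algebraMap ℂ D.R)
    apply hsu _ hu
    rw [hj, IsScalarTower.algebraMap_apply ℂ D.R D.k']
  have hs2 : ∀ i, s = D.c'.t i → Sum.inr i ∈ D.S ∧ ∃ e₁, ∀ e, e ≠ e₁ → D.c'.β i e = 0 := by
    intro i hi
    rcases D.t_cases i with ⟨r, hr, hri⟩ | h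
    · exact absurd (hi.trans hri) (hsu r hr)
    · exact h
  obtain ⟨j₀, hj₀⟩ := rank D.c' D.a D.S D.rig s hs1 hs2
  have hQs : (MvPolynomial.aeval D.c'.Y Q).eval s = 0 := by
    have h1 : MvPolynomial.aeval D.c'.Y Q = QR.map (algebraMap D.R D.k') := by
      have h2 : D.c'.Y = fun s => (D.YR s).map
          ((IsScalarTower.toAlgHom ℂ D.R D.k' : D.R →ₐ[ℂ] D.k') : D.R →+* D.k') :=
        funext D.Y_map
      rw [h2, aeval_map]
      rfl
    rw [h1, eval_map_algebraMap]
    exact hs
  have hPs : (MvPolynomial.aeval D.c'.Y P).eval s = 0 := by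
    have h1 := congrArg (fun p => p.eval s) (hrel D.k' _ hx' D.c')
    simp only [eval_mul, eval_C, hQs, mul_zero] at h1
    exact (mul_eq_zero.1 h1.symm).resolve_left (aeval_ne_zero_of_ai hx' hQ)
  refine RC.no_common_zero' hPQ (y := fun j => (D.c'.Y j).eval s) ?_ ?_ hj₀
  · rw [aeval_eval]
    exact hPs
  · rw [aeval_eval]
    exact hQs

theorem no_relation (hA : A.Ok) {k : Type} [Field k] [Algebra ℂ k] [IsAlgClosed k]
    {x : σ → k} (hx : AlgebraicIndependent ℂ x) (c : Cv A k x)
    (P Q : MvPolynomial σ ℂ) (hPQ : IsRelPrime P Q) (s₁ : σ) (hs₁ : s₁ ∈ P.vars ∨ s₁ ∈ Q.vars)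
    (hm : 0 < c.m (A.g s₁))
    (hrel : ∀ (k' : Type) [Field k'] [Algebra ℂ k'] [IsAlgClosed k'] (x' : σ → k'),
      AlgebraicIndependent ℂ x' → ∀ c' : Cv A k' x',
        C (MvPolynomial.aeval x' P) * MvPolynomial.aeval c'.Y Q =
          C (MvPolynomial.aeval x' Q) * MvPolynomial.aeval c'.Y P) : False := by
  have : Nonempty σ := ⟨s₁⟩
  let w : σ → ℕ := fun s => c.m (A.g s)
  have hcoef : ∀ G : MvPolynomial σ ℂ, G ≠ 0 →
      (MvPolynomial.aeval c.Y G).coeff (MvPolynomial.weightedTotalDegree w G) ≠ 0 := by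
    intro G hG
    rw [coeff_aeval' G (w := w) c.Y c.deg]
    have h : (fun s => (c.Y s).coeff (w s)) = x := funext c.lead
    rw [h]
    exact aeval_ne_zero_of_ai hx (top_ne_zero hG w)
  -- `Q` is not zero
  have hQ0 : Q ≠ 0 := by
    intro h
    have hu : IsUnit P := hPQ dvd_rfl (by rw [h]; exact dvd_zero _)
    have hP : P = MvPolynomial.C (P.coeff 0) :=
      MvPolynomial.totalDegree_eq_zero_iff_eq_C.1
        (MvPolynomial.isUnit_iff_totalDegree_of_isReduced.1 hu).2
    rcases hs₁ with h1 | h1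
    · rw [hP, MvPolynomial.vars_C] at h1
      exact absurd h1 (Finset.notMem_empty _)
    · rw [h, MvPolynomial.vars_0] at h1
      exact absurd h1 (Finset.notMem_empty _)
  -- the weighted degree of `Q` is positive
  have hQ1 : 0 < MvPolynomial.weightedTotalDegree w Q := by
    rcases hs₁ with h1 | h1
    · rw [Nat.pos_iff_ne_zero]
      intro h
      have hP1 : 0 < MvPolynomial.weightedTotalDegree w P := wdeg_pos h1 hm
      have hP0 : P ≠ 0 := by
        rintro rfl
        rw [MvPolynomial.vars_0] at h1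
        exact absurd h1 (Finset.notMem_empty _)
      have h2 := congrArg (fun p : k[X] => p.coeff (MvPolynomial.weightedTotalDegree w P))
        (hrel k x hx c)
      simp only [coeff_C_mul] at h2
      have h3 : (MvPolynomial.aeval c.Y Q).coeff (MvPolynomial.weightedTotalDegree w P) = 0 := by
        apply coeff_eq_zero_of_natDegree_lt
        have h4 := natDegree_aeval_le' Q (w := w) c.Y c.deg
        omega
      rw [h3, mul_zero] at h2
      rcases mul_eq_zero.1 h2.symm with h5 | h5
      · exact aeval_ne_zero_of_ai hx hQ0 h5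
      · exact hcoef P hP0 h5
    · exact wdeg_pos h1 hm
  -- a root of `Q(Y)`
  have hdeg : (MvPolynomial.aeval c.Y Q).degree ≠ 0 := by
    intro h
    have h1 := le_degree_of_ne_zero (hcoef Q hQ0)
    rw [h] at h1
    have h2 : MvPolynomial.weightedTotalDegree w Q ≤ 0 := by exact_mod_cast h1
    omega
  obtain ⟨s₀, hs₀⟩ := IsAlgClosed.exists_root _ hdeg
  refine no_relation_zero hA hx (c.translate s₀) P Q hPQ hQ0 ?_ hrel
  change (MvPolynomial.aeval (fun s => (c.Y s).comp (X + C s₀)) Q).eval 0 = 0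
  rw [Picard.aeval_comp, eval_comp, eval_add, eval_X, eval_C, zero_add]
  exact hs₀

end Pool.Agent.Work.RP
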