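import Mathlib
import Pool.Agent.Work.MP_4329d7_ag_rp.Defs
import Pool.Agent.Work.MP_4329d7_ag_rc.SncDefs
import Pool.Agent.Work.MP_4329d7_ag_snc.Defs

/-!
The branch data of an abelian cover of a product of projective spaces (`Snc.SncData`) satisfy
`Arr.Ok`.
-/

namespace Pool.Agent.Work.RP

open Pool.Agent.Work.Snc (SncData Co)
open MvPolynomial

/-- the branch data; `L` = the vectors `b` with `N ∣ ∑ b c` for all radicals -/
noncomputable def sncArr {K I : Type} {n : I → ℕ} {E : Type} [Fintype E]
    (F : E → MvPolynomial (Co I n) ℂ) (d : E → I → ℕ) (N : ℕ) (S : Set (K × (E → ℕ))) :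
    Arr (Co I n) I E where
  g := Sigma.fst
  F := F
  d := d
  L :=
    { carrier := {b | ∀ z c, (z, c) ∈ S → (N : ℤ) ∣ ∑ e, b e * (c e : ℤ)}
      zero_mem' := fun z c _ => by simp
      add_mem' := fun {u v} hu hv z c h => by
        have := dvd_add (hu z c h) (hv z c h)
        rw [← Finset.sum_add_distrib] at this
        simpa [add_mul] using this
      neg_mem' := fun {u} hu z c h => by
        have := (dvd_neg (α := ℤ)).2 (hu z c h)
        rw [← Finset.sum_neg_distrib] at this
        simpa [neg_mul] using this }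
  N := N

/-- the gradients are independent over all fields -/
theorem snc_baseP {I : Type} [Fintype I] {n : I → ℕ} {E : Type} [Fintype E]
    {F : E → MvPolynomial (Co I n) ℂ}
    (hsnc : ∀ P : Co I n → ℂ, Snc.IsPoint P →
      LinearIndependent ℂ (fun e : {e // eval P (F e) = 0} => fun s => eval P (pderiv s (F e.1))))
    (k : Type) [Field k] [Algebra ℂ k] (P : Co I n → k)
    (hP : IsPt (Sigma.fst : Co I n → I) P) :
    LinearIndependent k (fun (e : {e : E // aeval P (F e) = 0})
      (s : Co I n) => aeval P (pderiv s (F e.1))) := by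
  classical
  rw [Fintype.linearIndependent_iff]
  intro a ha e0
  by_contra hne
  have hP1 : ∀ i, ∃ j : Fin (n i + 1), P ⟨i, j⟩ ≠ 0 := by
    intro i
    obtain ⟨⟨i', j⟩, hi, h⟩ := hP i
    simp only at hi
    subst hi
    exact ⟨j, h⟩
  choose j hPj using hP1
  let ξ : Co I n ⊕ {e : E // aeval P (F e) = 0} → k := Sum.elim P a
  obtain ⟨p, hp, hpf⟩ := RC.exists_spec ξ ((∏ i, X (Sum.inl ⟨i, j i⟩)) * X (Sum.inr e0)) (by
    rw [map_mul, aeval_X, map_prod]
    refine mul_ne_zero (Finset.prod_ne_zero_iff.2 fun i _ => ?_) hne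
    rw [aeval_X]
    exact hPj i)
  rw [map_mul, eval_X, map_prod] at hpf
  let P' : Co I n → ℂ := fun s => p (Sum.inl s)
  have h1 : ∀ G : MvPolynomial (Co I n) ℂ, aeval ξ (rename Sum.inl G) = aeval P G := by
    intro G
    rw [aeval_rename]
    rfl
  have h2 : ∀ G : MvPolynomial (Co I n) ℂ, eval p (rename Sum.inl G) = eval P' G := by
    intro G
    rw [eval_rename]
    rfl
  have hP' : Snc.IsPoint P' := by
    intro i
    have h3 := Finset.prod_ne_zero_iff.1 (left_ne_zero_of_mul hpf) i (Finset.mem_univ i)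
    rw [eval_X] at h3
    exact ⟨j i, h3⟩
  have hz : ∀ e : {e : E // aeval P (F e) = 0}, eval P' (F e.1) = 0 := by
    intro e
    rw [← h2]
    exact hp _ (by rw [h1]; exact e.2)
  have hrel : ∀ s, ∑ e : {e : E // aeval P (F e) = 0},
      p (Sum.inr e) * eval P' (pderiv s (F e.1)) = 0 := by
    intro s
    have h3 := hp (∑ e : {e : E // aeval P (F e) = 0},
      X (Sum.inr e) * rename Sum.inl (pderiv s (F e.1))) (by
        rw [map_sum]
        have h4 := congrFun ha s
        rw [Finset.sum_apply] at h4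
        refine Eq.trans (Finset.sum_congr rfl fun e _ => ?_) h4
        rw [map_mul, aeval_X, h1]
        rfl)
    rw [map_sum] at h3
    rw [← h3]
    refine Finset.sum_congr rfl fun e _ => ?_
    rw [map_mul, eval_X, h2]
  have hli := (hsnc P' hP').comp (fun e : {e : E // aeval P (F e) = 0} =>
    (⟨e.1, hz e⟩ : {e // eval P' (F e) = 0}))
    (fun e e' h => Subtype.ext (congrArg (fun z : {e // eval P' (F e) = 0} => z.1) h))
  rw [Fintype.linearIndependent_iff] at hli
  refine right_ne_zero_of_mul hpf (hli (fun e => p (Sum.inr e)) ?_ e0)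
  funext s
  rw [Finset.sum_apply]
  exact hrel s

variable {K : Type} [Field K] [Algebra ℂ K] {I : Type} [Fintype I] [DecidableEq I] {n : I → ℕ}
  {E : Type} [Fintype E] [DecidableEq E] {F : E → MvPolynomial (Co I n) ℂ} {d : E → I → ℕ}
  {N : ℕ} {x : (i : I) → Fin (n i) → K} {S : Set (K × (E → ℕ))}

theorem sncArr_ok (D : SncData K I n E F d N x S) : (sncArr F d N S).Ok where
  hom := D.hom
  N_pos := D.N_pos
  N_mem e := by
    intro z c hz
    rw [Finset.sum_eq_single e]
    · rw [Pi.single_eq_same]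
      exact dvd_mul_right _ _
    · intro e' _ h
      rw [Pi.single_eq_of_ne h, zero_mul]
    · intro h
      exact absurd (Finset.mem_univ e) h
  d_mem i := by
    intro z c hz
    have h1 := D.deg z c hz i
    have h2 : ∑ e, ((d e i : ℕ) : ℤ) * (c e : ℤ) = ((∑ e, c e * d e i : ℕ) : ℤ) := by
      push_cast
      exact Finset.sum_congr rfl fun e _ => mul_comm _ _
    change (N : ℤ) ∣ ∑ e, ((d e i : ℕ) : ℤ) * (c e : ℤ)
    rw [h2]
    exact_mod_cast h1
  snc k _ _ P hP := snc_baseP D.snc k P hP

end Pool.Agent.Work.RP
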