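import Mathlib
import Pool.Agent.Work.MP_4329d7_ag_rp.SncA
import Pool.Agent.Work.MP_4329d7_ag_rp.Basic
import Pool.Agent.Work.MP_4329d7_ag_rc.RCKhom
import Pool.Agent.Work.MP_4329d7_ag_snc.Curve

/-!
Liftings of a curve to the cover: every homomorphism `ψ` from `K` to an extension `L` of `k(X)` which
sends `x_(i,j)` to `Y_(i,j+1) / Y_(i,0)` has values in `k(X)`.  Proof: `K` is generated by the `x` and the
`z ∈ S`; `ψ(z)^N = ∏ F_e(Y/Y_0)^(c_e)` is the `N`-th power of an element of `k(X)` (as in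
`RC.exists_hom`; `k` is algebraically closed, the blocks of the roots are in the lattice, `N ∣ ∑ c_e d_ei`),
and the `N`-th roots of unity are in `ℂ`.
-/

namespace Pool.Agent.Work.RP

open Polynomial
open Pool.Agent.Work.Uni (rootPoly)
open Pool.Agent.Work.Snc (SncData Co)

variable {K : Type} [Field K] [Algebra ℂ K] {I : Type} [Fintype I] [DecidableEq I] {n : I → ℕ}
  {E : Type} [Fintype E] [DecidableEq E] {F : E → MvPolynomial (Co I n) ℂ} {d : E → I → ℕ}
  {N : ℕ} {x : (i : I) → Fin (n i) → K} {S : Set (K × (E → ℕ))}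
  {k : Type} [Field k] [Algebra ℂ k] {X : Co I n → k}

/-- the affine coordinates of a curve -/
noncomputable def yy (c : Cv (sncArr F d N S) k X) (i : I) (j : Fin (n i)) : RatFunc k :=
  algebraMap k[X] (RatFunc k) (c.Y ⟨i, j.succ⟩) / algebraMap k[X] (RatFunc k) (c.Y ⟨i, 0⟩)

omit [Field K] [Algebra ℂ K] [DecidableEq E] in
theorem Y_ne_zero (hX : AlgebraicIndependent ℂ X) (c : Cv (sncArr F d N S) k X) (s : Co I n) :
    c.Y s ≠ 0 := by
  intro h
  have h1 := c.lead s
  rw [h, coeff_zero] at h1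
  exact hX.ne_zero s h1.symm

omit [DecidableEq E] in
/-- the form `F_e` at the affine coordinates of a curve -/
theorem aeval_yy (D : SncData K I n E F d N x S) (hX : AlgebraicIndependent ℂ X)
    (c : Cv (sncArr F d N S) k X) (e : E) :
    MvPolynomial.aeval (Uni.hom (yy c)) (F e) =
      algebraMap k[X] (RatFunc k) (C (MvPolynomial.aeval X (F e)) * rootPoly c.β c.t e) /
        ∏ i, algebraMap k[X] (RatFunc k) (c.Y ⟨i, 0⟩) ^ d e i := by
  set al : k[X] →+* RatFunc k := algebraMap k[X] (RatFunc k) with hal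
  have hY0 : ∀ s, al (c.Y s) ≠ 0 := fun s => by
    rw [hal]
    exact (map_ne_zero_iff _ (IsFractionRing.injective k[X] (RatFunc k))).2 (Y_ne_zero hX c s)
  have h1 : (Uni.hom (yy c)) = fun s : Co I n => (al (c.Y ⟨s.1, 0⟩))⁻¹ * al (c.Y s) := by
    funext s
    obtain ⟨i, j⟩ := s
    refine Fin.cases ?_ (fun j => ?_) j
    · simp only [Uni.hom, Fin.cons_zero]
      rw [inv_mul_cancel₀ (hY0 _)]
    · simp only [Uni.hom, Fin.cons_succ]
      rw [yy, div_eq_inv_mul]
  rw [h1, Snc.multihom_scale (D.hom e) (fun i => (al (c.Y ⟨i, 0⟩))⁻¹) (fun s => al (c.Y s))]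
  have h2 : al (MvPolynomial.aeval c.Y (F e)) = MvPolynomial.aeval (fun s => al (c.Y s)) (F e) :=
    MvPolynomial.comp_aeval_apply (f := c.Y) (IsScalarTower.toAlgHom ℂ k[X] (RatFunc k)) (F e)
  have h3 : MvPolynomial.aeval c.Y (F e) =
      C (MvPolynomial.aeval X (F e)) * rootPoly c.β c.t e := c.eqn e
  rw [← h2, h3, div_eq_inv_mul, ← Finset.prod_inv_distrib]
  simp only [inv_pow]

/-- the radicands are `N`-th powers of rational functions -/
theorem exists_root (D : SncData K I n E F d N x S) [IsAlgClosed k]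
    (hX : AlgebraicIndependent ℂ X) (c : Cv (sncArr F d N S) k X) {z : K} {cc : E → ℕ}
    (hz : (z, cc) ∈ S) : ∃ r : RatFunc k,
      ∏ e, MvPolynomial.aeval (Uni.hom (yy c)) (F e) ^ cc e = r ^ N := by
  classical
  set al : k[X] →+* RatFunc k := algebraMap k[X] (RatFunc k) with hal
  obtain ⟨α, hα⟩ := IsAlgClosed.exists_pow_nat_eq
    (∏ e, (MvPolynomial.aeval X (F e)) ^ cc e) D.N_pos
  have hroot : ∀ i, ∃ l : ℕ, ∑ e, c.β i e * cc e = l * N := by
    intro i
    have h1 : (N : ℤ) ∣ ∑ e, (c.β i e : ℤ) * (cc e : ℤ) := c.mem i z cc hz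
    have h2 : (N : ℤ) ∣ ((∑ e, c.β i e * cc e : ℕ) : ℤ) := by
      push_cast
      exact h1
    obtain ⟨l, hl⟩ := Int.natCast_dvd_natCast.1 h2
    exact ⟨l, by rw [hl, mul_comm]⟩
  choose kk hkk using hroot
  have hdeg : ∀ i, ∃ l : ℕ, ∑ e, d e i * cc e = l * N := by
    intro i
    obtain ⟨l, hl⟩ := D.deg z cc hz i
    refine ⟨l, ?_⟩
    rw [mul_comm l N, ← hl]
    exact Finset.sum_congr rfl fun e _ => mul_comm _ _
  choose ll hll using hdeg
  have hprod : ∏ e, (rootPoly c.β c.t e) ^ cc e =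
      (∏ i, (Polynomial.X - C (c.t i)) ^ kk i) ^ N := by
    unfold rootPoly
    simp_rw [← Finset.prod_pow, ← pow_mul]
    rw [Finset.prod_comm]
    refine Finset.prod_congr rfl fun i _ => ?_
    rw [Finset.prod_pow_eq_pow_sum, hkk i]
  refine ⟨al (C α * ∏ i, (Polynomial.X - C (c.t i)) ^ kk i) / ∏ i, al (c.Y ⟨i, 0⟩) ^ ll i, ?_⟩
  have hR : ∏ e, MvPolynomial.aeval (Uni.hom (yy c)) (F e) ^ cc e =
      ∏ e, ((al (C (MvPolynomial.aeval X (F e)) * rootPoly c.β c.t e)) ^ cc e /
        (∏ i, al (c.Y ⟨i, 0⟩) ^ d e i) ^ cc e) :=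
    Finset.prod_congr rfl fun e _ => by rw [aeval_yy D hX c e, div_pow]
  rw [hR, Finset.prod_div_distrib, div_pow]
  congr 1
  · rw [← map_pow, mul_pow, ← hprod, ← C_pow, hα, map_prod C, ← Finset.prod_mul_distrib,
      map_prod al]
    refine Finset.prod_congr rfl fun e _ => ?_
    rw [← map_pow al, mul_pow, C_pow]
  · simp_rw [← Finset.prod_pow, ← pow_mul]
    rw [Finset.prod_comm]
    refine Finset.prod_congr rfl fun i _ => ?_
    rw [Finset.prod_pow_eq_pow_sum, hll i]

theorem lift_range (D : SncData K I n E F d N x S) [IsAlgClosed k]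
    (hX : AlgebraicIndependent ℂ X) (c : Cv (sncArr F d N S) k X) {L : Type} [Field L]
    [Algebra ℂ L] [Algebra (RatFunc k) L] [IsScalarTower ℂ (RatFunc k) L] (ψ : K →ₐ[ℂ] L)
    (hψ : ∀ i j, ψ (x i j) = algebraMap (RatFunc k) L (yy c i j)) (w : K) :
    ∃ r : RatFunc k, ψ w = algebraMap (RatFunc k) L r := by
  classical
  let ι : RatFunc k →ₐ[ℂ] L := IsScalarTower.toAlgHom ℂ (RatFunc k) L
  have hι : ∀ r, ι r = algebraMap (RatFunc k) L r := fun r => rfl
  let M : IntermediateField ℂ K := (ι.fieldRange).comap ψ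
  have hM : ∀ w, w ∈ M ↔ ∃ r, ι r = ψ w := fun w => by
    change ψ w ∈ ι.fieldRange ↔ _
    rw [AlgHom.mem_fieldRange]
  have hx : ∀ p ∈ Set.range (fun p : Σ i, Fin (n i) => x p.1 p.2), p ∈ M := by
    rintro _ ⟨p, rfl⟩
    rw [hM]
    exact ⟨yy c p.1 p.2, (hψ p.1 p.2).symm⟩
  have hz : ∀ z ∈ {z | ∃ c, (z, c) ∈ S}, z ∈ M := by
    rintro z ⟨cc, hzS⟩
    rw [hM]
    obtain ⟨r, hr⟩ := exists_root D hX c hzS
    have h1 : ψ z ^ N = ι r ^ N := by
      rw [← map_pow, D.rad z cc hzS, ← map_pow, ← hr, map_prod, map_prod]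
      refine Finset.prod_congr rfl fun e _ => ?_
      rw [map_pow, map_pow]
      congr 1
      have e1 := MvPolynomial.comp_aeval_apply (R := ℂ) (Uni.hom x) ψ (F e)
      have e2 := MvPolynomial.comp_aeval_apply (R := ℂ) (Uni.hom (yy c)) ι (F e)
      rw [e1, e2]
      congr 2
      funext s
      obtain ⟨i, j⟩ := s
      refine Fin.cases ?_ (fun j => ?_) j
      · simp [Uni.hom]
      · simp only [Uni.hom, Fin.cons_succ]
        rw [hψ, hι]
    by_cases hr0 : ι r = 0
    · rw [hr0, zero_pow D.N_pos.ne'] at h1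
      refine ⟨0, ?_⟩
      rw [map_zero, pow_eq_zero_iff D.N_pos.ne' |>.1 h1]
    · have hprim : IsPrimitiveRoot (algebraMap ℂ L (Complex.exp (2 * Real.pi * Complex.I / N))) N :=
        (Complex.isPrimitiveRoot_exp N D.N_pos.ne').map_of_injective
          (algebraMap ℂ L).injective
      have h2 : (ψ z / ι r) ^ N = 1 := by
        rw [div_pow, h1, div_self (pow_ne_zero _ hr0)]
      have : NeZero N := ⟨D.N_pos.ne'⟩
      obtain ⟨i, _, hi⟩ := hprim.eq_pow_of_pow_eq_one h2
      refine ⟨algebraMap ℂ (RatFunc k) (Complex.exp (2 * Real.pi * Complex.I / N) ^ i) * r, ?_⟩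
      rw [map_mul, AlgHom.commutes, map_pow, hi, div_mul_cancel₀ _ hr0]
  have htop : M = ⊤ := by
    rw [← top_le_iff, ← D.gen]
    exact IntermediateField.adjoin_le_iff.2 fun p hp => by
      rcases hp with hp | hp
      · exact hx p hp
      · exact hz p hp
  have hw : w ∈ M := htop ▸ IntermediateField.mem_top
  obtain ⟨r, hr⟩ := (hM w).1 hw
  exact ⟨r, hr.symm⟩

omit [Field K] [Algebra ℂ K] [DecidableEq E] in
/-- the coordinates of a curve are algebraically independent -/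
theorem ai_Y (hX : AlgebraicIndependent ℂ X) (c : Cv (sncArr F d N S) k X) :
    AlgebraicIndependent ℂ (fun s => algebraMap k[X] (RatFunc k) (c.Y s)) := by
  rw [algebraicIndependent_iff]
  intro P hP
  by_contra hP0
  have h1 : MvPolynomial.aeval c.Y P = 0 := by
    have h2 : algebraMap k[X] (RatFunc k) (MvPolynomial.aeval c.Y P) =
        MvPolynomial.aeval (fun s => algebraMap k[X] (RatFunc k) (c.Y s)) P :=
      MvPolynomial.comp_aeval_apply (f := c.Y) (IsScalarTower.toAlgHom ℂ k[X] (RatFunc k)) P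
    rw [hP] at h2
    exact (map_eq_zero_iff _ (IsFractionRing.injective k[X] (RatFunc k))).1 h2
  have h3 := coeff_aeval' P (w := fun s => c.m ((sncArr F d N S).g s)) c.Y c.deg
  rw [h1, coeff_zero] at h3
  have h4 : (fun s => (c.Y s).coeff (c.m ((sncArr F d N S).g s))) = X := funext c.lead
  rw [h4] at h3
  exact top_ne_zero hP0 _ (hX (by rw [← h3, map_zero]))

end Pool.Agent.Work.RP
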