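import Mathlib
import Pool.Agent.Work.MP_4329d7_ag_rp.Lift
import Pool.Agent.Work.MP_4329d7_ag_uni.CurveExt

/-!
If `K'` is not uniruled then the coefficients of the minimal polynomials over `ℂ(x)` of the elements
of `K'` are constant along every curve.  Proof: `L` = algebraic closure of `k(X)`; every root in `L` of
the image of the minimal polynomial of `u` is `ψ(u)` for an extension `ψ : K → L` of `θ` (`K` is algebraic
over `ℂ(x)`), `ψ` has values in `k(X)` (`lift_range`), and `ψ(u) ∈ k` (`uniruled_of_hom` for `K'`).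
-/

namespace Pool.Agent.Work.RP

open Polynomial
open Pool.Agent.Work.Snc (SncData Co)
open Pool.Agent.Work.Uni (Uniruled)

variable {K : Type} [Field K] [Algebra ℂ K] {I : Type} [Fintype I] [DecidableEq I] {n : I → ℕ}
  {E : Type} [Fintype E] [DecidableEq E] {F : E → MvPolynomial (Co I n) ℂ} {d : E → I → ℕ}
  {N : ℕ} {x : (i : I) → Fin (n i) → K} {S : Set (K × (E → ℕ))}

/-- the field of the affine coordinates of the factors in `J` -/
noncomputable def FJ {K : Type} [Field K] [Algebra ℂ K] {I : Type} {n : I → ℕ}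
    (x : (i : I) → Fin (n i) → K) (J : Set I) : IntermediateField ℂ K :=
  IntermediateField.adjoin ℂ {w | ∃ i ∈ J, ∃ j, w = x i j}

theorem x_mem (x : (i : I) → Fin (n i) → K) (J : Set I) (i : I) (hi : i ∈ J) (j : Fin (n i)) :
    x i j ∈ FJ x J :=
  IntermediateField.subset_adjoin ℂ _ ⟨i, hi, j, rfl⟩


/-- `K` is algebraic over the field of all affine coordinates -/
theorem isAlgebraic_univ (D : SncData K I n E F d N x S) (w : K) :
    IsAlgebraic (FJ x Set.univ) w := by
  have hal : ∀ y ∈ FJ x Set.univ, IsAlgebraic (FJ x Set.univ) y := by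
    intro y hy
    have : y = algebraMap (FJ x Set.univ) K ⟨y, hy⟩ := rfl
    rw [this]
    exact isAlgebraic_algebraMap _
  have hhom : ∀ s, Uni.hom x s ∈ FJ x Set.univ := by
    rintro ⟨i, s⟩
    unfold Uni.hom
    refine Fin.cases ?_ (fun j => ?_) s
    · simp only [Fin.cons_zero]
      exact one_mem _
    · simp only [Fin.cons_succ]
      exact x_mem x _ i (Set.mem_univ i) j
  have h := MP_4329d7_ag_sq.alg_of_gen (k := FJ x Set.univ) _ D.gen fun t ht => ?_
  · exact h.isAlgebraic w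
  rcases ht with ⟨p, rfl⟩ | ⟨c, hc⟩
  · exact hal _ (x_mem x _ p.1 (Set.mem_univ _) p.2)
  · refine IsAlgebraic.of_pow D.N_pos ?_
    rw [D.rad t c hc]
    refine hal _ (prod_mem fun e _ => pow_mem ?_ _)
    rw [MvPolynomial.aeval_def, MvPolynomial.eval₂_eq']
    refine sum_mem fun μ _ => mul_mem (IntermediateField.algebraMap_mem _ _) ?_
    exact prod_mem fun s _ => pow_mem (hhom s) _

/-- a homomorphism with values in a subfield which is the image of an extension of `ℂ` -/
theorem exists_cod {A B L : Type} [Field A] [Algebra ℂ A] [Field B] [Algebra ℂ B] [Field L]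
    [Algebra ℂ L] (ι : B →ₐ[ℂ] L) (ψ : A →ₐ[ℂ] L) (h : ∀ a, ∃ b, ψ a = ι b) :
    ∃ φ : A →ₐ[ℂ] B, ∀ a, ι (φ a) = ψ a := by
  have hr : ∀ a, ψ a ∈ ι.fieldRange := fun a => by
    obtain ⟨b, hb⟩ := h a
    exact ⟨b, hb.symm⟩
  refine ⟨((AlgEquiv.ofInjectiveField ι).symm.toAlgHom).comp
      (ψ.codRestrict ι.fieldRange.toSubalgebra hr), fun a => ?_⟩
  have h1 := (AlgEquiv.ofInjectiveField ι).apply_symm_apply
    (ψ.codRestrict ι.fieldRange.toSubalgebra hr a)
  exact congrArg Subtype.val h1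

/-- a monic split polynomial whose roots lie in a subfield has its coefficients there -/
theorem coeff_of_roots {B L : Type} [Field B] [Field L] [IsAlgClosed L] (f : B →+* L) (q : L[X])
    (hq : q.Monic) (h : ∀ r, q.IsRoot r → ∃ b, r = f b) (l : ℕ) : ∃ b, q.coeff l = f b := by
  have h1 : q = (q.roots.map fun r => X - C r).prod :=
    (IsAlgClosed.splits q).eq_prod_roots_of_monic hq
  have h2 : q ∈ Polynomial.lifts f := by
    rw [h1]
    refine Subsemiring.multiset_prod_mem _ _ fun p hp => ?_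
    obtain ⟨r, hr, rfl⟩ := Multiset.mem_map.1 hp
    obtain ⟨b, rfl⟩ := h r (isRoot_of_mem_roots hr)
    rw [Polynomial.mem_lifts]
    exact ⟨X - C b, by simp⟩
  rw [Polynomial.lifts_iff_coeff_lifts] at h2
  obtain ⟨b, hb⟩ := h2 l
  exact ⟨b, hb.symm⟩

theorem coeff_const (D : SncData K I n E F d N x S) (K' : IntermediateField ℂ K)
    [Algebra.EssFiniteType ℂ K'] (hK' : ¬ Uniruled K') (u : K) (hu : u ∈ K')
    {k : Type} [Field k] [Algebra ℂ k] [IsAlgClosed k] {X : Co I n → k}
    (hX : AlgebraicIndependent ℂ X) (c : Cv (sncArr F d N S) k X)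
    (θ : FJ x Set.univ →ₐ[ℂ] RatFunc k)
    (hθ : ∀ i j, θ ⟨x i j, x_mem x _ i (Set.mem_univ i) j⟩ = yy c i j) (l : ℕ) :
    ∃ a : k, θ ((minpoly (FJ x Set.univ) u).coeff l) = RatFunc.C a := by
  classical
  let L : Type := AlgebraicClosure (RatFunc k)
  let ι : RatFunc k →ₐ[ℂ] L := IsScalarTower.toAlgHom ℂ (RatFunc k) L
  let θL : FJ x Set.univ →ₐ[ℂ] L := ι.comp θ
  let _ : Algebra (FJ x Set.univ) L := θL.toRingHom.toAlgebra
  have halg : ∀ a, algebraMap (FJ x Set.univ) L a = ι (θ a) := fun a => rfl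
  have _ : IsScalarTower ℂ (FJ x Set.univ) L := IsScalarTower.of_algebraMap_eq fun z => by
    rw [halg, AlgHom.commutes, AlgHom.commutes]
  have hint : IsIntegral (FJ x Set.univ) u := (isAlgebraic_univ D u).isIntegral
  set q : L[X] := (minpoly (FJ x Set.univ) u).map (algebraMap (FJ x Set.univ) L) with hq
  have hmon : q.Monic := (minpoly.monic hint).map _
  let f : k →+* L := (ι : RatFunc k →+* L).comp RatFunc.C
  have hroot : ∀ r, q.IsRoot r → ∃ b, r = f b := by
    intro r hr
    have h1 : aeval r (minpoly (FJ x Set.univ) u) = 0 := by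
      rw [aeval_def, ← eval_map]
      exact hr
    obtain ⟨ψ, hψ⟩ := IntermediateField.exists_algHom_of_splits_of_aeval
      (fun s => ⟨(isAlgebraic_univ D s).isIntegral, IsAlgClosed.splits _⟩) h1
    let ψ' : K →ₐ[ℂ] L := ψ.restrictScalars ℂ
    have hψ' : ∀ w, ψ' w = ψ w := fun w => rfl
    have hx : ∀ i j, ψ' (x i j) = algebraMap (RatFunc k) L (yy c i j) := by
      intro i j
      rw [hψ', ← hθ i j]
      exact ψ.commutes ⟨x i j, x_mem x _ i (Set.mem_univ i) j⟩
    obtain ⟨φ, hφ⟩ := exists_cod ι (ψ'.comp K'.val) fun a => lift_range D hX c ψ' hx a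
    by_contra hcon
    refine hK' (Uni.uniruled_of_hom φ ⟨u, hu⟩ fun e he => hcon ⟨e, ?_⟩)
    rw [← hψ]
    have h2 := hφ ⟨u, hu⟩
    rw [he] at h2
    exact h2.symm
  obtain ⟨a, ha⟩ := coeff_of_roots f q hmon hroot l
  refine ⟨a, ι.toRingHom.injective ?_⟩
  rw [hq, coeff_map, halg] at ha
  exact ha

end Pool.Agent.Work.RP
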