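import Mathlib
import Pool.Agent.Work.MP_4329d7_ag_rp.Cst

/-!
Plan T+ (helper96): the affine coordinates of algebraically independent homogeneous coordinates are
algebraically independent; the homomorphism of a point; existence of the reduced fraction.
-/

namespace Pool.Agent.Work.RP

open Pool.Agent.Work.Snc (Co)

section

variable {K : Type} [Field K] [Algebra ℂ K] {I : Type} [Fintype I] [DecidableEq I] {n : I → ℕ}

/-- setting all `X_(i,0)` equal to `1` -/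
noncomputable def dehom (I : Type) (n : I → ℕ) :
    MvPolynomial (Co I n) ℂ →ₐ[ℂ] MvPolynomial (Σ i, Fin (n i)) ℂ :=
  MvPolynomial.aeval fun s =>
    (Fin.cons 1 (fun j => MvPolynomial.X ⟨s.1, j⟩) : Fin (n s.1 + 1) → _) s.2

theorem exists_hz {L : Type} [Field L] [Algebra ℂ L] {X : Co I n → L}
    (hX : ∀ i, X ⟨i, 0⟩ ≠ 0) (P : MvPolynomial (Σ i, Fin (n i)) ℂ) :
    ∃ (M : ℕ) (Q : MvPolynomial (Co I n) ℂ), dehom I n Q = P ∧
      MvPolynomial.aeval X Q = (∏ i, X ⟨i, 0⟩) ^ M *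
        MvPolynomial.aeval (fun p : Σ i, Fin (n i) => X ⟨p.1, p.2.succ⟩ / X ⟨p.1, 0⟩) P := by
  have hg : ∀ T : Finset I, dehom I n (∏ i ∈ T, MvPolynomial.X ⟨i, 0⟩) = 1 := by
    intro T
    rw [map_prod]
    refine Finset.prod_eq_one fun i _ => ?_
    simp [dehom]
  induction P using MvPolynomial.induction_on with
  | C a => exact ⟨0, MvPolynomial.C a, by simp [dehom], by simp⟩
  | add P1 P2 h1 h2 =>
    obtain ⟨M1, Q1, e1, a1⟩ := h1
    obtain ⟨M2, Q2, e2, a2⟩ := h2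
    refine ⟨M1 + M2, (∏ i, MvPolynomial.X ⟨i, 0⟩) ^ M2 * Q1 + (∏ i, MvPolynomial.X ⟨i, 0⟩) ^ M1 * Q2,
      ?_, ?_⟩
    · rw [map_add, map_mul, map_mul, map_pow, map_pow, hg, e1, e2, one_pow, one_pow, one_mul,
        one_mul]
    · rw [map_add, map_mul, map_mul, map_pow, map_pow, a1, a2, map_add, map_prod]
      simp only [MvPolynomial.aeval_X]
      ring
  | mul_X P p h =>
    obtain ⟨M, Q, e, a⟩ := h
    refine ⟨M + 1, Q * (MvPolynomial.X ⟨p.1, p.2.succ⟩ *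
      ∏ i ∈ Finset.univ.erase p.1, MvPolynomial.X ⟨i, 0⟩), ?_, ?_⟩
    · rw [map_mul, map_mul, hg, e, mul_one]
      simp [dehom]
    · have h0 : X ⟨p.1, 0⟩ ≠ 0 := hX p.1
      rw [map_mul, map_mul, map_prod, a, map_mul]
      simp only [MvPolynomial.aeval_X]
      rw [pow_succ, ← Finset.mul_prod_erase Finset.univ (fun i => X ⟨i, 0⟩) (Finset.mem_univ p.1)]
      field_simp

theorem ratio_ai {L : Type} [Field L] [Algebra ℂ L] {X : Co I n → L}
    (hX : AlgebraicIndependent ℂ X) :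
    AlgebraicIndependent ℂ (fun p : Σ i, Fin (n i) => X ⟨p.1, p.2.succ⟩ / X ⟨p.1, 0⟩) := by
  rw [algebraicIndependent_iff]
  intro P hP
  obtain ⟨M, Q, e, a⟩ := exists_hz (X := X) (fun i => hX.ne_zero _) P
  rw [hP, mul_zero] at a
  rw [← e, (algebraicIndependent_iff.1 hX) Q a, map_zero]

omit [Fintype I] [DecidableEq I] in
theorem FJ_univ (x : (i : I) → Fin (n i) → K) :
    FJ x Set.univ = IntermediateField.adjoin ℂ (Set.range fun p : Σ i, Fin (n i) => x p.1 p.2) := by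
  unfold FJ
  congr 1
  ext w
  constructor
  · rintro ⟨i, _, j, rfl⟩
    exact ⟨⟨i, j⟩, rfl⟩
  · rintro ⟨p, rfl⟩
    exact ⟨p.1, Set.mem_univ _, p.2, rfl⟩

theorem exists_theta_aux {x : (i : I) → Fin (n i) → K}
    (hx : AlgebraicIndependent ℂ (fun p : Σ i, Fin (n i) => x p.1 p.2)) {L : Type} [Field L]
    [Algebra ℂ L] {X : Co I n → L} (hX : AlgebraicIndependent ℂ X) :
    ∃ θ : FJ x Set.univ →ₐ[ℂ] L, ∀ i j, θ ⟨x i j, x_mem x _ i (Set.mem_univ i) j⟩ =
      X ⟨i, j.succ⟩ / X ⟨i, 0⟩ := by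
  have hy := ratio_ai hX
  let θ : FJ x Set.univ →ₐ[ℂ] L := (IntermediateField.val _).comp
    ((hy.aevalEquivField.toAlgHom).comp
      (hx.reprField.comp (IntermediateField.equivOfEq (FJ_univ x)).toAlgHom))
  refine ⟨θ, fun i j => ?_⟩
  have h1 : hx.reprField ((IntermediateField.equivOfEq (FJ_univ x))
      ⟨x i j, x_mem x _ i (Set.mem_univ i) j⟩) =
        algebraMap (MvPolynomial (Σ i, Fin (n i)) ℂ) _ (MvPolynomial.X ⟨i, j⟩) := by
    change hx.aevalEquivField.symm _ = _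
    rw [AlgEquiv.symm_apply_eq]
    refine Subtype.ext ?_
    rw [hx.aevalEquivField_algebraMap_apply_coe, MvPolynomial.aeval_X]
    rfl
  change ((hy.aevalEquivField (hx.reprField ((IntermediateField.equivOfEq (FJ_univ x))
      ⟨x i j, x_mem x _ i (Set.mem_univ i) j⟩)) : _) : L) = _
  rw [h1, hy.aevalEquivField_algebraMap_apply_coe, MvPolynomial.aeval_X]

theorem algHom_FJ_ext {x : (i : I) → Fin (n i) → K} {L : Type} [Field L] [Algebra ℂ L]
    {θ θ' : FJ x Set.univ →ₐ[ℂ] L}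
    (h : ∀ i j, θ ⟨x i j, x_mem x _ i (Set.mem_univ i) j⟩ =
      θ' ⟨x i j, x_mem x _ i (Set.mem_univ i) j⟩) : θ = θ' := by
  refine IntermediateField.algHom_ext_of_eq_adjoin ℂ (s := {w | ∃ i ∈ Set.univ, ∃ j, w = x i j})
    (S := FJ x Set.univ) rfl ?_
  rintro _ ⟨i, _, j, rfl⟩
  exact h i j

theorem exists_rep_aux {x : (i : I) → Fin (n i) → K}
    (hx : AlgebraicIndependent ℂ (fun p : Σ i, Fin (n i) => x p.1 p.2)) (h : FJ x Set.univ) :
    ∃ P Q : MvPolynomial (Co I n) ℂ, IsRelPrime P Q ∧ Q ≠ 0 ∧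
      ∀ (L : Type) [Field L] [Algebra ℂ L] (X : Co I n → L), AlgebraicIndependent ℂ X →
        ∀ θ : FJ x Set.univ →ₐ[ℂ] L,
        (∀ i j, θ ⟨x i j, x_mem x _ i (Set.mem_univ i) j⟩ = X ⟨i, j.succ⟩ / X ⟨i, 0⟩) →
          θ h * MvPolynomial.aeval X Q = MvPolynomial.aeval X P := by
  let A := MvPolynomial (Co I n) ℂ
  let L₀ := FractionRing A
  have hinj : Function.Injective (algebraMap A L₀) := IsFractionRing.injective A L₀
  have hX₀ : AlgebraicIndependent ℂ (fun s => algebraMap A L₀ (MvPolynomial.X s)) :=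
    (MvPolynomial.algebraicIndependent_X (Co I n) ℂ).map' (f := Algebra.algHom ℂ A L₀) hinj
  obtain ⟨θ₀, hθ₀⟩ := exists_theta_aux hx hX₀
  obtain ⟨P, Q, hPQ, hw⟩ := IsFractionRing.exists_reduced_fraction A (θ₀ h)
  have hQ0 : (Q : A) ≠ 0 := nonZeroDivisors.coe_ne_zero Q
  refine ⟨P, Q, hPQ, hQ0, fun L _ _ X hX θ hθ => ?_⟩
  let e : L₀ →ₐ[ℂ] L := IsFractionRing.liftAlgHom (K := L₀) (g := MvPolynomial.aeval X) hX
  have he : ∀ a : A, e (algebraMap A L₀ a) = MvPolynomial.aeval X a := fun a =>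
    IsFractionRing.lift_algebraMap (g := (MvPolynomial.aeval X : A →ₐ[ℂ] L).toRingHom) hX a
  have h1 : θ = e.comp θ₀ := by
    refine algHom_FJ_ext fun i j => ?_
    rw [hθ, AlgHom.comp_apply, hθ₀, map_div₀, he, he, MvPolynomial.aeval_X, MvPolynomial.aeval_X]
  have h2 : θ₀ h * algebraMap A L₀ Q = algebraMap A L₀ P := by
    rw [← hw]
    exact IsLocalization.mk'_spec L₀ P Q
  have h3 := congrArg e h2
  rw [map_mul, he, he] at h3
  rw [h1]
  exact h3

end

end Pool.Agent.Work.RP
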