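import Mathlib
import Pool.Agent.Work.MP_4329d7_ag_rp.Lift
import Pool.Agent.Work.MP_4329d7_ag_rp.Cst

/-!
The value at infinity of a rational function, and the value of a constant element of `ℂ(x)` along a
curve.
-/

namespace Pool.Agent.Work.RP

open Polynomial
open Pool.Agent.Work.Snc (SncData Co)

/-- the value of `r` at infinity is `v` -/
def ValInf {k : Type} [Field k] (r : RatFunc k) (v : k) : Prop :=
  ∃ (p q : k[X]) (m : ℕ), p.natDegree ≤ m ∧ q.natDegree ≤ m ∧ q.coeff m ≠ 0 ∧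
    r * algebraMap k[X] (RatFunc k) q = algebraMap k[X] (RatFunc k) p ∧
    v * q.coeff m = p.coeff m

namespace ValInf

variable {k : Type} [Field k]

theorem const (a : k) : ValInf (RatFunc.C a) a :=
  ⟨C a, 1, 0, by simp, by simp, by simp, by simp [RatFunc.algebraMap_C], by simp⟩

theorem add {r s : RatFunc k} {v w : k} (h1 : ValInf r v) (h2 : ValInf s w) :
    ValInf (r + s) (v + w) := by
  obtain ⟨p, q, m, hp, hq, hm, hr, hv⟩ := h1
  obtain ⟨p', q', m', hp', hq', hm', hr', hv'⟩ := h2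
  refine ⟨p * q' + p' * q, q * q', m + m', ?_, ?_, ?_, ?_, ?_⟩
  · refine (natDegree_add_le _ _).trans (max_le ?_ ?_)
    · exact natDegree_mul_le.trans (add_le_add hp hq')
    · rw [mul_comm]
      exact natDegree_mul_le.trans (add_le_add hq hp')
  · exact natDegree_mul_le.trans (add_le_add hq hq')
  · rw [coeff_mul_add_eq_of_natDegree_le hq hq']
    exact mul_ne_zero hm hm'
  · rw [map_add, map_mul, map_mul, map_mul, ← hr, ← hr']
    ring
  · rw [coeff_add, coeff_mul_add_eq_of_natDegree_le hq hq', coeff_mul_add_eq_of_natDegree_le hp hq',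
      mul_comm p' q, coeff_mul_add_eq_of_natDegree_le hq hp', ← hv, ← hv']
    ring

theorem mul {r s : RatFunc k} {v w : k} (h1 : ValInf r v) (h2 : ValInf s w) :
    ValInf (r * s) (v * w) := by
  obtain ⟨p, q, m, hp, hq, hm, hr, hv⟩ := h1
  obtain ⟨p', q', m', hp', hq', hm', hr', hv'⟩ := h2
  refine ⟨p * p', q * q', m + m', natDegree_mul_le.trans (add_le_add hp hp'),
    natDegree_mul_le.trans (add_le_add hq hq'), ?_, ?_, ?_⟩
  · rw [coeff_mul_add_eq_of_natDegree_le hq hq']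
    exact mul_ne_zero hm hm'
  · rw [map_mul, map_mul, ← hr, ← hr']
    ring
  · rw [coeff_mul_add_eq_of_natDegree_le hq hq', coeff_mul_add_eq_of_natDegree_le hp hp', ← hv,
      ← hv']
    ring

theorem inv {r : RatFunc k} {v : k} (h1 : ValInf r v) (hv0 : v ≠ 0) : ValInf r⁻¹ v⁻¹ := by
  obtain ⟨p, q, m, hp, hq, hm, hr, hv⟩ := h1
  have hpm : p.coeff m ≠ 0 := by
    rw [← hv]
    exact mul_ne_zero hv0 hm
  have hp0 : algebraMap k[X] (RatFunc k) p ≠ 0 := by
    rw [map_ne_zero_iff _ (IsFractionRing.injective k[X] (RatFunc k))]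
    rintro rfl
    simp at hpm
  have hr0 : r ≠ 0 := by
    rintro rfl
    rw [zero_mul] at hr
    exact hp0 hr.symm
  refine ⟨q, p, m, hq, hp, hpm, ?_, ?_⟩
  · rw [← hr, ← mul_assoc, inv_mul_cancel₀ hr0, one_mul]
  · rw [← hv, ← mul_assoc, inv_mul_cancel₀ hv0, one_mul]

theorem eq_of_const {a v : k} (h : ValInf (RatFunc.C a) v) : v = a := by
  obtain ⟨p, q, m, hp, hq, hm, hr, hv⟩ := h
  have h1 : C a * q = p := by
    apply IsFractionRing.injective k[X] (RatFunc k)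
    rw [map_mul, RatFunc.algebraMap_C, hr]
  rw [← h1, coeff_C_mul] at hv
  exact mul_right_cancel₀ hm hv

end ValInf

variable {K : Type} [Field K] [Algebra ℂ K] {I : Type} [Fintype I] [DecidableEq I] {n : I → ℕ}
  {E : Type} [Fintype E] [DecidableEq E] {F : E → MvPolynomial (Co I n) ℂ} {d : E → I → ℕ}
  {N : ℕ} {x : (i : I) → Fin (n i) → K} {S : Set (K × (E → ℕ))}

omit [Field K] [Algebra ℂ K] [DecidableEq E] in
theorem valInf_yy {k : Type} [Field k] [Algebra ℂ k] {X : Co I n → k}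
    (hX : AlgebraicIndependent ℂ X) (c : Cv (sncArr F d N S) k X) (i : I) (j : Fin (n i)) :
    ValInf (yy c i j) (X ⟨i, j.succ⟩ / X ⟨i, 0⟩) := by
  refine ⟨c.Y ⟨i, j.succ⟩, c.Y ⟨i, 0⟩, c.m i, c.deg ⟨i, j.succ⟩, c.deg ⟨i, 0⟩, ?_, ?_, ?_⟩
  · have := c.lead ⟨i, 0⟩
    change (c.Y ⟨i, 0⟩).coeff (c.m i) = _ at this
    rw [this]
    exact hX.ne_zero _
  · rw [yy, div_mul_cancel₀]
    rw [map_ne_zero_iff _ (IsFractionRing.injective k[X] (RatFunc k))]
    exact Y_ne_zero hX c _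
  · have h1 := c.lead ⟨i, 0⟩
    have h2 := c.lead ⟨i, j.succ⟩
    change (c.Y ⟨i, 0⟩).coeff (c.m i) = _ at h1
    change (c.Y ⟨i, j.succ⟩).coeff (c.m i) = _ at h2
    rw [h1, h2, div_mul_cancel₀]
    exact hX.ne_zero _

omit [DecidableEq E] in
/-- the elements of `ℂ(x)` are finite at infinity along a curve, with the value at the point `X` -/
theorem valInf_theta {k : Type} [Field k] [Algebra ℂ k] {X : Co I n → k}
    (hX : AlgebraicIndependent ℂ X) (c : Cv (sncArr F d N S) k X)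
    (θ : FJ x Set.univ →ₐ[ℂ] RatFunc k)
    (hθ : ∀ i j, θ ⟨x i j, x_mem x _ i (Set.mem_univ i) j⟩ = yy c i j)
    (θ' : FJ x Set.univ →ₐ[ℂ] k)
    (hθ' : ∀ i j, θ' ⟨x i j, x_mem x _ i (Set.mem_univ i) j⟩ = X ⟨i, j.succ⟩ / X ⟨i, 0⟩)
    (h : FJ x Set.univ) : ValInf (θ h) (θ' h) := by
  obtain ⟨w, hw⟩ := h
  refine IntermediateField.adjoin_induction ℂ
    (p := fun w hw => ValInf (θ ⟨w, hw⟩) (θ' ⟨w, hw⟩)) ?_ ?_ ?_ ?_ ?_ hw
  · rintro _ ⟨i, hi, j, rfl⟩
    rw [hθ, hθ']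
    exact valInf_yy hX c i j
  · intro a
    have e1 : (⟨algebraMap ℂ K a, IntermediateField.algebraMap_mem _ _⟩ : FJ x Set.univ) =
      algebraMap ℂ (FJ x Set.univ) a := rfl
    have h1 := ValInf.const (algebraMap ℂ k a)
    rw [e1, AlgHom.commutes, AlgHom.commutes]
    exact h1
  · intro u v hu hv h1 h2
    have := h1.add h2
    rw [← map_add, ← map_add] at this
    exact this
  · intro u hu h1
    by_cases h0 : u = 0
    · subst h0
      have e1 : (⟨(0 : K)⁻¹, inv_mem hu⟩ : FJ x Set.univ) = ⟨0, hu⟩ := by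
        ext
        simp
      rw [e1]
      exact h1
    · have hne : θ' ⟨u, hu⟩ ≠ 0 := by
        rw [_root_.map_ne_zero]
        intro h
        exact h0 (congrArg Subtype.val h)
      have := h1.inv hne
      rw [← map_inv₀, ← map_inv₀] at this
      exact this
  · intro u v hu hv h1 h2
    have := h1.mul h2
    rw [← map_mul, ← map_mul] at this
    exact this

omit [DecidableEq E] in
/-- the relation of a constant element, from the two homomorphisms -/
theorem rel_of_const_aux {P Q : MvPolynomial (Co I n) ℂ} (h : FJ x Set.univ)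
    (hrep : ∀ (L : Type) [Field L] [Algebra ℂ L] (X : Co I n → L), AlgebraicIndependent ℂ X →
      ∀ θ : FJ x Set.univ →ₐ[ℂ] L,
      (∀ i j, θ ⟨x i j, x_mem x _ i (Set.mem_univ i) j⟩ = X ⟨i, j.succ⟩ / X ⟨i, 0⟩) →
        θ h * MvPolynomial.aeval X Q = MvPolynomial.aeval X P)
    (hex : ∀ (L : Type) [Field L] [Algebra ℂ L] (X : Co I n → L), AlgebraicIndependent ℂ X →
      ∃ θ : FJ x Set.univ →ₐ[ℂ] L, ∀ i j,
        θ ⟨x i j, x_mem x _ i (Set.mem_univ i) j⟩ = X ⟨i, j.succ⟩ / X ⟨i, 0⟩)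
    {k : Type} [Field k] [Algebra ℂ k] {X : Co I n → k} (hX : AlgebraicIndependent ℂ X)
    (c : Cv (sncArr F d N S) k X)
    (hc : ∀ θ : FJ x Set.univ →ₐ[ℂ] RatFunc k,
      (∀ i j, θ ⟨x i j, x_mem x _ i (Set.mem_univ i) j⟩ = yy c i j) →
        ∃ a : k, θ h = RatFunc.C a) :
    C (MvPolynomial.aeval X P) * MvPolynomial.aeval c.Y Q =
      C (MvPolynomial.aeval X Q) * MvPolynomial.aeval c.Y P := by
  obtain ⟨θ', hθ'⟩ := hex k X hX
  obtain ⟨θ, hθ⟩ := hex (RatFunc k) _ (ai_Y hX c)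
  obtain ⟨a, ha⟩ := hc θ hθ
  have h1 := valInf_theta hX c θ hθ θ' hθ' h
  rw [ha] at h1
  have h2 := h1.eq_of_const
  have h3 := hrep k X hX θ' hθ'
  have h4 := hrep (RatFunc k) _ (ai_Y hX c) θ hθ
  have e : ∀ G : MvPolynomial (Co I n) ℂ,
      MvPolynomial.aeval (fun s => algebraMap k[X] (RatFunc k) (c.Y s)) G =
        algebraMap k[X] (RatFunc k) (MvPolynomial.aeval c.Y G) := fun G =>
    (MvPolynomial.comp_aeval_apply (f := c.Y) (IsScalarTower.toAlgHom ℂ k[X] (RatFunc k)) G).symm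
  rw [e, e, ha, ← RatFunc.algebraMap_C, ← map_mul] at h4
  have h5 := IsFractionRing.injective k[X] (RatFunc k) h4
  rw [← h5, ← h3, h2, C_mul]
  ring

end Pool.Agent.Work.RP
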