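import Mathlib
import Pool.Agent.Work.MP_4329d7_ag_rp.Cst

/-!
Plan T+, `mem_of_vars` (helper30).  The field `L` = fraction field of `K[T_i : i ∈ I]`, the point
`X_(i,0) = T_i`, `X_(i,j+1) = x_(i,j) T_i`; compare the coefficients of the polynomials in the `T_i`.
-/

namespace Pool.Agent.Work.RP

open Pool.Agent.Work.Snc (Co)

section

variable {K : Type} [Field K] [Algebra ℂ K] {I : Type} [Fintype I] [DecidableEq I] {n : I → ℕ}

/-- the generic point of the cone over the point `x` -/
noncomputable def coneX (x : (i : I) → Fin (n i) → K) : Co I n → MvPolynomial I K :=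
  fun s => MvPolynomial.X s.1 * MvPolynomial.C ((Fin.cons 1 (x s.1) : Fin (n s.1 + 1) → K) s.2)

/-- the monomial change of coordinates -/
noncomputable def coneHom (I : Type) (n : I → ℕ) :
    MvPolynomial (Co I n) ℂ →ₐ[ℂ] MvPolynomial (I ⊕ Σ i, Fin (n i)) ℂ :=
  MvPolynomial.aeval fun s => MvPolynomial.X (Sum.inl s.1) *
    (Fin.cons 1 (fun j => MvPolynomial.X (Sum.inr ⟨s.1, j⟩)) : Fin (n s.1 + 1) → _) s.2

theorem coneHom_injective (I : Type) (n : I → ℕ) : Function.Injective (coneHom I n) := by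
  let A := MvPolynomial (Co I n) ℂ
  let L := FractionRing A
  let ψ : MvPolynomial (I ⊕ Σ i, Fin (n i)) ℂ →ₐ[ℂ] L := MvPolynomial.aeval
    (Sum.elim (fun i => algebraMap A L (MvPolynomial.X ⟨i, 0⟩))
      fun p => algebraMap A L (MvPolynomial.X ⟨p.1, p.2.succ⟩) /
        algebraMap A L (MvPolynomial.X ⟨p.1, 0⟩))
  have h1 : ψ.comp (coneHom I n) = Algebra.algHom ℂ A L := by
    refine MvPolynomial.algHom_ext fun s => ?_
    obtain ⟨i, j⟩ := s
    have h0 : algebraMap A L (MvPolynomial.X ⟨i, 0⟩) ≠ 0 := by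
      intro h
      rw [← map_zero (algebraMap A L)] at h
      exact MvPolynomial.X_ne_zero _ (IsFractionRing.injective A L h)
    simp only [coneHom, AlgHom.comp_apply, MvPolynomial.aeval_X, map_mul, ψ]
    refine Fin.cases ?_ (fun j => ?_) j
    · simp
      rfl
    · simp only [Fin.cons_succ, MvPolynomial.aeval_X, Sum.elim_inl, Sum.elim_inr]
      rw [mul_div_cancel₀ _ h0]
      rfl
  intro a b hab
  have h2 : (ψ.comp (coneHom I n)) a = (ψ.comp (coneHom I n)) b := by
    rw [AlgHom.comp_apply, AlgHom.comp_apply, hab]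
  rw [h1] at h2
  exact IsFractionRing.injective A L h2

theorem coneX_ai {x : (i : I) → Fin (n i) → K}
    (hx : AlgebraicIndependent ℂ (fun p : Σ i, Fin (n i) => x p.1 p.2)) :
    AlgebraicIndependent ℂ (coneX x) := by
  have h1 : AlgebraicIndependent ℂ (Sum.elim (MvPolynomial.X : I → MvPolynomial I K)
      (algebraMap K (MvPolynomial I K) ∘ fun p : Σ i, Fin (n i) => x p.1 p.2)) :=
    hx.sumElim_comp (MvPolynomial.algebraicIndependent_X I K)
  have h2 : (MvPolynomial.aeval (coneX x) : MvPolynomial (Co I n) ℂ →ₐ[ℂ] MvPolynomial I K) =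
      (MvPolynomial.aeval (Sum.elim (MvPolynomial.X : I → MvPolynomial I K)
      (algebraMap K (MvPolynomial I K) ∘ fun p : Σ i, Fin (n i) => x p.1 p.2))).comp
        (coneHom I n) := by
    refine MvPolynomial.algHom_ext fun s => ?_
    obtain ⟨i, j⟩ := s
    simp only [coneHom, coneX, AlgHom.comp_apply, MvPolynomial.aeval_X, map_mul, Sum.elim_inl]
    congr 1
    refine Fin.cases ?_ (fun j => ?_) j
    · simp
    · simp [MvPolynomial.algebraMap_eq]
  unfold AlgebraicIndependent
  rw [h2, AlgHom.coe_comp]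
  exact Function.Injective.comp h1 (coneHom_injective I n)

/-- the values at the generic point of the cone have coefficients in `ℂ(x_J)` -/
theorem coneX_coeff (x : (i : I) → Fin (n i) → K) (J : Set I) {P : MvPolynomial (Co I n) ℂ}
    (hv : ∀ s ∈ P.vars, s.1 ∈ J) (m : I →₀ ℕ) :
    (MvPolynomial.aeval (coneX x) P).coeff m ∈ FJ x J := by
  let φ : MvPolynomial I (FJ x J) →ₐ[ℂ] MvPolynomial I K := MvPolynomial.mapAlgHom (FJ x J).val
  have h1 : MvPolynomial.aeval (coneX x) P ∈ φ.range := by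
    have h2 : P ∈ MvPolynomial.supported ℂ {s : Co I n | s.1 ∈ J} := by
      rw [MvPolynomial.mem_supported]
      exact hv
    rw [MvPolynomial.supported] at h2
    have h3 : (Algebra.adjoin ℂ (MvPolynomial.X '' {s : Co I n | s.1 ∈ J})).map
        (MvPolynomial.aeval (coneX x)) ≤ φ.range := by
      rw [AlgHom.map_adjoin, Algebra.adjoin_le_iff]
      rintro _ ⟨_, ⟨⟨i, j⟩, hs, rfl⟩, rfl⟩
      rw [SetLike.mem_coe, AlgHom.mem_range, MvPolynomial.aeval_X]
      have hs' : i ∈ J := hs
      refine ⟨MvPolynomial.X i * MvPolynomial.C ((Fin.cons 1 (fun j => ⟨x i j, x_mem x J i hs' j⟩) :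
        Fin (n i + 1) → FJ x J) j), ?_⟩
      simp only [φ, coneX, map_mul, MvPolynomial.mapAlgHom_apply, MvPolynomial.map_X,
        MvPolynomial.map_C]
      congr 2
      refine Fin.cases ?_ (fun j => ?_) j
      · simp
      · simp
    exact h3 (Subalgebra.mem_map.2 ⟨P, h2, rfl⟩)
  obtain ⟨R, hR⟩ := h1
  rw [← hR]
  change (MvPolynomial.map _ R).coeff m ∈ _
  rw [MvPolynomial.coeff_map]
  exact (R.coeff m).2

theorem mem_of_vars_aux {x : (i : I) → Fin (n i) → K}
    (hx : AlgebraicIndependent ℂ (fun p : Σ i, Fin (n i) => x p.1 p.2)) (J : Set I)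
    (h : FJ x Set.univ) {P Q : MvPolynomial (Co I n) ℂ} (hQ : Q ≠ 0)
    (hrep : ∀ (L : Type) [Field L] [Algebra ℂ L] (X : Co I n → L), AlgebraicIndependent ℂ X →
      ∀ θ : FJ x Set.univ →ₐ[ℂ] L,
      (∀ i j, θ ⟨x i j, x_mem x _ i (Set.mem_univ i) j⟩ = X ⟨i, j.succ⟩ / X ⟨i, 0⟩) →
        θ h * MvPolynomial.aeval X Q = MvPolynomial.aeval X P)
    (hv : ∀ s, s ∈ P.vars ∨ s ∈ Q.vars → s.1 ∈ J) : (h : K) ∈ FJ x J := by
  let A := MvPolynomial I K
  let L := FractionRing A
  have hinj : Function.Injective (algebraMap A L) := IsFractionRing.injective A L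
  have hX := coneX_ai hx
  have hX' : AlgebraicIndependent ℂ (fun s => algebraMap A L (coneX x s)) := by
    exact hX.map' (f := Algebra.algHom ℂ A L) hinj
  let θ : FJ x Set.univ →ₐ[ℂ] L := (Algebra.algHom ℂ A L).comp
    ((Algebra.algHom ℂ K A).comp (FJ x Set.univ).val)
  have hθ : ∀ w, θ w = algebraMap A L (MvPolynomial.C (w : K)) := fun w => rfl
  have h1 := hrep L (fun s => algebraMap A L (coneX x s)) hX' θ (fun i j => by
    have h0 : algebraMap A L (MvPolynomial.X i) ≠ 0 := by
      intro h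
      rw [← map_zero (algebraMap A L)] at h
      exact MvPolynomial.X_ne_zero _ (hinj h)
    rw [hθ]
    simp only [coneX, Fin.cons_zero, Fin.cons_succ, map_one, mul_one, map_mul]
    rw [mul_div_cancel_left₀ _ h0])
  have h2 : ∀ G : MvPolynomial (Co I n) ℂ,
      MvPolynomial.aeval (fun s => algebraMap A L (coneX x s)) G =
        algebraMap A L (MvPolynomial.aeval (coneX x) G) := by
    intro G
    exact (MvPolynomial.comp_aeval_apply (R := ℂ) (coneX x) (Algebra.algHom ℂ A L) G).symm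
  rw [hθ, h2, h2, ← map_mul] at h1
  have h3 : MvPolynomial.C (h : K) * MvPolynomial.aeval (coneX x) Q =
      MvPolynomial.aeval (coneX x) P := hinj h1
  have h4 : MvPolynomial.aeval (coneX x) Q ≠ 0 := by
    intro h5
    rw [← map_zero (MvPolynomial.aeval (coneX x) : MvPolynomial (Co I n) ℂ →ₐ[ℂ] _)] at h5
    exact hQ (hX h5)
  obtain ⟨m, hm⟩ := MvPolynomial.ne_zero_iff.1 h4
  have h5 : (h : K) * (MvPolynomial.aeval (coneX x) Q).coeff m =
      (MvPolynomial.aeval (coneX x) P).coeff m := by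
    rw [← h3, MvPolynomial.coeff_C_mul]
  have h6 : (h : K) = (MvPolynomial.aeval (coneX x) P).coeff m /
      (MvPolynomial.aeval (coneX x) Q).coeff m := by
    rw [eq_div_iff hm, h5]
  rw [h6]
  exact (FJ x J).div_mem (coneX_coeff x J (fun s hs => hv s (Or.inl hs)) m)
    (coneX_coeff x J (fun s hs => hv s (Or.inr hs)) m)

end

end Pool.Agent.Work.RP
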