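import Mathlib
import Pool.Agent.Work.MP_4329d7_ag_rp.Lift
import Pool.Agent.Work.MP_4329d7_ag_rp.Cst
import Pool.Agent.Work.MP_4329d7_ag_rp.RepC
import Pool.Agent.Work.MP_4329d7_ag_rp.RepA
import Pool.Agent.Work.MP_4329d7_ag_rp.RepB

/-!
Elements of `ℂ(x)` as quotients of relatively prime polynomials in the homogeneous coordinates, and
the relation `P(x) Q(Y) = Q(x) P(Y)` for the elements which are constant along the curves.
-/

namespace Pool.Agent.Work.RP

open Polynomial
open Pool.Agent.Work.Snc (SncData Co)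

variable {K : Type} [Field K] [Algebra ℂ K] {I : Type} [Fintype I] [DecidableEq I] {n : I → ℕ}
  {E : Type} [Fintype E] [DecidableEq E] {F : E → MvPolynomial (Co I n) ℂ} {d : E → I → ℕ}
  {N : ℕ} {x : (i : I) → Fin (n i) → K} {S : Set (K × (E → ℕ))}

/-- `h = P / Q` in homogeneous coordinates -/
def Rep (x : (i : I) → Fin (n i) → K) (h : FJ x Set.univ) (P Q : MvPolynomial (Co I n) ℂ) : Prop :=
  ∀ (L : Type) [Field L] [Algebra ℂ L] (X : Co I n → L), AlgebraicIndependent ℂ X →
    ∀ θ : FJ x Set.univ →ₐ[ℂ] L,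
    (∀ i j, θ ⟨x i j, x_mem x _ i (Set.mem_univ i) j⟩ = X ⟨i, j.succ⟩ / X ⟨i, 0⟩) →
      θ h * MvPolynomial.aeval X Q = MvPolynomial.aeval X P

/-- existence: `P / Q` = the reduced fraction of the image of `h` in the fraction field of the
polynomial ring in the homogeneous coordinates -/
theorem exists_rep (hx : AlgebraicIndependent ℂ (fun p : Σ i, Fin (n i) => x p.1 p.2))
    (h : FJ x Set.univ) :
    ∃ P Q : MvPolynomial (Co I n) ℂ, IsRelPrime P Q ∧ Q ≠ 0 ∧ Rep x h P Q :=
  exists_rep_aux hx h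

/-- the homomorphism of a curve -/
theorem exists_theta (D : SncData K I n E F d N x S) {L : Type} [Field L] [Algebra ℂ L]
    {X : Co I n → L} (hX : AlgebraicIndependent ℂ X) :
    ∃ θ : FJ x Set.univ →ₐ[ℂ] L, ∀ i j, θ ⟨x i j, x_mem x _ i (Set.mem_univ i) j⟩ =
      X ⟨i, j.succ⟩ / X ⟨i, 0⟩ :=
  exists_theta_aux D.alg_indep hX

/-- If `h` is constant along the curve `c` then the constant is the value of `h` at the point `X` (the
value at infinity): the elements `w` of `ℂ(x)` such that `θ w` is finite at infinity with value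
`θ' w` form a field containing the `x`. -/
theorem rel_of_const (D : SncData K I n E F d N x S) (h : FJ x Set.univ)
    {P Q : MvPolynomial (Co I n) ℂ} (hrep : Rep x h P Q)
    {k : Type} [Field k] [Algebra ℂ k] {X : Co I n → k} (hX : AlgebraicIndependent ℂ X)
    (c : Cv (sncArr F d N S) k X)
    (hc : ∀ θ : FJ x Set.univ →ₐ[ℂ] RatFunc k,
      (∀ i j, θ ⟨x i j, x_mem x _ i (Set.mem_univ i) j⟩ = yy c i j) →
        ∃ a : k, θ h = RatFunc.C a) :
    C (MvPolynomial.aeval X P) * MvPolynomial.aeval c.Y Q =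
      C (MvPolynomial.aeval X Q) * MvPolynomial.aeval c.Y P := by
  exact rel_of_const_aux h hrep (fun _ _ _ _ hX' => exists_theta D hX') hX c hc

/-- If `P`, `Q` involve only coordinates of factors in `J` then `h ∈ ℂ(x_J)`: there are
`l i ∈ ℂ` with `Q(l_i x_i) ≠ 0` (`ℂ` is infinite), and `h = P(l x) / Q(l x)`. -/
theorem mem_of_vars (D : SncData K I n E F d N x S) (J : Set I) (h : FJ x Set.univ)
    {P Q : MvPolynomial (Co I n) ℂ} (hQ : Q ≠ 0) (hrep : Rep x h P Q)
    (hv : ∀ s, s ∈ P.vars ∨ s ∈ Q.vars → s.1 ∈ J) : (h : K) ∈ FJ x J := by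
  exact mem_of_vars_aux D.alg_indep J h hQ hrep hv

end Pool.Agent.Work.RP
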