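import Mathlib
import Pool.Agent.Work.MP_4329d7_ag_rp.Rep
import Pool.Agent.Work.MP_4329d7_ag_rp.Picard

/-!
A subfield which is not uniruled is algebraic over the field of the factors which are not moved.
-/

namespace Pool.Agent.Work.RP

open Polynomial
open Pool.Agent.Work.Snc (SncData Co)
open Pool.Agent.Work.Uni (Uniruled)

variable {K : Type} [Field K] [Algebra ℂ K] {I : Type} [Fintype I] [DecidableEq I] {n : I → ℕ}
  {E : Type} [Fintype E] [DecidableEq E] {F : E → MvPolynomial (Co I n) ℂ} {d : E → I → ℕ}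
  {N : ℕ} {x : (i : I) → Fin (n i) → K} {S : Set (K × (E → ℕ))}

/-- the factors which are not moved by any curve -/
def fixed {K I : Type} [Fintype I] [DecidableEq I] {n : I → ℕ} {E : Type} [Fintype E]
    (F : E → MvPolynomial (Co I n) ℂ) (d : E → I → ℕ) (N : ℕ) (S : Set (K × (E → ℕ))) : Set I :=
  {i | ∀ (k : Type) [Field k] [Algebra ℂ k] [IsAlgClosed k] (X : Co I n → k),
    AlgebraicIndependent ℂ X → ∀ c : Cv (sncArr F d N S) k X, c.m i = 0}

/-- an element of `ℂ(x)` which is constant along all curves is in the field of the factors which are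
not moved -/
theorem mem_of_const (D : SncData K I n E F d N x S) (h : FJ x Set.univ)
    (hc : ∀ (k : Type) [Field k] [Algebra ℂ k] [IsAlgClosed k] (X : Co I n → k),
      AlgebraicIndependent ℂ X → ∀ (c : Cv (sncArr F d N S) k X)
      (θ : FJ x Set.univ →ₐ[ℂ] RatFunc k),
      (∀ i j, θ ⟨x i j, x_mem x _ i (Set.mem_univ i) j⟩ = yy c i j) →
        ∃ a : k, θ h = RatFunc.C a) :
    (h : K) ∈ FJ x (fixed F d N S) := by
  obtain ⟨P, Q, hPQ, hQ, hrep⟩ := exists_rep D.alg_indep h
  refine mem_of_vars D _ h hQ hrep fun s hs => ?_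
  by_contra hcon
  simp only [fixed, Set.mem_ofPred_eq, not_forall] at hcon
  obtain ⟨k, _, _, _, X, hX, c, hm⟩ := hcon
  exact no_relation (sncArr_ok D) hX c P Q hPQ s hs (Nat.pos_of_ne_zero hm)
    fun k' _ _ _ X' hX' c' => rel_of_const D h hrep hX' c' fun θ hθ => hc k' X' hX' c' θ hθ

theorem alg_of_not_uniruled (D : SncData K I n E F d N x S) (K' : IntermediateField ℂ K)
    [Algebra.EssFiniteType ℂ K'] (hK' : ¬ Uniruled K') (u : K) (hu : u ∈ K') :
    IsAlgebraic (FJ x (fixed F d N S)) u := by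
  have hint : IsIntegral (FJ x Set.univ) u := (isAlgebraic_univ D u).isIntegral
  have hcoe : ∀ l, (((minpoly (FJ x Set.univ) u).coeff l : FJ x Set.univ) : K) ∈
      FJ x (fixed F d N S) := fun l =>
    mem_of_const D _ fun _ _ _ _ _ hX c θ hθ => coeff_const D K' hK' u hu hX c θ hθ l
  have hmon : ((minpoly (FJ x Set.univ) u).map (algebraMap (FJ x Set.univ) K)).Monic :=
    (minpoly.monic hint).map _
  have hlift : (minpoly (FJ x Set.univ) u).map (algebraMap (FJ x Set.univ) K) ∈
      Polynomial.lifts (algebraMap (FJ x (fixed F d N S)) K) := by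
    rw [Polynomial.lifts_iff_coeff_lifts]
    intro l
    refine ⟨⟨_, hcoe l⟩, ?_⟩
    rw [coeff_map]
    rfl
  obtain ⟨q, hq, -, hqm⟩ := Polynomial.lifts_and_degree_eq_and_monic hlift hmon
  refine ⟨q, hqm.ne_zero, ?_⟩
  rw [← aeval_map_algebraMap K u q, hq, aeval_map_algebraMap, minpoly.aeval]

end Pool.Agent.Work.RP
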