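import Mathlib

/-!
A subfield (containing the base field) of a finitely generated field extension is finitely generated.
Proof: let `t` be a transcendence basis of `K'` over `F`, `u` one of `K` over `K'`; `K` is finite over
`F(t, u)`; a family of elements of `K'` linearly independent over `F(t)` stays linearly independent
over `F(t)(u) = F(t, u)` because `u` is algebraically independent over `K'`
(`AlgebraicIndependent` over `K'`: monomials in `u` are linearly independent over `K'`).  So
`[K' : F(t)] ≤ [K : F(t, u)] < ∞`.
-/

namespace Pool.Agent.Work.RP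

namespace EssSub

open scoped IntermediateField.algebraAdjoinAdjoin

/-- Elements of `K'` linearly independent over `E` are linearly independent over `E(u)`. -/
theorem linearIndependent_adjoin {E K' K κ m : Type} [Field E] [Field K'] [Field K] [Algebra E K']
    [Algebra E K] [Algebra K' K] [IsScalarTower E K' K] {u : κ → K}
    (hu : AlgebraicIndependent K' u) {v : m → K'} (hv : LinearIndependent E v) :
    LinearIndependent (IntermediateField.adjoin E (Set.range u)) (fun i => algebraMap K' K (v i)) := by
  rw [← LinearIndependent.iff_fractionRing (Algebra.adjoin E (Set.range u))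
    (IntermediateField.adjoin E (Set.range u)), linearIndependent_iff']
  intro s c hc
  have hP : ∀ i, ∃ P : MvPolynomial κ E, MvPolynomial.aeval u P = (c i : K) := by
    intro i
    have h1 : (c i : K) ∈ (MvPolynomial.aeval u : MvPolynomial κ E →ₐ[E] K).range :=
      (Algebra.adjoin_range_eq_range_aeval E u) ▸ (c i).2
    exact h1
  choose P hP using hP
  set Q : MvPolynomial κ K' := ∑ i ∈ s, MvPolynomial.C (v i) *
    MvPolynomial.map (algebraMap E K') (P i) with hQ
  have hQ0 : Q = 0 := by
    refine (algebraicIndependent_iff.1 hu) Q ?_
    rw [hQ, map_sum, ← hc]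
    refine Finset.sum_congr rfl fun i _ => ?_
    rw [map_mul, MvPolynomial.aeval_C, MvPolynomial.aeval_map_algebraMap, hP, mul_comm]
    rfl
  intro i hi
  have hPi : P i = 0 := by
    ext d
    have h2 : MvPolynomial.coeff d Q = 0 := by rw [hQ0, MvPolynomial.coeff_zero]
    rw [hQ, MvPolynomial.coeff_sum] at h2
    have h3 : ∑ i ∈ s, MvPolynomial.coeff d (P i) • v i = 0 := by
      rw [← h2]
      refine Finset.sum_congr rfl fun j _ => ?_
      rw [MvPolynomial.coeff_C_mul, MvPolynomial.coeff_map, Algebra.smul_def, mul_comm]
    rw [linearIndependent_iff'.1 hv s _ h3 i hi, MvPolynomial.coeff_zero]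
  apply Subtype.ext
  rw [← hP i, hPi, map_zero]
  rfl

theorem finite_of {F E K' K κ : Type} [Field F] [Field E] [Field K'] [Field K] [Algebra F E]
    [Algebra F K] [Algebra E K'] [Algebra E K] [Algebra K' K] [IsScalarTower F E K]
    [IsScalarTower E K' K] [Algebra.EssFiniteType F K] [Algebra.IsAlgebraic E K'] {u : κ → K}
    (hu : IsTranscendenceBasis K' u) : Module.Finite E K' := by
  have h0 : IsTranscendenceBasis E (fun x : Empty => (x.elim : K')) := by
    rw [isTranscendenceBasis_iff_algebraicIndependent_isAlgebraic]
    refine ⟨algebraicIndependent_empty_type, ?_⟩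
    exact Algebra.IsAlgebraic.extendScalars (R := E) (FaithfulSMul.algebraMap_injective _ _)
  have h1 := h0.sumElim_comp hu
  have h2 : IsTranscendenceBasis E u := by
    have h3 := (isTranscendenceBasis_equiv (R := E) (Equiv.sumEmpty κ Empty).symm).2 h1
    exact h3
  set L := IntermediateField.adjoin E (Set.range u) with hL
  have h4 : Algebra.IsAlgebraic L K := h2.isAlgebraic_field
  have h5' : Algebra.EssFiniteType E K := Algebra.EssFiniteType.of_comp F E K
  have h5 : Algebra.EssFiniteType L K := Algebra.EssFiniteType.of_comp E L K
  have h6 : Module.Finite L K := Algebra.finite_of_essFiniteType_of_isAlgebraic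
  have h7 : Module.rank E K' ≤ (Module.finrank L K : ℕ) := by
    apply rank_le
    intro s hs
    have h8 := (linearIndependent_adjoin hu.1 hs).fintype_card_le_finrank
    simpa using h8
  rw [← Module.rank_lt_aleph0_iff]
  exact h7.trans_lt (Cardinal.natCast_lt_aleph0)

end EssSub

theorem essFiniteType_sub {F K : Type} [Field F] [Field K] [Algebra F K]
    [Algebra.EssFiniteType F K] (K' : IntermediateField F K) : Algebra.EssFiniteType F K' := by
  obtain ⟨s, hs⟩ := exists_isTranscendenceBasis F K'
  obtain ⟨s', hs'⟩ := exists_isTranscendenceBasis K' K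
  have hfin : Finite s := by
    have h1 : AlgebraicIndependent F (fun x : s => algebraMap K' K x) :=
      hs.1.map' (f := IsScalarTower.toAlgHom F K' K) (algebraMap K' K).injective
    exact finite_of_algebraicIndependent h1
  set E := IntermediateField.adjoin F (Set.range ((↑) : s → K')) with hE
  have h2 : Algebra.IsAlgebraic E K' := hs.isAlgebraic_field
  have h3 : Module.Finite E K' := EssSub.finite_of (F := F) hs'
  have h4 : Algebra.EssFiniteType F E :=
    IntermediateField.essFiniteType_iff.2 (IntermediateField.fg_adjoin_of_finite (Set.finite_range _))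
  exact Algebra.EssFiniteType.comp F E K'

end Pool.Agent.Work.RP
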