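import Mathlib

/-!
Kummer theory: an element `u` of a Kummer extension `K = F₀(Z)` which is algebraic over a subfield
`A ≤ F₀` is a sum of elements `f z` (`f ∈ F₀`, `z` a product of elements of `Z`) which are algebraic over
`A`.  Proof: `K / F₀` is Galois with group `G`, finite for the finitely many `z` needed; group the
terms `f_k z_k` of `u` by the characters of the `z_k`; the component with character `χ` is
`(1 / #G) ∑ χ(g)⁻¹ g(u)`, and the `g(u)` are algebraic over `A`.
-/

namespace Pool.Agent.Work.RP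

open IntermediateField Polynomial

/-- A conjugate different from the element. -/
private lemma kum_conj {K : Type} [Field K] [Algebra ℂ K] (F₀ : IntermediateField ℂ K)
    [Algebra.IsAlgebraic F₀ K] (w : K) (hw : w ∉ F₀) :
    ∃ g : K →ₐ[F₀] AlgebraicClosure K, g w ≠ algebraMap K (AlgebraicClosure K) w := by
  have : CharZero F₀ := charZero_of_injective_algebraMap (algebraMap ℂ F₀).injective
  have hint : ∀ x : K, IsIntegral F₀ x := fun x => Algebra.IsIntegral.isIntegral x
  have hsplit : ∀ x : K, ((minpoly F₀ x).map (algebraMap F₀ (AlgebraicClosure K))).Splits :=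
    fun x => IsAlgClosed.splits _
  have hnot : algebraMap K (AlgebraicClosure K) w ∉
      (⊥ : Subalgebra F₀ (AlgebraicClosure K)) := by
    intro h
    rw [Algebra.mem_bot] at h
    obtain ⟨c, hc⟩ := h
    rw [IsScalarTower.algebraMap_apply F₀ K (AlgebraicClosure K)] at hc
    have := (algebraMap K (AlgebraicClosure K)).injective hc
    apply hw
    rw [← this]
    exact c.2
  have hmin : minpoly F₀ (algebraMap K (AlgebraicClosure K) w) = minpoly F₀ w :=
    minpoly.algebraMap_eq (algebraMap K (AlgebraicClosure K)).injective w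
  have hsep : IsSeparable F₀ (algebraMap K (AlgebraicClosure K) w) := by
    rw [IsSeparable, hmin]
    exact (minpoly.irreducible (hint w)).separable
  obtain ⟨y, hy1, hy2⟩ := (notMem_iff_exists_ne_and_isConjRoot hsep
    (by rw [hmin]; exact hsplit w)).1 hnot
  have hy3 : aeval y (minpoly F₀ w) = 0 := by
    have h1 : minpoly F₀ (algebraMap K (AlgebraicClosure K) w) = minpoly F₀ y := hy2
    rw [← hmin, h1]
    exact minpoly.aeval F₀ y
  obtain ⟨g, hg⟩ := exists_algHom_of_splits_of_aeval
    (fun x => ⟨hint x, hsplit x⟩) hy3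
  exact ⟨g, by rw [hg]; exact Ne.symm hy1⟩

/-- The roots of unity are complex numbers. -/
private lemma kum_zeta {K : Type} [Field K] [Algebra ℂ K] (F₀ : IntermediateField ℂ K)
    (N : ℕ) (hN : 0 < N) (g : K →ₐ[F₀] AlgebraicClosure K) (v : K) (hv : v ^ N ∈ F₀) :
    ∃ ζ : ℂ, g v = algebraMap K (AlgebraicClosure K) (algebraMap ℂ K ζ * v) := by
  rcases eq_or_ne v 0 with rfl | hv0
  · exact ⟨1, by simp⟩
  set ι := algebraMap K (AlgebraicClosure K) with hι
  have h1 : g v ^ N = ι v ^ N := by
    rw [← map_pow, ← map_pow]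
    exact (g.commutes ⟨v ^ N, hv⟩)
  have hιv : ι v ≠ 0 := by
    rw [Ne, map_eq_zero]
    exact hv0
  have h2 : (g v / ι v) ^ N = 1 := by
    rw [div_pow, h1, div_self (pow_ne_zero _ hιv)]
  have h4 : aeval (g v / ι v) (X ^ N - 1 : ℂ[X]) = 0 := by
    rw [map_sub, map_pow, aeval_X, map_one, h2, sub_self]
  have h6 : IsIntegral ℂ (g v / ι v) := by
    refine ⟨X ^ N - 1, monic_X_pow_sub_C (1 : ℂ) hN.ne', ?_⟩
    rw [← aeval_def]
    exact h4
  have h7 : g v / ι v ∈ (algebraMap ℂ (AlgebraicClosure K)).range :=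
    minpoly.mem_range_of_degree_eq_one ℂ _
      (IsAlgClosed.degree_eq_one_of_irreducible ℂ (minpoly.irreducible h6))
  obtain ⟨ζ, hζ⟩ := h7
  refine ⟨ζ, ?_⟩
  rw [map_mul, ← IsScalarTower.algebraMap_apply ℂ K (AlgebraicClosure K), hζ,
    div_mul_cancel₀ _ hιv]

/-- The terms of an algebraic sum with distinct characters are algebraic. -/
private lemma kum_sum {K : Type} [Field K] [Algebra ℂ K] (F₀ A : IntermediateField ℂ K)
    (hA : A ≤ F₀) [Algebra.IsAlgebraic F₀ K] (N : ℕ) (hN : 0 < N) {ι : Type} [DecidableEq ι] :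
    ∀ (m : ℕ) (s : Finset ι) (v : ι → K), s.card = m → (∀ i ∈ s, v i ^ N ∈ F₀) →
      (∀ i ∈ s, ∀ j ∈ s, i ≠ j → v i / v j ∉ F₀) → IsAlgebraic A (∑ i ∈ s, v i) →
      ∀ i ∈ s, IsAlgebraic A (v i) := by
  intro m
  induction m using Nat.strong_induction_on with
  | _ m ih =>
    intro s v hs hvN hdiv halg
    have key : ∀ i₀ ∈ s, ∀ j ∈ s, i₀ ≠ j → IsAlgebraic A (v j) := by
      intro i₀ hi₀ j hj hij
      obtain ⟨g, hg⟩ := kum_conj F₀ (v i₀ / v j) (hdiv i₀ hi₀ j hj hij)
      have hζ : ∀ i, ∃ ζ : ℂ, i ∈ s →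
          g (v i) = algebraMap K (AlgebraicClosure K) (algebraMap ℂ K ζ * v i) := by
        intro i
        by_cases hi : i ∈ s
        · obtain ⟨ζ, h⟩ := kum_zeta F₀ N hN g (v i) (hvN i hi)
          exact ⟨ζ, fun _ => h⟩
        · exact ⟨0, fun h => absurd h hi⟩
      choose ζ hζ using hζ
      have hvj : v j ≠ 0 := by
        intro h0
        apply hdiv i₀ hi₀ j hj hij
        rw [h0, div_zero]
        exact zero_mem _
      have hne : ζ i₀ ≠ ζ j := by
        intro h0
        apply hg
        rw [map_div₀, hζ i₀ hi₀, hζ j hj, h0, ← map_div₀]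
        congr 1
        have hζj : algebraMap ℂ K (ζ j) ≠ 0 := by
          intro h1
          have h2 := hζ j hj
          rw [h1, zero_mul, map_zero, map_eq_zero] at h2
          exact hvj h2
        rw [mul_div_mul_left _ _ hζj]
      -- the new sum
      have hsum : IsAlgebraic A (∑ i ∈ s, algebraMap ℂ K (ζ i - ζ i₀) * v i) := by
        have e1 : algebraMap K (AlgebraicClosure K)
            (∑ i ∈ s, algebraMap ℂ K (ζ i - ζ i₀) * v i) =
            g (∑ i ∈ s, v i) - algebraMap K (AlgebraicClosure K)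
              (algebraMap ℂ K (ζ i₀) * ∑ i ∈ s, v i) := by
          rw [map_sum g, Finset.mul_sum, map_sum, map_sum, ← Finset.sum_sub_distrib]
          apply Finset.sum_congr rfl
          intro i hi
          rw [hζ i hi, ← map_sub, ← sub_mul, ← map_sub]
        let gA : K →ₐ[A] AlgebraicClosure K :=
          { g.toRingHom with commutes' := fun a => g.commutes ⟨a, hA a.2⟩ }
        have e2 : IsAlgebraic A (g (∑ i ∈ s, v i)) := halg.algHom gA
        have e3 : IsAlgebraic A (algebraMap K (AlgebraicClosure K)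
            (algebraMap ℂ K (ζ i₀) * ∑ i ∈ s, v i)) := by
          apply IsAlgebraic.algebraMap
          exact (isAlgebraic_algebraMap (⟨algebraMap ℂ K (ζ i₀), A.algebraMap_mem _⟩ : A)).mul halg
        have e4 := e2.sub e3
        rw [← e1] at e4
        exact (isAlgebraic_algebraMap_iff (algebraMap K (AlgebraicClosure K)).injective).1 e4
      set s' := s.filter fun i => ζ i ≠ ζ i₀ with hs'
      have h1 := ih s'.card (by
        rw [← hs]
        apply Finset.card_lt_card
        rw [Finset.ssubset_iff_of_subset (Finset.filter_subset _ _)]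
        exact ⟨i₀, hi₀, by simp⟩) s' (fun i => algebraMap ℂ K (ζ i - ζ i₀) * v i) rfl
        (by
          intro i hi
          rw [mul_pow, ← map_pow]
          exact mul_mem (F₀.algebraMap_mem _) (hvN i (Finset.mem_of_mem_filter i hi)))
        (by
          intro i hi k hk hik h2
          rw [hs', Finset.mem_filter] at hi hk
          apply hdiv i hi.1 k hk.1 hik
          have hci : algebraMap ℂ K (ζ i - ζ i₀) ≠ 0 := by
            rw [Ne, map_eq_zero, sub_eq_zero]
            exact hi.2
          have hck : algebraMap ℂ K (ζ k - ζ i₀) ≠ 0 := by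
            rw [Ne, map_eq_zero, sub_eq_zero]
            exact hk.2
          have h3 : v i / v k = algebraMap ℂ K ((ζ k - ζ i₀) / (ζ i - ζ i₀)) *
              ((algebraMap ℂ K (ζ i - ζ i₀) * v i) / (algebraMap ℂ K (ζ k - ζ i₀) * v k)) := by
            rw [map_div₀, mul_div_mul_comm, ← mul_assoc, div_mul_div_comm,
              mul_comm (algebraMap ℂ K (ζ k - ζ i₀)), div_self (mul_ne_zero hci hck), one_mul]
          rw [h3]
          exact mul_mem (F₀.algebraMap_mem _) h2)
        (by
          have e2 : ∑ i ∈ s', algebraMap ℂ K (ζ i - ζ i₀) * v i =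
              ∑ i ∈ s, algebraMap ℂ K (ζ i - ζ i₀) * v i := by
            rw [hs', Finset.sum_filter]
            apply Finset.sum_congr rfl
            intro i _
            split_ifs with h
            · rfl
            · rw [not_not] at h
              rw [h, sub_self, map_zero, zero_mul]
          rw [e2]
          exact hsum) j (by
          rw [hs', Finset.mem_filter]
          exact ⟨hj, hne.symm⟩)
      have hc : algebraMap ℂ K (ζ j - ζ i₀) ≠ 0 := by
        rw [Ne, map_eq_zero, sub_eq_zero]
        exact hne.symm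
      have h2 : v j = algebraMap ℂ K (ζ j - ζ i₀)⁻¹ * (algebraMap ℂ K (ζ j - ζ i₀) * v j) := by
        rw [← mul_assoc, map_inv₀, inv_mul_cancel₀ hc, one_mul]
      rw [h2]
      exact ((isAlgebraic_algebraMap (⟨algebraMap ℂ K (ζ j - ζ i₀)⁻¹, A.algebraMap_mem _⟩ : A))).mul h1
    intro i hi
    by_cases hex : ∃ i₀ ∈ s, i₀ ≠ i
    · obtain ⟨i₀, hi₀, hne⟩ := hex
      exact key i₀ hi₀ i hi hne
    · push Not at hex
      have : s = {i} := by
        apply Finset.eq_singleton_iff_unique_mem.2
        exact ⟨hi, hex⟩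
      rw [this, Finset.sum_singleton] at halg
      exact halg

theorem kummer_alg {K : Type} [Field K] [Algebra ℂ K] (F₀ A : IntermediateField ℂ K)
    (hA : A ≤ F₀) (N : ℕ) (hN : 0 < N) (Z : Set K) (hZ : ∀ z ∈ Z, z ^ N ∈ F₀)
    (hgen : IntermediateField.adjoin ℂ ((F₀ : Set K) ∪ Z) = ⊤) (u : K) (hu : IsAlgebraic A u) :
    u ∈ AddSubmonoid.closure {v : K | IsAlgebraic A v ∧
      ∃ f ∈ F₀, ∃ z ∈ Submonoid.closure Z, v = f * z} := by
  classical
  have hZalg : ∀ z ∈ Z, IsIntegral F₀ z := by
    intro z hz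
    refine ⟨X ^ N - C ⟨z ^ N, hZ z hz⟩, monic_X_pow_sub_C _ hN.ne', ?_⟩
    rw [eval₂_sub, eval₂_pow, eval₂_X, eval₂_C]
    exact sub_self _
  have htop : IntermediateField.adjoin F₀ Z = ⊤ := by
    rw [← restrictScalars_eq_top_iff (K := ℂ), restrictScalars_adjoin]
    exact hgen
  have halg : Algebra.IsAlgebraic F₀ K := by
    have h1 := isAlgebraic_adjoin hZalg
    refine ⟨fun x => ?_⟩
    have hx : x ∈ IntermediateField.adjoin F₀ Z := by
      rw [htop]
      exact IntermediateField.mem_top
    exact IntermediateField.isAlgebraic_iff.1 (h1.isAlgebraic ⟨x, hx⟩)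
  have hspan : u ∈ Submodule.span F₀ (Submonoid.closure Z : Set K) := by
    have h1 : Algebra.adjoin F₀ Z = ⊤ := by
      have h2 := adjoin_toSubalgebra_of_isAlgebraic (F := F₀) (E := K) (S := Z)
        fun z hz => (hZalg z hz).isAlgebraic
      rw [← h2, htop]
      rfl
    rw [← Algebra.adjoin_eq_span, h1]
    exact Algebra.mem_top (R := F₀)
  rw [Submodule.mem_span_iff_exists_finset_subset] at hspan
  obtain ⟨f₀, T₀, hT₀, -, hu₀⟩ := hspan
  have hex : ∃ m, ∃ (T : Finset K) (f : K → F₀), T.card = m ∧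
      (T : Set K) ⊆ Submonoid.closure Z ∧ ∑ z ∈ T, f z • z = u := ⟨_, T₀, f₀, rfl, hT₀, hu₀⟩
  obtain ⟨T, f, hTm, hT, huT⟩ := Nat.find_spec hex
  have hdiv : ∀ z ∈ T, ∀ z' ∈ T, z ≠ z' → (f z • z) / (f z' • z') ∉ F₀ := by
    intro z hz z' hz' hne h
    by_cases h0 : f z' • z' = 0
    · apply Nat.find_min hex (m := (T.erase z').card)
      · rw [← hTm]
        exact Finset.card_erase_lt_of_mem hz'
      · refine ⟨T.erase z', f, rfl, ?_, ?_⟩
        · exact fun y hy => hT (Finset.mem_of_mem_erase hy)
        · rw [← huT]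
          exact Finset.sum_erase (f := fun z => f z • z) T h0
    · obtain ⟨c, hc⟩ : ∃ c : F₀, (c : K) = (f z • z) / (f z' • z') := ⟨⟨_, h⟩, rfl⟩
      have hc' : f z • z = c • (f z' • z') := by
        rw [Algebra.smul_def c]
        change _ = (c : K) * _
        rw [hc, div_mul_cancel₀ _ h0]
      apply Nat.find_min hex (m := (T.erase z).card)
      · rw [← hTm]
        exact Finset.card_erase_lt_of_mem hz
      · refine ⟨T.erase z, fun y => if y = z' then f z' + c * f z' else f y, rfl, ?_, ?_⟩
        · exact fun y hy => hT (Finset.mem_of_mem_erase hy)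
        · have hz'' : z' ∈ T.erase z := Finset.mem_erase.2 ⟨hne.symm, hz'⟩
          rw [← Finset.add_sum_erase _ _ hz'']
          simp only [if_true]
          rw [← huT, ← Finset.add_sum_erase _ _ hz,
            ← Finset.add_sum_erase (T.erase z) (fun z => f z • z) hz'', hc']
          have e1 : ∑ y ∈ (T.erase z).erase z', (if y = z' then f z' + c * f z' else f y) • y =
              ∑ y ∈ (T.erase z).erase z', f y • y := by
            apply Finset.sum_congr rfl
            intro y hy
            rw [if_neg (Finset.ne_of_mem_erase hy)]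
          rw [e1, add_smul, mul_smul]
          ring
  have hclN : ∀ z ∈ Submonoid.closure Z, z ^ N ∈ F₀ := by
    intro z hz
    induction hz using Submonoid.closure_induction with
    | mem z hz => exact hZ z hz
    | one => rw [one_pow]; exact one_mem _
    | mul x y _ _ hx hy => rw [mul_pow]; exact mul_mem hx hy
  have hfin := kum_sum F₀ A hA N hN T.card T (fun z => f z • z) rfl (by
    intro z hz
    rw [_root_.smul_pow]
    have h1 := hclN z (hT hz)
    have h2 : (f z ^ N) • (z ^ N) = ((f z ^ N : F₀) : K) * z ^ N := Algebra.smul_def _ _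
    rw [h2]
    exact mul_mem (f z ^ N).2 h1) hdiv (by rw [huT]; exact hu)
  rw [← huT]
  apply sum_mem
  intro z hz
  apply AddSubmonoid.subset_closure
  exact ⟨hfin z hz, f z, (f z).2, z, hT hz, Algebra.smul_def _ _⟩

end Pool.Agent.Work.RP
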