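import Mathlib
import Pool.Agent.Work.MP_4329d7_ag_rp.SncA
import Pool.Agent.Work.MP_4329d7_ag_snc.Main

/-!
The components of the branch divisors: a form `F e` which has positive degree in the factor `i` has an
irreducible factor which involves a coordinate of the factor `i`, divides `F e` only once and does not
divide the other forms (normal crossings at a common zero; an irreducible polynomial which involves
the variable `s` has a zero with all other coordinates nonzero by the Nullstellensatz, and `n i > 0`).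
-/

namespace Pool.Agent.Work.RP

open Pool.Agent.Work.Snc (SncData Co)

section aux

variable {σ : Type} [Fintype σ]

/-- an irreducible polynomial which involves the variable `s` has a zero with all other coordinates
nonzero -/
theorem prime_exists_zero (p : MvPolynomial σ ℂ) (hp : Irreducible p) (s : σ) (hs : s ∈ p.vars) :
    ∃ P : σ → ℂ, MvPolynomial.eval P p = 0 ∧ ∀ s', s' ≠ s → P s' ≠ 0 := by
  classical
  by_contra hcon
  push Not at hcon
  set q : MvPolynomial σ ℂ := ∏ s' ∈ Finset.univ.erase s, MvPolynomial.X s' with hq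
  have hp' : Prime p := hp.prime
  have h1 : q ∈ (Ideal.span {p}).radical := by
    rw [← MvPolynomial.vanishingIdeal_zeroLocus_eq_radical (K := ℂ)]
    rw [MvPolynomial.mem_vanishingIdeal_iff]
    intro P hP
    have h2 : MvPolynomial.eval P p = 0 := by
      have := (MvPolynomial.mem_zeroLocus_iff.1 hP) p (Ideal.mem_span_singleton_self p)
      rwa [MvPolynomial.aeval_eq_eval] at this
    obtain ⟨s', h3, h4⟩ := hcon P h2
    rw [hq, map_prod]
    refine Finset.prod_eq_zero (Finset.mem_erase.2 ⟨h3, Finset.mem_univ _⟩) ?_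
    rw [MvPolynomial.aeval_X]
    exact h4
  obtain ⟨k, hk⟩ := h1
  rw [Ideal.mem_span_singleton] at hk
  have h2 : p ∣ q := hp'.dvd_of_dvd_pow hk
  rw [hq, hp'.dvd_finsetProd_iff] at h2
  obtain ⟨s', hs', h3⟩ := h2
  obtain ⟨r, hr⟩ := h3
  have hp0 : p ≠ 0 := hp.ne_zero
  have hr0 : r ≠ 0 := by
    rintro rfl
    rw [mul_zero] at hr
    exact MvPolynomial.X_ne_zero s' hr
  have h4 := MvPolynomial.degreeOf_mul_eq (n := s) hp0 hr0
  rw [← hr, MvPolynomial.degreeOf_X_of_ne (Finset.mem_erase.1 hs').1.symm] at h4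
  rw [MvPolynomial.mem_vars_iff_degreeOf_ne_zero] at hs
  omega

omit [Fintype σ] in
/-- a polynomial which involves the variable `s` has an irreducible factor which does -/
theorem prime_exists_factor (f : MvPolynomial σ ℂ) (hf : f ≠ 0) (s : σ) (hs : s ∈ f.vars) :
    ∃ p : MvPolynomial σ ℂ, Irreducible p ∧ p ∣ f ∧ s ∈ p.vars := by
  classical
  by_contra hcon
  push Not at hcon
  obtain ⟨m, hm, u, hu⟩ := WfDvdMonoid.exists_factors f hf
  have h1 : ∀ m' : Multiset (MvPolynomial σ ℂ), (∀ b ∈ m', MvPolynomial.degreeOf s b = 0) →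
      MvPolynomial.degreeOf s m'.prod = 0 := by
    intro m'
    induction m' using Multiset.induction_on with
    | empty =>
      intro _
      rw [Multiset.prod_zero, MvPolynomial.degreeOf_one]
    | cons b m' ih =>
      intro h
      rw [Multiset.prod_cons]
      have h2 := MvPolynomial.degreeOf_mul_le s b m'.prod
      rw [h b (Multiset.mem_cons_self b m'), ih fun b' hb' => h b' (Multiset.mem_cons_of_mem hb')]
        at h2
      omega
  have h2 : MvPolynomial.degreeOf s m.prod = 0 := by
    refine h1 m fun b hb => ?_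
    have h3 : b ∣ f := (Multiset.dvd_prod hb).trans ⟨u, hu.symm⟩
    have h4 := hcon b (hm b hb) h3
    rw [MvPolynomial.mem_vars_iff_degreeOf_ne_zero, not_not] at h4
    exact h4
  have h3 : MvPolynomial.degreeOf s (u : MvPolynomial σ ℂ) = 0 := by
    have h4 := MvPolynomial.degreeOf_mul_eq (n := s) (u.ne_zero) (u⁻¹.ne_zero)
    rw [Units.mul_inv, MvPolynomial.degreeOf_one] at h4
    omega
  have h4 := MvPolynomial.degreeOf_mul_le s m.prod (u : MvPolynomial σ ℂ)
  rw [hu, h2, h3] at h4
  rw [MvPolynomial.mem_vars_iff_degreeOf_ne_zero] at hs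
  omega

/-- the gradient of a product at a zero of the first factor -/
theorem prime_grad {σ : Type} (p g : MvPolynomial σ ℂ) (P : σ → ℂ) (hP : MvPolynomial.eval P p = 0)
    (s : σ) : MvPolynomial.eval P (MvPolynomial.pderiv s (p * g)) =
      MvPolynomial.eval P g * MvPolynomial.eval P (MvPolynomial.pderiv s p) := by
  rw [Derivation.leibniz]
  simp only [smul_eq_mul, map_add, map_mul, hP]
  ring

end aux

variable {K : Type} [Field K] [Algebra ℂ K] {I : Type} [Fintype I] [DecidableEq I] {n : I → ℕ}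
  {E : Type} [Fintype E] [DecidableEq E] {F : E → MvPolynomial (Co I n) ℂ} {d : E → I → ℕ}
  {N : ℕ} {x : (i : I) → Fin (n i) → K} {S : Set (K × (E → ℕ))}

omit [DecidableEq E] in
theorem prime_ne_zero (D : SncData K I n E F d N x S) (e : E) : F e ≠ 0 := by
  intro h0
  have hP : Snc.IsPoint (fun _ : Co I n => (1 : ℂ)) := fun i => ⟨0, one_ne_zero⟩
  have h1 := (D.snc _ hP).ne_zero ⟨e, by rw [h0, map_zero]⟩
  apply h1
  funext s
  simp only [h0, map_zero, Pi.zero_apply]

theorem exists_prime (D : SncData K I n E F d N x S) (e : E) (i : I) (h : 0 < d e i) :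
    ∃ p : MvPolynomial (Co I n) ℂ, Irreducible p ∧ p ∣ F e ∧ ¬ p ^ 2 ∣ F e ∧
      (∀ e', e' ≠ e → ¬ p ∣ F e') ∧ ∃ j, (⟨i, j⟩ : Co I n) ∈ p.vars := by
  classical
  have hF0 := prime_ne_zero D e
  obtain ⟨m, hm⟩ := MvPolynomial.support_nonempty.2 hF0
  rw [MvPolynomial.mem_support_iff] at hm
  have hw := D.hom e i hm
  have hex : ∃ j, m (⟨i, j⟩ : Co I n) ≠ 0 := by
    by_contra hcon
    push Not at hcon
    have h1 : Finsupp.weight (Snc.wt i) m = 0 := by
      rw [Finsupp.weight_apply, Finsupp.sum]
      refine Finset.sum_eq_zero fun s _ => ?_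
      obtain ⟨i', j⟩ := s
      unfold Snc.wt
      by_cases hi : i' = i
      · subst hi
        rw [hcon j, zero_smul]
      · simp only [hi, if_false, smul_zero]
    rw [h1] at hw
    omega
  obtain ⟨j, hj⟩ := hex
  have hv : (⟨i, j⟩ : Co I n) ∈ (F e).vars := by
    rw [MvPolynomial.mem_vars_iff_mem_support]
    exact ⟨m, MvPolynomial.mem_support_iff.2 hm, Finsupp.mem_support_iff.2 hj⟩
  obtain ⟨p, hp, hpF, hpv⟩ := prime_exists_factor (F e) hF0 _ hv
  obtain ⟨P, hP0, hP⟩ := prime_exists_zero p hp _ hpv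
  have hPt : Snc.IsPoint P := by
    intro i'
    by_cases hi : i' = i
    · subst hi
      have hnt : Nontrivial (Fin (n i' + 1)) :=
        Fin.nontrivial_iff_two_le.2 (by have := D.n_pos i'; omega)
      obtain ⟨j', hj'⟩ := exists_ne j
      refine ⟨j', hP _ fun hc => hj' ?_⟩
      exact eq_of_heq (Sigma.mk.inj hc).2
    · refine ⟨0, hP _ fun hc => hi ?_⟩
      exact (Sigma.mk.inj hc).1
  have hli := D.snc P hPt
  obtain ⟨g, hg⟩ := hpF
  have hFe : MvPolynomial.eval P (F e) = 0 := by rw [hg, map_mul, hP0, zero_mul]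
  have hg0 : MvPolynomial.eval P g ≠ 0 := by
    intro h0
    apply hli.ne_zero ⟨e, hFe⟩
    funext s
    simp only [Pi.zero_apply]
    rw [hg, prime_grad p g P hP0, h0, zero_mul]
  refine ⟨p, hp, ⟨g, hg⟩, ?_, ?_, j, hpv⟩
  · rintro ⟨g', hg'⟩
    apply hg0
    have h1 : g = p * g' := by
      apply mul_left_cancel₀ hp.ne_zero
      rw [← hg, hg']
      ring
    rw [h1, map_mul, hP0, zero_mul]
  · rintro e' he' ⟨g', hg'⟩
    have hFe' : MvPolynomial.eval P (F e') = 0 := by rw [hg', map_mul, hP0, zero_mul]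
    have hne : (⟨e', hFe'⟩ : {e // MvPolynomial.eval P (F e) = 0}) ≠ ⟨e, hFe⟩ := by
      intro hc
      exact he' (congrArg Subtype.val hc)
    rw [linearIndependent_iff'] at hli
    have h1 := hli {⟨e', hFe'⟩, ⟨e, hFe⟩}
      (fun a => if a.1 = e then - MvPolynomial.eval P g' else MvPolynomial.eval P g) (by
        rw [Finset.sum_pair hne]
        funext s
        simp only [he', if_false, if_true, Pi.add_apply, Pi.smul_apply, smul_eq_mul,
          Pi.zero_apply]
        rw [hg, hg', prime_grad p g P hP0, prime_grad p g' P hP0]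
        ring) ⟨e', hFe'⟩ (Finset.mem_insert_self _ _)
    simp only [he', if_false] at h1
    exact hg0 h1

end Pool.Agent.Work.RP
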