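import Mathlib
import Pool.Agent.Work.MP_4329d7_ag_rp.Prime
import Pool.Agent.Work.MP_4329d7_ag_rp.Rep

/-!
If `f z` (`f ∈ ℂ(x)`, `z` a radical with exponents `c`) is algebraic over `ℂ(x_J)` then `N ∣ c e` for
every branch divisor `e` which does not live on the factors in `J`, and `f ∏_(such e) F_e^(c_e / N)` is in
`ℂ(x_J)`.
Proof: `r := (f z)^N ∈ ℂ(x)` is algebraic over `ℂ(x_J)`, so it is in `ℂ(x_J)` (which is algebraically
closed in the purely transcendental extension `ℂ(x)`).  In homogeneous coordinates (`exists_rep`,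
`exists_theta` for the fraction field of the polynomial ring): the order of `r` along the irreducible
polynomial `p` of `exists_prime` is `0` and it is `N ord(f) + c_e - (a multiple of N)`.
-/

namespace Pool.Agent.Work.RP

open Pool.Agent.Work.Snc (SncData Co)

variable {K : Type} [Field K] [Algebra ℂ K] {I : Type} [Fintype I] [DecidableEq I] {n : I → ℕ}
  {E : Type} [Fintype E] [DecidableEq E] {F : E → MvPolynomial (Co I n) ℂ} {d : E → I → ℕ}
  {N : ℕ} {x : (i : I) → Fin (n i) → K} {S : Set (K × (E → ℕ))}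

/-- the constants are algebraically closed in a simple transcendental extension -/
theorem oj_simple {A K : Type*} [Field A] [Field K] [Algebra A K] {z r : K}
    (hz : Transcendental A z) (hr : r ∈ IntermediateField.adjoin A {z}) (halg : IsAlgebraic A r) :
    ∃ a : A, algebraMap A K a = r := by
  let e := RatFunc.algEquivOfTranscendental z hz
  let ρ : RatFunc A := e.symm ⟨r, hr⟩
  have h1 : IsAlgebraic A ρ := by
    have h2 : IsAlgebraic A (⟨r, hr⟩ : IntermediateField.adjoin A {z}) := by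
      refine (isAlgebraic_algebraMap_iff (A := K) (algebraMap (IntermediateField.adjoin A {z}) K).injective).1 ?_
      exact halg
    exact h2.algHom e.symm.toAlgHom
  by_contra hcon
  have h3 : ¬ ∃ c, ρ = RatFunc.C c := by
    rintro ⟨c, hc⟩
    apply hcon
    refine ⟨c, ?_⟩
    have h4 : (⟨r, hr⟩ : IntermediateField.adjoin A {z}) = algebraMap A _ c := by
      have h5 : e ρ = ⟨r, hr⟩ := e.apply_symm_apply _
      rw [← h5, hc, ← RatFunc.algebraMap_eq_C]
      exact e.commutes c
    have h6 := congrArg (Subtype.val) h4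
    exact h6.symm
  exact RatFunc.transcendental_of_ne_C ρ h3 h1

theorem oj_step {F K τ : Type*} [Field F] [Field K] [Algebra F K] {v : τ → K}
    (hv : AlgebraicIndependent F v) {T : Set τ} {p : τ} (hp : p ∉ T) {r : K}
    (hr : r ∈ IntermediateField.adjoin F (v '' insert p T)) (halg : IsAlgebraic (IntermediateField.adjoin F (v '' T)) r) :
    r ∈ IntermediateField.adjoin F (v '' T) := by
  have hz : Transcendental (IntermediateField.adjoin F (v '' T)) (v p) :=
    (IntermediateField.transcendental_adjoin_iff (F := F)).2 (hv.transcendental_adjoin hp)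
  have h1 : r ∈ IntermediateField.adjoin (IntermediateField.adjoin F (v '' T)) {v p} := by
    rw [← IntermediateField.mem_restrictScalars F, IntermediateField.adjoin_adjoin_left]
    refine (IntermediateField.adjoin.mono F _ _ ?_) hr
    rw [Set.image_insert_eq, Set.insert_eq, Set.union_comm]
  obtain ⟨a, ha⟩ := oj_simple hz h1 halg
  rw [← ha]
  exact a.2

theorem oj_mem {F K τ : Type*} [Field F] [Field K] [Algebra F K] [Finite τ] {v : τ → K}
    (hv : AlgebraicIndependent F v) (T : Set τ) {r : K}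
    (hr : r ∈ IntermediateField.adjoin F (v '' Set.univ)) (halg : IsAlgebraic (IntermediateField.adjoin F (v '' T)) r) :
    r ∈ IntermediateField.adjoin F (v '' T) := by
  classical
  have := Fintype.ofFinite τ
  have key : ∀ U : Finset τ, r ∈ IntermediateField.adjoin F (v '' (T ∪ U)) → r ∈ IntermediateField.adjoin F (v '' T) := by
    intro U
    induction U using Finset.induction_on with
    | empty => simp
    | insert p U hp ih =>
      intro h
      apply ih
      by_cases hpT : p ∈ T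
      · have : T ∪ (U : Set τ) = T ∪ ((insert p U : Finset τ) : Set τ) := by
          ext a
          simp only [Set.mem_union, Finset.coe_insert, Set.mem_insert_iff, Finset.mem_coe]
          constructor
          · rintro (h | h)
            · exact Or.inl h
            · exact Or.inr (Or.inr h)
          · rintro (h | h | h)
            · exact Or.inl h
            · exact Or.inl (h ▸ hpT)
            · exact Or.inr h
        rw [this]
        exact h
      · refine oj_step hv (T := T ∪ U) (p := p) ?_ ?_ ?_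
        · rintro (h | h)
          · exact hpT h
          · exact hp h
        · have : insert p (T ∪ (U : Set τ)) = T ∪ ((insert p U : Finset τ) : Set τ) := by
            rw [Finset.coe_insert, Set.union_insert]
          rw [this]
          exact h
        · have hle : IntermediateField.adjoin F (v '' T) ≤ IntermediateField.adjoin F (v '' (T ∪ U)) :=
            IntermediateField.adjoin.mono F _ _ (Set.image_mono Set.subset_union_left)
          let _ := (IntermediateField.inclusion hle).toRingHom.toAlgebra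
          have : IsScalarTower (IntermediateField.adjoin F (v '' T)) (IntermediateField.adjoin F (v '' (T ∪ U))) K :=
            IsScalarTower.of_algebraMap_eq' rfl
          exact halg.extendScalars (IntermediateField.inclusion hle).toRingHom.injective
  refine key Finset.univ ?_
  simpa using hr

omit [Fintype I] [DecidableEq I] in
theorem oj_FJ (x : (i : I) → Fin (n i) → K) (J : Set I) :
    FJ x J = IntermediateField.adjoin ℂ
      ((fun p : Σ i, Fin (n i) => x p.1 p.2) '' {p | p.1 ∈ J}) := by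
  unfold FJ
  congr 1
  ext w
  constructor
  · rintro ⟨i, hi, j, rfl⟩
    exact ⟨⟨i, j⟩, hi, rfl⟩
  · rintro ⟨p, hp, rfl⟩
    exact ⟨p.1, hp, p.2, rfl⟩

/-- `ℂ(x_J)` is algebraically closed in `ℂ(x)` -/
theorem mem_FJ_of_isAlgebraic
    (hx : AlgebraicIndependent ℂ (fun p : Σ i, Fin (n i) => x p.1 p.2)) (J : Set I) (r : K)
    (hr : r ∈ FJ x Set.univ) (halg : IsAlgebraic (FJ x J) r) : r ∈ FJ x J := by
  rw [oj_FJ] at hr halg ⊢
  refine oj_mem hx _ ?_ halg
  have : {p : Σ i, Fin (n i) | p.1 ∈ (Set.univ : Set I)} = Set.univ := by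
    ext p
    simp
  rw [← this]
  exact hr

omit [Fintype I] [DecidableEq I] in
theorem oj_le (x : (i : I) → Fin (n i) → K) (J : Set I) : FJ x J ≤ FJ x Set.univ :=
  IntermediateField.adjoin.mono ℂ _ _ fun _ ⟨i, _, j, h⟩ => ⟨i, Set.mem_univ i, j, h⟩

/-- the elements of `ℂ(x_J)` are quotients of polynomials in the coordinates of the factors in `J` -/
theorem oj_PQ (J : Set I) {L : Type} [Field L] [Algebra ℂ L] {X : Co I n → L}
    (hX : AlgebraicIndependent ℂ X) (θ : FJ x Set.univ →ₐ[ℂ] L)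
    (hθ : ∀ i j, θ ⟨x i j, x_mem x _ i (Set.mem_univ i) j⟩ = X ⟨i, j.succ⟩ / X ⟨i, 0⟩)
    (w : K) (hw : w ∈ FJ x J) : ∀ hw' : w ∈ FJ x Set.univ,
    ∃ P Q : MvPolynomial (Co I n) ℂ, Q ≠ 0 ∧ P ∈ MvPolynomial.supported ℂ {s : Co I n | s.1 ∈ J} ∧
      Q ∈ MvPolynomial.supported ℂ {s : Co I n | s.1 ∈ J} ∧
      θ ⟨w, hw'⟩ * MvPolynomial.aeval X Q = MvPolynomial.aeval X P := by
  have hinj : ∀ Q : MvPolynomial (Co I n) ℂ, Q ≠ 0 → MvPolynomial.aeval X Q ≠ 0 := fun Q hQ h =>
    hQ (hX (by rw [h, map_zero]))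
  refine IntermediateField.adjoin_induction ℂ (p := fun w _ => ∀ hw' : w ∈ FJ x Set.univ,
    ∃ P Q : MvPolynomial (Co I n) ℂ, Q ≠ 0 ∧ P ∈ MvPolynomial.supported ℂ {s : Co I n | s.1 ∈ J} ∧
      Q ∈ MvPolynomial.supported ℂ {s : Co I n | s.1 ∈ J} ∧
      θ ⟨w, hw'⟩ * MvPolynomial.aeval X Q = MvPolynomial.aeval X P) ?_ ?_ ?_ ?_ ?_ hw
  · rintro _ ⟨i, hi, j, rfl⟩ hw'
    refine ⟨MvPolynomial.X ⟨i, j.succ⟩, MvPolynomial.X ⟨i, 0⟩, MvPolynomial.X_ne_zero _, ?_, ?_, ?_⟩
    · exact MvPolynomial.X_mem_supported.2 hi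
    · exact MvPolynomial.X_mem_supported.2 hi
    · have h0 := hinj _ (MvPolynomial.X_ne_zero (R := ℂ) (⟨i, 0⟩ : Co I n))
      rw [MvPolynomial.aeval_X] at h0
      rw [MvPolynomial.aeval_X, MvPolynomial.aeval_X, hθ i j, div_mul_cancel₀ _ h0]
  · intro c hw'
    refine ⟨MvPolynomial.C c, 1, one_ne_zero, ?_, one_mem _, ?_⟩
    · rw [← MvPolynomial.algebraMap_eq]
      exact Subalgebra.algebraMap_mem _ c
    · rw [map_one, mul_one, MvPolynomial.aeval_C]
      exact θ.commutes c
  · intro a b ha hb iha ihb hw'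
    obtain ⟨P1, Q1, h1, hP1, hQ1, e1⟩ := iha (oj_le x J ha)
    obtain ⟨P2, Q2, h2, hP2, hQ2, e2⟩ := ihb (oj_le x J hb)
    refine ⟨P1 * Q2 + P2 * Q1, Q1 * Q2, mul_ne_zero h1 h2,
      add_mem (mul_mem hP1 hQ2) (mul_mem hP2 hQ1), mul_mem hQ1 hQ2, ?_⟩
    have h3 : θ ⟨a + b, hw'⟩ = θ ⟨a, oj_le x J ha⟩ + θ ⟨b, oj_le x J hb⟩ := by
      rw [← map_add]
      rfl
    rw [h3, map_mul, map_add, map_mul, map_mul, ← e1, ← e2]
    ring
  · intro a ha iha hw'
    obtain ⟨P1, Q1, h1, hP1, hQ1, e1⟩ := iha (oj_le x J ha)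
    have h3 : θ ⟨a⁻¹, hw'⟩ = (θ ⟨a, oj_le x J ha⟩)⁻¹ := by
      rw [← map_inv₀]
      rfl
    by_cases hP : P1 = 0
    · refine ⟨0, 1, one_ne_zero, zero_mem _, one_mem _, ?_⟩
      rw [hP, map_zero] at e1
      rcases mul_eq_zero.1 e1 with h | h
      · rw [h3, h, inv_zero, zero_mul, map_zero]
      · exact absurd h (hinj _ h1)
    · refine ⟨Q1, P1, hP, hQ1, hP1, ?_⟩
      have h4 : θ ⟨a, oj_le x J ha⟩ ≠ 0 := by
        intro h
        rw [h, zero_mul] at e1
        exact hinj _ hP e1.symm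
      rw [h3, ← e1, inv_mul_cancel_left₀ h4]
  · intro a b ha hb iha ihb hw'
    obtain ⟨P1, Q1, h1, hP1, hQ1, e1⟩ := iha (oj_le x J ha)
    obtain ⟨P2, Q2, h2, hP2, hQ2, e2⟩ := ihb (oj_le x J hb)
    refine ⟨P1 * P2, Q1 * Q2, mul_ne_zero h1 h2, mul_mem hP1 hP2, mul_mem hQ1 hQ2, ?_⟩
    have h3 : θ ⟨a * b, hw'⟩ = θ ⟨a, oj_le x J ha⟩ * θ ⟨b, oj_le x J hb⟩ := by
      rw [← map_mul]
      rfl
    rw [h3, map_mul, map_mul, ← e1, ← e2]
    ring

/-- a polynomial which involves another variable does not divide -/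
theorem oj_not_dvd {σ : Type*} {T : Set σ} {p Q : MvPolynomial σ ℂ} (hQ : Q ≠ 0)
    (hQT : Q ∈ MvPolynomial.supported ℂ T) {s : σ} (hs : s ∈ p.vars) (hsT : s ∉ T) : ¬ p ∣ Q := by
  rintro ⟨G, rfl⟩
  have hp : p ≠ 0 := left_ne_zero_of_mul hQ
  have hG : G ≠ 0 := right_ne_zero_of_mul hQ
  have h1 := MvPolynomial.degreeOf_mul_eq (n := s) hp hG
  classical
  have h2 : MvPolynomial.degreeOf s p ≠ 0 := by
    rw [MvPolynomial.degreeOf_def, Multiset.count_ne_zero]
    rwa [MvPolynomial.vars_def, Multiset.mem_toFinset] at hs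
  have h3 : MvPolynomial.degreeOf s (p * G) = 0 := by
    rw [MvPolynomial.degreeOf_def, Multiset.count_eq_zero]
    intro h
    refine hsT (MvPolynomial.mem_supported.1 hQT ?_)
    rw [Finset.mem_coe, MvPolynomial.vars_def, Multiset.mem_toFinset]
    exact h
  omega

theorem dvd_of_alg (D : SncData K I n E F d N x S) (J : Set I) (f z : K) (c : E → ℕ)
    (hf : f ∈ FJ x Set.univ) (hf0 : f ≠ 0)
    (hz : z ^ N = ∏ e, MvPolynomial.aeval (Pool.Agent.Work.Uni.hom x) (F e) ^ c e)
    (hc : ∀ i, N ∣ ∑ e, c e * d e i) (halg : IsAlgebraic (FJ x J) (f * z)) (e : E)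
    (he : ∃ i, i ∉ J ∧ 0 < d e i) : N ∣ c e := by
  obtain ⟨i0, hi0, hd0⟩ := he
  obtain ⟨p, hpirr, hpF, hp2, hpF', j0, hj0⟩ := exists_prime D e i0 hd0
  let A := MvPolynomial (Co I n) ℂ
  let L := FractionRing A
  let ι : A →ₐ[ℂ] L := IsScalarTower.toAlgHom ℂ A L
  have hι : Function.Injective ι := IsFractionRing.injective A L
  let X : Co I n → L := fun s => ι (MvPolynomial.X s)
  have hXι : ∀ P : A, MvPolynomial.aeval X P = ι P := fun P => by
    have h : (MvPolynomial.aeval X : A →ₐ[ℂ] L) = ι :=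
      MvPolynomial.algHom_ext fun s => by rw [MvPolynomial.aeval_X]
    exact congrArg (fun g => g P) h
  have hX : AlgebraicIndependent ℂ X := by
    have h : (MvPolynomial.aeval X : A →ₐ[ℂ] L) = ι :=
      MvPolynomial.algHom_ext fun s => by rw [MvPolynomial.aeval_X]
    unfold AlgebraicIndependent
    rw [h]
    exact hι
  obtain ⟨θ, hθ⟩ := exists_theta D hX
  -- the element `r = (f z)^N` of `ℂ(x)`
  let xu : (i : I) → Fin (n i) → FJ x Set.univ := fun i j =>
    ⟨x i j, x_mem x _ i (Set.mem_univ i) j⟩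
  let r : FJ x Set.univ := (⟨f, hf⟩ : FJ x Set.univ) ^ N *
    ∏ e, MvPolynomial.aeval (Pool.Agent.Work.Uni.hom xu) (F e) ^ c e
  have hhom : ∀ s : Co I n, ((Pool.Agent.Work.Uni.hom xu s : FJ x Set.univ) : K) =
      Pool.Agent.Work.Uni.hom x s := by
    rintro ⟨i, j⟩
    refine Fin.cases ?_ (fun j => ?_) j
    · simp [Pool.Agent.Work.Uni.hom]
    · simp [Pool.Agent.Work.Uni.hom, xu]
  have hr : (r : K) = (f * z) ^ N := by
    rw [mul_pow, hz]
    have h1 : ∀ e, ((MvPolynomial.aeval (Pool.Agent.Work.Uni.hom xu) (F e) : FJ x Set.univ) : K) =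
        MvPolynomial.aeval (Pool.Agent.Work.Uni.hom x) (F e) := fun e => by
      have h2 := MvPolynomial.comp_aeval_apply (R := ℂ) (Pool.Agent.Work.Uni.hom xu)
        (IntermediateField.val (FJ x Set.univ)) (F e)
      have h3 : (fun s => (IntermediateField.val (FJ x Set.univ))
          (Pool.Agent.Work.Uni.hom xu s)) = Pool.Agent.Work.Uni.hom x := funext hhom
      rw [h3] at h2
      exact h2
    change ((⟨f, hf⟩ : FJ x Set.univ) ^ N *
      ∏ e, MvPolynomial.aeval (Pool.Agent.Work.Uni.hom xu) (F e) ^ c e : FJ x Set.univ).val = _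
    push_cast
    simp only [h1]
  have halg' : IsAlgebraic (FJ x J) (r : K) := by
    rw [hr]
    exact halg.pow N
  have hrJ : (r : K) ∈ FJ x J := mem_FJ_of_isAlgebraic D.alg_indep J r r.2 halg'
  obtain ⟨P, Q, hQ, hPJ, hQJ, hPQ⟩ := oj_PQ J hX θ hθ r hrJ r.2
  -- the value of `θ` at `r`
  let lam : I → L := fun i => (X ⟨i, 0⟩)⁻¹
  have hX0 : ∀ s, X s ≠ 0 := fun s => (map_ne_zero_iff _ hι).2 (MvPolynomial.X_ne_zero s)
  have hθh : ∀ s : Co I n, θ (Pool.Agent.Work.Uni.hom xu s) = lam s.1 * X s := by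
    rintro ⟨i, j⟩
    refine Fin.cases ?_ (fun j => ?_) j
    · simp [Pool.Agent.Work.Uni.hom, lam, inv_mul_cancel₀ (hX0 ⟨i, 0⟩)]
    · simp only [Pool.Agent.Work.Uni.hom, Fin.cons_succ, xu, lam]
      rw [hθ i j, div_eq_inv_mul]
  have hθF : ∀ e, θ (MvPolynomial.aeval (Pool.Agent.Work.Uni.hom xu) (F e)) =
      (∏ i, lam i ^ d e i) * ι (F e) := fun e => by
    have h2 := MvPolynomial.comp_aeval_apply (R := ℂ) (Pool.Agent.Work.Uni.hom xu) θ (F e)
    rw [h2, funext hθh, Pool.Agent.Work.Snc.multihom_scale (D.hom e), hXι]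
  choose kk hkk using hc
  set g : L := θ ⟨f, hf⟩ * ∏ i, lam i ^ kk i with hg
  have hθr : θ r = g ^ N * ι (∏ e, F e ^ c e) := by
    have h1 : θ r = θ ⟨f, hf⟩ ^ N * ∏ e, ((∏ i, lam i ^ d e i) * ι (F e)) ^ c e := by
      simp only [r, map_mul, map_pow, map_prod, hθF]
    rw [h1, hg, mul_pow, map_prod]
    simp only [mul_pow, Finset.prod_mul_distrib, map_pow]
    have h2 : ∏ e, (∏ i, lam i ^ d e i) ^ c e = (∏ i, lam i ^ kk i) ^ N := by
      simp only [← Finset.prod_pow, ← pow_mul]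
      rw [Finset.prod_comm]
      refine Finset.prod_congr rfl fun i _ => ?_
      rw [Finset.prod_pow_eq_pow_sum, mul_comm (kk i) N, ← hkk i]
      congr 1
      exact Finset.sum_congr rfl fun e _ => mul_comm _ _
    rw [h2]
    ring
  have hg0 : g ≠ 0 := by
    refine mul_ne_zero ?_ (Finset.prod_ne_zero_iff.2 fun i _ => pow_ne_zero _ (inv_ne_zero (hX0 _)))
    intro h
    apply hf0
    have h2 : (⟨f, hf⟩ : FJ x Set.univ) = 0 := (map_eq_zero θ).1 h
    exact congrArg Subtype.val h2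
  obtain ⟨a, b, hb, hab⟩ := IsFractionRing.div_surjective (A := A) g
  have hb0 : b ≠ 0 := nonZeroDivisors.ne_zero hb
  have hιb : ι b ≠ 0 := (map_ne_zero_iff _ hι).2 hb0
  have hab' : g * ι b = ι a := by
    rw [← hab]
    exact div_mul_cancel₀ _ hιb
  have ha0 : a ≠ 0 := by
    rintro rfl
    rw [map_zero] at hab'
    exact (mul_ne_zero hg0 hιb) hab'
  have key : a ^ N * (∏ e, F e ^ c e) * Q = P * b ^ N := by
    apply hι
    have h1 : θ r * ι Q = ι P := by
      rw [← hXι, ← hXι]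
      exact hPQ
    rw [map_mul, map_mul, map_mul, map_pow, map_pow, ← hab', ← h1, hθr, mul_pow]
    ring
  have hFne : ∀ e, F e ≠ 0 := fun e => (sncArr_ok D).F_ne_zero (fun i => ⟨⟨i, 0⟩, rfl⟩) e
  have hP : P ≠ 0 := by
    rintro rfl
    rw [zero_mul] at key
    exact mul_ne_zero (mul_ne_zero (pow_ne_zero _ ha0)
      (Finset.prod_ne_zero_iff.2 fun e _ => pow_ne_zero _ (hFne e))) hQ key
  have hp : Prime p := hpirr.prime
  have hvP : emultiplicity p P = 0 := emultiplicity_eq_zero.2 (oj_not_dvd hP hPJ hj0 hi0)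
  have hvQ : emultiplicity p Q = 0 := emultiplicity_eq_zero.2 (oj_not_dvd hQ hQJ hj0 hi0)
  have hvF : emultiplicity p (F e) = 1 := by
    have h : emultiplicity p (F e) = ((1 : ℕ) : ℕ∞) :=
      emultiplicity_eq_coe.2 ⟨by rwa [pow_one], hp2⟩
    rw [h, Nat.cast_one]
  have hvF' : ∀ e', e' ≠ e → emultiplicity p (F e') = 0 := fun e' h =>
    emultiplicity_eq_zero.2 (hpF' e' h)
  have hva : FiniteMultiplicity p a := FiniteMultiplicity.of_prime_left hp ha0
  have hvb : FiniteMultiplicity p b := FiniteMultiplicity.of_prime_left hp hb0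
  have h5 := congrArg (emultiplicity p) key
  rw [emultiplicity_mul hp, emultiplicity_mul hp, emultiplicity_mul hp, emultiplicity_pow hp,
    emultiplicity_pow hp, hvP, hvQ, add_zero, zero_add, Finset.emultiplicity_prod hp,
    Finset.sum_eq_single e] at h5
  rotate_left
  · intro e' _ he'
    rw [emultiplicity_pow hp, hvF' e' he', mul_zero]
  · intro h
    exact absurd (Finset.mem_univ e) h
  rw [emultiplicity_pow hp, hvF, mul_one, hva.emultiplicity_eq_multiplicity,
    hvb.emultiplicity_eq_multiplicity] at h5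
  norm_cast at h5
  exact (Nat.dvd_add_right (dvd_mul_right N _)).1 (h5 ▸ dvd_mul_right N _)

end Pool.Agent.Work.RP
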