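import Mathlib
import Pool.Agent.Work.MP_4329d7_ag_snc.Final

/-!
`Snc.not_starP` with one exponent for all total dimensions `≤ m`: take
`M = ∏_(m' ≤ m) M_(m')` where `M_(m')` is the exponent of `unif_weightsD m'`; the weights
`A'` for `M_(m')` multiplied by `M / M_(m')` are weights for `M` (`exists_formS`).
-/

namespace Pool.Agent.Work.RP

open Pool.Agent.Work.Snc Pool.Agent.Work.MP_4329d7_ag.FF Pool.Agent.Work.Uni

theorem not_starP_le (m : ℕ) : ∃ M : ℕ, 0 < M ∧
    ∀ (K : Type) [Field K] [Algebra ℂ K]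
    (I : Type) [Fintype I] [DecidableEq I] (n : I → ℕ) (E : Type) [Fintype E] [DecidableEq E]
    (F : E → MvPolynomial (Co I n) ℂ) (d : E → I → ℕ) (N : ℕ) (x : (i : I) → Fin (n i) → K)
    (S : Set (K × (E → ℕ))), SncData K I n E F d N x S → ∑ i, n i ≤ m →
    (∀ T : TensorForm K (M * ∑ i, n i), IsPluricanonical M (∑ i, n i) T → IsRegular T → T = 0) →
    ∀ (k : Type) [Field k] [Algebra ℂ k] [IsAlgClosed k] (c : Co I n → k),
      ¬ StarP (BlkP F N S) (fac F) (coefP F c) := by
  classical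
  choose Mf hpos hunif using unif_weightsD
  refine ⟨∏ r ∈ Finset.range (m + 1), Mf r, Finset.prod_pos fun r _ => hpos r,
    fun K _ _ I _ _ n E _ _ F d N x S D hm hT k _ _ _ c hstar => ?_⟩
  set M := ∏ r ∈ Finset.range (m + 1), Mf r with hMdef
  obtain ⟨M0, A, hM0, hA, hAb⟩ := weights_of_starP D c hstar
  have hM0' : (0 : ℚ) < M0 := by exact_mod_cast hM0
  have hR : RatWtD n d {b | SBlock F N S b} (fun e => min ((A e : ℚ) / M0) 1) := by
    refine ⟨fun e => ⟨?_, min_le_right _ _⟩, fun i => ?_, fun b hb => ?_⟩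
    · exact le_min (div_nonneg (Nat.cast_nonneg _) hM0'.le) zero_le_one
    · have h1 : ∑ e, (A e : ℚ) * d e i ≤ (∑ e, (d e i : ℚ) - (n i + 1)) * M0 := by
        exact_mod_cast hA i
      calc ((n i + 1 : ℕ) : ℚ) ≤ ∑ e, (d e i : ℚ) - (∑ e, (A e : ℚ) * d e i) / M0 := by
            rw [le_sub_comm, div_le_iff₀ hM0']
            push_cast
            exact h1
        _ = ∑ e, (1 - (A e : ℚ) / M0) * (d e i : ℚ) := by
            rw [Finset.sum_div, ← Finset.sum_sub_distrib]
            exact Finset.sum_congr rfl fun e _ => by ring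
        _ ≤ ∑ e, (1 - min ((A e : ℚ) / M0) 1) * (d e i : ℚ) := by
            refine Finset.sum_le_sum fun e _ => mul_le_mul_of_nonneg_right ?_ (Nat.cast_nonneg _)
            exact sub_le_sub_left (min_le_left _ _) _
    · have hb' : SBlock F N S b := hb
      by_cases hall : ∀ e, b e ≠ 0 → (A e : ℚ) / M0 ≤ 1
      · have h1 : (M0 : ℚ) ≤ ∑ e, (A e : ℚ) * b e := by exact_mod_cast hAb b hb'
        have h2 : ∑ e, min ((A e : ℚ) / M0) 1 * (b e : ℚ) = (∑ e, (A e : ℚ) * b e) / M0 := by
          rw [Finset.sum_div]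
          refine Finset.sum_congr rfl fun e _ => ?_
          by_cases h0 : b e = 0
          · simp [h0]
          · rw [min_eq_left (hall e h0)]
            ring
        rw [h2, le_div_iff₀ hM0', one_mul]
        exact h1
      · push Not at hall
        obtain ⟨e, he0, he1⟩ := hall
        have h1 : (1 : ℚ) ≤ min ((A e : ℚ) / M0) 1 * (b e : ℚ) := by
          rw [min_eq_right he1.le, one_mul]
          exact_mod_cast Nat.one_le_iff_ne_zero.2 he0
        refine h1.trans ?_
        exact Finset.single_le_sum (f := fun e => min ((A e : ℚ) / M0) 1 * (b e : ℚ))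
          (fun e _ => mul_nonneg (le_min (div_nonneg (Nat.cast_nonneg _) hM0'.le) zero_le_one)
            (Nat.cast_nonneg _)) (Finset.mem_univ e)
  obtain ⟨A₀, hA₀⟩ := hunif (∑ i, n i) I n D.n_pos rfl E d _ _ hR
  obtain ⟨q, hq⟩ : Mf (∑ i, n i) ∣ M :=
    Finset.dvd_prod_of_mem Mf (Finset.mem_range.2 (Nat.lt_succ_of_le hm))
  obtain ⟨A', hA'⟩ : ∃ A' : E → ℕ, NatWtD n d {b | SBlock F N S b} M A' := by
    refine ⟨fun e => q * A₀ e, ?_⟩
    rw [hq, mul_comm]
    exact hA₀.smul q
  obtain ⟨T, hTp, hTr, hT0⟩ := exists_formS D M A' (fun i => by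
    have h1 := hA'.fac i
    have h2 : ∑ e, (M - A' e) * d e i + ∑ e, A' e * d e i = M * ∑ e, d e i := by
      rw [← Finset.sum_add_distrib, Finset.mul_sum]
      refine Finset.sum_congr rfl fun e _ => ?_
      rw [← add_mul, Nat.sub_add_cancel (hA'.box e)]
    omega) (fun b hb => hA'.blk b hb)
  exact hT0 (hT T hTp hTr)

end Pool.Agent.Work.RP
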