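import Mathlib
import Pool.Agent.Work.MP_4329d7_ag_rp.Basic
import Pool.Agent.Work.MP_4329d7_ag_rc.Red

/-!
Reduction to curves without base points and with distinct roots (generalisation of
`MP_4329d7_ag_rc/Red.lean`): divide the coordinates of the factor `i` by their greatest common divisor
`H i`; the block of a root `τ` drops by `∑ i, (mult. of τ in H i) * d · i ∈ L` (sum over the `i` with
`d e i > 0` for some `e`; for these `H i` splits; the other `H i` do not matter).
-/

namespace Pool.Agent.Work.RP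

open Polynomial
open Pool.Agent.Work.Uni (rootPoly)
open Pool.Agent.Work.RC (rootPoly_collect monic_dvd_eq mult_le)

variable {σ I E : Type} [Fintype σ] [Fintype I] [DecidableEq I] [Fintype E] [DecidableEq E]
  {A : Arr σ I E}

omit [Fintype I] [DecidableEq I] [Fintype E] [DecidableEq E] in
/-- the monic greatest common divisor of a family -/
theorem exists_gcd {k : Type} [Field k] (Y : σ → k[X]) (hne : ∃ s, Y s ≠ 0) :
    ∃ (H : k[X]) (V : σ → k[X]), H.Monic ∧ ∑ s, V s * Y s = H ∧ ∀ s, H ∣ Y s := by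
  set J : Ideal k[X] := Ideal.span (Set.range Y) with hJ
  set g : k[X] := Submodule.IsPrincipal.generator J with hg
  have hgJ : Ideal.span {g} = J := Ideal.span_singleton_generator J
  have hgdvd : ∀ s, g ∣ Y s := by
    intro s
    rw [← Ideal.mem_span_singleton, hgJ]
    exact Ideal.subset_span (Set.mem_range_self s)
  have hg0 : g ≠ 0 := by
    intro h
    obtain ⟨s, hs⟩ := hne
    have h1 := hgdvd s
    rw [h, zero_dvd_iff] at h1
    exact hs h1
  have hgm : g ∈ J := by
    rw [← hgJ]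
    exact Ideal.mem_span_singleton_self g
  obtain ⟨V, hV⟩ := (Ideal.mem_span_range_iff_exists_fun).1 hgm
  have hlc : g.leadingCoeff ≠ 0 := leadingCoeff_ne_zero.2 hg0
  refine ⟨g * C g.leadingCoeff⁻¹, fun s => C g.leadingCoeff⁻¹ * V s,
    monic_mul_leadingCoeff_inv hg0, ?_, ?_⟩
  · rw [← hV, Finset.sum_mul]
    refine Finset.sum_congr rfl fun s _ => ?_
    ring
  · intro s
    have hu : IsUnit (C g.leadingCoeff⁻¹ : k[X]) :=
      isUnit_C.2 (isUnit_iff_ne_zero.2 (inv_ne_zero hlc))
    exact (hu.mul_right_dvd).2 (hgdvd s)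

theorem red (hA : A.Ok) (hg : Function.Surjective A.g) {k : Type} [Field k] [Algebra ℂ k]
    {x : σ → k} (hx : AlgebraicIndependent ℂ x)
    (m : I → ℕ) (ι : Type) [Fintype ι] (β : ι → E → ℕ) (t : ι → k)
    (Y : σ → k[X]) (mem : ∀ i, (fun e => (β i e : ℤ)) ∈ A.L)
    (deg : ∀ s, (Y s).natDegree ≤ m (A.g s)) (lead : ∀ s, (Y s).coeff (m (A.g s)) = x s)
    (eqn : ∀ e, MvPolynomial.aeval Y (A.F e) = C (MvPolynomial.aeval x (A.F e)) * rootPoly β t e) :
    ∃ (c : Cv A k x) (H : I → k[X]), (∀ i, (H i).Monic) ∧ ∀ s, Y s = H (A.g s) * c.Y s := by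
  classical
  -- the values of the roots and the total multiplicities
  set T : Finset k := Finset.univ.image t with hT
  set v : k → E → ℕ := fun τ e => ∑ i ∈ Finset.univ.filter (fun i => t i = τ), β i e with hv
  have hvmem : ∀ τ, (fun e => (v τ e : ℤ)) ∈ A.L := by
    intro τ
    have h1 : (fun e => (v τ e : ℤ)) =
        ∑ i ∈ Finset.univ.filter (fun i => t i = τ), (fun e => (β i e : ℤ)) := by
      funext e
      rw [Finset.sum_apply, hv]
      push_cast
      rfl
    rw [h1]
    exact AddSubgroup.sum_mem _ fun i _ => mem i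
  have hroot : ∀ e, rootPoly β t e = ∏ τ ∈ T, (X - C τ) ^ v τ e := fun e =>
    rootPoly_collect β t e
  have hxne : ∀ s, x s ≠ 0 := fun s => hx.ne_zero s
  have hYne : ∀ s, Y s ≠ 0 := by
    intro s h
    refine hxne s ?_
    rw [← lead s, h, coeff_zero]
  -- the monic greatest common divisors
  have hgcd : ∀ i, ∃ (H : k[X]) (V : σ → k[X]), H.Monic ∧
      ∑ s, V s * (if A.g s = i then Y s else 0) = H ∧
      ∀ s, H ∣ (if A.g s = i then Y s else 0) := by
    intro i
    obtain ⟨s, hs⟩ := hg i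
    refine exists_gcd (fun s => if A.g s = i then Y s else 0) ⟨s, ?_⟩
    rw [if_pos hs]
    exact hYne s
  choose H V hH hHV hHd using hgcd
  have hHY : ∀ s, H (A.g s) ∣ Y s := by
    intro s
    have h1 := hHd (A.g s) s
    rwa [if_pos rfl] at h1
  choose W hYW using hHY
  have hH0 : ∀ i, H i ≠ 0 := fun i => (hH i).ne_zero
  have hVW : ∀ i, ∑ s, (if A.g s = i then V i s * W s else 0) = 1 := by
    intro i
    refine mul_left_cancel₀ (hH0 i) ?_
    rw [mul_one, Finset.mul_sum]
    conv_rhs => rw [← hHV i]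
    refine Finset.sum_congr rfl fun s _ => ?_
    split_ifs with h1
    · rw [hYW s, h1]
      ring
    · rw [mul_zero, mul_zero]
  have hc : ∀ e, MvPolynomial.aeval x (A.F e) ≠ 0 := fun e => hA.aeval_ne_zero hg hx e
  -- the equation after division
  have heq : ∀ e, (∏ i, H i ^ A.d e i) * MvPolynomial.aeval W (A.F e) =
      C (MvPolynomial.aeval x (A.F e)) * ∏ τ ∈ T, (X - C τ) ^ v τ e := by
    intro e
    rw [← hroot e, ← eqn e, ← aeval_scale_form hA e W H]
    congr 2
    funext s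
    exact (hYW s).symm
  have hdvd : ∀ e, (∏ i, H i ^ A.d e i) ∣ ∏ τ ∈ T, (X - C τ) ^ v τ e := by
    intro e
    have h1 : (∏ i, H i ^ A.d e i) ∣
        C (MvPolynomial.aeval x (A.F e)) * ∏ τ ∈ T, (X - C τ) ^ v τ e :=
      Dvd.intro _ (heq e)
    rwa [(isUnit_C.2 (isUnit_iff_ne_zero.2 (hc e))).dvd_mul_left] at h1
  -- the factorization of the `H i`
  set h : I → k → ℕ := fun i τ => (H i).rootMultiplicity τ with hh
  have hHprod : ∀ e i, H i ^ A.d e i = ∏ τ ∈ T, (X - C τ) ^ (h i τ * A.d e i) := by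
    intro e i
    rcases Nat.eq_zero_or_pos (A.d e i) with h0 | h0
    · simp [h0]
    · have h2 : H i ∣ ∏ τ ∈ T, (X - C τ) ^ v τ e :=
        ((dvd_pow_self (H i) h0.ne').trans
          (Finset.dvd_prod_of_mem (fun i => H i ^ A.d e i) (Finset.mem_univ i))).trans (hdvd e)
      have h3 := monic_dvd_eq T (fun τ => v τ e) (hH i) h2
      conv_lhs => rw [h3]
      rw [← Finset.prod_pow]
      refine Finset.prod_congr rfl fun τ _ => ?_
      rw [pow_mul]
  have hHall : ∀ e, (∏ i, H i ^ A.d e i) = ∏ τ ∈ T, (X - C τ) ^ (∑ i, h i τ * A.d e i) := by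
    intro e
    rw [Finset.prod_congr rfl fun i _ => hHprod e i, Finset.prod_comm]
    refine Finset.prod_congr rfl fun τ _ => ?_
    rw [Finset.prod_pow_eq_pow_sum]
  have hle : ∀ τ ∈ T, ∀ e, ∑ i, h i τ * A.d e i ≤ v τ e := by
    intro τ hτ e
    refine mult_le T (fun τ => v τ e) hτ (hc e) ?_
    rw [← heq e, hHall e]
    refine Dvd.dvd.mul_right ?_ _
    exact Finset.dvd_prod_of_mem (fun τ => (X - C τ) ^ (∑ i, h i τ * A.d e i)) hτ
  -- degrees
  have hHdeg : ∀ i, (H i).natDegree ≤ m i := by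
    intro i
    obtain ⟨s, rfl⟩ := hg i
    exact (natDegree_le_of_dvd (Dvd.intro _ (hYW s).symm) (hYne s)).trans (deg s)
  have hWdeg : ∀ s, (W s).natDegree ≤ m (A.g s) - (H (A.g s)).natDegree := by
    intro s
    have hW0 : W s ≠ 0 := by
      intro h0
      exact hYne s (by rw [hYW s, h0, mul_zero])
    have h1 := deg s
    rw [hYW s, natDegree_mul (hH0 _) hW0] at h1
    omega
  have hWlead : ∀ s, (W s).coeff (m (A.g s) - (H (A.g s)).natDegree) = x s := by
    intro s
    have h1 := lead s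
    have h4 := hHdeg (A.g s)
    have h2 : m (A.g s) = (H (A.g s)).natDegree + (m (A.g s) - (H (A.g s)).natDegree) := by omega
    rw [hYW s, h2, coeff_mul_add_eq_of_natDegree_le le_rfl (hWdeg s)] at h1
    have h3 : (H (A.g s)).coeff (H (A.g s)).natDegree = 1 := hH _
    rw [h3, one_mul] at h1
    exact h1
  refine ⟨{
    m := fun i => m i - (H i).natDegree
    ι := T
    β := fun τ e => v τ e - ∑ i, h i τ * A.d e i
    t := fun τ => τ
    Y := W
    mem := ?_
    inj := Subtype.val_injective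
    deg := hWdeg
    lead := hWlead
    cop := fun i => ⟨V i, hVW i⟩
    eqn := ?_ }, H, hH, hYW⟩
  · rintro ⟨τ, hτ⟩
    have h1 : (fun e => ((v τ e - ∑ i, h i τ * A.d e i : ℕ) : ℤ)) =
        (fun e => (v τ e : ℤ)) - ∑ i, (h i τ) • (fun e => (A.d e i : ℤ)) := by
      funext e
      rw [Nat.cast_sub (hle τ hτ e), Pi.sub_apply, Finset.sum_apply]
      push_cast
      simp
    show (fun e => ((v τ e - ∑ i, h i τ * A.d e i : ℕ) : ℤ)) ∈ A.L
    rw [h1]
    exact AddSubgroup.sub_mem _ (hvmem τ)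
      (AddSubgroup.sum_mem _ fun i _ => AddSubgroup.nsmul_mem _ (hA.d_mem i) _)
  · intro e
    have hne : (∏ i, H i ^ A.d e i) ≠ 0 := Finset.prod_ne_zero_iff.2 fun i _ => pow_ne_zero _ (hH0 i)
    refine mul_left_cancel₀ hne ?_
    rw [heq e]
    have h2 : rootPoly (fun (τ : T) e => v τ e - ∑ i, h i τ * A.d e i) (fun τ : T => (τ : k)) e =
        ∏ τ ∈ T, (X - C τ) ^ (v τ e - ∑ i, h i τ * A.d e i) := by
      unfold rootPoly
      exact Finset.prod_coe_sort T (fun τ => (X - C τ) ^ (v τ e - ∑ i, h i τ * A.d e i))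
    have h3 : (∏ τ ∈ T, (X - C τ) ^ v τ e : k[X]) = (∏ i, H i ^ A.d e i) *
        rootPoly (fun (τ : T) e => v τ e - ∑ i, h i τ * A.d e i) (fun τ : T => (τ : k)) e := by
      rw [hHall e, h2, ← Finset.prod_mul_distrib]
      refine Finset.prod_congr rfl fun τ hτ => ?_
      rw [← pow_add]
      congr 1
      have := hle τ hτ e
      omega
    rw [h3]
    ring

end Pool.Agent.Work.RP
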