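import Mathlib
import Pool.Agent.Work.MP_4329d7_ag_rp.SncA
import Pool.Agent.Work.MP_4329d7_ag_rp.Red
import Pool.Agent.Work.MP_4329d7_ag_rc.SncW

/-!
A nonconstant solution of the root system gives a curve which moves some factor
(generalisation of `curve_of_not_starP` in `MP_4329d7_ag_rc/SncW.lean`; if the reduced curve `c` has
all `c.m i = 0` then `Y s = x s * H (g s)`, so the solution is constant: `const_of_coord`).
-/

namespace Pool.Agent.Work.RP

open Polynomial
open Pool.Agent.Work.Snc (SncData Co StarP BlkP fac coefP liftC)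
open Pool.Agent.Work.Uni (rootPoly)
open Pool.Agent.Work.RC (isSol_curve const_of_coord snc_monic_rootPoly snc_natDegree_rootPoly)

variable {K : Type} [Field K] [Algebra ℂ K] {I : Type} [Fintype I] [DecidableEq I] {n : I → ℕ}
  {E : Type} [Fintype E] [DecidableEq E] {F : E → MvPolynomial (Co I n) ℂ} {d : E → I → ℕ}
  {N : ℕ} {x : (i : I) → Fin (n i) → K} {S : Set (K × (E → ℕ))}

theorem curve_of_not_starP (D : SncData K I n E F d N x S) {k : Type} [Field k] [Algebra ℂ k]
    {X : Co I n → k} (hX : AlgebraicIndependent ℂ X)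
    (h : ¬ StarP (BlkP F N S) (fac F) (coefP F X)) :
    ∃ c : Cv (sncArr F d N S) k X, ∃ i, 0 < c.m i := by
  classical
  by_contra hno
  push Not at hno
  apply h
  intro ι _ β m hβ hpack t hsol
  have hc : ∀ e, MvPolynomial.aeval X (F e) ≠ 0 := by
    intro e h0
    exact D.ne_zero e ((injective_iff_map_eq_zero _).1 hX _ h0)
  have hg : ∀ s, X s ≠ 0 := fun s => hX.ne_zero s
  have hdeg : ∀ s : Co I n, (rootPoly β t (Sum.inr s)).natDegree = m (Sum.inr s.1) := by
    intro s
    rw [snc_natDegree_rootPoly, hpack]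
    rfl
  obtain ⟨c, H, hH, hcY⟩ := red (sncArr_ok D) (fun i => ⟨⟨i, 0⟩, rfl⟩) hX
    (fun i => m (Sum.inr i)) ι (fun i e => β i (Sum.inl ⟨e, none⟩)) t
    (fun s => C (X s) * rootPoly β t (Sum.inr s))
    (by
      intro i z c' hz
      rcases hβ i with ⟨b, hb, hbl⟩ | ⟨s, hs⟩
      · have h1 := hb.2.1 z c' hz
        have h2 : ∑ e, ((β i (Sum.inl ⟨e, none⟩) : ℕ) : ℤ) * (c' e : ℤ) =
            ((∑ e, b e * c' e : ℕ) : ℤ) := by
          push_cast
          rw [hbl]
          rfl
        change (N : ℤ) ∣ ∑ e, ((β i (Sum.inl ⟨e, none⟩) : ℕ) : ℤ) * (c' e : ℤ)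
        rw [h2]
        exact_mod_cast h1
      · have h2 : ∑ e, ((β i (Sum.inl ⟨e, none⟩) : ℕ) : ℤ) * (c' e : ℤ) = 0 := by
          refine Finset.sum_eq_zero fun e _ => ?_
          rw [hs]
          simp [liftC]
        change (N : ℤ) ∣ ∑ e, ((β i (Sum.inl ⟨e, none⟩) : ℕ) : ℤ) * (c' e : ℤ)
        rw [h2]
        exact dvd_zero _)
    (fun s => (natDegree_C_mul_le _ _).trans (hdeg s).le)
    (by
      intro s
      have h1 := (snc_monic_rootPoly β t (Sum.inr s)).coeff_natDegree
      rw [hdeg] at h1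
      change (C (X s) * rootPoly β t (Sum.inr s)).coeff (m (Sum.inr s.1)) = X s
      rw [coeff_C_mul, h1, mul_one])
    (fun e => isSol_curve hβ hsol e)
  -- the reduced curve is constant
  have hm : ∀ i, c.m i = 0 := fun i => Nat.le_zero.1 (hno c i)
  have hcst : ∀ s, c.Y s = C (X s) := by
    intro s
    have h1 := c.deg s
    have h2 := c.lead s
    rw [hm] at h1 h2
    rw [eq_C_of_natDegree_le_zero h1, h2]
  have hR : ∀ s : Co I n, rootPoly β t (Sum.inr s) = H s.1 := by
    intro s
    have h1 := hcY s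
    rw [hcst s, mul_comm (H _)] at h1
    exact mul_left_cancel₀ (C_ne_zero.2 (hg s)) h1
  exact const_of_coord D.hom hc hβ hsol fun s => by rw [hR s, hR]

end Pool.Agent.Work.RP
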