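import Mathlib
import Pool.Agent.Work.MP_4329d7_ag_rp.AlgJ
import Pool.Agent.Work.MP_4329d7_ag_rp.KJ
import Pool.Agent.Work.MP_4329d7_ag_rp.SncC
import Pool.Agent.Work.MP_4329d7_ag_rp.NotStar
import Pool.Agent.Work.MP_4329d7_ag_rp.EssSub
import Pool.Agent.Work.MP_4329d7_ag_ci.Pull

/-!
THEOREM T+ : one exponent for the tensor form of Q1 for all abelian covers of products of projective
spaces branched along simple normal crossing divisors.
-/

namespace Pool.Agent.Work.RP

open Pool.Agent.Work.Snc (SncData Co)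
open Pool.Agent.Work.Uni Pool.Agent.Work.MP_4329d7_ag.FF

/-- the affine coordinates are a transcendence basis -/
theorem trdeg_eq {K : Type} [Field K] [Algebra ℂ K] {I : Type} [Fintype I] [DecidableEq I]
    {n : I → ℕ} {E : Type} [Fintype E] [DecidableEq E] {F : E → MvPolynomial (Co I n) ℂ}
    {d : E → I → ℕ} {N : ℕ} {x : (i : I) → Fin (n i) → K} {S : Set (K × (E → ℕ))}
    (D : SncData K I n E F d N x S) : Algebra.trdeg ℂ K = (∑ i, n i : ℕ) := by
  have hb : IsTranscendenceBasis ℂ (fun p : Σ i, Fin (n i) => x p.1 p.2) := by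
    rw [D.alg_indep.isTranscendenceBasis_iff_isAlgebraic]
    refine MP_4329d7_ag_sq.isAlgebraic_adjoin _ ⟨fun w => ?_⟩
    have h1 := isAlgebraic_univ D w
    have h2 : FJ x Set.univ =
        IntermediateField.adjoin ℂ (Set.range (fun p : Σ i, Fin (n i) => x p.1 p.2)) := by
      unfold FJ
      congr 1
      ext y
      constructor
      · rintro ⟨i, -, j, rfl⟩
        exact ⟨⟨i, j⟩, rfl⟩
      · rintro ⟨⟨i, j⟩, rfl⟩
        exact ⟨i, Set.mem_univ i, j, rfl⟩
    rw [← h2]
    exact h1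
  rw [← hb.cardinalMk_eq_trdeg, Cardinal.mk_fintype, Fintype.card_sigma]
  simp only [Fintype.card_fin]

/-- the generic point of the cone over the product -/
theorem exists_generic (σ : Type) : ∃ (k : Type) (_ : Field k) (_ : Algebra ℂ k)
    (_ : IsAlgClosed k) (X : σ → k), AlgebraicIndependent ℂ X := by
  refine ⟨AlgebraicClosure (FractionRing (MvPolynomial σ ℂ)), inferInstance, inferInstance,
    inferInstance, fun s => algebraMap (FractionRing (MvPolynomial σ ℂ)) _
      (algebraMap (MvPolynomial σ ℂ) _ (MvPolynomial.X s)), ?_⟩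
  have h1 : AlgebraicIndependent ℂ (MvPolynomial.X : σ → MvPolynomial σ ℂ) :=
    MvPolynomial.algebraicIndependent_X σ ℂ
  have h2 := h1.map' (f := IsScalarTower.toAlgHom ℂ (MvPolynomial σ ℂ)
    (FractionRing (MvPolynomial σ ℂ))) (IsFractionRing.injective _ _)
  exact h2.map' (f := IsScalarTower.toAlgHom ℂ (FractionRing (MvPolynomial σ ℂ))
    (AlgebraicClosure (FractionRing (MvPolynomial σ ℂ)))) (RingHom.injective _)

/-- uniruledness is invariant under isomorphisms -/
theorem uniruled_of_equiv {K K' : Type} [Field K] [Algebra ℂ K] [Field K'] [Algebra ℂ K']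
    (e : K ≃ₐ[ℂ] K') (h : Uniruled K) : Uniruled K' := by
  obtain ⟨E, _, _, φ, hE, y, hy⟩ := h
  refine ⟨E, inferInstance, inferInstance, φ.comp e.symm.toAlgHom, hE, e y, fun a ha => ?_⟩
  refine hy a ?_
  rw [← ha]
  simp

/-- the induction: a subfield which is not uniruled is contained in a subfield with a
pluricanonical form -/
theorem main_ind (m : ℕ) : ∃ M : ℕ, 0 < M ∧
    ∀ (r : ℕ) (K : Type) [Field K] [Algebra ℂ K]
    (I : Type) [Fintype I] [DecidableEq I] (n : I → ℕ) (E : Type) [Fintype E] [DecidableEq E]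
    (F : E → MvPolynomial (Co I n) ℂ) (d : E → I → ℕ) (N : ℕ) (x : (i : I) → Fin (n i) → K)
    (S : Set (K × (E → ℕ))), SncData K I n E F d N x S → ∑ i, n i ≤ m → Fintype.card I ≤ r →
    ∀ K' : IntermediateField ℂ K, Algebra.EssFiniteType ℂ K' → ¬ Uniruled K' →
    ∃ (K₁ : Type) (_ : Field K₁) (_ : Algebra ℂ K₁) (f : K₁ →ₐ[ℂ] K), K' ≤ f.fieldRange ∧
      ∃ j : ℕ, Algebra.trdeg ℂ K₁ = j ∧ j ≤ m ∧
      ∃ T : TensorForm K₁ (M * j), IsPluricanonical M j T ∧ IsRegular T ∧ T ≠ 0 := by
  classical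
  obtain ⟨M, hM, hstar⟩ := not_starP_le m
  refine ⟨M, hM, ?_⟩
  intro r
  induction r with
  | zero =>
    intro K _ _ I _ _ n E _ _ F d N x S D hm hr K' hfg hK'
    by_cases hT : ∀ T : TensorForm K (M * ∑ i, n i),
        IsPluricanonical M (∑ i, n i) T → IsRegular T → T = 0
    · exfalso
      obtain ⟨k, _, _, _, X, hX⟩ := exists_generic (Co I n)
      obtain ⟨c, i₀, -⟩ := curve_of_not_starP D hX (hstar K I n E F d N x S D hm hT k X)
      have : IsEmpty I := Fintype.card_eq_zero_iff.1 (Nat.le_zero.1 hr)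
      exact this.elim i₀
    · push Not at hT
      obtain ⟨T, h1, h2, h3⟩ := hT
      exact ⟨K, inferInstance, inferInstance, AlgHom.id ℂ K, fun w _ => ⟨w, rfl⟩, _, trdeg_eq D,
        hm, T, h1, h2, h3⟩
  | succ r ih =>
    intro K _ _ I _ _ n E _ _ F d N x S D hm hr K' hfg hK'
    by_cases hT : ∀ T : TensorForm K (M * ∑ i, n i),
        IsPluricanonical M (∑ i, n i) T → IsRegular T → T = 0
    · obtain ⟨k, _, _, _, X, hX⟩ := exists_generic (Co I n)
      obtain ⟨c, i₀, hi₀⟩ := curve_of_not_starP D hX (hstar K I n E F d N x S D hm hT k X)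
      set J : Set I := fixed F d N S with hJ
      have hi₀J : i₀ ∉ J := fun h => absurd (h k X hX c) hi₀.ne'
      have hle : K' ≤ KJ x J := by
        intro u hu
        rw [mem_KJ]
        exact alg_of_not_uniruled D K' hK' u hu
      obtain ⟨E', _, F', d', x', S', D'⟩ := exists_data D J
      have hcard : Fintype.card J ≤ r := by
        have h1 : Fintype.card J < Fintype.card I :=
          Fintype.card_subtype_lt (p := fun i => i ∈ J) hi₀J
        omega
      have hsum : ∑ i : J, n i ≤ m := by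
        refine le_trans ?_ hm
        have h2 : ∑ i : J, n i = ∑ i ∈ Finset.univ.filter (· ∈ J), n i :=
          (Finset.sum_subtype _ (fun i => by simp) n).symm
        rw [h2]
        exact Finset.sum_le_univ_sum_of_nonneg (fun _ => Nat.zero_le _)
      obtain ⟨K₁, _, _, f, hf, j, hj, hjm, T, h1, h2, h3⟩ := ih (KJ x J) J (fun i => n i) E' F' d' N
        x' S' D' hsum hcard (IntermediateField.restrict hle)
        ((Algebra.EssFiniteType.iff_of_algEquiv (IntermediateField.restrictAlgEquiv hle)).1 hfg)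
        (fun h => hK' (uniruled_of_equiv (IntermediateField.restrictAlgEquiv hle).symm h))
      refine ⟨K₁, inferInstance, inferInstance, (KJ x J).val.comp f, fun w hw => ?_, j, hj, hjm,
        T, h1, h2, h3⟩
      obtain ⟨v, hv⟩ := hf ((IntermediateField.mem_restrict hle ⟨w, hle hw⟩).2 hw)
      exact ⟨v, congrArg Subtype.val hv⟩
    · push Not at hT
      obtain ⟨T, h1, h2, h3⟩ := hT
      exact ⟨K, inferInstance, inferInstance, AlgHom.id ℂ K, fun w _ => ⟨w, rfl⟩, _, trdeg_eq D,
        hm, T, h1, h2, h3⟩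

/-- THEOREM T+ -/
theorem main_tensor (m : ℕ) : ∃ M : ℕ, 0 < M ∧
    ∀ (K : Type) [Field K] [Algebra ℂ K] [Algebra.EssFiniteType ℂ K]
    (I : Type) [Fintype I] [DecidableEq I] (n : I → ℕ) (E : Type) [Fintype E] [DecidableEq E]
    (F : E → MvPolynomial (Co I n) ℂ) (d : E → I → ℕ) (N : ℕ) (x : (i : I) → Fin (n i) → K)
    (S : Set (K × (E → ℕ))), SncData K I n E F d N x S → ∑ i, n i = m →
    ∀ (K' : IntermediateField ℂ K) (p : ℕ), Algebra.trdeg ℂ K' = p →
    (∀ j, p ≤ j → j ≤ m → ∀ T : TensorForm K (M * j),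
      IsPluricanonical M j T → IsRegular T → T = 0) →
    Uniruled K' := by
  obtain ⟨M, hM, h⟩ := main_ind m
  refine ⟨M, hM, ?_⟩
  intro K _ _ _ I _ _ n E _ _ F d N x S D hm K' p hp hT
  by_contra hK'
  obtain ⟨K₁, _, _, f, hf, j, hj, hjm, T, h1, h2, h3⟩ := h _ K I n E F d N x S D hm.le le_rfl K'
    (essFiniteType_sub K') hK'
  let _ : Algebra K₁ K := f.toRingHom.toAlgebra
  have : IsScalarTower ℂ K₁ K := IsScalarTower.of_algebraMap_eq fun c => (f.commutes c).symm
  obtain ⟨T', h1', h2', h3'⟩ := Pool.Agent.Work.CI.exists_pull (K := K) hj T h1 h2 h3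
  refine h3' (hT j ?_ hjm T' h1' h2')
  have h4 : ∀ w : K', (w : K) ∈ f.fieldRange := fun w => hf w.2
  let e : K₁ ≃ₐ[ℂ] f.fieldRange := AlgEquiv.ofInjectiveField f
  let g : K' →ₐ[ℂ] K₁ := e.symm.toAlgHom.comp (IntermediateField.inclusion hf)
  have h5 := trdeg_le_of_injective g (RingHom.injective _)
  rw [hp, hj] at h5
  exact_mod_cast h5

end Pool.Agent.Work.RP
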