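import Mathlib
import Pool.Agent.Work.MP_4329d7_ag_w.EffB

/-!
Rounding of feasible points of integral systems, part A: an effective form of Farkas' lemma. Either
`r j ⬝ z ≤ ρ j` has a solution `z ≥ 0`, or there is a certificate of total weight `1` whose value is
at most `- 1 / ((k + 1)! * ∏ N h)`, if `N h` bounds the entries at `h`.
-/

namespace Pool.Agent.Work.Rnd

open Finset Pool.Agent.Work.Uni Pool.Agent.Work.Eff

/-- the columns of the certificate system -/
def col {k : ℕ} {ι : Type} (r : ι → Fin k → ℤ) : ι ⊕ Fin k → Option (Fin k) → ℤ :=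
  fun s o => s.elim (fun j => o.elim 1 fun h => r j h) fun h' => o.elim 0 fun h =>
    (Pi.single h' (-1) : Fin k → ℤ) h

theorem ker_pos {k : ℕ} {ι : Type} [Fintype ι] (r : ι → Fin k → ℤ) (a : ι ⊕ Fin k → ℚ)
    (ha : ∀ o, ∑ s, a s * (col r s o : ℚ) = 0) (hne : ∃ s, a s ≠ 0) : ∃ s, 0 < a s := by
  by_contra hcon
  push Not at hcon
  have h1 := ha none
  rw [Fintype.sum_sum_type] at h1
  simp only [col, Sum.elim_inl, Sum.elim_inr, Option.elim_none, Int.cast_one, Int.cast_zero,
    mul_one, mul_zero, Finset.sum_const_zero, add_zero] at h1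
  have h2 : ∀ j, a (Sum.inl j) = 0 := by
    intro j
    have h3 := (Finset.sum_eq_zero_iff_of_nonpos (s := univ) (f := fun j : ι => a (Sum.inl j))
      fun j _ => hcon _).1 h1
    exact h3 j (mem_univ j)
  obtain ⟨s, hs⟩ := hne
  apply hs
  rcases s with j | h
  · exact h2 j
  · have h4 := ha (some h)
    rw [Fintype.sum_sum_type] at h4
    simp only [col, Sum.elim_inl, Sum.elim_inr, Option.elim_some, h2, zero_mul,
      Finset.sum_const_zero, zero_add] at h4
    rw [Finset.sum_eq_single h] at h4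
    · simpa using h4
    · intro h' _ hh
      simp [hh.symm]
    · intro hh
      exact absurd (mem_univ h) hh

theorem cert_basic {k : ℕ} {ι : Type} [Fintype ι] (r : ι → Fin k → ℤ) (ρ : ι → ℤ) (N : Fin k → ℕ)
    (hN : ∀ h, 1 ≤ N h) (hr : ∀ j h, |r j h| ≤ N h) (l₀ : ι → ℚ) (hl₀ : ∀ j, 0 ≤ l₀ j)
    (hcov : ∀ h, 0 ≤ ∑ j, l₀ j * r j h) (hone : ∑ j, l₀ j = 1) (hlt : ∑ j, l₀ j * ρ j < 0) :
    ∃ l : ι → ℚ, (∀ j, 0 ≤ l j) ∧ (∀ h, 0 ≤ ∑ j, l j * r j h) ∧ ∑ j, l j = 1 ∧
      1 ≤ (((k + 1).factorial * ∏ h, N h : ℕ) : ℚ) * (- ∑ j, l j * ρ j) := by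
  classical
  let P : ℕ → Prop := fun n => ∃ c : ι ⊕ Fin k → ℚ, (∀ s, 0 ≤ c s) ∧
    (∀ o, ∑ s, c s * (col r s o : ℚ) = o.elim 1 fun _ => 0) ∧
    ∑ j, c (Sum.inl j) * (ρ j : ℚ) < 0 ∧ (univ.filter fun s => c s ≠ 0).card = n
  have hP : ∃ n, P n := by
    refine ⟨_, fun s => s.elim l₀ fun h => ∑ j, l₀ j * r j h, ?_, ?_, hlt, rfl⟩
    · rintro (j | h)
      · exact hl₀ j
      · exact hcov h
    · rintro (_ | h)
      · rw [Fintype.sum_sum_type]
        simp only [col, Sum.elim_inl, Sum.elim_inr, Option.elim_none, Int.cast_one, Int.cast_zero,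
          mul_one, mul_zero, Finset.sum_const_zero, add_zero]
        exact hone
      · rw [Fintype.sum_sum_type]
        simp only [col, Sum.elim_inl, Sum.elim_inr, Option.elim_some]
        rw [Finset.sum_eq_single h]
        · simp
        · intro h' _ hh
          simp [hh.symm]
        · intro hh
          exact absurd (mem_univ h) hh
  obtain ⟨c, hc0, hc1, hclt, hcard⟩ := Nat.find_spec hP
  set S := univ.filter fun s => c s ≠ 0 with hS
  have hind : LinearIndependent ℚ fun s : S => fun o => (col r s.1 o : ℚ) := by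
    rw [Fintype.linearIndependent_iff]
    by_contra hcon
    push Not at hcon
    obtain ⟨g, hg, s₀, hs₀⟩ := hcon
    obtain ⟨a, ha, hasupp, hane, hacost⟩ : ∃ a : ι ⊕ Fin k → ℚ,
        (∀ o, ∑ s, a s * (col r s o : ℚ) = 0) ∧ (∀ s, s ∉ S → a s = 0) ∧ (∃ s, a s ≠ 0) ∧
        0 ≤ ∑ j, a (Sum.inl j) * (ρ j : ℚ) := by
      let a₀ : ι ⊕ Fin k → ℚ := fun s => if h : s ∈ S then g ⟨s, h⟩ else 0
      have h1 : ∀ o, ∑ s, a₀ s * (col r s o : ℚ) = 0 := by
        intro o
        have h2 := congrFun hg o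
        rw [Finset.sum_apply] at h2
        simp only [Pi.smul_apply, smul_eq_mul, Pi.zero_apply] at h2
        rw [← h2, ← Finset.sum_subset (subset_univ S), ← Finset.sum_coe_sort S]
        · refine Finset.sum_congr rfl fun s _ => ?_
          simp only [a₀]
          rw [dif_pos s.2]
        · intro s _ hs
          simp only [a₀]
          rw [dif_neg hs, zero_mul]
      have h2 : ∀ s, s ∉ S → a₀ s = 0 := fun s hs => dif_neg hs
      have h3 : a₀ s₀.1 ≠ 0 := by
        simp only [a₀]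
        rw [dif_pos s₀.2]
        exact hs₀
      rcases le_total 0 (∑ j, a₀ (Sum.inl j) * (ρ j : ℚ)) with h | h
      · exact ⟨a₀, h1, h2, ⟨_, h3⟩, h⟩
      · refine ⟨fun s => - a₀ s, fun o => ?_, fun s hs => neg_eq_zero.2 (h2 s hs),
          ⟨_, neg_ne_zero.2 h3⟩, ?_⟩
        · simp only [neg_mul, Finset.sum_neg_distrib, h1 o, neg_zero]
        · simp only [neg_mul, Finset.sum_neg_distrib]
          exact neg_nonneg.2 h
    obtain ⟨s₁, hs₁⟩ := ker_pos r a ha hane
    obtain ⟨s₂, hs₂, hmin⟩ := Finset.exists_min_image (univ.filter fun s => 0 < a s)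
      (fun s => c s / a s) ⟨s₁, mem_filter.2 ⟨mem_univ _, hs₁⟩⟩
    have ha₂ : 0 < a s₂ := (mem_filter.1 hs₂).2
    set t := c s₂ / a s₂ with ht
    have ht0 : 0 ≤ t := div_nonneg (hc0 _) ha₂.le
    have hnew : P (univ.filter fun s => c s - t * a s ≠ 0).card := by
      refine ⟨fun s => c s - t * a s, fun s => ?_, fun o => ?_, ?_, rfl⟩
      · by_cases hs : 0 < a s
        · have h1 := hmin s (mem_filter.2 ⟨mem_univ _, hs⟩)
          rw [le_div_iff₀ hs] at h1
          exact sub_nonneg.2 h1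
        · have h1 := mul_nonneg ht0 (neg_nonneg.2 (not_lt.1 hs))
          have h2 := hc0 s
          nlinarith
      · simp only [sub_mul, Finset.sum_sub_distrib, hc1 o, mul_assoc]
        rw [← Finset.mul_sum, ha o, mul_zero, sub_zero]
      · simp only [sub_mul, Finset.sum_sub_distrib, mul_assoc]
        rw [← Finset.mul_sum]
        nlinarith [mul_nonneg ht0 hacost]
    have hsmall : (univ.filter fun s => c s - t * a s ≠ 0).card < Nat.find hP := by
      rw [← hcard]
      refine Finset.card_lt_card ((Finset.ssubset_iff_of_subset ?_).2 ⟨s₂, ?_, ?_⟩)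
      · intro s hs
        rw [mem_filter] at hs ⊢
        refine ⟨mem_univ _, fun h0 => hs.2 ?_⟩
        have h1 : a s = 0 := hasupp s (by rw [hS, mem_filter]; exact fun h => h.2 h0)
        rw [h0, h1, mul_zero, sub_zero]
      · rw [mem_filter]
        refine ⟨mem_univ _, fun h0 => ha₂.ne' (hasupp s₂ ?_)⟩
        rw [hS, mem_filter]
        exact fun h => h.2 h0
      · rw [mem_filter]
        rintro ⟨_, h⟩
        apply h
        rw [ht, div_mul_cancel₀ _ ha₂.ne', sub_self]
    exact Nat.find_min hP hsmall hnew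
  -- Cramer
  have hc0' : ∀ s, s ∉ S → c s = 0 := by
    intro s hs
    by_contra h
    exact hs (by rw [hS, mem_filter]; exact ⟨mem_univ _, h⟩)
  obtain ⟨τ, hτ, hdet, hden⟩ := cramer (F := ℚ) (S := S) (I := Option (Fin k))
    (fun o s => col r s.1 o) (fun s => c s.1) (fun o => o.elim 1 fun _ => 0)
    (rows_span (fun s : S => col r s.1) hind) (by
      intro o
      have h1 : (((o.elim 1 fun _ => 0 : ℤ)) : ℚ) = o.elim 1 fun _ => 0 := by
        cases o <;> simp
      rw [h1, ← hc1 o, ← Finset.sum_subset (subset_univ S), ← Finset.sum_coe_sort S]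
      · exact Finset.sum_congr rfl fun s _ => mul_comm _ _
      · intro s _ hs
        rw [hc0' s hs, zero_mul])
  set Dt := (Matrix.of fun s t : S => col r t.1 (τ s)).det with hDt
  let N' : Option (Fin k) → ℕ := fun o => o.elim 1 N
  have hN' : ∀ o, 1 ≤ N' o := by
    rintro (_ | h)
    · exact le_rfl
    · exact hN h
  have hDle : |Dt| ≤ (((k + 1).factorial * ∏ h, N h : ℕ) : ℤ) := by
    have h1 := det_le_row (Matrix.of fun s t : S => col r t.1 (τ s)) (fun s => N' (τ s)) (by
      intro s t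
      rw [Matrix.of_apply]
      rcases t with ⟨(j | i), _⟩
      · rcases τ s with _ | h
        · simp [col, N']
        · exact hr j h
      · rcases τ s with _ | h
        · simp [col, N']
        · show |(Pi.single i (-1) : Fin k → ℤ) h| ≤ _
          have h2 := hN h
          by_cases h3 : h = i
          · rw [h3] at h2 ⊢
            rw [Pi.single_eq_same, abs_neg, abs_one]
            show (1 : ℤ) ≤ (N i : ℤ)
            exact_mod_cast h2
          · rw [Pi.single_eq_of_ne h3, abs_zero]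
            exact Int.natCast_nonneg _)
    refine h1.trans ?_
    have hcardS : Fintype.card S ≤ k + 1 := by
      have := Fintype.card_le_of_injective τ hτ
      simpa using this
    have h2 : ∏ s, N' (τ s) ≤ ∏ h, N h := by
      have h4 : ∏ o, N' o = ∏ h, N h := by
        rw [Fintype.prod_option]
        simp [N']
      rw [← h4, ← Finset.prod_image (f := N') (s := univ) (g := τ) (fun x _ y _ h => hτ h)]
      exact Finset.prod_le_prod_of_subset_of_one_le' (subset_univ _) fun i _ _ => hN' i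
    have h3 : (Fintype.card S).factorial * ∏ s, N' (τ s) ≤ (k + 1).factorial * ∏ i, N i :=
      Nat.mul_le_mul (Nat.factorial_le hcardS) h2
    exact_mod_cast h3
  refine ⟨fun j => c (Sum.inl j), fun j => hc0 _, fun h => ?_, ?_, ?_⟩
  · have h1 := hc1 (some h)
    rw [Fintype.sum_sum_type] at h1
    simp only [col, Sum.elim_inl, Sum.elim_inr, Option.elim_some] at h1
    rw [Finset.sum_eq_single h (f := fun x => c (Sum.inr x) *
      (((Pi.single x (-1) : Fin k → ℤ) h : ℤ) : ℚ))] at h1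
    · have h2 := hc0 (Sum.inr h)
      simp only [Pi.single_eq_same, Int.cast_neg, Int.cast_one] at h1
      linarith
    · intro i' _ hi'
      simp [hi'.symm]
    · intro h
      exact absurd (mem_univ _) h
  · have h1 := hc1 none
    rw [Fintype.sum_sum_type] at h1
    simpa [col] using h1
  · have hint : ∀ s, ∃ z : ℤ, (z : ℚ) = (Dt : ℚ) * c s := by
      intro s
      by_cases hs : s ∈ S
      · exact hden ⟨s, hs⟩
      · exact ⟨0, by rw [hc0' s hs, mul_zero, Int.cast_zero]⟩
    choose z hz using hint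
    have h1 : (((- ∑ j, z (Sum.inl j) * ρ j : ℤ)) : ℚ) =
        (Dt : ℚ) * (- ∑ j, c (Sum.inl j) * (ρ j : ℚ)) := by
      push_cast
      simp only [hz]
      rw [mul_neg, Finset.mul_sum]
      congr 1
      exact Finset.sum_congr rfl fun j _ => by ring
    have hpos : 0 < - ∑ j, c (Sum.inl j) * (ρ j : ℚ) := neg_pos.2 hclt
    have hDt0 : (Dt : ℚ) ≠ 0 := by exact_mod_cast hdet
    have h2 : (1 : ℚ) ≤ |(Dt : ℚ)| * (- ∑ j, c (Sum.inl j) * (ρ j : ℚ)) := by
      have h3 : |((- ∑ j, z (Sum.inl j) * ρ j : ℤ) : ℚ)| =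
          |(Dt : ℚ)| * (- ∑ j, c (Sum.inl j) * (ρ j : ℚ)) := by
        rw [h1, abs_mul, abs_of_pos hpos]
      rw [← h3]
      have h4 : (- ∑ j, z (Sum.inl j) * ρ j : ℤ) ≠ 0 := by
        intro h0
        rw [h0, Int.cast_zero] at h1
        rcases mul_eq_zero.1 h1.symm with h | h
        · exact hDt0 h
        · exact hpos.ne' h
      have h5 := Int.one_le_abs h4
      exact_mod_cast h5
    refine h2.trans (mul_le_mul_of_nonneg_right ?_ hpos.le)
    exact_mod_cast hDle

/-- effective Farkas -/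
theorem farkas_eff {k : ℕ} {ι : Type} [Fintype ι] (r : ι → Fin k → ℤ) (ρ : ι → ℤ) (N : Fin k → ℕ)
    (hN : ∀ h, 1 ≤ N h) (hr : ∀ j h, |r j h| ≤ N h) :
    (∃ z : Fin k → ℚ, (∀ h, 0 ≤ z h) ∧ ∀ j, ∑ h, (r j h : ℚ) * z h ≤ ρ j) ∨
    ∃ l : ι → ℚ, (∀ j, 0 ≤ l j) ∧ (∀ h, 0 ≤ ∑ j, l j * r j h) ∧ ∑ j, l j = 1 ∧
      1 ≤ (((k + 1).factorial * ∏ h, N h : ℕ) : ℚ) * (- ∑ j, l j * ρ j) := by
  classical
  by_cases h : ∃ x : (Fin k → ℚ) × ℚ, (∀ i, 0 ≤ x.1 i) ∧
      (∀ j, ∑ h, (r j h : ℚ) * x.1 h ≤ ρ j * x.2) ∧ 0 < x.2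
  · left
    obtain ⟨⟨z, s⟩, h1, h3, h4⟩ := h
    simp only at h1 h3 h4
    refine ⟨fun i => z i / s, fun i => div_nonneg (h1 i) h4.le, fun j => ?_⟩
    have h5 : ∑ h, (r j h : ℚ) * (z h / s) = (∑ h, (r j h : ℚ) * z h) / s := by
      rw [Finset.sum_div]
      exact Finset.sum_congr rfl fun i _ => by ring
    rw [h5, div_le_iff₀ h4]
    exact h3 j
  · right
    let X : Fin k → ((Fin k → ℚ) × ℚ) →ₗ[ℚ] ℚ := fun i =>
      (LinearMap.proj i).comp (LinearMap.fst ℚ (Fin k → ℚ) ℚ)
    let s : ((Fin k → ℚ) × ℚ) →ₗ[ℚ] ℚ := LinearMap.snd ℚ (Fin k → ℚ) ℚ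
    let A : Fin k ⊕ ι → ((Fin k → ℚ) × ℚ) →ₗ[ℚ] ℚ := fun u => u.elim (fun i => - X i)
      fun j => (∑ i, (r j i : ℚ) • X i) - (ρ j : ℚ) • s
    obtain ⟨c, hc0, hc⟩ := farkasT A s (by
      rintro ⟨x, h1, h2⟩
      refine h ⟨x, fun i => ?_, fun j => ?_, h2⟩
      · have := h1 (Sum.inl i)
        simpa [A, X] using this
      · have := h1 (Sum.inr j)
        simpa [A, X, s, LinearMap.sum_apply] using this)
    have hev : ∀ x : (Fin k → ℚ) × ℚ, x.2 = ∑ i, c (Sum.inl i) * (- x.1 i) +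
          ∑ j, c (Sum.inr j) * (∑ i, (r j i : ℚ) * x.1 i - ρ j * x.2) := by
      intro x
      have h1 := LinearMap.congr_fun hc x
      rw [LinearMap.sum_apply, Fintype.sum_sum_type] at h1
      simpa [A, X, s, LinearMap.sum_apply] using h1
    have hρ : ∑ j, c (Sum.inr j) * (ρ j : ℚ) = -1 := by
      have := hev (0, 1)
      simp at this
      linarith
    have hcov : ∀ h, 0 ≤ ∑ j, c (Sum.inr j) * (r j h : ℚ) := by
      intro i
      have := hev (Pi.single i 1, 0)
      simp [Pi.single_apply] at this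
      have h1 := hc0 (Sum.inl i)
      linarith
    have hL : 0 < ∑ j, c (Sum.inr j) := by
      rcases (Finset.sum_nonneg fun j (_ : j ∈ univ) => hc0 (Sum.inr j)).lt_or_eq with h1 | h1
      · exact h1
      · exfalso
        have h2 := (Finset.sum_eq_zero_iff_of_nonneg (s := univ)
          (f := fun j : ι => c (Sum.inr j)) fun j _ => hc0 _).1 h1.symm
        rw [Finset.sum_eq_zero fun j hj => by rw [h2 j hj, zero_mul]] at hρ
        norm_num at hρ
    set L := ∑ j, c (Sum.inr j) with hLdef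
    refine cert_basic r ρ N hN hr (fun j => c (Sum.inr j) / L)
      (fun j => div_nonneg (hc0 _) hL.le) (fun h => ?_) ?_ ?_
    · have h5 : ∑ j, c (Sum.inr j) / L * (r j h : ℚ) = (∑ j, c (Sum.inr j) * (r j h : ℚ)) / L := by
        rw [Finset.sum_div]
        exact Finset.sum_congr rfl fun i _ => by ring
      rw [h5]
      exact div_nonneg (hcov h) hL.le
    · rw [← Finset.sum_div, div_self hL.ne']
    · have h5 : ∑ j, c (Sum.inr j) / L * (ρ j : ℚ) = (∑ j, c (Sum.inr j) * (ρ j : ℚ)) / L := by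
        rw [Finset.sum_div]
        exact Finset.sum_congr rfl fun i _ => by ring
      rw [h5, hρ]
      exact div_neg_of_neg_of_pos (by norm_num) hL

end Pool.Agent.Work.Rnd
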