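import Mathlib
import Pool.Agent.Work.MP_4329d7_ag_rp.RndA

/-!
Rounding of feasible points of integral systems, part B: a system all of whose rows have bounded
negative part and bounded right side, which has a feasible point with positive entries, has a
feasible point with entries bounded below by explicit numbers.
-/

namespace Pool.Agent.Work.Rnd

open Finset Filter Topology

/-- value of a row -/
def ev {v : ℕ} (r : Fin v → ℤ) (y : Fin v → ℝ) : ℝ := ∑ i, (r i : ℝ) * y i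

/-- feasible points -/
def PP {v : ℕ} (𝓡 : Set ((Fin v → ℤ) × ℤ)) : Set (Fin v → ℝ) :=
  {y | (∀ i, 0 ≤ y i) ∧ ∀ q ∈ 𝓡, (q.2 : ℝ) ≤ ev q.1 y}

/-- the systems considered -/
structure Sys {v : ℕ} (𝓡 : Set ((Fin v → ℤ) × ℤ)) (V R : ℕ) : Prop where
  neg : ∀ q ∈ 𝓡, ∑ i, max (-(q.1 i)) 0 ≤ (V : ℤ)
  rhs : ∀ q ∈ 𝓡, q.2 ≤ (R : ℤ)
  box : ∀ i, ((-Pi.single i 1 : Fin v → ℤ), (-1 : ℤ)) ∈ 𝓡

theorem ev_add {v : ℕ} (r : Fin v → ℤ) (y u : Fin v → ℝ) (ε : ℝ) :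
    ev r (fun i => y i + ε * u i) = ev r y + ε * ev r u := by
  unfold ev
  rw [Finset.mul_sum, ← Finset.sum_add_distrib]
  exact Finset.sum_congr rfl fun i _ => by ring

theorem ev_box {v : ℕ} (i : Fin v) (y : Fin v → ℝ) :
    ev (-Pi.single i 1 : Fin v → ℤ) y = - y i := by
  unfold ev
  rw [Finset.sum_eq_single i]
  · simp
  · intro j _ hj
    simp [hj]
  · intro hj
    exact absurd (mem_univ i) hj

theorem PP_le_one {v : ℕ} {𝓡 : Set ((Fin v → ℤ) × ℤ)} {V R : ℕ} (h : Sys 𝓡 V R)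
    {y : Fin v → ℝ} (hy : y ∈ PP 𝓡) (i : Fin v) : y i ≤ 1 := by
  have h1 := hy.2 _ (h.box i)
  simp only [ev_box] at h1
  push_cast at h1
  linarith

theorem sum_ge {v : ℕ} (r : Fin v → ℤ) (V : ℕ) (hr : ∑ i, max (-(r i)) 0 ≤ (V : ℤ))
    (S : Finset (Fin v)) (y : Fin v → ℝ) (c : ℝ) (hc : 0 ≤ c)
    (hy : ∀ i ∈ S, 0 ≤ y i ∧ y i ≤ c) : -((V : ℝ) * c) ≤ ∑ i ∈ S, (r i : ℝ) * y i := by
  have h1 : ∑ i ∈ S, (max (-(r i)) 0 : ℤ) ≤ (V : ℤ) :=
    (Finset.sum_le_sum_of_subset_of_nonneg (subset_univ S)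
      fun i _ _ => le_max_right _ _).trans hr
  have h2 : ∑ i ∈ S, ((max (-(r i)) 0 : ℤ) : ℝ) ≤ (V : ℝ) := by exact_mod_cast h1
  have h3 : ∑ i ∈ S, -(((max (-(r i)) 0 : ℤ) : ℝ) * c) ≤ ∑ i ∈ S, (r i : ℝ) * y i := by
    refine Finset.sum_le_sum fun i hi => ?_
    obtain ⟨h4, h5⟩ := hy i hi
    have h6 : (0 : ℝ) ≤ ((max (-(r i)) 0 : ℤ) : ℝ) := by exact_mod_cast le_max_right _ _
    have h7 : -((r i : ℤ) : ℝ) ≤ ((max (-(r i)) 0 : ℤ) : ℝ) := by
      exact_mod_cast le_max_left (-(r i)) 0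
    nlinarith [mul_le_mul_of_nonneg_left h5 h6, mul_le_mul_of_nonneg_right h7 h4]
  rw [Finset.sum_neg_distrib, ← Finset.sum_mul] at h3
  nlinarith

theorem row_ge {v : ℕ} (r : Fin v → ℤ) (V : ℕ) (hr : ∑ i, max (-(r i)) 0 ≤ (V : ℤ))
    (y : Fin v → ℝ) (c : ℝ) (hc : 0 ≤ c) (hy : ∀ i, 0 ≤ y i ∧ y i ≤ c) (j : Fin v) :
    (r j : ℝ) * y j - (V : ℝ) * c ≤ ev r y := by
  classical
  unfold ev
  rw [← Finset.add_sum_erase univ _ (mem_univ j)]
  have := sum_ge r V hr (univ.erase j) y c hc fun i _ => hy i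
  linarith

theorem neg_le_row {v : ℕ} (r : Fin v → ℤ) (V : ℕ) (hr : ∑ i, max (-(r i)) 0 ≤ (V : ℤ))
    (j : Fin v) : -(V : ℤ) ≤ r j := by
  have h1 : max (-(r j)) 0 ≤ ∑ i, max (-(r i)) 0 :=
    Finset.single_le_sum (f := fun i => max (-(r i)) 0) (fun i _ => le_max_right _ _) (mem_univ j)
  have h2 := le_max_left (-(r j)) 0
  linarith

theorem improve {v : ℕ} {𝓡 : Set ((Fin v → ℤ) × ℤ)} {V R : ℕ} (h : Sys 𝓡 V R)
    (y : Fin v → ℝ) (hy : y ∈ PP 𝓡) (t : ℝ) (ht : 0 < t) (hty : ∀ i, t ≤ y i) (u : Fin v → ℝ)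
    (hu : ∀ q ∈ 𝓡, ev q.1 y = q.2 → 0 ≤ ev q.1 u) (hu' : ∀ i, t < y i ∨ 0 < u i) :
    ∃ y' ∈ PP 𝓡, ∀ i, t < y' i := by
  obtain ⟨K, hK⟩ := exists_nat_gt (((R : ℝ) + 2 * V) / t)
  rw [div_lt_iff₀ ht] at hK
  have hcont : ∀ a b : ℝ, Tendsto (fun ε : ℝ => a + ε * b) (𝓝[>] 0) (𝓝 a) := by
    intro a b
    have h1 : ContinuousAt (fun ε : ℝ => a + ε * b) 0 := by fun_prop
    have h2 := h1.tendsto
    simp only [zero_mul, add_zero] at h2
    exact h2.mono_left nhdsWithin_le_nhds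
  have hpos : ∀ᶠ ε in 𝓝[>] (0 : ℝ), 0 < ε := eventually_mem_nhdsWithin
  have E1 : ∀ᶠ ε in 𝓝[>] (0 : ℝ), ∀ i, t < y i + ε * u i := by
    rw [eventually_all]
    intro i
    rcases hu' i with h1 | h1
    · exact (hcont (y i) (u i)).eventually_const_lt h1
    · filter_upwards [hpos] with ε hε
      have := hty i
      have := mul_pos hε h1
      linarith
  have E2 : ∀ᶠ ε in 𝓝[>] (0 : ℝ), ∀ i, y i + ε * u i < 2 := by
    rw [eventually_all]
    intro i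
    refine (hcont (y i) (u i)).eventually_lt_const ?_
    have := PP_le_one h hy i
    linarith
  have E3 : ∀ᶠ ε in 𝓝[>] (0 : ℝ), ∀ r ∈ Finset.Icc (fun _ : Fin v => -(V : ℤ))
      (fun _ => (K : ℤ)), ∀ ρ : ℤ, (r, ρ) ∈ 𝓡 → (ρ : ℝ) ≤ ev r y + ε * ev r u := by
    rw [Finset.eventually_all]
    intro r _
    by_cases hr : 0 ≤ ev r u
    · filter_upwards [hpos] with ε hε ρ hρ
      have h1 := hy.2 _ hρ
      have := mul_nonneg hε.le hr
      simp only at h1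
      linarith
    · have h2 : ((⌈ev r y⌉ - 1 : ℤ) : ℝ) < ev r y := by
        push_cast
        have := Int.ceil_lt_add_one (ev r y)
        linarith
      filter_upwards [(hcont (ev r y) (ev r u)).eventually_const_lt h2] with ε hε ρ hρ
      have h3 : (ρ : ℝ) < ev r y := by
        refine lt_of_le_of_ne (hy.2 _ hρ) fun h4 => hr (hu _ hρ h4.symm)
      have h5 : ρ ≤ ⌈ev r y⌉ - 1 := Int.le_sub_one_of_lt (Int.lt_ceil.2 h3)
      have h6 : (ρ : ℝ) ≤ ((⌈ev r y⌉ - 1 : ℤ) : ℝ) := by exact_mod_cast h5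
      linarith
  obtain ⟨ε, h1, h2, h3⟩ := (E1.and (E2.and E3)).exists
  refine ⟨fun i => y i + ε * u i, ⟨fun i => (ht.trans (h1 i)).le, fun q hq => ?_⟩, h1⟩
  have hneg := h.neg q hq
  by_cases hqb : q.1 ∈ Finset.Icc (fun _ : Fin v => -(V : ℤ)) (fun _ => (K : ℤ))
  · rw [ev_add]
    exact h3 q.1 hqb q.2 hq
  · have h4 : ∃ j, (K : ℤ) < q.1 j := by
      by_contra hcon
      push Not at hcon
      exact hqb (Finset.mem_Icc.2 ⟨fun j => neg_le_row q.1 V hneg j, fun j => hcon j⟩)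
    obtain ⟨j, hj⟩ := h4
    have h5 := row_ge q.1 V hneg (fun i => y i + ε * u i) 2 (by norm_num)
      (fun i => ⟨(ht.trans (h1 i)).le, (h2 i).le⟩) j
    have h6 : (K : ℝ) ≤ (q.1 j : ℝ) := by exact_mod_cast hj.le
    have h7 : (q.2 : ℝ) ≤ (R : ℝ) := by exact_mod_cast h.rhs q hq
    have h8 : (K : ℝ) * t ≤ (q.1 j : ℝ) * (y j + ε * u j) :=
      mul_le_mul h6 (h1 j).le ht.le ((Nat.cast_nonneg K).trans h6)
    linarith

/-- a feasible point with the largest possible smallest entry -/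
theorem exists_maxmin {v : ℕ} {𝓡 : Set ((Fin v → ℤ) × ℤ)} {V R : ℕ} (h : Sys 𝓡 V R)
    (y₀ : Fin v → ℝ) (hy₀ : y₀ ∈ PP 𝓡) (hpos : ∀ i, 0 < y₀ i) :
    ∃ y ∈ PP 𝓡, ∃ t : ℝ, 0 < t ∧ (∀ i, t ≤ y i) ∧ (0 < v → ∀ y' ∈ PP 𝓡, ¬ ∀ i, t < y' i) := by
  set S : Set ((Fin v → ℝ) × ℝ) := {p | p.1 ∈ PP 𝓡 ∧ 0 ≤ p.2 ∧ p.2 ≤ 1 ∧ ∀ i, p.2 ≤ p.1 i}
    with hS
  have hclosed : IsClosed S := by
    have h1 : IsClosed {p : (Fin v → ℝ) × ℝ | ∀ i, 0 ≤ p.1 i} := by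
      simp only [Set.setOf_forall]
      exact isClosed_iInter fun i => isClosed_le (by fun_prop) (by fun_prop)
    have h2 : IsClosed {p : (Fin v → ℝ) × ℝ | ∀ q ∈ 𝓡, (q.2 : ℝ) ≤ ev q.1 p.1} := by
      simp only [Set.setOf_forall]
      refine isClosed_iInter fun q => isClosed_iInter fun _ => isClosed_le (by fun_prop) ?_
      unfold ev
      fun_prop
    have h3 : IsClosed {p : (Fin v → ℝ) × ℝ | 0 ≤ p.2} := isClosed_le (by fun_prop) (by fun_prop)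
    have h4 : IsClosed {p : (Fin v → ℝ) × ℝ | p.2 ≤ 1} := isClosed_le (by fun_prop) (by fun_prop)
    have h5 : IsClosed {p : (Fin v → ℝ) × ℝ | ∀ i, p.2 ≤ p.1 i} := by
      simp only [Set.setOf_forall]
      exact isClosed_iInter fun i => isClosed_le (by fun_prop) (by fun_prop)
    have h6 : S = ({p : (Fin v → ℝ) × ℝ | ∀ i, 0 ≤ p.1 i} ∩
        {p : (Fin v → ℝ) × ℝ | ∀ q ∈ 𝓡, (q.2 : ℝ) ≤ ev q.1 p.1}) ∩
        ({p : (Fin v → ℝ) × ℝ | 0 ≤ p.2} ∩ ({p : (Fin v → ℝ) × ℝ | p.2 ≤ 1} ∩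
        {p : (Fin v → ℝ) × ℝ | ∀ i, p.2 ≤ p.1 i})) := by
      ext p
      simp only [hS, PP, Set.mem_setOf_eq, Set.mem_inter_iff]
    rw [h6]
    exact (h1.inter h2).inter (h3.inter (h4.inter h5))
  have hcompact : IsCompact S := by
    refine (isCompact_Icc (a := ((fun _ => 0, 0) : (Fin v → ℝ) × ℝ))
      (b := (fun _ => 1, 1))).of_isClosed_subset hclosed ?_
    rintro ⟨y, t⟩ ⟨h1, h2, h3, -⟩
    exact ⟨⟨fun i => h1.1 i, h2⟩, ⟨fun i => PP_le_one h h1 i, h3⟩⟩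
  obtain ⟨δ, hδ, hδ1, hδ2⟩ : ∃ δ : ℝ, 0 < δ ∧ δ ≤ 1 ∧ ∀ i, δ ≤ y₀ i := by
    have hid : Tendsto (fun ε : ℝ => ε) (𝓝[>] 0) (𝓝 0) := nhdsWithin_le_nhds
    have e1 : ∀ᶠ ε in 𝓝[>] (0 : ℝ), ∀ i, ε < y₀ i := by
      rw [eventually_all]
      exact fun i => hid.eventually_lt_const (hpos i)
    have e2 : ∀ᶠ ε in 𝓝[>] (0 : ℝ), ε < 1 := hid.eventually_lt_const one_pos
    have e3 : ∀ᶠ ε in 𝓝[>] (0 : ℝ), 0 < ε := eventually_mem_nhdsWithin
    obtain ⟨δ, h1, h2, h3⟩ := (e1.and (e2.and e3)).exists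
    exact ⟨δ, h3, h2.le, fun i => (h1 i).le⟩
  have hmem : (y₀, δ) ∈ S := ⟨hy₀, hδ.le, hδ1, hδ2⟩
  obtain ⟨⟨y, t⟩, hp, hmax⟩ := hcompact.exists_isMaxOn ⟨_, hmem⟩
    (continuous_snd.continuousOn (s := S))
  have ht : 0 < t := hδ.trans_le (hmax hmem)
  refine ⟨y, hp.1, t, ht, hp.2.2.2, fun hv y' hy' hlt => ?_⟩
  haveI : Nonempty (Fin v) := ⟨⟨0, hv⟩⟩
  obtain ⟨i₁, -, hi₁⟩ := Finset.exists_min_image univ y' ⟨⟨0, hv⟩, mem_univ _⟩
  have h1 : (y', y' i₁) ∈ S := ⟨hy', hy'.1 i₁, PP_le_one h hy' i₁, fun i => hi₁ i (mem_univ i)⟩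
  have h2 := hmax h1
  simp only [Set.mem_setOf_eq] at h2
  exact absurd (hlt i₁) (not_lt.2 h2)

/-- the bounds -/
def nn (V W : ℕ) : ℕ → ℕ
  | k => V * ((k + 1).factorial * ∏ i : Fin k, W * nn V W i.1)
termination_by k => k
decreasing_by exact i.2

theorem nn_eq (V W k : ℕ) :
    nn V W k = V * ((k + 1).factorial * ∏ i : Fin k, W * nn V W i.1) := by
  rw [nn]

theorem nn_pos {V W : ℕ} (hV : 1 ≤ V) (hW : 1 ≤ W) (k : ℕ) : 1 ≤ nn V W k := by
  induction k using Nat.strong_induction_on with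
  | _ k ih =>
    rw [nn_eq]
    refine Nat.mul_pos hV (Nat.mul_pos (Nat.factorial_pos _) (Finset.prod_pos fun i _ => ?_))
    exact Nat.mul_pos hW (ih i.1 i.2)

theorem exists_large {v : ℕ} {𝓡 : Set ((Fin v → ℤ) × ℤ)} {V R : ℕ} (hV : 1 ≤ V)
    (h : Sys 𝓡 V R) (y₀ : Fin v → ℝ) (hy₀ : y₀ ∈ PP 𝓡) (hpos : ∀ i, 0 < y₀ i) :
    ∃ y ∈ PP 𝓡, ∃ σ : Equiv.Perm (Fin v), ∀ k : Fin v,
      1 ≤ (nn V (V + R) k.1 : ℝ) * y (σ k) := by
  classical
  obtain ⟨y, hy, t, ht, hty, hmax⟩ := exists_maxmin h y₀ hy₀ hpos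
  set σ : Equiv.Perm (Fin v) := Tuple.sort (fun i => - y i) with hσ
  have hanti : ∀ a b : Fin v, a ≤ b → y (σ b) ≤ y (σ a) := by
    intro a b hab
    have h1 := Tuple.monotone_sort (fun i => - y i) hab
    simp only [Function.comp] at h1
    linarith
  refine ⟨y, hy, σ, ?_⟩
  rintro ⟨k, hk⟩
  induction k using Nat.strong_induction_on with
  | _ k ih =>
  have hW : 1 ≤ V + R := hV.trans (Nat.le_add_right _ _)
  set W := V + R with hWdef
  set c := y (σ ⟨k, hk⟩) with hc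
  have hc0 : 0 < c := ht.trans_le (hty _)
  -- tight pairs
  set T : Set ((Fin v → ℤ) × ℤ) := {q | q ∈ 𝓡 ∧ ev q.1 y = q.2} with hT
  have hrow : ∀ q ∈ T, ∀ j, (q.1 j : ℝ) * y j ≤ (W : ℝ) := by
    intro q hq j
    have h1 := row_ge q.1 V (h.neg q hq.1) y 1 zero_le_one
      (fun i => ⟨hy.1 i, PP_le_one h hy i⟩) j
    have h2 : (q.2 : ℝ) ≤ (R : ℝ) := by exact_mod_cast h.rhs q hq.1
    rw [hq.2] at h1
    rw [hWdef]
    push_cast
    linarith
  have hTfin : T.Finite := by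
    obtain ⟨K, hK⟩ := exists_nat_gt ((W : ℝ) / t)
    rw [div_lt_iff₀ ht] at hK
    refine (Set.finite_Icc (((fun _ => -(V : ℤ)), -(V : ℤ)) : (Fin v → ℤ) × ℤ)
      ((fun _ => (K : ℤ)), (R : ℤ))).subset ?_
    rintro ⟨r, ρ⟩ hq
    have hneg := h.neg _ hq.1
    refine ⟨⟨fun j => neg_le_row r V hneg j, ?_⟩, ⟨fun j => ?_, h.rhs _ hq.1⟩⟩
    · have h1 := sum_ge r V hneg univ y 1 zero_le_one fun i _ => ⟨hy.1 i, PP_le_one h hy i⟩
      have h2 : ev r y = ρ := hq.2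
      unfold ev at h2
      rw [h2, mul_one] at h1
      exact_mod_cast h1
    · have h1 := hrow _ hq j
      simp only at h1
      by_contra h2
      have h2' : (K : ℤ) < r j := not_le.1 h2
      have h3 : (K : ℝ) ≤ (r j : ℝ) := by exact_mod_cast h2'.le
      have h4 : (K : ℝ) * t ≤ (r j : ℝ) * y j :=
        mul_le_mul h3 (hty j) ht.le ((Nat.cast_nonneg K).trans h3)
      linarith
  haveI : Fintype T := hTfin.fintype
  -- the head
  let hd : Fin k → Fin v := fun i => σ ⟨i.1, i.2.trans hk⟩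
  have hdinj : Function.Injective hd := by
    intro a b hab
    have h1 := σ.injective hab
    rw [Fin.mk.injEq] at h1
    exact Fin.ext h1
  have hhead : ∀ i : Fin k, 1 ≤ (nn V W i.1 : ℝ) * y (hd i) := fun i => ih i.1 i.2 _
  by_cases hck : ∃ i : Fin k, y (hd i) ≤ c
  · obtain ⟨i, hi⟩ := hck
    refine (hhead i).trans ?_
    have h1 : nn V W i.1 ≤ nn V W k := by
      rw [nn_eq V W k]
      have h2 : nn V W i.1 ≤ ∏ i : Fin k, W * nn V W i.1 := by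
        refine le_trans (Nat.le_mul_of_pos_left _ hW)
          (Finset.single_le_prod' (f := fun i : Fin k => W * nn V W i.1) (fun j _ => ?_)
            (mem_univ i))
        exact Nat.mul_pos hW (nn_pos hV hW _)
      exact h2.trans ((Nat.le_mul_of_pos_left _ (Nat.factorial_pos _)).trans
        (Nat.le_mul_of_pos_left _ hV))
    have h2 : (nn V W i.1 : ℝ) ≤ (nn V W k : ℝ) := by exact_mod_cast h1
    exact mul_le_mul h2 hi (hy.1 _) (Nat.cast_nonneg _)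
  push Not at hck
  -- tail indices
  have htail : ∀ i : Fin v, i ∉ Set.range hd → y i ≤ c := by
    intro i hi
    have h1 : k ≤ (σ.symm i).1 := by
      by_contra h2
      exact hi ⟨⟨(σ.symm i).1, not_le.1 h2⟩, by simp [hd]⟩
    have h2 := hanti ⟨k, hk⟩ (σ.symm i) h1
    rwa [Equiv.apply_symm_apply] at h2
  rcases farkas_eff (fun (q : T) (i : Fin k) => q.1.1 (hd i)) (fun q : T => q.1.2)
    (fun i => W * nn V W i.1) (fun i => Nat.mul_pos hW (nn_pos hV hW _)) (by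
      intro q i
      have h1 := hrow q.1 q.2 (hd i)
      have h2 := hhead i
      have h3 := neg_le_row q.1.1 V (h.neg _ q.2.1) (hd i)
      have h0 := hy.1 (hd i)
      rw [abs_le]
      constructor
      · have h4 : (V : ℤ) ≤ ((W * nn V W i.1 : ℕ) : ℤ) := by
          have h5 : V ≤ W * nn V W i.1 :=
            (Nat.le_add_right V R).trans (Nat.le_mul_of_pos_right _ (nn_pos hV hW _))
          exact_mod_cast h5
        linarith
      · by_contra h4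
        have h4' : ((W * nn V W i.1 : ℕ) : ℤ) < q.1.1 (hd i) := not_le.1 h4
        have h5 : ((W * nn V W i.1 : ℕ) : ℝ) + 1 ≤ (q.1.1 (hd i) : ℝ) := by exact_mod_cast h4'
        have hy0 : 0 < y (hd i) := ht.trans_le (hty _)
        have h6 : (((W * nn V W i.1 : ℕ) : ℝ) + 1) * y (hd i) ≤ W :=
          (mul_le_mul_of_nonneg_right h5 h0).trans h1
        push_cast at h6
        have h7 : (W : ℝ) * 1 ≤ (W : ℝ) * ((nn V W i.1 : ℝ) * y (hd i)) :=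
          mul_le_mul_of_nonneg_left h2 (Nat.cast_nonneg _)
        nlinarith) with ⟨z, hz0, hz⟩ | ⟨l, hl0, hlc, hl1, hlv⟩
  · -- improvement
    exfalso
    let Z : Fin v → ℝ := fun i => ∑ j : Fin k, if hd j = i then (z j : ℝ) else 0
    have hZev : ∀ r : Fin v → ℤ, ev r Z = ∑ j : Fin k, (r (hd j) : ℝ) * (z j : ℝ) := by
      intro r
      unfold ev
      simp only [Z, Finset.mul_sum]
      rw [Finset.sum_comm]
      refine Finset.sum_congr rfl fun j _ => ?_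
      rw [Finset.sum_eq_single (hd j)]
      · rw [if_pos rfl]
      · intro i _ hi
        rw [if_neg hi.symm, mul_zero]
      · intro hj
        exact absurd (mem_univ _) hj
    obtain ⟨y', hy', hlt⟩ := improve h y hy t ht hty (fun i => y i + (-1) * Z i) (by
      intro q hq hqt
      rw [ev_add, hZev, hqt]
      have h1 := hz ⟨q, hq, hqt⟩
      have h2 : ((∑ i : Fin k, (q.1 (hd i) : ℚ) * z i : ℚ) : ℝ) ≤ (((q.2 : ℤ) : ℚ) : ℝ) := by
        exact_mod_cast h1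
      push_cast at h2
      linarith) (by
      intro i
      by_cases hi : i ∈ Set.range hd
      · left
        obtain ⟨j, rfl⟩ := hi
        exact (hty (σ ⟨k, hk⟩)).trans_lt (hck j)
      · right
        have h1 : Z i = 0 := Finset.sum_eq_zero fun j _ => if_neg fun h2 => hi ⟨j, h2⟩
        rw [h1, mul_zero, add_zero]
        exact ht.trans_le (hty i))
    exact hmax (Nat.zero_lt_of_lt hk) y' hy' hlt
  · -- certificate
    set H : Finset (Fin v) := univ.image hd with hH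
    have hsum : ∑ q : T, (l q : ℝ) * ((q.1.2 : ℤ) : ℝ) =
        ∑ i ∈ H, y i * (∑ q : T, (l q : ℝ) * (q.1.1 i : ℝ)) +
        ∑ q : T, (l q : ℝ) * ∑ i ∈ Hᶜ, (q.1.1 i : ℝ) * y i := by
      have h1 : ∀ q : T, ((q.1.2 : ℤ) : ℝ) = ∑ i ∈ H, (q.1.1 i : ℝ) * y i +
          ∑ i ∈ Hᶜ, (q.1.1 i : ℝ) * y i := by
        intro q
        rw [Finset.sum_add_sum_compl, ← q.2.2]
        rfl
      have h2 : ∑ i ∈ H, y i * (∑ q : T, (l q : ℝ) * (q.1.1 i : ℝ)) =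
          ∑ q : T, (l q : ℝ) * ∑ i ∈ H, (q.1.1 i : ℝ) * y i := by
        simp only [Finset.mul_sum]
        rw [Finset.sum_comm]
        exact Finset.sum_congr rfl fun q _ => Finset.sum_congr rfl fun i _ => by ring
      rw [h2, ← Finset.sum_add_distrib]
      exact Finset.sum_congr rfl fun q _ => by rw [h1 q, mul_add]
    have hl0' : ∀ q : T, (0 : ℝ) ≤ (l q : ℝ) := fun q => by exact_mod_cast hl0 q
    have hA : 0 ≤ ∑ i ∈ H, y i * (∑ q : T, (l q : ℝ) * (q.1.1 i : ℝ)) := by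
      refine Finset.sum_nonneg fun i hi => mul_nonneg (hy.1 i) ?_
      obtain ⟨j, -, rfl⟩ := Finset.mem_image.1 hi
      have h1 := hlc j
      have h2 : (0 : ℝ) ≤ ((∑ q : T, l q * ((q.1.1 (hd j) : ℤ) : ℚ) : ℚ) : ℝ) := by
        exact_mod_cast h1
      push_cast at h2
      exact h2
    have hB : -((V : ℝ) * c) ≤ ∑ q : T, (l q : ℝ) * ∑ i ∈ Hᶜ, (q.1.1 i : ℝ) * y i := by
      have h1 : ∑ q : T, (l q : ℝ) * (-((V : ℝ) * c)) ≤
          ∑ q : T, (l q : ℝ) * ∑ i ∈ Hᶜ, (q.1.1 i : ℝ) * y i := by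
        refine Finset.sum_le_sum fun q _ => mul_le_mul_of_nonneg_left ?_ (hl0' q)
        refine sum_ge q.1.1 V (h.neg _ q.2.1) Hᶜ y c hc0.le fun i hi => ⟨hy.1 i, htail i ?_⟩
        rintro ⟨j, rfl⟩
        exact (Finset.mem_compl.1 hi) (Finset.mem_image.2 ⟨j, mem_univ _, rfl⟩)
      rw [← Finset.sum_mul] at h1
      have h2 : ∑ q : T, (l q : ℝ) = 1 := by exact_mod_cast hl1
      rw [h2, one_mul] at h1
      exact h1
    set Dt : ℕ := (k + 1).factorial * ∏ i : Fin k, W * nn V W i.1 with hDt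
    have hDtpos : 0 < Dt := Nat.mul_pos (Nat.factorial_pos _)
      (Finset.prod_pos fun i _ => Nat.mul_pos hW (nn_pos hV hW _))
    have hC : (1 : ℝ) ≤ (Dt : ℝ) * (- ∑ q : T, (l q : ℝ) * ((q.1.2 : ℤ) : ℝ)) := by
      have h1 : ((1 : ℚ) : ℝ) ≤
          (((Dt : ℕ) : ℚ) * (- ∑ q : T, l q * ((q.1.2 : ℤ) : ℚ)) : ℚ) := by
        exact_mod_cast hlv
      push_cast at h1
      exact h1
    have hfin : - ∑ q : T, (l q : ℝ) * ((q.1.2 : ℤ) : ℝ) ≤ (V : ℝ) * c := by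
      rw [hsum]
      linarith
    rw [nn_eq, ← hDt]
    push_cast
    have h9 := mul_le_mul_of_nonneg_left hfin (Nat.cast_nonneg (α := ℝ) Dt)
    nlinarith

end Pool.Agent.Work.Rnd
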