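import Mathlib
import Pool.Agent.Work.MP_4329d7_ag_rp.RndB

/-!
Rounding of feasible points of integral systems, part C: a vertex of the set of feasible points with
the lower bounds of part B has a common denominator which is bounded explicitly.
-/

namespace Pool.Agent.Work.Rnd

open Finset Pool.Agent.Work.Eff

theorem ev_single {v : ℕ} (i : Fin v) (a : ℤ) (y : Fin v → ℝ) :
    ev (Pi.single i a : Fin v → ℤ) y = a * y i := by
  unfold ev
  rw [Finset.sum_eq_single i]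
  · simp
  · intro j _ hj
    simp [hj]
  · intro hj
    exact absurd (mem_univ i) hj

theorem vertex {v : ℕ} {𝓡 : Set ((Fin v → ℤ) × ℤ)} {V R : ℕ} (hV : 1 ≤ V) (h : Sys 𝓡 V R)
    (N : Fin v → ℕ) (hN : ∀ i, 1 ≤ N i) (y : Fin v → ℝ) (hy : y ∈ PP 𝓡)
    (hyN : ∀ i, 1 ≤ (N i : ℝ) * y i) :
    ∃ x ∈ PP 𝓡, (∀ i, 1 ≤ (N i : ℝ) * x i) ∧
      Submodule.span ℝ (Set.range fun r : {r : Fin v → ℤ //
        (∀ t, |r t| ≤ (((V + R) * N t : ℕ) : ℤ)) ∧ ∃ n : ℤ, ev r x = n} =>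
          fun t => (r.1 t : ℝ)) = ⊤ := by
  classical
  set W := V + R with hW
  have hW1 : 1 ≤ W := hV.trans (Nat.le_add_right _ _)
  set Box : Finset (Fin v → ℤ) :=
    Finset.Icc (fun t => -((W * N t : ℕ) : ℤ)) (fun t => ((W * N t : ℕ) : ℤ)) with hBox
  have hmemBox : ∀ r : Fin v → ℤ, r ∈ Box ↔ ∀ t, |r t| ≤ ((W * N t : ℕ) : ℤ) := by
    intro r
    rw [hBox, Finset.mem_Icc]
    constructor
    · rintro ⟨h1, h2⟩ t
      exact abs_le.2 ⟨h1 t, h2 t⟩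
    · intro h1
      exact ⟨fun t => (abs_le.1 (h1 t)).1, fun t => (abs_le.1 (h1 t)).2⟩
  have hWN : ∀ t, (1 : ℤ) ≤ ((W * N t : ℕ) : ℤ) := fun t => by
    have : 1 ≤ W * N t := Nat.mul_pos hW1 (hN t)
    exact_mod_cast this
  have hsingle : ∀ i (a : ℤ), |a| ≤ ((W * N i : ℕ) : ℤ) → (Pi.single i a : Fin v → ℤ) ∈ Box := by
    intro i a ha
    rw [hmemBox]
    intro t
    by_cases ht : t = i
    · rw [ht, Pi.single_eq_same]
      exact ha
    · rw [Pi.single_eq_of_ne ht, abs_zero]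
      exact Int.natCast_nonneg _
  let Q : (Fin v → ℝ) → Finset (Fin v → ℤ) := fun x => Box.filter fun r => ∃ n : ℤ, ev r x = n
  let P : ℕ → Prop := fun n => ∃ x ∈ PP 𝓡, (∀ i, 1 ≤ (N i : ℝ) * x i) ∧
    Box.card - (Q x).card = n
  have hP : ∃ n, P n := ⟨_, y, hy, hyN, rfl⟩
  obtain ⟨x, hx, hxN, hcard⟩ := Nat.find_spec hP
  refine ⟨x, hx, hxN, ?_⟩
  by_contra hne
  obtain ⟨f, hf0, hf⟩ := Submodule.exists_le_ker_of_lt_top _ (lt_top_iff_ne_top.2 hne)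
  set u : Fin v → ℝ := fun s => f (Pi.single s 1) with hu
  have hfe : ∀ r : Fin v → ℤ, f (fun t => (r t : ℝ)) = ev r u := by
    intro r
    have h1 : (fun t => (r t : ℝ)) = ∑ s, (r s : ℝ) • (Pi.single s 1 : Fin v → ℝ) := by
      funext t
      rw [Finset.sum_apply]
      simp [Pi.single_apply]
    conv_lhs => rw [h1]
    rw [map_sum]
    exact Finset.sum_congr rfl fun s _ => by rw [map_smul, smul_eq_mul]
  have hQ0 : ∀ r ∈ Q x, ev r u = 0 := by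
    intro r hr
    obtain ⟨h1, h2⟩ := Finset.mem_filter.1 hr
    rw [← hfe]
    exact hf (Submodule.subset_span ⟨⟨r, (hmemBox r).1 h1, h2⟩, rfl⟩)
  obtain ⟨s₀, hs₀⟩ : ∃ s, u s ≠ 0 := by
    by_contra hcon
    push Not at hcon
    apply hf0
    ext s
    simpa [hu] using hcon s
  -- a row which decreases
  obtain ⟨r₀, hr₀, hr₀n⟩ : ∃ r ∈ Box, ev r u < 0 := by
    rcases lt_or_gt_of_ne hs₀ with h1 | h1
    · refine ⟨Pi.single s₀ 1, hsingle s₀ 1 (by rw [abs_one]; exact hWN s₀), ?_⟩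
      rw [ev_single]
      simpa using h1
    · refine ⟨Pi.single s₀ (-1), hsingle s₀ (-1) (by rw [abs_neg, abs_one]; exact hWN s₀), ?_⟩
      rw [ev_single]
      simpa using h1
  obtain ⟨r₁, hr₁, hmin⟩ := Finset.exists_min_image (Box.filter fun r => ev r u < 0)
    (fun r => (ev r x - ⌊ev r x⌋) / (-(ev r u))) ⟨r₀, mem_filter.2 ⟨hr₀, hr₀n⟩⟩
  obtain ⟨hr₁B, hr₁n⟩ := mem_filter.1 hr₁
  set τ := (ev r₁ x - ⌊ev r₁ x⌋) / (-(ev r₁ u)) with hτ
  have hτ0 : 0 ≤ τ := div_nonneg (sub_nonneg.2 (Int.floor_le _)) (neg_nonneg.2 hr₁n.le)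
  set x' : Fin v → ℝ := fun i => x i + τ * u i with hx'
  have hev : ∀ r, ev r x' = ev r x + τ * ev r u := fun r => ev_add r x u τ
  have hkey : ∀ r ∈ Box, ∀ ρ : ℤ, (ρ : ℝ) ≤ ev r x → (ρ : ℝ) ≤ ev r x' := by
    intro r hr ρ hρ
    rw [hev]
    by_cases hn : ev r u < 0
    · have h1 := hmin r (mem_filter.2 ⟨hr, hn⟩)
      rw [le_div_iff₀ (neg_pos.2 hn)] at h1
      have h2 : (ρ : ℝ) ≤ (⌊ev r x⌋ : ℝ) := by exact_mod_cast Int.le_floor.2 hρ
      linarith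
    · have := mul_nonneg hτ0 (not_lt.1 hn)
      linarith
  have hx0 : ∀ i, 0 ≤ x' i := by
    intro i
    have h1 := hkey (Pi.single i 1) (hsingle i 1 (by rw [abs_one]; exact hWN i)) 0 (by
      rw [ev_single]
      simpa using hx.1 i)
    rw [ev_single] at h1
    simpa using h1
  have hx1 : ∀ i, x' i ≤ 1 := by
    intro i
    have h1 := hkey (Pi.single i (-1)) (hsingle i (-1) (by rw [abs_neg, abs_one]; exact hWN i))
      (-1) (by
      rw [ev_single]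
      have := PP_le_one h hx i
      push_cast
      linarith)
    rw [ev_single] at h1
    push_cast at h1
    linarith
  have hxN' : ∀ i, 1 ≤ (N i : ℝ) * x' i := by
    intro i
    have h1 := hkey (Pi.single i (N i : ℤ)) (hsingle i (N i) (by
      rw [abs_of_nonneg (Int.natCast_nonneg _)]
      have : N i ≤ W * N i := Nat.le_mul_of_pos_left _ hW1
      exact_mod_cast this)) 1 (by
      rw [ev_single]
      have := hxN i
      push_cast
      exact this)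
    rw [ev_single] at h1
    push_cast at h1
    exact h1
  have hxP : x' ∈ PP 𝓡 := by
    refine ⟨hx0, fun q hq => ?_⟩
    by_cases hqb : q.1 ∈ Box
    · exact hkey q.1 hqb q.2 (hx.2 q hq)
    · rw [hmemBox] at hqb
      push Not at hqb
      obtain ⟨j, hj⟩ := hqb
      have hneg := h.neg q hq
      have h2 := neg_le_row q.1 V hneg j
      have h3 : ((W * N j : ℕ) : ℤ) ≤ q.1 j := by
        rcases lt_abs.1 hj with h4 | h4
        · exact h4.le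
        · exfalso
          have h5 : (V : ℤ) ≤ ((W * N j : ℕ) : ℤ) := by
            have : V ≤ W * N j := (Nat.le_add_right V R).trans (Nat.le_mul_of_pos_right _ (hN j))
            exact_mod_cast this
          linarith
      have h4 := row_ge q.1 V hneg x' 1 zero_le_one (fun i => ⟨hx0 i, hx1 i⟩) j
      have h5 : (q.2 : ℝ) ≤ (R : ℝ) := by exact_mod_cast h.rhs q hq
      have h6 : ((W * N j : ℕ) : ℝ) ≤ (q.1 j : ℝ) := by exact_mod_cast h3
      have h7 := mul_le_mul_of_nonneg_right h6 (hx0 j)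
      have h8 : (W : ℝ) * 1 ≤ (W : ℝ) * ((N j : ℝ) * x' j) :=
        mul_le_mul_of_nonneg_left (hxN' j) (Nat.cast_nonneg _)
      push_cast at h7
      have h9 : (W : ℝ) = (V : ℝ) + R := by rw [hW]; push_cast; rfl
      nlinarith
  have hsub : Q x ⊂ Q x' := by
    refine (Finset.ssubset_iff_of_subset fun r hr => ?_).2 ⟨r₁, ?_, ?_⟩
    · obtain ⟨h1, n, hn⟩ := mem_filter.1 hr
      exact mem_filter.2 ⟨h1, n, by rw [hev, hQ0 r hr, mul_zero, add_zero, hn]⟩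
    · refine mem_filter.2 ⟨hr₁B, ⌊ev r₁ x⌋, ?_⟩
      rw [hev, hτ]
      have : ev r₁ u ≠ 0 := hr₁n.ne
      field_simp
      ring
    · intro h1
      exact hr₁n.ne (hQ0 r₁ h1)
  have hlt : Box.card - (Q x').card < Nat.find hP := by
    have h1 := Finset.card_lt_card hsub
    have h2 : (Q x').card ≤ Box.card := Finset.card_filter_le _ _
    omega
  exact Nat.find_min hP hlt ⟨x', hxP, hxN', rfl⟩

theorem round_aux {v : ℕ} {𝓡 : Set ((Fin v → ℤ) × ℤ)} {V R : ℕ} (hV : 1 ≤ V) (h : Sys 𝓡 V R)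
    (N : Fin v → ℕ) (hN : ∀ i, 1 ≤ N i) (y : Fin v → ℝ) (hy : y ∈ PP 𝓡)
    (hyN : ∀ i, 1 ≤ (N i : ℝ) * y i) :
    ∃ D : ℕ, 0 < D ∧ D ≤ v.factorial * ∏ i, ((V + R) * N i) ∧ ∃ A : Fin v → ℕ, (∀ i, 0 < A i) ∧
      ∀ q ∈ 𝓡, q.2 * (D : ℤ) ≤ ∑ i, q.1 i * (A i : ℤ) := by
  classical
  obtain ⟨x, hx, hxN, hspan⟩ := vertex hV h N hN y hy hyN
  have hint : ∀ r : {r : Fin v → ℤ //
      (∀ t, |r t| ≤ (((V + R) * N t : ℕ) : ℤ)) ∧ ∃ n : ℤ, ev r x = n}, ∃ n : ℤ, ev r.1 x = n :=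
    fun r => r.2.2
  choose n hn using hint
  obtain ⟨τ, -, hdet, hden⟩ := cramer (F := ℝ) (fun r : {r : Fin v → ℤ //
    (∀ t, |r t| ≤ (((V + R) * N t : ℕ) : ℤ)) ∧ ∃ n : ℤ, ev r x = n} => r.1) x n hspan
    (fun r => hn r)
  set Dt := (Matrix.of fun s t : Fin v => (τ s).1 t).det with hDt
  have hDle := det_le_col (Matrix.of fun s t : Fin v => (τ s).1 t)
    (fun t => (V + R) * N t) (fun s t => (τ s).2.1 t)
  rw [← hDt, Fintype.card_fin] at hDle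
  choose z hz using hden
  have hx0 : ∀ i, 0 < x i := by
    intro i
    rcases (hx.1 i).lt_or_eq with h1 | h1
    · exact h1
    · have := hxN i
      rw [← h1, mul_zero] at this
      exact absurd this (by norm_num)
  have hA : ∀ i, (((z i).natAbs : ℕ) : ℝ) = ((Dt.natAbs : ℕ) : ℝ) * x i := by
    intro i
    rw [Nat.cast_natAbs, Nat.cast_natAbs, Int.cast_abs, Int.cast_abs, hz i, abs_mul,
      abs_of_pos (hx0 i)]
  have hd0 : 0 < Dt.natAbs := Int.natAbs_pos.2 hdet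
  have hdle : Dt.natAbs ≤ v.factorial * ∏ i, ((V + R) * N i) := by
    have h1 : ((Dt.natAbs : ℕ) : ℤ) ≤ ((v.factorial * ∏ i, ((V + R) * N i) : ℕ) : ℤ) := by
      rw [Int.natCast_natAbs]
      push_cast
      push_cast at hDle
      exact hDle
    exact_mod_cast h1
  generalize Dt.natAbs = d at hA hd0 hdle
  obtain ⟨An, hAn⟩ : ∃ An : Fin v → ℕ, ∀ i, (An i : ℝ) = (d : ℝ) * x i := ⟨_, hA⟩
  refine ⟨d, hd0, hdle, An, fun i => ?_, fun q hq => ?_⟩
  · have h1 : (0 : ℝ) < (An i : ℝ) := by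
      rw [hAn i]
      exact mul_pos (by exact_mod_cast hd0) (hx0 i)
    exact_mod_cast h1
  · have h1 : ((q.2 : ℤ) : ℝ) * (d : ℝ) ≤ ∑ i, (q.1 i : ℝ) * (An i : ℝ) := by
      have h2 := mul_le_mul_of_nonneg_right (hx.2 q hq) (Nat.cast_nonneg (α := ℝ) d)
      refine h2.trans (le_of_eq ?_)
      unfold ev
      rw [Finset.sum_mul]
      exact Finset.sum_congr rfl fun i _ => by rw [hAn i]; ring
    exact_mod_cast h1

theorem round_perm {v : ℕ} {𝓡 : Set ((Fin v → ℤ) × ℤ)} {V R : ℕ} (hV : 1 ≤ V) (h : Sys 𝓡 V R)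
    (y₀ : Fin v → ℝ) (hy₀ : y₀ ∈ PP 𝓡) (hpos : ∀ i, 0 < y₀ i) :
    ∃ D : ℕ, 0 < D ∧ D ≤ v.factorial * ∏ i : Fin v, ((V + R) * nn V (V + R) i.1) ∧
      ∃ A : Fin v → ℕ, (∀ i, 0 < A i) ∧ ∀ q ∈ 𝓡, q.2 * (D : ℤ) ≤ ∑ i, q.1 i * (A i : ℤ) := by
  obtain ⟨y, hy, σ, hσ⟩ := exists_large hV h y₀ hy₀ hpos
  have hW : 1 ≤ V + R := hV.trans (Nat.le_add_right _ _)
  obtain ⟨D, hD, hDle, A, hA, hq⟩ := round_aux hV h (fun i => nn V (V + R) (σ.symm i).1)
    (fun i => nn_pos hV hW _) y hy (fun i => by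
      have := hσ (σ.symm i)
      rwa [Equiv.apply_symm_apply] at this)
  refine ⟨D, hD, hDle.trans (le_of_eq ?_), A, hA, hq⟩
  rw [← Equiv.prod_comp σ.symm fun i : Fin v => (V + R) * nn V (V + R) i.1]

theorem nn_succ (V W k : ℕ) : nn V W (k + 1) = (k + 2) * W * (nn V W k) ^ 2 := by
  rw [nn_eq V W (k + 1), Fin.prod_univ_castSucc]
  simp only [Fin.val_castSucc, Fin.val_last]
  have h1 := nn_eq V W k
  rw [Nat.factorial_succ (k + 1), pow_two]
  calc V * ((k + 1 + 1) * (k + 1).factorial * ((∏ i : Fin k, W * nn V W i.1) *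
        (W * nn V W k))) =
      (k + 2) * W * (V * ((k + 1).factorial * ∏ i : Fin k, W * nn V W i.1) * nn V W k) := by ring
    _ = _ := by rw [← h1]

theorem nn_le {V W v Z : ℕ} (hZ : (v + 1) * W ≤ Z) (k : ℕ) (hk : k ≤ v) :
    Z * nn V W k ≤ (Z * V) ^ (2 ^ k) := by
  induction k with
  | zero =>
    rw [nn_eq]
    simp
  | succ k ih =>
    have h1 := ih (Nat.le_of_succ_le hk)
    rw [nn_succ, pow_succ 2 k, pow_mul]
    have h2 : (k + 2) * W ≤ Z := (Nat.mul_le_mul_right W (Nat.succ_le_succ hk)).trans hZ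
    calc Z * ((k + 2) * W * nn V W k ^ 2) ≤ Z * (Z * nn V W k ^ 2) :=
          Nat.mul_le_mul_left _ (Nat.mul_le_mul_right _ h2)
      _ = (Z * nn V W k) ^ 2 := by ring
      _ ≤ ((Z * V) ^ 2 ^ k) ^ 2 := Nat.pow_le_pow_left h1 2

/-- the rounding theorem -/
theorem round_le {v : ℕ} {𝓡 : Set ((Fin v → ℤ) × ℤ)} {V R : ℕ} (hV : 2 ≤ V) (h : Sys 𝓡 V R)
    (y₀ : Fin v → ℝ) (hy₀ : y₀ ∈ PP 𝓡) (hpos : ∀ i, 0 < y₀ i) (Z : ℕ)
    (hZ : (v + 1) * (V + R) ≤ Z) :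
    ∃ D : ℕ, 0 < D ∧ 2 * D ≤ (Z * V) ^ (2 ^ v) ∧
      ∃ A : Fin v → ℕ, (∀ i, 0 < A i) ∧ ∀ q ∈ 𝓡, q.2 * (D : ℤ) ≤ ∑ i, q.1 i * (A i : ℤ) := by
  have hV1 : 1 ≤ V := le_trans one_le_two hV
  obtain ⟨D, hD, hDle, A, hA, hq⟩ := round_perm hV1 h y₀ hy₀ hpos
  refine ⟨D, hD, ?_, A, hA, hq⟩
  have h1 := nn_le (V := V) hZ v le_rfl
  have hZ1 : 1 ≤ Z := le_trans (Nat.mul_pos (Nat.succ_pos v)
    (hV1.trans (Nat.le_add_right _ _))) hZ
  have h2 : 2 * D ≤ nn V (V + R) v := by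
    rw [nn_eq]
    refine Nat.mul_le_mul hV (hDle.trans (Nat.mul_le_mul_right _ ?_))
    exact Nat.factorial_le (Nat.le_succ v)
  exact h2.trans ((Nat.le_mul_of_pos_left _ hZ1).trans h1)

/-- the rounding theorem, any finite index type -/
theorem round_fintype {E : Type} [Fintype E] [DecidableEq E] (𝓡 : Set ((E → ℤ) × ℤ)) {V R : ℕ}
    (hV : 2 ≤ V)
    (hneg : ∀ q ∈ 𝓡, ∑ i, max (-(q.1 i)) 0 ≤ (V : ℤ)) (hrhs : ∀ q ∈ 𝓡, q.2 ≤ (R : ℤ))
    (hbox : ∀ i, ((-Pi.single i 1 : E → ℤ), (-1 : ℤ)) ∈ 𝓡)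
    (y₀ : E → ℝ) (hpos : ∀ i, 0 < y₀ i) (hy₀ : ∀ q ∈ 𝓡, (q.2 : ℝ) ≤ ∑ i, (q.1 i : ℝ) * y₀ i)
    (v Z : ℕ) (hv : Fintype.card E ≤ v) (hZ : (v + 1) * (V + R) ≤ Z) :
    ∃ D : ℕ, 0 < D ∧ 2 * D ≤ (Z * V) ^ (2 ^ v) ∧
      ∃ A : E → ℕ, (∀ i, 0 < A i) ∧ ∀ q ∈ 𝓡, q.2 * (D : ℤ) ≤ ∑ i, q.1 i * (A i : ℤ) := by
  set e := Fintype.equivFin E with he
  let 𝓢 : Set ((Fin (Fintype.card E) → ℤ) × ℤ) :=
    {q | ((fun i => q.1 (e i)), q.2) ∈ 𝓡}
  have hsys : Sys 𝓢 V R := by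
    refine ⟨fun q hq => ?_, fun q hq => hrhs _ hq, fun i => ?_⟩
    · have h1 := hneg _ hq
      rw [← Equiv.sum_comp e]
      exact h1
    · show ((fun j => (-Pi.single i 1 : Fin (Fintype.card E) → ℤ) (e j)), (-1 : ℤ)) ∈ 𝓡
      have h1 := hbox (e.symm i)
      have h2 : (fun j => (-Pi.single i 1 : Fin (Fintype.card E) → ℤ) (e j)) =
          (-Pi.single (e.symm i) 1 : E → ℤ) := by
        funext j
        simp only [Pi.neg_apply]
        congr 1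
        by_cases hj : j = e.symm i
        · rw [hj, Pi.single_eq_same, Equiv.apply_symm_apply, Pi.single_eq_same]
        · rw [Pi.single_eq_of_ne hj, Pi.single_eq_of_ne fun h => hj (by rw [← h, Equiv.symm_apply_apply])]
      rw [h2]
      exact h1
  have hcard : (Fintype.card E + 1) * (V + R) ≤ Z :=
    (Nat.mul_le_mul_right _ (Nat.succ_le_succ hv)).trans hZ
  obtain ⟨D, hD, hDle, A, hA, hrow⟩ := round_le hV hsys (fun i => y₀ (e.symm i))
    ⟨fun i => (hpos _).le, fun q hq => by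
      have h1 := hy₀ _ hq
      simp only at h1
      refine h1.trans (le_of_eq ?_)
      unfold ev
      rw [← Equiv.sum_comp e]
      exact Finset.sum_congr rfl fun i _ => by
        simp only [Equiv.symm_apply_apply]⟩
    (fun i => hpos _) Z hcard
  refine ⟨D, hD, hDle.trans ?_, fun i => A (e i), fun i => hA _, fun q hq => ?_⟩
  · have hZV : 0 < Z * V := by
      refine Nat.mul_pos (lt_of_lt_of_le ?_ hZ) (lt_of_lt_of_le zero_lt_two hV)
      exact Nat.mul_pos (Nat.succ_pos v) (Nat.add_pos_left (lt_of_lt_of_le zero_lt_two hV) _)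
    exact Nat.pow_le_pow_right hZV (Nat.pow_le_pow_right zero_lt_two hv)
  · have h1 := hrow ((fun i => q.1 (e.symm i)), q.2) (by
      show ((fun i => q.1 (e.symm (e i))), q.2) ∈ 𝓡
      simp only [Equiv.symm_apply_apply]
      exact hq)
    simp only at h1
    refine h1.trans (le_of_eq ?_)
    rw [← Equiv.sum_comp e]
    exact Finset.sum_congr rfl fun i _ => by simp only [Equiv.symm_apply_apply]

end Pool.Agent.Work.Rnd
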