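import Mathlib
import Pool.Agent.Work.MP_4329d7_ag_rp.RndC

/-!
Rounding of points, part D: the final form. For numbers `A e` with `0 < A e ≤ 1` there are natural
numbers `A' e` and `D`, `D` bounded explicitly, such that every inequality `ρ ≤ ∑ r e * A e` with
integers `r e`, `ρ`, with negative part of `r` of size at most `V` and with `ρ ≤ R` implies the same
inequality for the numbers `A' e / D`.
-/

namespace Pool.Agent.Work.Rnd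

open Finset

theorem round_all {E : Type} [Fintype E] [DecidableEq E] (A : E → ℚ)
    (hA : ∀ e, 0 < A e ∧ A e ≤ 1) (V R : ℕ) (hV : 2 ≤ V) (v Z : ℕ) (hv : Fintype.card E ≤ v)
    (hZ : (v + 1) * (V + R) ≤ Z) :
    ∃ D : ℕ, 0 < D ∧ 2 * D ≤ (Z * V) ^ (2 ^ v) ∧ ∃ A' : E → ℕ, ∀ (r : E → ℤ) (ρ : ℤ),
      ∑ e, max (-(r e)) 0 ≤ (V : ℤ) → ρ ≤ (R : ℤ) → (ρ : ℚ) ≤ ∑ e, (r e : ℚ) * A e →
      ρ * (D : ℤ) ≤ ∑ e, r e * (A' e : ℤ) := by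
  have hneg1 : ∀ i, ∑ e, max (-((-Pi.single i 1 : E → ℤ) e)) 0 ≤ (V : ℤ) := by
    intro i
    rw [Finset.sum_eq_single i]
    · simp only [Pi.neg_apply, Pi.single_eq_same, neg_neg]
      have : (1 : ℤ) ≤ (V : ℤ) := by exact_mod_cast (le_trans one_le_two hV)
      simpa using this
    · intro j _ hj
      simp [hj]
    · intro hj
      exact absurd (mem_univ i) hj
  have hrow1 : ∀ i, (((-1 : ℤ)) : ℚ) ≤ ∑ e, (((-Pi.single i 1 : E → ℤ) e : ℤ) : ℚ) * A e := by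
    intro i
    rw [Finset.sum_eq_single i]
    · simpa using (hA i).2
    · intro j _ hj
      simp [hj]
    · intro hj
      exact absurd (mem_univ i) hj
  obtain ⟨D, hD, hDle, A', -, hA'⟩ := round_fintype (E := E)
    {q | ∑ e, max (-(q.1 e)) 0 ≤ (V : ℤ) ∧ q.2 ≤ (R : ℤ) ∧ (q.2 : ℚ) ≤ ∑ e, (q.1 e : ℚ) * A e}
    (R := R) hV (fun q hq => hq.1) (fun q hq => hq.2.1)
    (fun i => ⟨hneg1 i, by
      have : (0 : ℤ) ≤ (R : ℤ) := Int.natCast_nonneg R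
      show (-1 : ℤ) ≤ (R : ℤ)
      linarith, hrow1 i⟩) (fun e => (A e : ℝ))
    (fun e => by exact_mod_cast (hA e).1) (fun q hq => by
      have h1 := hq.2.2
      have h2 : ((q.2 : ℤ) : ℝ) ≤ ((∑ e, (q.1 e : ℚ) * A e : ℚ) : ℝ) := by exact_mod_cast h1
      push_cast at h2
      exact h2) v Z hv hZ
  exact ⟨D, hD, hDle, A', fun r ρ h1 h2 h3 => hA' (r, ρ) ⟨h1, h2, h3⟩⟩

/-- the same for a finite set of indices -/
theorem round_finset {E : Type} (Fs : Finset E) (A : E → ℚ)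
    (hA : ∀ e ∈ Fs, 0 < A e ∧ A e ≤ 1) (V R : ℕ) (hV : 2 ≤ V) (v Z : ℕ) (hv : Fs.card ≤ v)
    (hZ : (v + 1) * (V + R) ≤ Z) :
    ∃ D : ℕ, 0 < D ∧ 2 * D ≤ (Z * V) ^ (2 ^ v) ∧ ∃ A' : E → ℕ, ∀ (r : E → ℤ) (ρ : ℤ),
      ∑ e ∈ Fs, max (-(r e)) 0 ≤ (V : ℤ) → ρ ≤ (R : ℤ) → (ρ : ℚ) ≤ ∑ e ∈ Fs, (r e : ℚ) * A e →
      ρ * (D : ℤ) ≤ ∑ e ∈ Fs, r e * (A' e : ℤ) := by
  classical
  obtain ⟨D, hD, hDle, A', hA'⟩ := round_all (E := Fs) (fun e => A e.1) (fun e => hA e.1 e.2) V R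
    hV v Z (by rwa [Fintype.card_coe]) hZ
  refine ⟨D, hD, hDle, fun e => if h : e ∈ Fs then A' ⟨e, h⟩ else 0, fun r ρ h1 h2 h3 => ?_⟩
  rw [← Finset.sum_coe_sort Fs] at h1 h3 ⊢
  refine (hA' (fun e => r e.1) ρ h1 h2 h3).trans (le_of_eq ?_)
  refine Finset.sum_congr rfl fun e _ => ?_
  simp only [dif_pos e.2]

end Pool.Agent.Work.Rnd
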