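import Mathlib
import Pool.Agent.Work.MP_4329d7_ag_rp.RndD
import Pool.Agent.Work.MP_4329d7_ag_snc.Unif

/-!
Rational weights on the components of a divisor on a product of projective spaces of total dimension
at most `m` can be replaced by weights with a denominator `M ≤ (7 * m) ^ (3 * 8 ^ m)`.
-/

namespace Pool.Agent.Work.Rnd

open Finset Pool.Agent.Work.Snc

theorem bound_le {m : ℕ} (hm : 0 < m) :
    ((3 * m + 1) * (4 * m + 2 + (2 * m + 2)) * (4 * m + 2)) ^ (2 ^ (3 * m)) ≤
      (7 * m) ^ (3 * 8 ^ m) := by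
  have h1 : (3 * m + 1) * (4 * m + 2 + (2 * m + 2)) * (4 * m + 2) ≤ (7 * m) ^ 3 := by
    calc (3 * m + 1) * (4 * m + 2 + (2 * m + 2)) * (4 * m + 2)
        ≤ (4 * m) * (10 * m) * (6 * m) :=
          Nat.mul_le_mul (Nat.mul_le_mul (by omega) (by omega)) (by omega)
      _ = 240 * m ^ 3 := by ring
      _ ≤ 343 * m ^ 3 := Nat.mul_le_mul_right _ (by norm_num)
      _ = (7 * m) ^ 3 := by ring
  have h2 : 2 ^ (3 * m) = 8 ^ m := by
    rw [pow_mul]
    norm_num
  rw [h2, pow_mul]
  exact Nat.pow_le_pow_left h1 _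

theorem weights_effD {I E : Type} [Fintype I] [Fintype E] (m : ℕ)
    (hm : 0 < m) (n : I → ℕ) (hn : ∀ i, 0 < n i) (hsum : ∑ i, n i ≤ m) (d : E → I → ℕ)
    (B : Set (E → ℕ)) (A : E → ℚ) (h : RatWtD n d B A) :
    ∃ M : ℕ, 0 < M ∧ M ≤ (7 * m) ^ (3 * 8 ^ m) ∧ ∃ A' : E → ℕ, NatWtD n d B M A' := by
  classical
  set U : Finset I := univ.filter fun i => ∑ e ∈ univ.filter (fun e => A e < 1 / 2), d e i ≤
    2 * n i + 1 with hU
  set Fs : Finset E := univ.filter fun e => 0 < A e ∧ A e < 1 / 2 ∧ ∃ i ∈ U, 0 < d e i with hFs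
  have hFmem : ∀ e, e ∈ Fs ↔ 0 < A e ∧ A e < 1 / 2 ∧ ∃ i ∈ U, 0 < d e i := fun e => by
    rw [hFs, mem_filter]
    exact and_iff_right (mem_univ e)
  clear_value Fs
  have hni : ∀ i, n i ≤ m := fun i =>
    (Finset.single_le_sum (f := n) (fun _ _ => Nat.zero_le _) (mem_univ i)).trans hsum
  -- the number of elements of `Fs`
  have hcard : Fs.card ≤ 3 * m := by
    have h1 : Fs ⊆ U.biUnion fun i => univ.filter fun e => A e < 1 / 2 ∧ 0 < d e i := by
      intro e he
      obtain ⟨-, h2, i, hi, h3⟩ := (hFmem e).1 he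
      exact mem_biUnion.2 ⟨i, hi, mem_filter.2 ⟨mem_univ _, h2, h3⟩⟩
    refine (card_le_card h1).trans (card_biUnion_le.trans ?_)
    have h2 : ∀ i ∈ U, (univ.filter fun e => A e < 1 / 2 ∧ 0 < d e i).card ≤ 3 * n i := by
      intro i hi
      have h3 : (univ.filter fun e => A e < 1 / 2 ∧ 0 < d e i).card ≤
          ∑ e ∈ univ.filter (fun e => A e < 1 / 2), d e i := by
        rw [card_eq_sum_ones]
        refine (Finset.sum_le_sum (g := fun e => d e i) fun e he => (mem_filter.1 he).2.2).trans ?_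
        refine Finset.sum_le_sum_of_subset fun e he => ?_
        exact mem_filter.2 ⟨mem_univ _, (mem_filter.1 he).2.1⟩
      have h4 := (mem_filter.1 hi).2
      have := hn i
      omega
    refine (Finset.sum_le_sum h2).trans ?_
    rw [← Finset.mul_sum]
    exact Nat.mul_le_mul_left _ ((Finset.sum_le_univ_sum_of_nonneg fun _ => Nat.zero_le _).trans
      hsum)
  obtain ⟨D, hD, hDle, A', hA'⟩ := round_finset Fs A (fun e he => by
    obtain ⟨h1, h2, -⟩ := (hFmem e).1 he
    exact ⟨h1, by linarith⟩) (4 * m + 2) (2 * m + 2) (by omega) (3 * m)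
    ((3 * m + 1) * (4 * m + 2 + (2 * m + 2))) hcard le_rfl
  -- the entries on `Fs`
  have hA2 : ∀ f ∈ Fs, 2 * A' f ≤ D := by
    intro f hf
    obtain ⟨h1, h2, -⟩ := (hFmem f).1 hf
    have h3 := hA' (fun e => if e = f then -2 else 0) (-1) (by
      have h4 : ∀ e ∈ Fs, max (-(if e = f then (-2 : ℤ) else 0)) 0 = if e = f then 2 else 0 := by
        intro e _
        split_ifs <;> simp
      rw [Finset.sum_congr rfl h4, Finset.sum_ite_eq' Fs f, if_pos hf]
      push_cast
      have : (0 : ℤ) ≤ (m : ℤ) := Int.natCast_nonneg m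
      linarith) (by
      have : (0 : ℤ) ≤ ((2 * m + 2 : ℕ) : ℤ) := Int.natCast_nonneg _
      linarith) (by
      push_cast
      simp only [ite_mul, zero_mul]
      rw [Finset.sum_ite_eq' Fs f, if_pos hf]
      linarith)
    simp only [ite_mul, zero_mul] at h3
    rw [Finset.sum_ite_eq' Fs f, if_pos hf] at h3
    have : (2 : ℤ) * (A' f : ℤ) ≤ (D : ℤ) := by linarith
    exact_mod_cast this
  -- natural rows
  have hrowN : ∀ b : E → ℕ, 1 ≤ ∑ e ∈ Fs, A e * (b e : ℚ) → D ≤ ∑ e ∈ Fs, A' e * b e := by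
    intro b hb
    have h3 := hA' (fun e => (b e : ℤ)) 1 (by
      have h4 : ∀ e ∈ Fs, max (-((b e : ℕ) : ℤ)) 0 = 0 := fun e _ =>
        max_eq_right (neg_nonpos.2 (Int.natCast_nonneg _))
      rw [Finset.sum_congr rfl h4, Finset.sum_const_zero]
      exact Int.natCast_nonneg _) (by
      push_cast
      have : (0 : ℤ) ≤ (m : ℤ) := Int.natCast_nonneg m
      linarith) (by
      push_cast
      refine hb.trans (le_of_eq (Finset.sum_congr rfl fun e _ => mul_comm _ _)))
    have h4 : ((D : ℕ) : ℤ) ≤ ((∑ e ∈ Fs, A' e * b e : ℕ) : ℤ) := by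
      push_cast
      rw [one_mul] at h3
      refine h3.trans (le_of_eq (Finset.sum_congr rfl fun e _ => mul_comm _ _))
    exact_mod_cast h4
  -- the deficits on the components with large weight
  set Φ : E → Set ℕ := fun e => {t | t = D ∨ ∃ b : E → ℕ, 1 - A e ≤ ∑ f ∈ Fs, A f * (b f : ℚ) ∧
    t = 2 * ∑ f ∈ Fs, A' f * b f} with hΦ
  set φ : E → ℕ := fun e => sInf (Φ e) with hφ
  have hφD : ∀ e, φ e ≤ D := fun e => Nat.sInf_le (Or.inl rfl)
  have hφb : ∀ e (b : E → ℕ), 1 - A e ≤ ∑ f ∈ Fs, A f * (b f : ℚ) →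
      φ e ≤ 2 * ∑ f ∈ Fs, A' f * b f := fun e b hb => Nat.sInf_le (Or.inr ⟨b, hb, rfl⟩)
  have hch : ∀ e, ∃ (s : ℕ) (b : E → ℕ), φ e = s * D + 2 * ∑ f ∈ Fs, A' f * b f ∧
      (1 / 2 ≤ A e → 2 * (1 - A e) ≤ (s : ℚ) + 2 * ∑ f ∈ Fs, A f * (b f : ℚ)) := by
    intro e
    rcases Nat.sInf_mem (s := Φ e) ⟨D, Or.inl rfl⟩ with h1 | ⟨b, h1, h2⟩
    · refine ⟨1, 0, ?_, fun h3 => ?_⟩
      · simpa [hφ] using h1
      · simp only [Pi.zero_apply, Nat.cast_zero, mul_zero, Finset.sum_const_zero, add_zero,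
          Nat.cast_one]
        linarith
    · refine ⟨0, b, ?_, fun _ => ?_⟩
      · rw [zero_mul, zero_add]
        exact h2
      · rw [Nat.cast_zero, zero_add]
        linarith
  choose s b hφs hsb using hch
  set C : E → ℕ := fun e => if A e = 1 then 2 * D else if 1 / 2 ≤ A e then 2 * D - φ e else
    if e ∈ Fs then 2 * A' e else if A e = 0 then 0 else D with hC
  have hC1 : ∀ e, A e = 1 → C e = 2 * D := fun e h1 => by simp only [hC, if_pos h1]
  have hC2 : ∀ e, A e ≠ 1 → 1 / 2 ≤ A e → C e = 2 * D - φ e := fun e h1 h2 => by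
    simp only [hC, if_neg h1, if_pos h2]
  have hC3 : ∀ e, e ∈ Fs → C e = 2 * A' e := fun e h1 => by
    obtain ⟨h2, h3, -⟩ := (hFmem e).1 h1
    have h4 : A e ≠ 1 := by linarith
    simp only [hC, if_neg h4, if_neg (not_le.2 h3), if_pos h1]
  have hC4 : ∀ e, A e = 0 → C e = 0 := fun e h1 => by
    have h2 : e ∉ Fs := fun h3 => by
      have := ((hFmem e).1 h3).1
      linarith
    have h3 : A e ≠ 1 := by rw [h1]; norm_num
    have h4 : ¬ (1 / 2 ≤ A e) := by rw [h1]; norm_num
    simp only [hC, if_neg h3, if_neg h4, if_neg h2, if_pos h1]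
  have hC5 : ∀ e, A e ≠ 0 → A e < 1 / 2 → e ∉ Fs → C e = D := fun e h1 h2 h3 => by
    have h4 : A e ≠ 1 := by linarith
    simp only [hC, if_neg h4, if_neg (not_le.2 h2), if_neg h3, if_neg h1]
  have hsmall : ∀ e, A e < 1 / 2 → C e ≤ D := by
    intro e he
    by_cases h1 : e ∈ Fs
    · rw [hC3 e h1]
      exact hA2 e h1
    · by_cases h2 : A e = 0
      · rw [hC4 e h2]
        exact Nat.zero_le _
      · rw [hC5 e h2 he h1]
  have hbox : ∀ e, C e ≤ 2 * D := by
    intro e
    by_cases h1 : A e = 1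
    · rw [hC1 e h1]
    · by_cases h2 : 1 / 2 ≤ A e
      · rw [hC2 e h1 h2]
        exact Nat.sub_le _ _
      · have := hsmall e (not_le.1 h2)
        omega
  have hbig : ∀ e, e ∉ Fs → A e ≠ 0 → D ≤ C e := by
    intro e h1 h0
    by_cases h2 : A e = 1
    · rw [hC1 e h2]
      omega
    · by_cases h3 : 1 / 2 ≤ A e
      · rw [hC2 e h2 h3]
        have := hφD e
        omega
      · rw [hC5 e h0 (not_le.1 h3) h1]
  refine ⟨2 * D, by omega, hDle.trans (bound_le hm), C, hbox, fun i => ?_, fun β hβ => ?_⟩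
  · -- the factors
    by_cases hi : i ∈ U
    · have hiU := (mem_filter.1 hi).2
      set T : Finset E := univ.filter fun e => 1 / 2 ≤ A e ∧ A e ≠ 1 with hT
      set Zs : Finset E := univ.filter fun e => A e = 0 with hZs
      -- the inequality for `A`
      have hfacA : ((n i + 1 : ℕ) : ℚ) ≤ ∑ e ∈ T, (1 - A e) * (d e i : ℚ) +
          ∑ e ∈ Fs, (1 - A e) * (d e i : ℚ) + ∑ e ∈ Zs, (d e i : ℚ) := by
        refine (h.fac i).trans ?_
        have h0 : ∑ e ∈ Fs, (1 - A e) * (d e i : ℚ) =
            ∑ e, if e ∈ Fs then (1 - A e) * (d e i : ℚ) else 0 := by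
          rw [Finset.sum_ite_mem, univ_inter]
        rw [hT, hZs, Finset.sum_filter, Finset.sum_filter, h0, ← Finset.sum_add_distrib,
          ← Finset.sum_add_distrib]
        refine Finset.sum_le_sum fun e _ => ?_
        have hbx := h.box e
        have hd0 : (0 : ℚ) ≤ (d e i : ℚ) := Nat.cast_nonneg _
        have hnn : 0 ≤ (1 - A e) * (d e i : ℚ) := mul_nonneg (by linarith) hd0
        by_cases h1 : 1 / 2 ≤ A e ∧ A e ≠ 1
        · rw [if_pos h1]
          have h2 : (0 : ℚ) ≤ if e ∈ Fs then (1 - A e) * (d e i : ℚ) else 0 := by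
            split_ifs
            · exact hnn
            · exact le_rfl
          have h3 : (0 : ℚ) ≤ if A e = 0 then (d e i : ℚ) else 0 := by
            split_ifs
            · exact hd0
            · exact le_rfl
          linarith
        · rw [if_neg h1, zero_add]
          by_cases h2 : A e = 0
          · rw [if_pos h2]
            have h3 : e ∉ Fs := fun h3 => by
              have := ((hFmem e).1 h3).1
              linarith
            rw [if_neg h3, h2]
            linarith
          · rw [if_neg h2, add_zero]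
            by_cases h3 : e ∈ Fs
            · rw [if_pos h3]
            · rw [if_neg h3]
              by_cases h4 : 1 / 2 ≤ A e
              · have h5 : A e = 1 := by
                  by_contra h5
                  exact h1 ⟨h4, h5⟩
                rw [h5]
                simp
              · have h5 : d e i = 0 := by
                  by_contra h5
                  refine h3 ((hFmem e).2 ⟨lt_of_le_of_ne hbx.1 (Ne.symm h2), not_le.1 h4, i, hi,
                    Nat.pos_of_ne_zero h5⟩)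
                rw [h5]
                simp
      -- the inequality for `C`
      have hfacC : ∑ e ∈ T, φ e * d e i + ∑ e ∈ Fs, (2 * D - 2 * A' e) * d e i +
          ∑ e ∈ Zs, 2 * D * d e i ≤ ∑ e, (2 * D - C e) * d e i := by
        have h0 : ∑ e ∈ Fs, (2 * D - 2 * A' e) * d e i =
            ∑ e, if e ∈ Fs then (2 * D - 2 * A' e) * d e i else 0 := by
          rw [Finset.sum_ite_mem, univ_inter]
        rw [hT, hZs, Finset.sum_filter, Finset.sum_filter, h0, ← Finset.sum_add_distrib,
          ← Finset.sum_add_distrib]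
        refine Finset.sum_le_sum fun e _ => ?_
        by_cases h1 : 1 / 2 ≤ A e ∧ A e ≠ 1
        · have h2 : e ∉ Fs := fun h3 => by
            have := ((hFmem e).1 h3).2.1
            linarith [h1.1]
          have h3 : A e ≠ 0 := by
            intro h3
            have := h1.1
            rw [h3] at this
            norm_num at this
          rw [if_pos h1, if_neg h2, if_neg h3, hC2 e h1.2 h1.1]
          have h4 := hφD e
          have h5 : 2 * D - (2 * D - φ e) = φ e := by omega
          rw [h5]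
          omega
        · rw [if_neg h1]
          by_cases h2 : A e = 0
          · have h3 : e ∉ Fs := fun h3 => by
              have := ((hFmem e).1 h3).1
              linarith
            rw [if_neg h3, if_pos h2, hC4 e h2, Nat.sub_zero, zero_add, zero_add]
          · rw [if_neg h2]
            by_cases h3 : e ∈ Fs
            · rw [if_pos h3, hC3 e h3]
              omega
            · rw [if_neg h3]
              exact Nat.zero_le _
      refine le_trans ?_ hfacC
      -- the row
      have hdF : ∑ f ∈ Fs, d f i ≤ 2 * n i + 1 := by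
        refine le_trans (Finset.sum_le_sum_of_subset fun f hf => ?_) hiU
        exact mem_filter.2 ⟨mem_univ _, ((hFmem f).1 hf).2.1⟩
      have hrow := hA' (fun f => 2 * ∑ e ∈ T, (d e i : ℤ) * (b e f : ℤ) - 2 * (d f i : ℤ))
        (2 * ((n i : ℤ) + 1) - 2 * ∑ f ∈ Fs, (d f i : ℤ) - 2 * ∑ e ∈ Zs, (d e i : ℤ) -
          ∑ e ∈ T, (d e i : ℤ) * (s e : ℤ)) (by
        have h1 : ∀ f ∈ Fs, max (-(2 * ∑ e ∈ T, (d e i : ℤ) * (b e f : ℤ) - 2 * (d f i : ℤ))) 0 ≤
            2 * (d f i : ℤ) := by
          intro f _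
          have h2 : (0 : ℤ) ≤ ∑ e ∈ T, (d e i : ℤ) * (b e f : ℤ) :=
            Finset.sum_nonneg fun e _ => mul_nonneg (Int.natCast_nonneg _) (Int.natCast_nonneg _)
          have h3 : (0 : ℤ) ≤ (d f i : ℤ) := Int.natCast_nonneg _
          refine max_le ?_ ?_ <;> linarith
        refine (Finset.sum_le_sum h1).trans ?_
        rw [← Finset.mul_sum]
        have h2 : ((∑ f ∈ Fs, d f i : ℕ) : ℤ) ≤ ((2 * n i + 1 : ℕ) : ℤ) := by exact_mod_cast hdF
        have h3 : (n i : ℤ) ≤ (m : ℤ) := by exact_mod_cast hni i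
        push_cast at h2 ⊢
        linarith) (by
        have h1 : (0 : ℤ) ≤ ∑ f ∈ Fs, (d f i : ℤ) :=
          Finset.sum_nonneg fun e _ => Int.natCast_nonneg _
        have h2 : (0 : ℤ) ≤ ∑ e ∈ Zs, (d e i : ℤ) :=
          Finset.sum_nonneg fun e _ => Int.natCast_nonneg _
        have h3 : (0 : ℤ) ≤ ∑ e ∈ T, (d e i : ℤ) * (s e : ℤ) :=
          Finset.sum_nonneg fun e _ => mul_nonneg (Int.natCast_nonneg _) (Int.natCast_nonneg _)
        have h4 : (n i : ℤ) ≤ (m : ℤ) := by exact_mod_cast hni i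
        push_cast
        linarith) (by
        push_cast
        have h1 : ∑ f ∈ Fs, (2 * ∑ e ∈ T, (d e i : ℚ) * (b e f : ℚ) - 2 * (d f i : ℚ)) * A f =
            ∑ e ∈ T, (d e i : ℚ) * (2 * ∑ f ∈ Fs, A f * (b e f : ℚ)) -
              2 * ∑ f ∈ Fs, A f * (d f i : ℚ) := by
          simp only [sub_mul, Finset.sum_sub_distrib, Finset.mul_sum, Finset.sum_mul]
          congr 1
          · rw [Finset.sum_comm]
            exact Finset.sum_congr rfl fun e _ => Finset.sum_congr rfl fun f _ => by ring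
          · exact Finset.sum_congr rfl fun f _ => by ring
        rw [h1]
        have h2 : ∑ e ∈ T, (d e i : ℚ) * (2 * (1 - A e)) ≤
            ∑ e ∈ T, (d e i : ℚ) * ((s e : ℚ) + 2 * ∑ f ∈ Fs, A f * (b e f : ℚ)) := by
          refine Finset.sum_le_sum fun e he => mul_le_mul_of_nonneg_left ?_ (Nat.cast_nonneg _)
          exact hsb e (mem_filter.1 he).2.1
        simp only [mul_add, Finset.sum_add_distrib] at h2
        have h3 : ∑ e ∈ T, (d e i : ℚ) * (2 * (1 - A e)) =
            2 * ∑ e ∈ T, (1 - A e) * (d e i : ℚ) := by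
          rw [Finset.mul_sum]
          exact Finset.sum_congr rfl fun e _ => by ring
        have h4 : ∑ e ∈ Fs, (1 - A e) * (d e i : ℚ) =
            ∑ e ∈ Fs, (d e i : ℚ) - ∑ e ∈ Fs, A e * (d e i : ℚ) := by
          rw [← Finset.sum_sub_distrib]
          exact Finset.sum_congr rfl fun e _ => by ring
        rw [h4] at hfacA
        push_cast at hfacA
        linarith)
      have h1 : ∑ f ∈ Fs, (2 * ∑ e ∈ T, (d e i : ℤ) * (b e f : ℤ) - 2 * (d f i : ℤ)) * (A' f : ℤ) =
          ∑ e ∈ T, (d e i : ℤ) * (2 * ∑ f ∈ Fs, (A' f : ℤ) * (b e f : ℤ)) -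
            2 * ∑ f ∈ Fs, (A' f : ℤ) * (d f i : ℤ) := by
        simp only [sub_mul, Finset.sum_sub_distrib, Finset.mul_sum, Finset.sum_mul]
        congr 1
        · rw [Finset.sum_comm]
          exact Finset.sum_congr rfl fun e _ => Finset.sum_congr rfl fun f _ => by ring
        · exact Finset.sum_congr rfl fun f _ => by ring
      have h2 : ∀ e, (2 * ∑ f ∈ Fs, (A' f : ℤ) * (b e f : ℤ)) = (φ e : ℤ) - (s e : ℤ) * (D : ℤ) := by
        intro e
        have := congrArg (Nat.cast (R := ℤ)) (hφs e)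
        push_cast at this
        linarith
      simp only at hrow
      rw [h1] at hrow
      simp only [h2, mul_sub, Finset.sum_sub_distrib] at hrow
      have h3 : ∑ e ∈ T, (d e i : ℤ) * ((s e : ℤ) * (D : ℤ)) =
          (∑ e ∈ T, (d e i : ℤ) * (s e : ℤ)) * (D : ℤ) := by
        rw [Finset.sum_mul]
        exact Finset.sum_congr rfl fun e _ => by ring
      rw [h3] at hrow
      have h4 : ((∑ e ∈ Fs, (2 * D - 2 * A' e) * d e i : ℕ) : ℤ) =
          2 * (D : ℤ) * ∑ e ∈ Fs, (d e i : ℤ) - 2 * ∑ f ∈ Fs, (A' f : ℤ) * (d f i : ℤ) := by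
        rw [Nat.cast_sum, Finset.mul_sum, Finset.mul_sum, ← Finset.sum_sub_distrib]
        refine Finset.sum_congr rfl fun e he => ?_
        have h5 := hA2 e he
        rw [Nat.cast_mul, Nat.cast_sub (by omega)]
        push_cast
        ring
      have h5 : ((∑ e ∈ T, φ e * d e i : ℕ) : ℤ) = ∑ e ∈ T, (d e i : ℤ) * (φ e : ℤ) := by
        push_cast
        exact Finset.sum_congr rfl fun e _ => by ring
      have h6 : ((∑ e ∈ Zs, 2 * D * d e i : ℕ) : ℤ) = 2 * (D : ℤ) * ∑ e ∈ Zs, (d e i : ℤ) := by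
        push_cast
        rw [Finset.mul_sum]
      have h7 : (((n i + 1) * (2 * D) : ℕ) : ℤ) ≤ ((∑ e ∈ T, φ e * d e i +
          ∑ e ∈ Fs, (2 * D - 2 * A' e) * d e i + ∑ e ∈ Zs, 2 * D * d e i : ℕ) : ℤ) := by
        rw [Nat.cast_add, Nat.cast_add, h4, h5, h6]
        push_cast
        nlinarith
      exact_mod_cast h7
    · -- many components
      have h1 : 2 * n i + 2 ≤ ∑ e ∈ univ.filter (fun e => A e < 1 / 2), d e i := by
        by_contra h2
        exact hi (mem_filter.2 ⟨mem_univ _, by omega⟩)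
      calc (n i + 1) * (2 * D) = D * (2 * n i + 2) := by ring
        _ ≤ D * ∑ e ∈ univ.filter (fun e => A e < 1 / 2), d e i := Nat.mul_le_mul_left _ h1
        _ = ∑ e ∈ univ.filter (fun e => A e < 1 / 2), D * d e i := by rw [Finset.mul_sum]
        _ ≤ ∑ e ∈ univ.filter (fun e => A e < 1 / 2), (2 * D - C e) * d e i := by
            refine Finset.sum_le_sum fun e he => Nat.mul_le_mul_right _ ?_
            have := hsmall e (mem_filter.1 he).2
            omega
        _ ≤ ∑ e, (2 * D - C e) * d e i :=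
            Finset.sum_le_univ_sum_of_nonneg fun _ => Nat.zero_le _
  · -- the blocks
    have hb1 := h.blk β hβ
    by_cases hO : ∃ e, A e = 1 ∧ β e ≠ 0
    · obtain ⟨e, he, hbe⟩ := hO
      have h1 : 2 * D ≤ C e * β e := by
        rw [hC1 e he]
        exact Nat.le_mul_of_pos_right _ (Nat.pos_of_ne_zero hbe)
      exact h1.trans (Finset.single_le_sum (f := fun e => C e * β e) (fun _ _ => Nat.zero_le _)
        (mem_univ e))
    push Not at hO
    set G : Finset E := univ.filter fun e => e ∉ Fs ∧ A e ≠ 0 with hG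
    have hsplit : ∑ e ∈ Fs, 2 * A' e * β e + ∑ e ∈ G, C e * β e ≤ ∑ e, C e * β e := by
      have h0 : ∑ e ∈ Fs, 2 * A' e * β e = ∑ e, if e ∈ Fs then 2 * A' e * β e else 0 := by
        rw [Finset.sum_ite_mem, univ_inter]
      rw [h0, hG, Finset.sum_filter, ← Finset.sum_add_distrib]
      refine Finset.sum_le_sum fun e _ => ?_
      by_cases h1 : e ∈ Fs
      · have h2 : ¬ (e ∉ Fs ∧ A e ≠ 0) := fun h2 => h2.1 h1
        rw [if_pos h1, if_neg h2, hC3 e h1]
        omega
      · rw [if_neg h1, zero_add]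
        split_ifs
        · exact le_rfl
        · exact Nat.zero_le _
    have hsplitA : ∑ e, A e * (β e : ℚ) = ∑ e ∈ Fs, A e * (β e : ℚ) +
        ∑ e ∈ G, A e * (β e : ℚ) := by
      have h0 : ∑ e ∈ Fs, A e * (β e : ℚ) = ∑ e, if e ∈ Fs then A e * (β e : ℚ) else 0 := by
        rw [Finset.sum_ite_mem, univ_inter]
      rw [h0, hG, Finset.sum_filter, ← Finset.sum_add_distrib]
      refine Finset.sum_congr rfl fun e _ => ?_
      by_cases h1 : e ∈ Fs
      · have h2 : ¬ (e ∉ Fs ∧ A e ≠ 0) := fun h2 => h2.1 h1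
        rw [if_pos h1, if_neg h2, add_zero]
      · rw [if_neg h1, zero_add]
        by_cases h2 : A e = 0
        · rw [if_neg fun h3 => h3.2 h2, h2, zero_mul]
        · rw [if_pos ⟨h1, h2⟩]
    refine le_trans ?_ hsplit
    have hFsum : ∑ e ∈ Fs, 2 * A' e * β e = 2 * ∑ e ∈ Fs, A' e * β e := by
      rw [Finset.mul_sum]
      exact Finset.sum_congr rfl fun e _ => by ring
    rw [hFsum]
    by_cases h2 : 2 ≤ ∑ e ∈ G, β e
    · have h3 : D * ∑ e ∈ G, β e ≤ ∑ e ∈ G, C e * β e := by
        rw [Finset.mul_sum]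
        refine Finset.sum_le_sum fun e he => Nat.mul_le_mul_right _ ?_
        obtain ⟨h4, h5⟩ := (mem_filter.1 he).2
        exact hbig e h4 h5
      have h4 : D * 2 ≤ D * ∑ e ∈ G, β e := Nat.mul_le_mul_left _ h2
      omega
    · by_cases h3 : ∑ e ∈ G, β e = 0
      · have h4 : ∀ e ∈ G, β e = 0 := fun e he => by
          have := (Finset.sum_eq_zero_iff.1 h3) e he
          exact this
        have h5 : ∑ e ∈ G, A e * (β e : ℚ) = 0 :=
          Finset.sum_eq_zero fun e he => by rw [h4 e he, Nat.cast_zero, mul_zero]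
        rw [hsplitA, h5, add_zero] at hb1
        have := hrowN β hb1
        omega
      · have h4 : ∑ e ∈ G, β e = 1 := by omega
        obtain ⟨e₀, he₀, hβ₀⟩ : ∃ e ∈ G, β e ≠ 0 := by
          by_contra hcon
          push Not at hcon
          exact h3 (Finset.sum_eq_zero hcon)
        have h5 := Finset.add_sum_erase G β he₀
        have h6 : β e₀ = 1 := by omega
        have h7 : ∑ e ∈ G.erase e₀, β e = 0 := by omega
        have h8 : ∑ e ∈ G, A e * (β e : ℚ) = A e₀ := by
          rw [← Finset.add_sum_erase G _ he₀, h6, Nat.cast_one, mul_one]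
          rw [Finset.sum_eq_zero fun e he => by
            rw [(Finset.sum_eq_zero_iff.1 h7) e he, Nat.cast_zero, mul_zero], add_zero]
        have h9 : C e₀ ≤ ∑ e ∈ G, C e * β e := by
          refine le_trans (le_of_eq ?_) (Finset.single_le_sum (f := fun e => C e * β e)
            (fun _ _ => Nat.zero_le _) he₀)
          simp only [h6, mul_one]
        rw [hsplitA, h8] at hb1
        have h10 : A e₀ ≠ 1 := fun h11 => hβ₀ (hO e₀ h11)
        obtain ⟨h11, h12⟩ := (mem_filter.1 he₀).2
        by_cases h13 : 1 / 2 ≤ A e₀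
        · have h14 := hφb e₀ β (by linarith)
          have h15 := hC2 e₀ h10 h13
          have h16 := hφD e₀
          omega
        · have h14 := hC5 e₀ h12 (not_le.1 h13) h11
          have h15 := hrowN (fun e => 2 * β e) (by
            have h16 : ∑ e ∈ Fs, A e * ((2 * β e : ℕ) : ℚ) = 2 * ∑ e ∈ Fs, A e * (β e : ℚ) := by
              rw [Finset.mul_sum]
              exact Finset.sum_congr rfl fun e _ => by push_cast; ring
            rw [h16]
            have := not_le.1 h13
            linarith)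
          have h16 : ∑ e ∈ Fs, A' e * (2 * β e) = 2 * ∑ e ∈ Fs, A' e * β e := by
            rw [Finset.mul_sum]
            exact Finset.sum_congr rfl fun e _ => by ring
          rw [h16] at h15
          omega

end Pool.Agent.Work.Rnd
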