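import Mathlib
import Pool.Agent.Work.MP_4329d7_ag_rp.MainT
import Pool.Agent.Work.MP_4329d7_ag_rp.RndE

/-!
THEOREM T+ with explicit exponents: the tensor form of Q1 for all abelian covers of products of
projective spaces of total dimension `m` branched along simple normal crossing divisors; for each
`M ≤ (7 * m) ^ (3 * 8 ^ m)` one multiple of `M` is enough.
-/

namespace Pool.Agent.Work.RP

open Pool.Agent.Work.Snc Pool.Agent.Work.Uni Pool.Agent.Work.MP_4329d7_ag.FF

theorem false_of_natWtD {K : Type} [Field K] [Algebra ℂ K] {I : Type} [Fintype I]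
    [DecidableEq I] {n : I → ℕ} {E : Type} [Fintype E]
    {F : E → MvPolynomial (Co I n) ℂ} {d : E → I → ℕ} {N : ℕ} {x : (i : I) → Fin (n i) → K}
    {S : Set (K × (E → ℕ))} (D : SncData K I n E F d N x S) {M : ℕ} {A : E → ℕ}
    (hA : NatWtD n d {b | SBlock F N S b} M A)
    (hT : ∀ T : TensorForm K (M * ∑ i, n i),
      IsPluricanonical M (∑ i, n i) T → IsRegular T → T = 0) : False := by
  obtain ⟨T, hTp, hTr, hT0⟩ := exists_form_of_natWtD D hA
  exact hT0 (hT T hTp hTr)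

theorem not_starP_eff (m : ℕ) (hm0 : 0 < m) (K : Type) [Field K] [Algebra ℂ K]
    (I : Type) [Fintype I] [DecidableEq I] (n : I → ℕ) (E : Type) [Fintype E] [DecidableEq E]
    (F : E → MvPolynomial (Co I n) ℂ) (d : E → I → ℕ) (N : ℕ) (x : (i : I) → Fin (n i) → K)
    (S : Set (K × (E → ℕ))) (D : SncData K I n E F d N x S) (hm : ∑ i, n i ≤ m)
    (hT : ∀ M, 0 < M → M ≤ (7 * m) ^ (3 * 8 ^ m) → ∃ l, 0 < l ∧
      ∀ T : TensorForm K (l * M * ∑ i, n i), IsPluricanonical (l * M) (∑ i, n i) T →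
        IsRegular T → T = 0)
    (k : Type) [Field k] [Algebra ℂ k] [IsAlgClosed k] (c : Co I n → k) :
    ¬ StarP (BlkP F N S) (fac F) (coefP F c) := by
  intro hstar
  obtain ⟨M0, A, hM0, hA, hAb⟩ := weights_of_starP D c hstar
  obtain ⟨M, hM, hMle, A', hA'⟩ := Rnd.weights_effD m hm0 n D.n_pos hm d _ _
    (ratWtD_of_weights hM0 A hA hAb)
  obtain ⟨l, -, h⟩ := hT M hM hMle
  exact false_of_natWtD D (hA'.smul l) h

theorem main_ind_eff (m : ℕ) (hm0 : 0 < m) (r : ℕ) :
    ∀ (K : Type) [Field K] [Algebra ℂ K]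
    (I : Type) [Fintype I] [DecidableEq I] (n : I → ℕ) (E : Type) [Fintype E] [DecidableEq E]
    (F : E → MvPolynomial (Co I n) ℂ) (d : E → I → ℕ) (N : ℕ) (x : (i : I) → Fin (n i) → K)
    (S : Set (K × (E → ℕ))), SncData K I n E F d N x S → ∑ i, n i ≤ m → Fintype.card I ≤ r →
    ∀ K' : IntermediateField ℂ K, Algebra.EssFiniteType ℂ K' → ¬ Uniruled K' →
    ∃ (K₁ : Type) (_ : Field K₁) (_ : Algebra ℂ K₁) (f : K₁ →ₐ[ℂ] K), K' ≤ f.fieldRange ∧
      ∃ j : ℕ, Algebra.trdeg ℂ K₁ = j ∧ j ≤ m ∧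
      ∃ M : ℕ, 0 < M ∧ M ≤ (7 * m) ^ (3 * 8 ^ m) ∧ ∀ l, 0 < l →
        ∃ T : TensorForm K₁ (l * M * j), IsPluricanonical (l * M) j T ∧ IsRegular T ∧ T ≠ 0 := by
  classical
  induction r with
  | zero =>
    intro K _ _ I _ _ n E _ _ F d N x S D hm hr K' hfg hK'
    by_cases hT : ∀ M, 0 < M → M ≤ (7 * m) ^ (3 * 8 ^ m) → ∃ l, 0 < l ∧
        ∀ T : TensorForm K (l * M * ∑ i, n i), IsPluricanonical (l * M) (∑ i, n i) T →
          IsRegular T → T = 0
    · exfalso
      obtain ⟨k, _, _, _, X, hX⟩ := exists_generic (Co I n)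
      obtain ⟨c, i₀, -⟩ := curve_of_not_starP D hX
        (not_starP_eff m hm0 K I n E F d N x S D hm hT k X)
      have : IsEmpty I := Fintype.card_eq_zero_iff.1 (Nat.le_zero.1 hr)
      exact this.elim i₀
    · push Not at hT
      obtain ⟨M, h1, h2, h3⟩ := hT
      exact ⟨K, inferInstance, inferInstance, AlgHom.id ℂ K, fun w _ => ⟨w, rfl⟩, _, trdeg_eq D,
        hm, M, h1, h2, h3⟩
  | succ r ih =>
    intro K _ _ I _ _ n E _ _ F d N x S D hm hr K' hfg hK'
    by_cases hT : ∀ M, 0 < M → M ≤ (7 * m) ^ (3 * 8 ^ m) → ∃ l, 0 < l ∧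
        ∀ T : TensorForm K (l * M * ∑ i, n i), IsPluricanonical (l * M) (∑ i, n i) T →
          IsRegular T → T = 0
    · obtain ⟨k, _, _, _, X, hX⟩ := exists_generic (Co I n)
      obtain ⟨c, i₀, hi₀⟩ := curve_of_not_starP D hX
        (not_starP_eff m hm0 K I n E F d N x S D hm hT k X)
      set J : Set I := fixed F d N S with hJ
      have hi₀J : i₀ ∉ J := fun h => absurd (h k X hX c) hi₀.ne'
      have hle : K' ≤ KJ x J := by
        intro u hu
        rw [mem_KJ]
        exact alg_of_not_uniruled D K' hK' u hu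
      obtain ⟨E', _, F', d', x', S', D'⟩ := exists_data D J
      have hcard : Fintype.card J ≤ r := by
        have h1 : Fintype.card J < Fintype.card I :=
          Fintype.card_subtype_lt (p := fun i => i ∈ J) hi₀J
        omega
      have hsum : ∑ i : J, n i ≤ m := by
        refine le_trans ?_ hm
        have h2 : ∑ i : J, n i = ∑ i ∈ Finset.univ.filter (· ∈ J), n i :=
          (Finset.sum_subtype _ (fun i => by simp) n).symm
        rw [h2]
        exact Finset.sum_le_univ_sum_of_nonneg (fun _ => Nat.zero_le _)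
      obtain ⟨K₁, _, _, f, hf, j, hj, hjm, M, h1, h2, h3⟩ := ih (KJ x J) J (fun i => n i) E' F' d' N
        x' S' D' hsum hcard (IntermediateField.restrict hle)
        ((Algebra.EssFiniteType.iff_of_algEquiv (IntermediateField.restrictAlgEquiv hle)).1 hfg)
        (fun h => hK' (uniruled_of_equiv (IntermediateField.restrictAlgEquiv hle).symm h))
      refine ⟨K₁, inferInstance, inferInstance, (KJ x J).val.comp f, fun w hw => ?_, j, hj, hjm,
        M, h1, h2, h3⟩
      obtain ⟨v, hv⟩ := hf ((IntermediateField.mem_restrict hle ⟨w, hle hw⟩).2 hw)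
      exact ⟨v, congrArg Subtype.val hv⟩
    · push Not at hT
      obtain ⟨M, h1, h2, h3⟩ := hT
      exact ⟨K, inferInstance, inferInstance, AlgHom.id ℂ K, fun w _ => ⟨w, rfl⟩, _, trdeg_eq D,
        hm, M, h1, h2, h3⟩

/-- THEOREM T+, explicit exponents -/
theorem main_tensor_eff (m : ℕ) (hm0 : 0 < m)
    (K : Type) [Field K] [Algebra ℂ K] [Algebra.EssFiniteType ℂ K]
    (I : Type) [Fintype I] [DecidableEq I] (n : I → ℕ) (E : Type) [Fintype E] [DecidableEq E]
    (F : E → MvPolynomial (Co I n) ℂ) (d : E → I → ℕ) (N : ℕ) (x : (i : I) → Fin (n i) → K)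
    (S : Set (K × (E → ℕ))) (D : SncData K I n E F d N x S) (hm : ∑ i, n i = m)
    (K' : IntermediateField ℂ K) (p : ℕ) (hp : Algebra.trdeg ℂ K' = p)
    (hT : ∀ M, 0 < M → M ≤ (7 * m) ^ (3 * 8 ^ m) → ∃ l, 0 < l ∧ ∀ j, p ≤ j → j ≤ m →
      ∀ T : TensorForm K (l * M * j), IsPluricanonical (l * M) j T → IsRegular T → T = 0) :
    Uniruled K' := by
  by_contra hK'
  obtain ⟨K₁, _, _, f, hf, j, hj, hjm, M, hM, hMle, h⟩ := main_ind_eff m hm0 _ K I n E F d N x S D
    hm.le le_rfl K' (essFiniteType_sub K') hK'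
  obtain ⟨l, hl, hl'⟩ := hT M hM hMle
  obtain ⟨T, h1, h2, h3⟩ := h l hl
  let _ : Algebra K₁ K := f.toRingHom.toAlgebra
  have : IsScalarTower ℂ K₁ K := IsScalarTower.of_algebraMap_eq fun c => (f.commutes c).symm
  obtain ⟨T', h1', h2', h3'⟩ := Pool.Agent.Work.CI.exists_pull (K := K) hj T h1 h2 h3
  refine h3' (hl' j ?_ hjm T' h1' h2')
  have h4 : ∀ w : K', (w : K) ∈ f.fieldRange := fun w => hf w.2
  let e : K₁ ≃ₐ[ℂ] f.fieldRange := AlgEquiv.ofInjectiveField f
  let g : K' →ₐ[ℂ] K₁ := e.symm.toAlgHom.comp (IntermediateField.inclusion hf)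
  have h5 := trdeg_le_of_injective g (RingHom.injective _)
  rw [hp, hj] at h5
  exact_mod_cast h5

end Pool.Agent.Work.RP
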