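import Mathlib

/-!
The FIXED POINT LEMMA (helper25, note 3233): the holomorphic Lefschetz formula for abelian covers of
products of projective spaces, in its combinatorial form, proved by Fourier expansion.

* `G` is the group of the cover, `g e` the inertia generator of the branch divisor `e`, of
  multidegree `d e`;
* `a e χ ∈ [0, 1)` is the exponent of the character `χ` along `e`; only `a e 0 = 0` and the fact that
  `a e χ` is a function of `χ (g e)` are used;
* hypothesis `H`: for `χ ≠ 1` one of the numbers `l i = ∑ a e χ * d e i` is one of `1, …, n i`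
  (no regular forms);
* conclusion: every `γ ∈ G` lies in the inertia group of a stratum: a set `T` of branch divisors
  with a matching `m : T → I`, at most `n i` of them matched with `i`.
-/

namespace Pool.Agent.Work.RP

open Finset

/-- a character of a finite group which is trivial on a subgroup and not at a point outside -/
theorem exists_char_sep {G : Type*} [AddCommGroup G] [Finite G] (H : AddSubgroup G) {γ : G}
    (hγ : γ ∉ H) : ∃ ψ : AddChar G ℂ, (∀ x ∈ H, ψ x = 1) ∧ ψ γ ≠ 1 := by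
  have h1 : (QuotientAddGroup.mk' H γ) ≠ 0 := by
    intro h
    exact hγ ((QuotientAddGroup.eq_zero_iff γ).1 h)
  obtain ⟨ψ, hψ⟩ := AddChar.exists_apply_ne_zero.2 h1
  refine ⟨ψ.compAddMonoidHom (QuotientAddGroup.mk' H), fun x hx => ?_, ?_⟩
  · rw [AddChar.compAddMonoidHom_apply]
    have : QuotientAddGroup.mk' H x = 0 := (QuotientAddGroup.eq_zero_iff x).2 hx
    rw [this, AddChar.map_zero_eq_one]
  · rwa [AddChar.compAddMonoidHom_apply]

/-- a sum over all characters of `χ γ` times a function of the values of `χ` on `T` vanishes if `γ`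
is not in the group generated by `T` -/
theorem sum_char_eq_zero {G : Type*} [AddCommGroup G] [Finite G] [Fintype (AddChar G ℂ)]
    (T : Set G) {γ : G} (hγ : γ ∉ AddSubgroup.closure T) (f : AddChar G ℂ → ℂ)
    (hf : ∀ χ χ' : AddChar G ℂ, (∀ x ∈ T, χ x = χ' x) → f χ = f χ') :
    ∑ χ : AddChar G ℂ, χ γ * f χ = 0 := by
  obtain ⟨ψ, hψ, hψγ⟩ := exists_char_sep _ hγ
  have h1 : ∑ χ : AddChar G ℂ, χ γ * f χ = ψ γ * ∑ χ : AddChar G ℂ, χ γ * f χ := by
    rw [mul_sum, ← Equiv.sum_comp (Equiv.mulLeft ψ)]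
    refine sum_congr rfl fun χ _ => ?_
    rw [Equiv.coe_mulLeft, AddChar.mul_apply, mul_assoc]
    congr 2
    refine hf _ _ fun x hx => ?_
    rw [AddChar.mul_apply, hψ x (AddSubgroup.subset_closure hx), one_mul]
  have h2 : (1 - ψ γ) * ∑ χ : AddChar G ℂ, χ γ * f χ = 0 := by
    rw [sub_mul, one_mul, ← h1, sub_self]
  rcases mul_eq_zero.1 h2 with h3 | h3
  · exact absurd (sub_eq_zero.1 h3).symm hψγ
  · exact h3

/-- FIXED POINT LEMMA, with the matching as a map `φ` from the pairs `(i, j)`, `j < n i`, to the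
branch divisors -/
theorem exists_matched_fun {G E I : Type*} [AddCommGroup G] [Finite G] [Fintype E] [Fintype I]
    (g : E → G) (d : E → I → ℕ) (n : I → ℕ) (a : E → AddChar G ℂ → ℚ)
    (a_zero : ∀ e, a e 0 = 0)
    (a_loc : ∀ e (χ χ' : AddChar G ℂ), χ (g e) = χ' (g e) → a e χ = a e χ')
    (H : ∀ χ : AddChar G ℂ, χ ≠ 0 →
      ∃ i, ∃ k : ℕ, 1 ≤ k ∧ k ≤ n i ∧ ∑ e, a e χ * (d e i : ℚ) = k) (γ : G) :
    ∃ φ : (Σ i, Fin (n i)) → Option E, (∀ p e, φ p = some e → 0 < d e p.1) ∧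
      γ ∈ AddSubgroup.closure (g '' {e | ∃ p, φ p = some e}) := by
  classical
  have : Fintype (AddChar G ℂ) := Fintype.ofFinite _
  -- the factors of the product
  set t : (Σ i, Fin (n i)) → Option E → AddChar G ℂ → ℂ := fun p o χ =>
    o.elim ((p.2 : ℕ) + 1 : ℂ) (fun e => - (((a e χ : ℚ) : ℂ) * (d e p.1 : ℂ))) with ht
  have hprod : ∀ χ : AddChar G ℂ, ∏ p : (Σ i, Fin (n i)),
      (((p.2 : ℕ) + 1 : ℂ) - ∑ e, ((a e χ : ℚ) : ℂ) * (d e p.1 : ℂ)) =
      ∑ φ : (Σ i, Fin (n i)) → Option E, ∏ p, t p (φ p) χ := by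
    intro χ
    have h1 := Finset.prod_univ_sum (fun _ : (Σ i, Fin (n i)) => (univ : Finset (Option E)))
      (fun p o => t p o χ)
    rw [Fintype.piFinset_univ] at h1
    rw [← h1]
    refine prod_congr rfl fun p _ => ?_
    rw [Fintype.sum_option, sub_eq_add_neg, ← sum_neg_distrib]
    rfl
  have htot : ∑ χ : AddChar G ℂ, χ γ * ∏ p : (Σ i, Fin (n i)),
      (((p.2 : ℕ) + 1 : ℂ) - ∑ e, ((a e χ : ℚ) : ℂ) * (d e p.1 : ℂ)) ≠ 0 := by
    rw [Finset.sum_eq_single (0 : AddChar G ℂ)]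
    · rw [AddChar.zero_apply, one_mul]
      refine Finset.prod_ne_zero_iff.2 fun p _ => ?_
      have : ∑ e, ((a e 0 : ℚ) : ℂ) * (d e p.1 : ℂ) = 0 :=
        sum_eq_zero fun e _ => by rw [a_zero]; simp
      rw [this, sub_zero]
      exact Nat.cast_add_one_ne_zero _
    · intro χ _ hχ
      obtain ⟨i, k, hk1, hk2, hk⟩ := H χ hχ
      have h0 : ∏ p : (Σ i, Fin (n i)),
          (((p.2 : ℕ) + 1 : ℂ) - ∑ e, ((a e χ : ℚ) : ℂ) * (d e p.1 : ℂ)) = 0 := by
        refine Finset.prod_eq_zero (mem_univ (⟨i, ⟨k - 1, by omega⟩⟩ : Σ i, Fin (n i))) ?_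
        have h1 : ∑ e, ((a e χ : ℚ) : ℂ) * (d e i : ℂ) = (k : ℂ) := by
          have := congrArg (fun q : ℚ => (q : ℂ)) hk
          push_cast at this
          exact this
        simp only [h1]
        have h2 : ((k - 1 : ℕ) : ℂ) + 1 = (k : ℂ) := by
          exact_mod_cast congrArg (fun q : ℕ => (q : ℂ)) (Nat.sub_add_cancel hk1)
        rw [h2, sub_self]
      rw [h0, mul_zero]
    · intro h
      exact absurd (mem_univ _) h
  -- one term is not zero
  have hex : ∃ φ : (Σ i, Fin (n i)) → Option E,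
      ∑ χ : AddChar G ℂ, χ γ * ∏ p, t p (φ p) χ ≠ 0 := by
    by_contra hcon
    push Not at hcon
    apply htot
    have : ∑ χ : AddChar G ℂ, χ γ * ∏ p : (Σ i, Fin (n i)),
        (((p.2 : ℕ) + 1 : ℂ) - ∑ e, ((a e χ : ℚ) : ℂ) * (d e p.1 : ℂ)) =
        ∑ φ : (Σ i, Fin (n i)) → Option E, ∑ χ : AddChar G ℂ, χ γ * ∏ p, t p (φ p) χ := by
      rw [sum_comm]
      refine sum_congr rfl fun χ _ => ?_
      rw [hprod, mul_sum]
    rw [this]
    exact sum_eq_zero fun φ _ => hcon φ
  obtain ⟨φ, hφ⟩ := hex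
  refine ⟨φ, fun p e hpe => ?_, ?_⟩
  · by_contra hcon
    have h0 : d e p.1 = 0 := by omega
    apply hφ
    refine sum_eq_zero fun χ _ => ?_
    rw [Finset.prod_eq_zero (mem_univ p), mul_zero]
    simp [ht, hpe, h0]
  · by_contra hcon
    apply hφ
    refine sum_char_eq_zero _ hcon _ fun χ χ' h => ?_
    refine prod_congr rfl fun p _ => ?_
    rcases hp : φ p with _ | e
    · rfl
    · simp only [ht, Option.elim_some]
      rw [a_loc e χ χ' (h _ ⟨e, ⟨p, hp⟩, rfl⟩)]

/-- FIXED POINT LEMMA: every element of the group lies in the inertia group of a stratum -/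
theorem exists_matched {G E I : Type*} [AddCommGroup G] [Finite G] [Fintype E] [Fintype I]
    [DecidableEq I] (g : E → G) (d : E → I → ℕ) (n : I → ℕ) (a : E → AddChar G ℂ → ℚ)
    (a_zero : ∀ e, a e 0 = 0)
    (a_loc : ∀ e (χ χ' : AddChar G ℂ), χ (g e) = χ' (g e) → a e χ = a e χ')
    (H : ∀ χ : AddChar G ℂ, χ ≠ 0 →
      ∃ i, ∃ k : ℕ, 1 ≤ k ∧ k ≤ n i ∧ ∑ e, a e χ * (d e i : ℚ) = k) (γ : G) :
    ∃ (T : Finset E) (m : {e // e ∈ T} → I), (∀ e, 0 < d e.1 (m e)) ∧
      (∀ i, (univ.filter (fun e => m e = i)).card ≤ n i) ∧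
      γ ∈ AddSubgroup.closure (g '' (T : Set E)) := by
  classical
  obtain ⟨φ, hφ, hγ⟩ := exists_matched_fun g d n a a_zero a_loc H γ
  have hch : ∀ e : {e // e ∈ univ.filter (fun e => ∃ p, φ p = some e)},
      ∃ p, φ p = some e.1 := fun e => (mem_filter.1 e.2).2
  choose q hq using hch
  refine ⟨univ.filter (fun e => ∃ p, φ p = some e), fun e => (q e).1,
    fun e => hφ _ _ (hq e), fun i => ?_, ?_⟩
  · have h3 : Function.Injective q := by
      intro e e' h
      have h4 := hq e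
      rw [h, hq e'] at h4
      exact Subtype.ext (Option.some.inj h4).symm
    have h1 : (univ.filter (fun e => (q e).1 = i)).card ≤
        ((univ : Finset (Fin (n i))).map ⟨fun j => (⟨i, j⟩ : Σ i, Fin (n i)),
          fun j j' h => by simpa using h⟩).card := by
      refine card_le_card_of_injOn q (fun e he => ?_) h3.injOn
      have h2 : (q e).1 = i := (mem_filter.1 he).2
      rw [coe_map, Set.mem_image]
      have h5 : ∀ p : (Σ i, Fin (n i)), p.1 = i → ∃ j : Fin (n i), (⟨i, j⟩ : Σ i, Fin (n i)) = p := by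
        rintro ⟨i', j'⟩ rfl
        exact ⟨j', rfl⟩
      obtain ⟨j, hj⟩ := h5 _ h2
      exact ⟨j, by simp, hj⟩
    simpa using h1
  · convert hγ using 3
    ext e
    simp

end Pool.Agent.Work.RP
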