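import Mathlib
import Pool.Agent.Work.MP_4329d7_ag_rp.Cst

/-!
The forms which live on the factors in `J` (helper37): restriction to the coordinates of these
factors.
-/

namespace Pool.Agent.Work.RP

open Pool.Agent.Work.Snc (SncData Co)

section Forms

variable {I : Type} {n : I → ℕ}

/-- the coordinates of the factors in `J` -/
def emb (J : Set I) (n : I → ℕ) : Co J (fun i => n i) → Co I n := fun s => ⟨s.1, s.2⟩

theorem emb_injective (J : Set I) (n : I → ℕ) : Function.Injective (emb J n) := by
  rintro ⟨⟨i, hi⟩, j⟩ ⟨⟨i', hi'⟩, j'⟩ h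
  have h1 : i = i' := congrArg Sigma.fst h
  subst h1
  have h2 : j = j' := by
    simpa [emb] using h
  rw [h2]

theorem mem_range_emb (J : Set I) (n : I → ℕ) {s : Co I n} (hs : s.1 ∈ J) :
    s ∈ Set.range (emb J n) := ⟨⟨⟨s.1, hs⟩, s.2⟩, rfl⟩

variable [DecidableEq I]

/-- a form of degree `0` in the factor `i` does not involve the coordinates of this factor -/
theorem not_mem_vars {G : MvPolynomial (Co I n) ℂ} {i : I}
    (hG : G.IsWeightedHomogeneous (Snc.wt i) 0) {s : Co I n} (hs : s ∈ G.vars) : s.1 ≠ i := by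
  intro hsi
  obtain ⟨u, hu, hus⟩ := (MvPolynomial.mem_vars_iff_mem_support s).1 hs
  have h1 := hG (MvPolynomial.mem_support_iff.1 hu)
  rw [Finsupp.weight_apply] at h1
  have h2 : u s • (Snc.wt i s : ℕ) ≤ u.sum fun s k => k • (Snc.wt i s : ℕ) :=
    Finset.single_le_sum (f := fun s => u s • (Snc.wt i s : ℕ)) (fun _ _ => Nat.zero_le _) hus
  have h3 : 1 ≤ u s := Nat.one_le_iff_ne_zero.2 (Finsupp.mem_support_iff.1 hus)
  have h4 : (Snc.wt i s : ℕ) = 1 := by
    unfold Snc.wt
    rw [if_pos hsi]
  rw [h4, smul_eq_mul, mul_one] at h2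
  omega

theorem exists_res {G : MvPolynomial (Co I n) ℂ} (J : Set I)
    (hG : ∀ i, i ∉ J → G.IsWeightedHomogeneous (Snc.wt i) 0) :
    ∃ G' : MvPolynomial (Co J fun i => n i) ℂ, MvPolynomial.rename (emb J n) G' = G := by
  refine MvPolynomial.exists_rename_eq_of_vars_subset_range G (emb J n) (emb_injective J n) ?_
  intro s hs
  refine mem_range_emb J n ?_
  by_contra hsJ
  exact not_mem_vars (hG s.1 hsJ) hs rfl

/-- the weights of the coordinates -/
theorem wt_emb (J : Set I) (i : J) (s : Co J fun i => n i) :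
    Snc.wt (i : I) (emb J n s) = Snc.wt i s := by
  unfold Snc.wt emb
  by_cases h : s.1 = i
  · rw [if_pos (congrArg Subtype.val h), if_pos h]
  · rw [if_neg (fun h' => h (Subtype.ext h')), if_neg h]

theorem hom_of_rename (J : Set I) {G' : MvPolynomial (Co J fun i => n i) ℂ} (i : J) {m : ℕ}
    (h : (MvPolynomial.rename (emb J n) G').IsWeightedHomogeneous (Snc.wt (i : I)) m) :
    G'.IsWeightedHomogeneous (Snc.wt i) m := by
  intro u hu
  have h1 : (MvPolynomial.rename (emb J n) G').coeff (u.mapDomain (emb J n)) ≠ 0 := by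
    rwa [MvPolynomial.coeff_rename_mapDomain _ (emb_injective J n)]
  have h2 := h h1
  rw [Finsupp.weight_apply] at h2 ⊢
  rw [Finsupp.sum_mapDomain_index (fun _ => by simp) (fun _ _ _ => by rw [add_smul])] at h2
  simpa only [wt_emb] using h2

end Forms

variable {K : Type} [Field K] [Algebra ℂ K] {I : Type} [Fintype I] [DecidableEq I] {n : I → ℕ}
  {E : Type} [Fintype E] {F : E → MvPolynomial (Co I n) ℂ} {d : E → I → ℕ}
  {N : ℕ} {x : (i : I) → Fin (n i) → K} {S : Set (K × (E → ℕ))}

/-- the branch divisors which live on the factors in `J` -/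
abbrev EJ (d : E → I → ℕ) (J : Set I) : Type := {e : E // ∀ i, i ∉ J → d e i = 0}

theorem exists_resF (D : SncData K I n E F d N x S) (J : Set I) (e : EJ d J) :
    ∃ G' : MvPolynomial (Co J fun i => n i) ℂ, MvPolynomial.rename (emb J n) G' = F e.1 :=
  exists_res J fun i hi => by
    have h := D.hom e.1 i
    rwa [e.2 i hi] at h

/-- the form in the coordinates of the factors in `J` -/
noncomputable def resF (D : SncData K I n E F d N x S) (J : Set I) (e : EJ d J) :
    MvPolynomial (Co J fun i => n i) ℂ := (exists_resF D J e).choose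

theorem rename_resF (D : SncData K I n E F d N x S) (J : Set I) (e : EJ d J) :
    MvPolynomial.rename (emb J n) (resF D J e) = F e.1 := (exists_resF D J e).choose_spec

theorem resF_hom (D : SncData K I n E F d N x S) (J : Set I) (e : EJ d J) (i : J) :
    (resF D J e).IsWeightedHomogeneous (Snc.wt i) (d e.1 i) := by
  refine hom_of_rename J i ?_
  rw [rename_resF]
  exact D.hom e.1 i

open Classical in
/-- a point with the given coordinates in the factors in `J` -/
noncomputable def ext (J : Set I) (P : Co J (fun i => n i) → ℂ) : Co I n → ℂ := fun s =>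
  if h : s.1 ∈ J then P ⟨⟨s.1, h⟩, s.2⟩ else 1

theorem ext_emb (J : Set I) (P : Co J (fun i => n i) → ℂ) (s : Co J fun i => n i) :
    ext J P (emb J n s) = P s := by
  unfold ext emb
  rw [dif_pos s.1.2]

theorem ext_comp (J : Set I) (P : Co J (fun i => n i) → ℂ) : ext J P ∘ emb J n = P :=
  funext (ext_emb J P)

theorem ext_isPoint (J : Set I) (P : Co J (fun i => n i) → ℂ) (hP : Snc.IsPoint P) :
    Snc.IsPoint (ext J P) := by
  intro i
  by_cases hi : i ∈ J
  · obtain ⟨j, hj⟩ := hP ⟨i, hi⟩
    refine ⟨j, ?_⟩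
    unfold ext
    rw [dif_pos hi]
    exact hj
  · refine ⟨0, ?_⟩
    unfold ext
    rw [dif_neg hi]
    exact one_ne_zero

theorem eval_ext (D : SncData K I n E F d N x S) (J : Set I) (e : EJ d J)
    (P : Co J (fun i => n i) → ℂ) :
    MvPolynomial.eval (ext J P) (F e.1) = MvPolynomial.eval P (resF D J e) := by
  rw [← rename_resF D J e, MvPolynomial.eval_rename, ext_comp]

theorem eval_pderiv_ext (D : SncData K I n E F d N x S) (J : Set I) (e : EJ d J)
    (P : Co J (fun i => n i) → ℂ) (s : Co J fun i => n i) :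
    MvPolynomial.eval (ext J P) (MvPolynomial.pderiv (emb J n s) (F e.1)) =
      MvPolynomial.eval P (MvPolynomial.pderiv s (resF D J e)) := by
  rw [← rename_resF D J e, MvPolynomial.pderiv_rename (emb_injective J n),
    MvPolynomial.eval_rename, ext_comp]

theorem eval_pderiv_ext_zero (D : SncData K I n E F d N x S) (J : Set I) (e : EJ d J)
    (P : Co I n → ℂ) (s : Co I n) (hs : s.1 ∉ J) :
    MvPolynomial.eval P (MvPolynomial.pderiv s (F e.1)) = 0 := by
  rw [MvPolynomial.pderiv_eq_zero_of_notMem_vars, map_zero]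
  intro h
  have h1 := D.hom e.1 s.1
  rw [e.2 s.1 hs] at h1
  exact not_mem_vars h1 h rfl

/-- the simple normal crossing condition for the forms on the factors in `J` -/
theorem resF_snc (D : SncData K I n E F d N x S) (J : Set I) {E' : Type} (f : E' → EJ d J)
    (hf : Function.Injective f) (P : Co J (fun i => n i) → ℂ) (hP : Snc.IsPoint P) :
    LinearIndependent ℂ (fun e : {e : E' // MvPolynomial.eval P (resF D J (f e)) = 0} => fun s =>
      MvPolynomial.eval P (MvPolynomial.pderiv s (resF D J (f e.1)))) := by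
  have h1 := D.snc (ext J P) (ext_isPoint J P hP)
  let g : {e : E' // MvPolynomial.eval P (resF D J (f e)) = 0} →
      {e // MvPolynomial.eval (ext J P) (F e) = 0} := fun e =>
    ⟨(f e.1).1, by rw [eval_ext D J (f e.1) P]; exact e.2⟩
  have hg : Function.Injective g := by
    intro a b hab
    have h2 : (f a.1).1 = (f b.1).1 := congrArg (fun e => e.1) hab
    exact Subtype.ext (hf (Subtype.ext h2))
  have h3 := h1.comp g hg
  -- the gradients vanish outside `J`
  let π : (Co I n → ℂ) →ₗ[ℂ] (Co J (fun i => n i) → ℂ) := LinearMap.funLeft ℂ ℂ (emb J n)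
  have h4 : (π ∘ ((fun e : {e // MvPolynomial.eval (ext J P) (F e) = 0} => fun s =>
      MvPolynomial.eval (ext J P) (MvPolynomial.pderiv s (F e.1))) ∘ g)) =
      fun e : {e : E' // MvPolynomial.eval P (resF D J (f e)) = 0} => fun s =>
      MvPolynomial.eval P (MvPolynomial.pderiv s (resF D J (f e.1))) := by
    funext e s
    exact eval_pderiv_ext D J (f e.1) P s
  rw [← h4]
  refine h3.map_injOn π ?_
  intro v hv w hw hvw
  have hz : ∀ v ∈ Submodule.span ℂ (Set.range ((fun e : {e //
      MvPolynomial.eval (ext J P) (F e) = 0} => fun s =>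
      MvPolynomial.eval (ext J P) (MvPolynomial.pderiv s (F e.1))) ∘ g)),
      ∀ s : Co I n, s.1 ∉ J → v s = 0 := by
    intro v hv s hs
    refine Submodule.span_induction (p := fun v _ => v s = 0) ?_ rfl ?_ ?_ hv
    · rintro _ ⟨e, rfl⟩
      exact eval_pderiv_ext_zero D J (f e.1) _ s hs
    · intro a b _ _ ha hb
      rw [Pi.add_apply, ha, hb, add_zero]
    · intro c a _ ha
      rw [Pi.smul_apply, ha, smul_zero]
  funext s
  by_cases hs : s.1 ∈ J
  · obtain ⟨s', rfl⟩ := mem_range_emb J n hs
    exact congrFun hvw s'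
  · rw [hz v hv s hs, hz w hw s hs]

theorem resF_nonempty (D : SncData K I n E F d N x S) (J : Set I) (e : EJ d J) :
    ∃ P : Co J (fun i => n i) → ℂ, Snc.IsPoint P ∧ MvPolynomial.eval P (resF D J e) = 0 := by
  obtain ⟨P, hP, h0⟩ := D.nonempty e.1
  refine ⟨P ∘ emb J n, fun i => ?_, ?_⟩
  · obtain ⟨j, hj⟩ := hP i
    exact ⟨j, hj⟩
  · rw [← MvPolynomial.eval_rename, rename_resF]
    exact h0

theorem alg_indep_J (D : SncData K I n E F d N x S) (J : Set I) (K' : IntermediateField ℂ K)
    (x' : (i : J) → Fin (n i) → K') (hx' : ∀ i j, (x' i j : K) = x i j) :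
    AlgebraicIndependent ℂ (fun p : Σ i : J, Fin (n i) => x' p.1 p.2) := by
  have h1 : AlgebraicIndependent ℂ (fun p : Σ i : J, Fin (n i) => x p.1 p.2) := by
    refine D.alg_indep.comp (fun p : Σ i : J, Fin (n i) => (⟨p.1, p.2⟩ : Σ i, Fin (n i))) ?_
    rintro ⟨⟨i, hi⟩, j⟩ ⟨⟨i', hi'⟩, j'⟩ h
    have h1 : i = i' := congrArg Sigma.fst h
    subst h1
    have h2 : j = j' := by simpa using h
    rw [h2]
  have h2 : (fun p : Σ i : J, Fin (n i) => x p.1 p.2) =
      (K'.val : K' → K) ∘ fun p : Σ i : J, Fin (n i) => x' p.1 p.2 := by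
    funext p
    exact (hx' p.1 p.2).symm
  rw [h2] at h1
  exact AlgebraicIndependent.of_comp K'.val h1

theorem hom_emb (J : Set I) (K' : IntermediateField ℂ K)
    (x' : (i : J) → Fin (n i) → K') (hx' : ∀ i j, (x' i j : K) = x i j)
    (s : Co J fun i => n i) : ((Uni.hom x' s : K') : K) = Uni.hom x (emb J n s) := by
  obtain ⟨i, j⟩ := s
  unfold emb Uni.hom
  refine Fin.cases ?_ (fun j => ?_) j
  · simp
  · simp [hx']

theorem aeval_resF (D : SncData K I n E F d N x S) (J : Set I) (K' : IntermediateField ℂ K)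
    (x' : (i : J) → Fin (n i) → K') (hx' : ∀ i j, (x' i j : K) = x i j) (e : EJ d J) :
    ((MvPolynomial.aeval (Uni.hom x') (resF D J e) : K') : K) =
      MvPolynomial.aeval (Uni.hom x) (F e.1) := by
  have h1 := MvPolynomial.comp_aeval_apply (R := ℂ) (Uni.hom x') K'.val (resF D J e)
  rw [← rename_resF D J e, MvPolynomial.aeval_rename]
  refine h1.trans ?_
  congr 2
  funext s
  exact hom_emb J K' x' hx' s

end Pool.Agent.Work.RP
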